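import Pool.Agent.R838.ST.Midw
import Pool.Agent.R838.CR.Zins
import Pool.Agent.H24R2.DZ.XB

set_option autoImplicit false

/-!
# The hypotheses of the stability theorem for the Riemann xi function
-/

namespace Pool.Agent.R838.ST

open Complex Filter Topology MeasureTheory Set Metric
open Pool.Agent.H24R2.JP (XX HH Om)
open Pool.Agent.H986R2.DBN (XT)
open Pool.Agent.R838.CR

theorem stb_xi : STB (1 / 2) XX XT where
  ins := ins_xi
  diff := Pool.Agent.H24R2.JP.B1h.XX_diff
  symm := fun z => by rw [Pool.Agent.H24R2.JP.B1h.XX_neg, Pool.Agent.H24R2.JP.B1h.XX_conj]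
  heatd := fun τ hτ => (Pool.Agent.H986R2.DBN.ker.2 τ hτ).1
  strip := fun τ s hτ hs => Pool.Agent.W505.SD.str τ s hτ hs
  zero := Pool.Agent.H986R2.DBN.ker.1

theorem unit0_xi : UNIT0 XX := by
  obtain ⟨K, T0, hT0, hX⟩ := Pool.Agent.H24R2.DZ.xb 34
  have hl2 : 0 < Real.log (24 / 12) := Real.log_pos (by norm_num)
  refine ⟨(2 * |K| + 1) / Real.log (24 / 12), max T0 2, by positivity, le_max_right _ _, ?_⟩
  intro t ht S hS
  have ht0 : T0 ≤ t := (le_max_left _ _).trans ht
  have ht2 : 2 ≤ t := (le_max_right _ _).trans ht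
  have hL : 0 < Real.log t := Real.log_pos (by linarith)
  obtain ⟨-, h1⟩ := hX t 10 ht0 (by norm_num)
  obtain ⟨h2, h3, -⟩ := h1 (by norm_num)
  have hfa : AnalyticOnNhd ℂ XX (closedBall (I * t + 10) 24) := fun z _ =>
    Pool.Agent.H24R2.JP.B1h.XX_diff.analyticAt z
  have hM : ∀ z, ‖z - (I * t + 10)‖ ≤ 24 → ‖XX z‖ ≤ Real.exp (2 * K * Real.log t) * ‖XX (I * t + 10)‖ := by
    intro z hz
    have h4 := (hX t (z - I * t) ht0 (by
      have e : z - I * t = (z - (I * t + 10)) + 10 := by ring
      rw [e]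
      refine (norm_add_le _ _).trans ?_
      have : ‖(10 : ℂ)‖ = 10 := by norm_num
      linarith)).1
    have e : I * t + (z - I * t) = z := by ring
    rw [e] at h4
    refine h4.trans ?_
    have h5 := mul_le_mul_of_nonneg_left h3 (Real.exp_pos (2 * K * Real.log t)).le
    refine le_trans (le_of_eq ?_) h5
    rw [← mul_assoc, ← Real.exp_add]
    congr 2
    ring
  have h6 := Pool.Agent.W337.SD.jcount (f := XX) (c := I * t + 10) (r := 12) (R := 24)
    (A := 2 * K * Real.log t) hfa (by norm_num) (by norm_num) h2 hM S (by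
      intro s hs
      obtain ⟨h7, h8⟩ := hS s hs
      have h9 : |s.re| ≤ 1 / 2 := stb_xi.strip 0 s le_rfl (by rw [stb_xi.zero]; exact h8)
      have e : s - (I * t + 10) = ((s.re - 10 : ℝ) : ℂ) + ((s.im - t : ℝ) : ℂ) * I := by
        apply Complex.ext
        · simp
        · simp
      rw [e]
      refine (norm_add_le _ _).trans ?_
      rw [norm_mul, Complex.norm_I, mul_one, Complex.norm_real, Complex.norm_real, Real.norm_eq_abs, Real.norm_eq_abs]
      have h10 : |s.re - 10| ≤ 11 := by
        rw [abs_le] at h9 ⊢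
        constructor <;> linarith [h9.1, h9.2]
      linarith)
  refine h6.trans ?_
  rw [div_mul_eq_mul_div]
  apply div_le_div_of_nonneg_right _ hl2.le
  have h11 : 2 * K ≤ 2 * |K| + 1 := by
    have := le_abs_self K
    linarith
  exact mul_le_mul_of_nonneg_right h11 hL.le

end Pool.Agent.R838.ST
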