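import Pool.Agent.R838.ST.Fu2
import Pool.Agent.R838.ST.Zst
import Pool.Agent.H24R2.JP.Zeta

set_option autoImplicit false

/-!
# The correlations of the zeros of zeta and of the de Bruijn-Newman family
-/

namespace Pool.Agent.R838.ST

open Complex Filter Topology MeasureTheory Set
open Pool.Agent.H24R2.JP (XX HH Om)
open Pool.Agent.H986R2.DBN (XT Ht)

/-- tuples of different elements of `Z`, heights in `(0, T]`, normalised differences in a box -/
def Tuples (Z : Set (ℂ × ℕ)) (h : ℂ → ℝ) {k : ℕ} (T : ℝ) (α β : Fin k → ℝ) : Set (Fin (k + 1) → ℂ × ℕ) :=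
  {x | (∀ i, x i ∈ Z) ∧ Function.Injective x ∧ (∀ i, 0 < h (x i).1 ∧ h (x i).1 ≤ T) ∧
    ∀ i : Fin k, α i ≤ (h (x i.succ).1 - h (x 0).1) * (Real.log T / (2 * Real.pi)) ∧
      (h (x i.succ).1 - h (x 0).1) * (Real.log T / (2 * Real.pi)) ≤ β i}

lemma Tuples_tr {Z Z' : Set (ℂ × ℕ)} {h h' : ℂ → ℝ} (e e' : ℂ → ℂ) (he : ∀ z, e' (e z) = z)
    (he' : ∀ z, e (e' z) = z) (hh : ∀ z, h' (e z) = h z)
    (hZ : ∀ p : ℂ × ℕ, 0 < h p.1 → (p ∈ Z ↔ (e p.1, p.2) ∈ Z')) {k : ℕ} (T : ℝ) (α β : Fin k → ℝ) :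
    (Tuples Z h T α β).ncard = (Tuples Z' h' T α β).ncard := by
  have hinj : ∀ p q : ℂ × ℕ, ((e p.1, p.2) : ℂ × ℕ) = (e q.1, q.2) → p = q := by
    intro p q hpq
    have h1 := congrArg Prod.fst hpq
    have h2 := congrArg Prod.snd hpq
    simp only at h1 h2
    have h3 := congrArg e' h1
    rw [he, he] at h3
    exact Prod.ext h3 h2
  refine Set.ncard_congr (fun x _ => fun i => ((e (x i).1, (x i).2) : ℂ × ℕ)) ?_ ?_ ?_
  · rintro x ⟨h1, h2, h3, h4⟩
    refine ⟨fun i => (hZ _ (h3 i).1).1 (h1 i), fun i j hij => h2 (hinj _ _ hij), fun i => ?_, fun i => ?_⟩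
    · show 0 < h' (e (x i).1) ∧ h' (e (x i).1) ≤ T
      rw [hh]
      exact h3 i
    · show α i ≤ (h' (e (x i.succ).1) - h' (e (x 0).1)) * (Real.log T / (2 * Real.pi)) ∧
        (h' (e (x i.succ).1) - h' (e (x 0).1)) * (Real.log T / (2 * Real.pi)) ≤ β i
      rw [hh, hh]
      exact h4 i
  · intro x y _ _ hxy
    funext i
    exact hinj _ _ (congrFun hxy i)
  · rintro y ⟨h1, h2, h3, h4⟩
    have hh' : ∀ z, h (e' z) = h' z := fun z => by rw [← hh, he']
    have hy : ∀ i, ((e (e' (y i).1), (y i).2) : ℂ × ℕ) = y i := fun i => by rw [he']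
    refine ⟨fun i => (e' (y i).1, (y i).2), ⟨fun i => ?_, fun i j hij => ?_, fun i => ?_, fun i => ?_⟩, ?_⟩
    · rw [hZ]
      · show ((e (e' (y i).1), (y i).2) : ℂ × ℕ) ∈ Z'
        rw [hy]
        exact h1 i
      · show 0 < h (e' (y i).1)
        rw [hh']
        exact (h3 i).1
    · apply h2
      rw [← hy i, ← hy j]
      have h5 : ((e' (y i).1, (y i).2) : ℂ × ℕ) = (e' (y j).1, (y j).2) := hij
      have h6 := congrArg Prod.fst h5
      have h7 := congrArg Prod.snd h5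
      simp only at h6 h7
      rw [h6, h7]
    · show 0 < h (e' (y i).1) ∧ h (e' (y i).1) ≤ T
      rw [hh']
      exact h3 i
    · show α i ≤ (h (e' (y i.succ).1) - h (e' (y 0).1)) * (Real.log T / (2 * Real.pi)) ∧
        (h (e' (y i.succ).1) - h (e' (y 0).1)) * (Real.log T / (2 * Real.pi)) ≤ β i
      rw [hh', hh']
      exact h4 i
    · funext i
      exact hy i

/-- the zeros of zeta in the critical strip, with multiplicity -/
def ZetaZ : Set (ℂ × ℕ) := {p | 0 < p.1.re ∧ p.1.re < 1 ∧ p.2 < analyticOrderNatAt riemannZeta p.1}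

lemma HH_ne {z : ℂ} (hz : 0 < z.im) : HH z ≠ 0 := by
  unfold HH
  refine mul_ne_zero ?_ ?_
  · intro h
    have h1 : (2 * z - 1) * (2 * z + 1) = 0 := by rw [← h]; ring
    rcases mul_eq_zero.1 h1 with h2 | h2
    · have := congrArg Complex.im h2
      simp at this
      linarith
    · have := congrArg Complex.im h2
      simp at this
      linarith
  · rw [Ne, Complex.Gammaℝ_eq_zero_iff]
    rintro ⟨n, hn⟩
    have h2 : (1 / 2 + z : ℂ).im = 0 := by rw [hn]; simp
    have him : (1 / 2 + z : ℂ).im = z.im := by simp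
    rw [him] at h2
    linarith

lemma HH_ana {z : ℂ} (hz : 0 < z.im) : AnalyticAt ℂ HH z := by
  have hopen : IsOpen {w : ℂ | 0 < w.im} := isOpen_lt continuous_const Complex.continuous_im
  refine DifferentiableOn.analyticAt (s := {w : ℂ | 0 < w.im}) ?_ (hopen.mem_nhds hz)
  intro w hw
  have hw' : 0 < w.im := hw
  have hG : DifferentiableAt ℂ (fun u : ℂ => Gammaℝ (1 / 2 + u)) w := by
    have h1 : DifferentiableAt ℂ (fun u : ℂ => (Gammaℝ (1 / 2 + u))⁻¹) w :=
      (differentiable_Gammaℝ_inv _).comp w (by fun_prop)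
    have h2 : (Gammaℝ (1 / 2 + w))⁻¹ ≠ 0 := by
      apply inv_ne_zero
      have := HH_ne hw'
      unfold HH at this
      exact right_ne_zero_of_mul this
    have h3 := h1.inv h2
    have h4 : (fun u : ℂ => Gammaℝ (1 / 2 + u)) = (fun u : ℂ => (Gammaℝ (1 / 2 + u))⁻¹)⁻¹ := by
      funext u
      rw [Pi.inv_apply, inv_inv]
    rw [h4]
    exact h3
  have : DifferentiableAt ℂ HH w := by
    unfold HH
    exact (by fun_prop : DifferentiableAt ℂ (fun z : ℂ => 4 * z ^ 2 - 1) w).mul hG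
  exact this.differentiableWithinAt

theorem order_XX {z : ℂ} (hz : 0 < z.im) :
    analyticOrderNatAt XX z = analyticOrderNatAt riemannZeta (1 / 2 + z) := by
  have hopen : IsOpen {w : ℂ | 0 < w.im} := isOpen_lt continuous_const Complex.continuous_im
  have hev : XX =ᶠ[𝓝 z] (HH * (riemannZeta ∘ fun w => 1 / 2 + w)) := by
    filter_upwards [hopen.mem_nhds hz] with w hw
    exact Pool.Agent.H24R2.JP.ZetaTask.part1 w hw
  have hne : (1 / 2 + z : ℂ) ≠ 1 := by
    intro h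
    have := congrArg Complex.im h
    simp at this
    linarith
  have hζ : AnalyticAt ℂ riemannZeta (1 / 2 + z) := by
    refine DifferentiableOn.analyticAt (s := {(1 : ℂ)}ᶜ) ?_ (isOpen_compl_singleton.mem_nhds hne)
    intro w hw
    exact (differentiableAt_riemannZeta hw).differentiableWithinAt
  have hg : AnalyticAt ℂ (fun w : ℂ => 1 / 2 + w) z := by fun_prop
  have hg' : deriv (fun w : ℂ => 1 / 2 + w) z ≠ 0 := by
    rw [deriv_const_add, deriv_id'']
    exact one_ne_zero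
  have h2 : analyticOrderAt (riemannZeta ∘ fun w => 1 / 2 + w) z = analyticOrderAt riemannZeta (1 / 2 + z) :=
    analyticOrderAt_comp_of_deriv_ne_zero hg hg'
  have h3 : analyticOrderAt HH z = 0 := (HH_ana hz).analyticOrderAt_eq_zero.2 (HH_ne hz)
  have hc : AnalyticAt ℂ (riemannZeta ∘ fun w => 1 / 2 + w) z := hζ.comp hg
  have h4 : analyticOrderAt XX z = analyticOrderAt riemannZeta (1 / 2 + z) := by
    rw [analyticOrderAt_congr hev, analyticOrderAt_mul (HH_ana hz) hc, h2, h3, zero_add]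
  unfold analyticOrderNatAt
  rw [h4]

lemma strip_XX {z : ℂ} (hz : 0 < z.im) (h : XX z = 0) : -(1 / 2) < z.re ∧ z.re < 1 / 2 := by
  have h1 := abs_le.1 (stb_xi.strip 0 z le_rfl (by rw [stb_xi.zero]; exact h))
  have key : ∀ w : ℂ, 0 < w.im → XX w = 0 → w.re ≠ 1 / 2 := by
    intro w hw hw0 hre
    rw [Pool.Agent.H24R2.JP.ZetaTask.part1 w hw] at hw0
    rcases mul_eq_zero.1 hw0 with h2 | h2
    · exact HH_ne hw h2
    · refine riemannZeta_ne_zero_of_one_le_re ?_ h2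
      rw [Complex.add_re, hre]
      norm_num
  refine ⟨lt_of_le_of_ne h1.1 ?_, lt_of_le_of_ne h1.2 (key z hz h)⟩
  intro h2
  apply key (-((starRingEnd ℂ) z))
  · rw [Complex.neg_im, Complex.conj_im]; simpa using hz
  · rw [stb_xi.symm, h, map_zero]
  · rw [Complex.neg_re, Complex.conj_re, ← h2]; norm_num

lemma order_zero {z : ℂ} {n : ℕ} (h : n < analyticOrderNatAt XX z) : XX z = 0 :=
  Zi_zero (f := XX) (p := (z, n)) stb_xi.diff h

theorem zeta_ct {k : ℕ} (T : ℝ) (α β : Fin k → ℝ) :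
    (Tuples ZetaZ (fun z => z.im) T α β).ncard = (CT XX T α β).ncard := by
  refine Tuples_tr (Z' := Zi XX) (h' := fun z => z.im) (fun z => z - 1 / 2) (fun z => z + 1 / 2)
    (fun z => by ring) (fun z => by ring) (fun z => by simp) (fun p hp => ?_) T α β
  have hp' : 0 < (p.1 - 1 / 2).im := by simpa using hp
  have e : 1 / 2 + (p.1 - 1 / 2) = p.1 := by ring
  have ho := order_XX hp'
  rw [e] at ho
  show (0 < p.1.re ∧ p.1.re < 1 ∧ p.2 < analyticOrderNatAt riemannZeta p.1) ↔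
    p.2 < analyticOrderNatAt XX (p.1 - 1 / 2)
  rw [ho]
  constructor
  · exact fun h => h.2.2
  · intro h
    have h1 : XX (p.1 - 1 / 2) = 0 := order_zero (by rw [ho]; exact h)
    have h2 := strip_XX hp' h1
    have h3 : (p.1 - 1 / 2).re = p.1.re - 1 / 2 := by simp
    rw [h3] at h2
    exact ⟨by linarith [h2.1], by linarith [h2.2], h⟩

theorem ht_ct {k : ℕ} {t : ℝ} (ht : 0 ≤ t) (T : ℝ) (α β : Fin k → ℝ) :
    (Tuples (Zi (Ht t)) (fun z => z.re / 2) T α β).ncard = (CT (XT (t / 4)) T α β).ncard := by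
  refine Tuples_tr (Z' := Zi (XT (t / 4))) (h' := fun z => z.im) (fun z => I / 2 * z) (fun z => -(2 * I) * z)
    (fun z => ?_) (fun z => ?_) (fun z => Pool.Agent.W186.SD.CntH.half_im z) (fun p hp => ?_) T α β
  · have : -(2 * I) * (I / 2 * z) = -(I * I) * z := by ring
    rw [this, I_mul_I]; ring
  · have : I / 2 * (-(2 * I) * z) = -(I * I) * z := by ring
    rw [this, I_mul_I]; ring
  · show p.2 < analyticOrderNatAt (Ht t) p.1 ↔ p.2 < analyticOrderNatAt (XT (t / 4)) (I / 2 * p.1)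
    rw [Pool.Agent.W186.SD.CntH.order_eq ht]

theorem cmp (k : ℕ) (α β : Fin k → ℝ) (ε : ℝ) (hε : 0 < ε) : ∃ δ T0 : ℝ, 0 < δ ∧ 2 ≤ T0 ∧
    ∀ T t : ℝ, T0 ≤ T → 0 ≤ t → t ≤ δ / Real.log T ^ 2 →
    ((Tuples ZetaZ (fun z => z.im) T α β).ncard : ℝ) ≤
      ((Tuples (Zi (Ht t)) (fun z => z.re / 2) T (fun i => α i - ε) (fun i => β i + ε)).ncard : ℝ) +
        ε * (T * Real.log T) ∧
    ((Tuples (Zi (Ht t)) (fun z => z.re / 2) T α β).ncard : ℝ) ≤
      ((Tuples ZetaZ (fun z => z.im) T (fun i => α i - ε) (fun i => β i + ε)).ncard : ℝ) +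
        ε * (T * Real.log T) := by
  obtain ⟨δ, T0, hδ, hT0, h⟩ := full stb_xi unit0_xi Pool.Agent.W333.SDNGN.ngn Pool.Agent.W186.SD.HH.aw
    Pool.Agent.W186.SD.HH.cnt Pool.Agent.W337.SD.cov k α β ε hε
  refine ⟨δ, T0, hδ, hT0, ?_⟩
  intro T t hT ht ht2
  have hL : 0 < Real.log T := Real.log_pos (by linarith)
  have hOm : Om T = Real.log T / 2 := rfl
  have h1 : t / 4 ≤ δ / Om T ^ 2 := by
    rw [hOm, div_pow, div_div_eq_mul_div]
    have h2 : t / 4 ≤ t := by linarith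
    refine h2.trans (ht2.trans ?_)
    apply div_le_div_of_nonneg_right _ (by positivity)
    linarith
  have h2 : (0 : ℝ) ≤ δ / Om T ^ 2 := by positivity
  have h3 := h T 0 (t / 4) hT le_rfl (by linarith) (Or.inl rfl) h2 h1
  have h4 := h T (t / 4) 0 hT (by linarith) le_rfl (Or.inr rfl) h1 h2
  rw [stb_xi.zero] at h3 h4
  rw [← zeta_ct, ← ht_ct ht] at h3
  rw [← zeta_ct, ← ht_ct ht] at h4
  exact ⟨h3, h4⟩

end Pool.Agent.R838.ST
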