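import Pool.Agent.R838.ST.Gp3
import Pool.Agent.R838.ST.Zcor

set_option autoImplicit false

/-!
# The spacings of the zeros of zeta and of the de Bruijn-Newman family
-/

namespace Pool.Agent.R838.ST

open Complex Filter Topology MeasureTheory Set
open Pool.Agent.H24R2.JP (XX HH Om)
open Pool.Agent.H986R2.DBN (XT Ht)

/-- the ordinates of the zeros of zeta -/
def ZOrd : Set ℝ := {y | ∃ s : ℂ, 0 < s.re ∧ s.re < 1 ∧ riemannZeta s = 0 ∧ s.im = y}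

/-- the ordinates of the zeros of `H t` -/
def HOrd (H : ℂ → ℂ) : Set ℝ := {y | ∃ z : ℂ, H z = 0 ∧ z.re / 2 = y}

lemma SP_congr {A A' : Set ℝ} (h : ∀ y, 0 < y → (y ∈ A ↔ y ∈ A')) (T α β : ℝ) : SP A T α β = SP A' T α β := by
  ext p
  constructor
  · rintro ⟨⟨h1, h2, h3, h4⟩, h5, h6⟩
    have hp2 : 0 < p.2 := h5.trans h1
    refine ⟨⟨h1, (h _ h5).1 h2, (h _ hp2).1 h3, fun y hy hy2 => ?_⟩, h5, h6⟩
    exact h4 y ((h _ (h5.trans hy2.1)).2 hy) hy2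
  · rintro ⟨⟨h1, h2, h3, h4⟩, h5, h6⟩
    have hp2 : 0 < p.2 := h5.trans h1
    refine ⟨⟨h1, (h _ h5).2 h2, (h _ hp2).2 h3, fun y hy hy2 => ?_⟩, h5, h6⟩
    exact h4 y ((h _ (h5.trans hy2.1)).1 hy) hy2

theorem zeta_sp (T α β : ℝ) : SP ZOrd T α β = SP (Od XX) T α β := by
  apply SP_congr
  intro y hy
  constructor
  · rintro ⟨s, h1, h2, h3, h4⟩
    have him : 0 < (s - 1 / 2).im := by
      have : (s - 1 / 2).im = s.im := by simp
      rw [this, h4]; exact hy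
    refine ⟨s - 1 / 2, ?_, by simp [h4]⟩
    rw [Pool.Agent.H24R2.JP.ZetaTask.part1 _ him]
    have e : 1 / 2 + (s - 1 / 2) = s := by ring
    rw [e, h3, mul_zero]
  · rintro ⟨z, hz, hzy⟩
    have hz0 : 0 < z.im := by rw [hzy]; exact hy
    have h1 := strip_XX hz0 hz
    rw [Pool.Agent.H24R2.JP.ZetaTask.part1 _ hz0] at hz
    have h2 : riemannZeta (1 / 2 + z) = 0 := by
      rcases mul_eq_zero.1 hz with h3 | h3
      · exact absurd h3 (HH_ne hz0)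
      · exact h3
    have e1 : (1 / 2 + z).re = 1 / 2 + z.re := by simp
    refine ⟨1 / 2 + z, by rw [e1]; linarith [h1.1], by rw [e1]; linarith [h1.2], h2, by simp [hzy]⟩

theorem ht_od {t : ℝ} (ht : 0 ≤ t) : HOrd (Ht t) = Od (XT (t / 4)) := by
  have hz : ∀ z : ℂ, Ht t z = 0 ↔ XT (t / 4) (I / 2 * z) = 0 := by
    intro z
    rw [Pool.Agent.W186.SD.CntH.Ht_eq ht]
    constructor
    · intro h1
      rcases mul_eq_zero.1 h1 with h2 | h2
      · norm_num at h2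
      · exact h2
    · intro h1
      show (1 / 64 : ℂ) * _ = 0
      rw [h1, mul_zero]
  ext y
  constructor
  · rintro ⟨z, h1, h2⟩
    exact ⟨I / 2 * z, (hz z).1 h1, by rw [Pool.Agent.W186.SD.CntH.half_im]; exact h2⟩
  · rintro ⟨w, h1, h2⟩
    have e : I / 2 * (-(2 * I) * w) = w := by
      have : I / 2 * (-(2 * I) * w) = -(I * I) * w := by ring
      rw [this, I_mul_I]; ring
    refine ⟨-(2 * I) * w, (hz _).2 (by rw [e]; exact h1), ?_⟩
    rw [← Pool.Agent.W186.SD.CntH.half_im, e]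
    exact h2

theorem cmpP (α β ε : ℝ) (hε : 0 < ε) (hεα : ε ≤ α) : ∃ δ T0 : ℝ, 0 < δ ∧ 2 ≤ T0 ∧
    ∀ T t : ℝ, T0 ≤ T → 0 ≤ t → t ≤ δ / Real.log T ^ 2 →
    ((SP ZOrd T α β).ncard : ℝ) ≤
      ((SP (HOrd (Ht t)) T (α - ε) (β + ε)).ncard : ℝ) + ε * (T * Real.log T) ∧
    ((SP (HOrd (Ht t)) T α β).ncard : ℝ) ≤
      ((SP ZOrd T (α - ε) (β + ε)).ncard : ℝ) + ε * (T * Real.log T) := by
  obtain ⟨δ, T0, hδ, hT0, h⟩ := fullP stb_xi unit0_xi Pool.Agent.W333.SDNGN.ngn Pool.Agent.W186.SD.HH.aw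
    Pool.Agent.W186.SD.HH.cnt Pool.Agent.W337.SD.cov α β ε hε hεα
  refine ⟨δ, T0, hδ, hT0, ?_⟩
  intro T t hT ht ht2
  have hL : 0 < Real.log T := Real.log_pos (by linarith)
  have hOm : Om T = Real.log T / 2 := rfl
  have h1 : t / 4 ≤ δ / Om T ^ 2 := by
    rw [hOm, div_pow, div_div_eq_mul_div]
    have h2 : t / 4 ≤ t := by linarith
    refine h2.trans (ht2.trans ?_)
    apply div_le_div_of_nonneg_right _ (by positivity)
    linarith
  have h2 : (0 : ℝ) ≤ δ / Om T ^ 2 := by positivity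
  have h3 := h T 0 (t / 4) hT le_rfl (by linarith) (Or.inl rfl) h2 h1
  have h4 := h T (t / 4) 0 hT (by linarith) le_rfl (Or.inr rfl) h1 h2
  rw [stb_xi.zero] at h3 h4
  rw [← zeta_sp, ← ht_od ht] at h3
  rw [← zeta_sp, ← ht_od ht] at h4
  exact ⟨h3, h4⟩

/-- almost all spacings are close to `E` -/
def NearE (N : ℝ → ℝ → ℝ → ℝ) (E : Set ℝ) : Prop := ∀ α β : ℝ, 0 < α → α ≤ β → Disjoint (Icc α β) E →
  Tendsto (fun T : ℝ => N T α β / (T * Real.log T)) atTop (𝓝 0)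

theorem near_tr {N1 N2 : ℝ → ℝ → ℝ → ℝ} {E : Set ℝ} (hE : IsClosed E) (h0 : ∀ T α β, 0 ≤ N2 T α β)
    (hm : ∀ᶠ T : ℝ in atTop, ∀ α β α' β' : ℝ, α' ≤ α → β ≤ β' → N1 T α β ≤ N1 T α' β')
    (h21 : ∀ α β ε : ℝ, 0 < ε → ε ≤ α → ∀ᶠ T : ℝ in atTop,
      N2 T α β ≤ N1 T (α - ε) (β + ε) + ε * (T * Real.log T))
    (h : NearE N1 E) : NearE N2 E := by
  intro α β hα hαβ hdis
  obtain ⟨δ, hδ, hδ'⟩ := hdis.exists_cthickenings isCompact_Icc hE
  obtain ⟨δ1, hδ1⟩ : ∃ δ1 : ℝ, δ1 = min δ (α / 2) := ⟨_, rfl⟩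
  have hδ10 : 0 < δ1 := by rw [hδ1]; exact lt_min hδ (by positivity)
  have hδ11 : δ1 ≤ δ := by rw [hδ1]; exact min_le_left _ _
  have hδ12 : δ1 ≤ α / 2 := by rw [hδ1]; exact min_le_right _ _
  have hdis2 : Disjoint (Icc (α - δ1) (β + δ1)) E := by
    refine Set.disjoint_of_subset ?_ (Metric.self_subset_cthickening E) hδ'
    intro x hx
    rcases le_or_gt x α with h1 | h1
    · refine Metric.mem_cthickening_of_dist_le x α δ _ ⟨le_rfl, hαβ⟩ ?_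
      rw [Real.dist_eq, abs_le]
      constructor <;> linarith [hx.1]
    · rcases le_or_gt x β with h2 | h2
      · exact Metric.self_subset_cthickening _ ⟨h1.le, h2⟩
      · refine Metric.mem_cthickening_of_dist_le x β δ _ ⟨hαβ, le_rfl⟩ ?_
        rw [Real.dist_eq, abs_le]
        constructor <;> linarith [hx.2]
  have h1 := h (α - δ1) (β + δ1) (by linarith) (by linarith) hdis2
  rw [Metric.tendsto_nhds] at h1 ⊢
  intro η hη
  obtain ⟨ε, hε⟩ : ∃ ε : ℝ, ε = min δ1 (η / 2) := ⟨_, rfl⟩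
  have hε0 : 0 < ε := by rw [hε]; exact lt_min hδ10 (by positivity)
  have hε1 : ε ≤ δ1 := by rw [hε]; exact min_le_left _ _
  have hε2 : ε ≤ η / 2 := by rw [hε]; exact min_le_right _ _
  filter_upwards [h1 (η / 2) (by positivity), h21 α β ε hε0 (by linarith), hm, eventually_gt_atTop (1 : ℝ)]
    with T h2 h3 h4 hT
  have hL : 0 < Real.log T := Real.log_pos hT
  have hD : 0 < T * Real.log T := by positivity
  rw [Real.dist_eq, sub_zero] at h2 ⊢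
  have h5 := (abs_lt.1 h2).2
  rw [abs_of_nonneg (div_nonneg (h0 _ _ _) hD.le), div_lt_iff₀ hD]
  rw [div_lt_iff₀ hD] at h5
  have h6 := h4 (α - ε) (β + ε) (α - δ1) (β + δ1) (by linarith) (by linarith)
  have h7 := mul_le_mul_of_nonneg_right hε2 hD.le
  have e : η * (T * Real.log T) = η / 2 * (T * Real.log T) + η / 2 * (T * Real.log T) := by ring
  rw [e]
  linarith

lemma SP_mono {A : Set ℝ} {T α β α' β' : ℝ} (hα : α' ≤ α) (hβ : β ≤ β') : SP A T α β ⊆ SP A T α' β' := by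
  rintro p ⟨h1, h2, h3, h4, h5⟩
  exact ⟨h1, h2, h3, hα.trans h4, h5.trans hβ⟩

lemma SP_fin {f : ℂ → ℂ} {B : ℝ} (hf : Differentiable ℂ f) (hs : ∀ s, f s = 0 → |s.re| ≤ B) {T : ℝ} (hT : 1 < T)
    (α β : ℝ) : (SP (Od f) T α β).Finite := by
  refine (PR_f hf hs (α * (Real.pi / Om T)) (β * (Real.pi / Om T)) 0 T).subset ?_
  rintro p ⟨h1, h2, h3, h4⟩
  rw [SP_iff hT] at h4
  exact ⟨h1, ⟨h2, h1.1.le.trans h3⟩, h4⟩

theorem equiv_gap {t : ℝ → ℝ} (ht : ∀ T, 0 ≤ t T)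
    (ht2 : Tendsto (fun T => t T * Real.log T ^ 2) atTop (𝓝 0)) {E : Set ℝ} (hE : IsClosed E) :
    NearE (fun T α β => ((SP ZOrd T α β).ncard : ℝ)) E ↔
    NearE (fun T α β => ((SP (HOrd (Ht (t T))) T α β).ncard : ℝ)) E := by
  have hev : ∀ α β ε : ℝ, 0 < ε → ε ≤ α → ∀ᶠ T : ℝ in atTop,
      ((SP ZOrd T α β).ncard : ℝ) ≤
        ((SP (HOrd (Ht (t T))) T (α - ε) (β + ε)).ncard : ℝ) + ε * (T * Real.log T) ∧
      ((SP (HOrd (Ht (t T))) T α β).ncard : ℝ) ≤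
        ((SP ZOrd T (α - ε) (β + ε)).ncard : ℝ) + ε * (T * Real.log T) := by
    intro α β ε hε hεα
    obtain ⟨δ, T0, hδ, hT0, h⟩ := cmpP α β ε hε hεα
    have h1 : ∀ᶠ T : ℝ in atTop, t T * Real.log T ^ 2 < δ := ht2.eventually_lt_const hδ
    filter_upwards [h1, eventually_ge_atTop T0, eventually_gt_atTop (1 : ℝ)] with T h2 h3 h4
    refine h T (t T) h3 (ht T) ?_
    have hL : 0 < Real.log T := Real.log_pos h4
    rw [le_div_iff₀ (by positivity)]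
    exact h2.le
  have hm1 : ∀ᶠ T : ℝ in atTop, ∀ α β α' β' : ℝ, α' ≤ α → β ≤ β' →
      ((SP ZOrd T α β).ncard : ℝ) ≤ ((SP ZOrd T α' β').ncard : ℝ) := by
    filter_upwards [eventually_gt_atTop (1 : ℝ)] with T hT α β α' β' h1 h2
    have hfin : (SP ZOrd T α' β').Finite := by
      rw [zeta_sp, ← stb_xi.zero]
      exact SP_fin (stb_xi.heatd 0 le_rfl) (fun s hs => stb_xi.strip 0 s le_rfl hs) hT _ _
    exact_mod_cast Set.ncard_le_ncard (SP_mono h1 h2) hfin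
  have hm2 : ∀ᶠ T : ℝ in atTop, ∀ α β α' β' : ℝ, α' ≤ α → β ≤ β' →
      ((SP (HOrd (Ht (t T))) T α β).ncard : ℝ) ≤ ((SP (HOrd (Ht (t T))) T α' β').ncard : ℝ) := by
    filter_upwards [eventually_gt_atTop (1 : ℝ)] with T hT α β α' β' h1 h2
    have h3 : 0 ≤ t T / 4 := by have := ht T; positivity
    have hfin : (SP (HOrd (Ht (t T))) T α' β').Finite := by
      rw [ht_od (ht T)]
      exact SP_fin (stb_xi.heatd _ h3) (fun s hs => stb_xi.strip _ s h3 hs) hT _ _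
    exact_mod_cast Set.ncard_le_ncard (SP_mono h1 h2) hfin
  constructor
  · intro h
    exact near_tr hE (fun T α β => Nat.cast_nonneg _) hm1
      (fun α β ε hε hεα => (hev α β ε hε hεα).mono fun T hT => hT.2) h
  · intro h
    exact near_tr hE (fun T α β => Nat.cast_nonneg _) hm2
      (fun α β ε hε hεα => (hev α β ε hε hεα).mono fun T hT => hT.1) h

end Pool.Agent.R838.ST
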