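import Pool.Agent.R838.ST.Ln3

set_option autoImplicit false

/-!
# Distances of the zeros of zeta and of the de Bruijn-Newman family from the line
-/

namespace Pool.Agent.R838.ST

open Complex Filter Topology MeasureTheory Set
open Pool.Agent.H24R2.JP (XX HH Om)
open Pool.Agent.H986R2.DBN (XT Ht)
open Pool.Agent.R838.CR

lemma ncard_tr {S S' : Set (ℂ × ℕ)} (e e' : ℂ → ℂ) (he : ∀ z, e' (e z) = z) (he' : ∀ z, e (e' z) = z)
    (h : ∀ p : ℂ × ℕ, p ∈ S ↔ (e p.1, p.2) ∈ S') : S.ncard = S'.ncard := by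
  refine Set.ncard_congr (fun p _ => ((e p.1, p.2) : ℂ × ℕ)) (fun p hp => (h p).1 hp) ?_ ?_
  · intro p q _ _ hpq
    have h1 := congrArg Prod.fst hpq
    have h2 := congrArg Prod.snd hpq
    simp only at h1 h2
    have h3 := congrArg e' h1
    rw [he, he] at h3
    exact Prod.ext h3 h2
  · intro q hq
    have hq' : ((e (e' q.1), q.2) : ℂ × ℕ) = q := by rw [he']
    refine ⟨(e' q.1, q.2), ?_, hq'⟩
    rw [h]
    show ((e (e' q.1), q.2) : ℂ × ℕ) ∈ S'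
    rw [hq']
    exact hq

lemma zetaZ_iff {p : ℂ × ℕ} (hp : 0 < p.1.im) : p ∈ ZetaZ ↔ ((p.1 - 1 / 2, p.2) : ℂ × ℕ) ∈ Zi XX := by
  have hp' : 0 < (p.1 - 1 / 2).im := by simpa using hp
  have e : 1 / 2 + (p.1 - 1 / 2) = p.1 := by ring
  have ho := order_XX hp'
  rw [e] at ho
  show (0 < p.1.re ∧ p.1.re < 1 ∧ p.2 < analyticOrderNatAt riemannZeta p.1) ↔
    p.2 < analyticOrderNatAt XX (p.1 - 1 / 2)
  rw [ho]
  constructor
  · exact fun h => h.2.2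
  · intro h
    have h1 : XX (p.1 - 1 / 2) = 0 := order_zero (by rw [ho]; exact h)
    have h2 := strip_XX hp' h1
    have h3 : (p.1 - 1 / 2).re = p.1.re - 1 / 2 := by simp
    rw [h3] at h2
    exact ⟨by linarith [h2.1], by linarith [h2.2], h⟩

/-- zeros of zeta at distance at least `σ / log T` from the critical line -/
def farZ (T σ : ℝ) : Set (ℂ × ℕ) :=
  {p | p ∈ ZetaZ ∧ (0 < p.1.im ∧ p.1.im ≤ T) ∧ σ ≤ |p.1.re - 1 / 2| * Real.log T}

/-- zeros of `H t` at distance at least `σ / log T` from the critical line -/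
def farH (H : ℂ → ℂ) (T σ : ℝ) : Set (ℂ × ℕ) :=
  {p | p ∈ Zi H ∧ (0 < p.1.re / 2 ∧ p.1.re / 2 ≤ T) ∧ σ ≤ |p.1.im / 2| * Real.log T}

theorem farZ_eq (T σ : ℝ) : (farZ T σ).ncard = (NL XX T σ).ncard := by
  refine ncard_tr (fun z => z - 1 / 2) (fun z => z + 1 / 2) (fun z => by ring) (fun z => by ring) (fun p => ?_)
  have h1 : (p.1 - 1 / 2).im = p.1.im := by simp
  have h2 : (p.1 - 1 / 2).re = p.1.re - 1 / 2 := by simp
  constructor
  · rintro ⟨h3, h4, h5⟩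
    refine ⟨(zetaZ_iff h4.1).1 h3, ?_, ?_⟩
    · show 0 < (p.1 - 1 / 2).im ∧ (p.1 - 1 / 2).im ≤ T
      rw [h1]; exact h4
    · show σ ≤ |(p.1 - 1 / 2).re| * Real.log T
      rw [h2]; exact h5
  · rintro ⟨h3, h4, h5⟩
    have h4' : 0 < (p.1 - 1 / 2).im ∧ (p.1 - 1 / 2).im ≤ T := h4
    have h5' : σ ≤ |(p.1 - 1 / 2).re| * Real.log T := h5
    rw [h1] at h4'
    rw [h2] at h5'
    exact ⟨(zetaZ_iff h4'.1).2 h3, h4', h5'⟩

theorem farH_eq {t : ℝ} (ht : 0 ≤ t) (T σ : ℝ) : (farH (Ht t) T σ).ncard = (NL (XT (t / 4)) T σ).ncard := by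
  refine ncard_tr (fun z => I / 2 * z) (fun z => -(2 * I) * z) (fun z => ?_) (fun z => ?_) (fun p => ?_)
  · have : -(2 * I) * (I / 2 * z) = -(I * I) * z := by ring
    rw [this, I_mul_I]; ring
  · have : I / 2 * (-(2 * I) * z) = -(I * I) * z := by ring
    rw [this, I_mul_I]; ring
  · have h0 : p ∈ Zi (Ht t) ↔ ((I / 2 * p.1, p.2) : ℂ × ℕ) ∈ Zi (XT (t / 4)) := by
      show p.2 < analyticOrderNatAt (Ht t) p.1 ↔ p.2 < analyticOrderNatAt (XT (t / 4)) (I / 2 * p.1)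
      rw [Pool.Agent.W186.SD.CntH.order_eq ht]
    have h1 := Pool.Agent.W186.SD.CntH.half_im p.1
    have h2 := Pool.Agent.W186.SD.CntH.half_re p.1
    have h3 : |(I / 2 * p.1).re| = |p.1.im / 2| := by rw [h2, abs_neg]
    constructor
    · rintro ⟨h4, h5, h6⟩
      refine ⟨h0.1 h4, ?_, ?_⟩
      · show 0 < (I / 2 * p.1).im ∧ (I / 2 * p.1).im ≤ T
        rw [h1]; exact h5
      · show σ ≤ |(I / 2 * p.1).re| * Real.log T
        rw [h3]; exact h6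
    · rintro ⟨h4, h5, h6⟩
      have h5' : 0 < (I / 2 * p.1).im ∧ (I / 2 * p.1).im ≤ T := h5
      have h6' : σ ≤ |(I / 2 * p.1).re| * Real.log T := h6
      rw [h1] at h5'
      rw [h3] at h6'
      exact ⟨h0.2 h4, h5', h6'⟩

theorem cmpZ (ε : ℝ) (hε : 0 < ε) : ∃ δ T0 : ℝ, 0 < δ ∧ 2 ≤ T0 ∧
    ∀ T t : ℝ, T0 ≤ T → 0 ≤ t → t ≤ δ / Real.log T ^ 2 → ∀ σ : ℝ,
    ((farZ T σ).ncard : ℝ) ≤ ((farH (Ht t) T (σ - ε)).ncard : ℝ) + ε * (T * Real.log T) ∧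
    ((farH (Ht t) T σ).ncard : ℝ) ≤ ((farZ T (σ - ε)).ncard : ℝ) + ε * (T * Real.log T) := by
  obtain ⟨δ, T0, hδ, hT0, h⟩ := fullZ stb_xi unit0_xi Pool.Agent.W333.SDNGN.ngn Pool.Agent.W186.SD.HH.aw
    Pool.Agent.W186.SD.HH.cnt Pool.Agent.W337.SD.cov ε hε
  refine ⟨δ, T0, hδ, hT0, ?_⟩
  intro T t hT ht ht2 σ
  have hL : 0 < Real.log T := Real.log_pos (by linarith)
  have hOm : Om T = Real.log T / 2 := rfl
  have h1 : t / 4 ≤ δ / Om T ^ 2 := by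
    rw [hOm, div_pow, div_div_eq_mul_div]
    have h2 : t / 4 ≤ t := by linarith
    refine h2.trans (ht2.trans ?_)
    apply div_le_div_of_nonneg_right _ (by positivity)
    linarith
  have h2 : (0 : ℝ) ≤ δ / Om T ^ 2 := by positivity
  have h3 := h T 0 (t / 4) σ hT le_rfl (by linarith) (Or.inl rfl) h2 h1
  have h4 := h T (t / 4) 0 σ hT (by linarith) le_rfl (Or.inr rfl) h1 h2
  rw [stb_xi.zero] at h3 h4
  rw [← farZ_eq, ← farH_eq ht] at h3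
  rw [← farZ_eq, ← farH_eq ht] at h4
  exact ⟨h3, h4⟩

end Pool.Agent.R838.ST
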