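import Pool.Agent.R838.ST.Zgp

set_option autoImplicit false

/-!
# Almost all spacings of the heat flow are close to the mean spacing, if the time is large
-/

namespace Pool.Agent.R838.ST

open Complex Filter Topology MeasureTheory Set
open Pool.Agent.H24R2.JP (XX HH Om)
open Pool.Agent.H986R2.DBN (XT Ht)
open Pool.Agent.R838.CR

theorem nn_allX {B : ℝ} {F : ℂ → ℂ} {FT : ℝ → ℂ → ℂ} (hD : STB B F FT) (h0 : UNIT0 F) (A : ℝ) (hA : 0 < A) :
    ∃ C T0 : ℝ, 0 < C ∧ 2 ≤ T0 ∧ ∀ T τ t : ℝ, T0 ≤ T → 0 ≤ τ → τ * Real.log T ≤ A → 0 ≤ t → t ≤ T + 2 →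
    (nn (FT τ) t 1 : ℝ) ≤ C * Real.log T := by
  obtain ⟨C6, T6, hC6, hT6, hUn⟩ := unitA hD h0 (2 * A) (by positivity)
  obtain ⟨C7, hC7⟩ := hD.ins.lowc (T6 + 1)
  refine ⟨2 * C6 + |C7|, Real.exp (8 * A + 20), by positivity, ?_, ?_⟩
  · have := Real.add_one_le_exp (8 * A + 20)
    linarith
  intro T τ t hT hτ hτ' ht0 ht
  have hT20 : 21 ≤ T := by
    have := Real.add_one_le_exp (8 * A + 20)
    linarith
  have hT0 : 0 < T := by linarith
  have hL : 8 * A + 20 ≤ Real.log T := by rw [Real.le_log_iff_exp_le hT0]; exact hT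
  have hL0 : 0 < Real.log T := by linarith
  rcases le_or_gt T6 t with h1 | h1
  · have hlog : Real.log t ≤ 2 * Real.log T := by
      refine le_trans ?_ (log4 (by linarith : (4 : ℝ) ≤ T))
      exact Real.log_le_log (by linarith) (by linarith)
    have h2 := hUn t τ 1 h1 hτ (by
      have h3 : Om t ≤ Real.log T := by unfold Om; linarith
      calc 2 * τ * Om t ≤ 2 * τ * Real.log T := mul_le_mul_of_nonneg_left h3 (by positivity)
        _ = 2 * (τ * Real.log T) := by ring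
        _ ≤ 2 * A := by linarith) le_rfl
    refine h2.trans ?_
    have h5 := mul_le_mul_of_nonneg_left hlog hC6.le
    have h6 : 0 ≤ |C7| * Real.log T := by positivity
    linarith
  · obtain ⟨Z, hZ, -, hn⟩ := nn_spec (hD.heatd τ hτ) (fun s hs => hD.strip τ s hτ hs) t 1
    rw [hn]
    push_cast
    have hτ8 : τ ≤ 1 / 8 := by
      by_contra hcon
      push Not at hcon
      have h3 : 1 / 8 * (8 * A + 20) ≤ τ * Real.log T :=
        mul_le_mul hcon.le hL (by positivity) hτ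
      linarith
    have h2 := hC7 τ hτ hτ8 Z (fun s hs => by
      obtain ⟨h3, h4⟩ := (hZ s).1 hs
      refine ⟨?_, h3⟩
      rw [abs_le] at h4 ⊢
      constructor <;> linarith [h4.1, h4.2])
    have h3 := le_abs_self C7
    have h4 : |C7| * 1 ≤ |C7| * Real.log T := mul_le_mul_of_nonneg_left (by linarith) (abs_nonneg _)
    have h5 : 0 ≤ 2 * C6 * Real.log T := by positivity
    linarith

/-- exceptional consecutive pairs -/
def BS (A : Set ℝ) (T ε x y : ℝ) : Set (ℝ × ℝ) :=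
  {p | p ∈ CP A ∧ x < p.1 ∧ p.1 ≤ y ∧ p.2 ≤ T ∧ ε ≤ |(p.2 - p.1) * (Real.log T / (2 * Real.pi)) - 1|}

lemma BS_fin {f : ℂ → ℂ} {B : ℝ} (hf : Differentiable ℂ f) (hs : ∀ s, f s = 0 → |s.re| ≤ B) (T ε x y : ℝ)
    (hx : 0 ≤ x) : BS (Od f) T ε x y ⊆ PR f (fun u => x < u ∧ u ≤ y) 0 T ∧ (BS (Od f) T ε x y).Finite := by
  have h : BS (Od f) T ε x y ⊆ PR f (fun u => x < u ∧ u ≤ y) 0 T := by
    rintro p ⟨h1, h2, h3, h4, -⟩
    exact ⟨h1, ⟨h2, h3⟩, by linarith [h1.1], by linarith⟩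
  exact ⟨h, (PR_f hf hs _ _ _ _).subset h⟩

lemma reg_pair {FT : ℝ → ℂ → ℂ} {ε τ : ℝ} {s : ℂ} (hs : FT τ s = 0) (h : regH FT ε τ s) {p : ℝ × ℝ}
    (hp : p ∈ CP (Od (FT τ))) (hps : s.im = p.1) : |(p.2 - p.1) * Om p.1 - Real.pi| ≤ ε := by
  obtain ⟨-, -, g, hg, hg1, hg2, -, hg3⟩ := h
  have him : (s + g * I).im = s.im + g := by simp
  have hq : ((p.1, p.1 + g) : ℝ × ℝ) ∈ CP (Od (FT τ)) := by
    refine ⟨by show p.1 < p.1 + g; linarith, ⟨s, hs, hps⟩, ⟨s + g * I, hg2, by rw [him, hps]⟩, ?_⟩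
    rintro y ⟨z, hz, hzy⟩ ⟨h1, h2⟩
    have h1' : p.1 < y := h1
    have h2' : y < p.1 + g := h2
    rcases hg3 z hz (by rw [hzy, hps]; exact h1'.le) (by rw [hzy, hps]; exact h2'.le) with h3 | h3
    · rw [h3, hps] at hzy
      linarith
    · rw [h3, him, hps] at hzy
      linarith
  have h4 := CP_eq hp hq rfl
  have h5 : p.2 = p.1 + g := congrArg Prod.snd h4
  rw [h5, ← hps]
  have e : s.im + g - s.im = g := by ring
  rw [e]
  exact hg1

lemma near_num {g ω Ω ε θ : ℝ} (hε : 0 < ε) (hε1 : ε ≤ 1) (hθ : θ ≤ ε / 4) (hω : 0 < ω) (hωΩ : ω ≤ Ω)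
    (hΩ : Ω ≤ (1 + θ) * ω) (hg : 0 < g) (h : |g * ω - Real.pi| ≤ ε) : |g * (Ω / Real.pi) - 1| < ε := by
  have hpi := Real.pi_gt_three
  have hpi0 := Real.pi_pos
  rw [abs_le] at h
  have e : g * (Ω / Real.pi) - 1 = (g * Ω - Real.pi) / Real.pi := by field_simp
  rw [e, abs_div, abs_of_pos hpi0, div_lt_iff₀ hpi0, abs_lt]
  have h1 : g * ω ≤ g * Ω := mul_le_mul_of_nonneg_left hωΩ hg.le
  have h2 : g * Ω ≤ g * ((1 + θ) * ω) := mul_le_mul_of_nonneg_left hΩ hg.le
  have h3 : 0 < g * ω := by positivity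
  have h4 : g * ((1 + θ) * ω) ≤ (1 + ε / 4) * (g * ω) := by
    have : (1 + θ) * (g * ω) ≤ (1 + ε / 4) * (g * ω) := mul_le_mul_of_nonneg_right (by linarith) h3.le
    linarith
  have h5 : (1 + ε / 4) * (g * ω) ≤ (1 + ε / 4) * (Real.pi + ε) := mul_le_mul_of_nonneg_left (by linarith) (by linarith)
  have h6 : ε * ε ≤ ε := by nlinarith
  constructor
  · nlinarith
  · nlinarith

theorem cryB {B : ℝ} {F : ℂ → ℂ} {FT : ℝ → ℂ → ℂ} (hD : STB B F FT) (h0 : UNIT0 F) (ε A : ℝ)
    (hε : 0 < ε) (hε1 : ε ≤ 1) (hA : 0 < A) :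
    ∃ K T0 : ℝ, 0 < K ∧ 2 ≤ T0 ∧ ∀ T τ : ℝ, T0 ≤ T → K ≤ τ * Real.log T ^ 2 → τ * Real.log T ≤ A →
    ((BS (Od (FT τ)) T ε 0 T).ncard : ℝ) ≤ ε * (T * Real.log T) := by
  classical
  obtain ⟨c, C, hc, hC, hirr⟩ := fin_irr hD.ins ε A hε
  obtain ⟨C8, T8, hC8, hT8, hnn⟩ := nn_allX hD h0 A hA
  -- the number of blocks
  obtain ⟨n, hn⟩ : ∃ n : ℕ, 4 * C8 / ε < 2 ^ n := pow_unbounded_of_one_lt _ (by norm_num)
  have h2n : (0 : ℝ) < 2 ^ n := by positivity
  rw [div_lt_iff₀ hε] at hn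
  obtain ⟨L0, hL0⟩ : ∃ L0 : ℝ, L0 = (4 / ε + 2) * (n * Real.log 2) + 8 * A + 4 := ⟨_, rfl⟩
  have hl2 : 0 < Real.log 2 := Real.log_pos (by norm_num)
  have hnl : 0 ≤ n * Real.log 2 := by positivity
  refine ⟨4 * (|Real.log (ε / (4 * C))| + 1) / c, max (max T8 (4 * C8 / ε)) (max (2 * 2 ^ n) (Real.exp L0)),
    by positivity, hT8.trans ((le_max_left _ _).trans (le_max_left _ _)), ?_⟩
  intro T τ hT hK hτA
  simp only [max_le_iff] at hT
  obtain ⟨⟨hTa, hTb⟩, hTc, hTd⟩ := hT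
  have hT2 : 2 ≤ T := hT8.trans hTa
  have hT0 : 0 < T := by linarith
  have hL : L0 ≤ Real.log T := by rw [Real.le_log_iff_exp_le hT0]; exact hTd
  have hL4 : 8 * A + 4 ≤ Real.log T := by
    have : 0 ≤ (4 / ε + 2) * (n * Real.log 2) := by positivity
    linarith
  have hLp : 0 < Real.log T := by linarith
  have hτ0 : 0 < τ := by
    by_contra hcon
    push Not at hcon
    have h1 : τ * Real.log T ^ 2 ≤ 0 := mul_nonpos_of_nonpos_of_nonneg hcon (by positivity)
    have h2 : 0 < 4 * (|Real.log (ε / (4 * C))| + 1) / c := by positivity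
    linarith
  have hτ8 : τ ≤ 1 / 8 := by
    by_contra hcon
    push Not at hcon
    have h3 : 1 / 8 * (8 * A + 4) ≤ τ * Real.log T := mul_le_mul hcon.le hL4 (by positivity) hτ0.le
    linarith
  have hf := hD.heatd τ hτ0.le
  have hst : ∀ s, FT τ s = 0 → |s.re| ≤ B := fun s hs => hD.strip τ s hτ0.le hs
  obtain ⟨V, hV⟩ : ∃ V : ℝ, V = T / 2 ^ n := ⟨_, rfl⟩
  have hV0 : 0 < V := by rw [hV]; positivity
  have hV2 : 2 ≤ V := by rw [hV, le_div_iff₀ h2n]; exact hTc
  have hVT : V ≤ T := by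
    rw [hV]; exact div_le_self hT0.le (one_le_pow₀ (by norm_num))
  have hlogV : Real.log V = Real.log T - n * Real.log 2 := by
    rw [hV, Real.log_div hT0.ne' h2n.ne', Real.log_pow]
  -- low part
  have e1 := PR_rem hf hst 0 T hV0.le (M := C8 * Real.log T) (by positivity)
    (fun t h1 h2 => hnn T τ t hTa hτ0.le hτA h1 (by linarith))
  -- one block
  have hblock : ∀ U : ℝ, V ≤ U → 2 * U ≤ T →
      ((BS (Od (FT τ)) T ε U (2 * U)).ncard : ℝ) ≤ ε / 4 * Real.log T * U := by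
    intro U hU1 hU2
    have hU0 : 0 < U := by linarith
    have hlU : Real.log T - n * Real.log 2 ≤ Real.log U := by
      rw [← hlogV]; exact Real.log_le_log hV0 hU1
    have hlUT : Real.log U ≤ Real.log T := Real.log_le_log hU0 (by linarith)
    have hn4 : (4 / ε + 2) * (n * Real.log 2) ≤ Real.log T := by linarith
    have hn2 : 2 * (n * Real.log 2) ≤ Real.log T := by
      have : 0 ≤ 4 / ε * (n * Real.log 2) := by positivity
      linarith
    have hlU2 : Real.log T / 2 ≤ Real.log U := by linarith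
    obtain ⟨-, hfin⟩ := BS_fin hf hst T ε U (2 * U) hU0.le
    -- the zeros
    have hz : ∀ p : ℝ × ℝ, ∃ s : ℂ, p ∈ BS (Od (FT τ)) T ε U (2 * U) → FT τ s = 0 ∧ s.im = p.1 := by
      intro p
      by_cases hp : p ∈ BS (Od (FT τ)) T ε U (2 * U)
      · obtain ⟨s, hs, hsp⟩ := hp.1.2.1
        exact ⟨s, fun _ => ⟨hs, hsp⟩⟩
      · exact ⟨0, fun h => absurd h hp⟩
    choose σ hσ using hz
    have hmem : ∀ p, p ∈ hfin.toFinset ↔ p ∈ BS (Od (FT τ)) T ε U (2 * U) := fun p => Set.Finite.mem_toFinset _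
    have hinj : Set.InjOn σ (hfin.toFinset : Set (ℝ × ℝ)) := by
      intro p hp q hq hpq
      rw [Finset.mem_coe, hmem] at hp hq
      have h1 := (hσ p hp).2
      have h2 := (hσ q hq).2
      rw [hpq, h2] at h1
      exact CP_eq hp.1 hq.1 h1.symm
    have h1 := hirr U τ (by linarith) hτ0 hτ8 (by
      have := mul_le_mul_of_nonneg_left hlUT hτ0.le
      linarith) (hfin.toFinset.image σ) (fun s hs => by
        rw [Finset.mem_image] at hs
        obtain ⟨p, hp, rfl⟩ := hs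
        rw [hmem] at hp
        obtain ⟨hz1, hz2⟩ := hσ p hp
        obtain ⟨hp1, hp2, hp3, hp4, hp5⟩ := hp
        refine ⟨⟨hz1, fun hreg => ?_⟩, by rw [hz2]; exact hp2, by rw [hz2]; exact hp3⟩
        have h2 := reg_pair hz1 hreg hp1 hz2
        have hp0 : 0 < p.1 := hU0.trans hp2
        have hlp1 : Real.log U ≤ Real.log p.1 := Real.log_le_log hU0 hp2.le
        have hlp2 : Real.log p.1 ≤ Real.log T := Real.log_le_log hp0 (by linarith)
        have h3 := near_num (g := p.2 - p.1) (ω := Om p.1) (Ω := Om T) (ε := ε) (θ := ε / 4) hε hε1 le_rfl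
          (by unfold Om; linarith) (by unfold Om; linarith) (by
            unfold Om
            have h4 : (4 / ε) * (n * Real.log 2) ≤ Real.log p.1 := by linarith
            have h5 := mul_le_mul_of_nonneg_left h4 (show 0 ≤ ε / 4 by positivity)
            have e2 : ε / 4 * ((4 / ε) * (n * Real.log 2)) = n * Real.log 2 := by field_simp
            rw [e2] at h5
            linarith) (by linarith [hp1.1]) h2
        have e3 : Om T / Real.pi = Real.log T / (2 * Real.pi) := by unfold Om; field_simp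
        rw [e3] at h3
        linarith)
    have h2 : ((BS (Od (FT τ)) T ε U (2 * U)).ncard : ℝ) ≤
        ∑ s ∈ hfin.toFinset.image σ, (analyticOrderNatAt (FT τ) s : ℝ) := by
      rw [Set.ncard_eq_toFinset_card _ hfin]
      have h3 : (hfin.toFinset.card : ℝ) = ∑ s ∈ hfin.toFinset.image σ, (1 : ℝ) := by
        rw [Finset.sum_const, nsmul_eq_mul, mul_one, Finset.card_image_of_injOn hinj]
      rw [h3]
      refine Finset.sum_le_sum fun s hs => ?_
      rw [Finset.mem_image] at hs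
      obtain ⟨p, hp, rfl⟩ := hs
      rw [hmem] at hp
      have := ord_pos hf hst (hσ p hp).1
      exact_mod_cast this
    refine h2.trans (h1.trans ?_)
    have h3 : c * τ * Real.log U ^ 2 ≥ |Real.log (ε / (4 * C))| := by
      have h4 : (Real.log T / 2) ^ 2 ≤ Real.log U ^ 2 := pow_le_pow_left₀ (by positivity) hlU2 2
      have h5 : c * τ * (Real.log T / 2) ^ 2 ≤ c * τ * Real.log U ^ 2 := mul_le_mul_of_nonneg_left h4 (by positivity)
      rw [div_le_iff₀ hc] at hK
      have h6 : c * τ * (Real.log T / 2) ^ 2 = τ * Real.log T ^ 2 * c / 4 := by ring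
      linarith
    have h4 : C * Real.exp (-(c * τ * Real.log U ^ 2)) ≤ ε / 4 := by
      have h5 : Real.exp (-(c * τ * Real.log U ^ 2)) ≤ ε / (4 * C) := by
        rw [← Real.le_log_iff_exp_le (by positivity)]
        have := neg_abs_le (Real.log (ε / (4 * C)))
        linarith
      calc C * Real.exp (-(c * τ * Real.log U ^ 2)) ≤ C * (ε / (4 * C)) := mul_le_mul_of_nonneg_left h5 hC.le
        _ = ε / 4 := by field_simp
    have h5 : 0 ≤ Real.log U := by linarith
    calc C * U * Real.log U * Real.exp (-(c * τ * Real.log U ^ 2)) =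
          C * Real.exp (-(c * τ * Real.log U ^ 2)) * (U * Real.log U) := by ring
      _ ≤ ε / 4 * (U * Real.log U) := mul_le_mul_of_nonneg_right h4 (by positivity)
      _ ≤ ε / 4 * (U * Real.log T) := by
          apply mul_le_mul_of_nonneg_left _ (by positivity)
          exact mul_le_mul_of_nonneg_left hlUT hU0.le
      _ = ε / 4 * Real.log T * U := by ring
  have e2 := dyadN (a := fun x y => ((BS (Od (FT τ)) T ε (max x 0) y).ncard : ℝ)) (b := fun _ _ => (0 : ℝ))
    (e := ε / 4 * Real.log T) hT0 (fun x => by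
      have h1 : BS (Od (FT τ)) T ε (max x 0) x = ∅ := by
        ext p
        simp only [Set.mem_empty_iff_false, iff_false]
        rintro ⟨-, h3, h4, -⟩
        have := le_max_left x 0
        linarith
      show ((BS (Od (FT τ)) T ε (max x 0) x).ncard : ℝ) ≤ 0
      rw [h1, Set.ncard_empty, Nat.cast_zero])
    (fun x => le_rfl)
    (fun x y z hxy hyz => by
      have hsub : BS (Od (FT τ)) T ε (max x 0) z ⊆
          BS (Od (FT τ)) T ε (max y 0) z ∪ BS (Od (FT τ)) T ε (max x 0) y := by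
        rintro p ⟨h1, h2, h3, h4⟩
        rcases le_or_gt p.1 y with h5 | h5
        · right; exact ⟨h1, h2, h5, h4⟩
        · left
          refine ⟨h1, max_lt h5 ?_, h3, h4⟩
          exact lt_of_le_of_lt (le_max_right x 0) h2
      have h1 := (Set.ncard_le_ncard hsub ((BS_fin hf hst T ε _ z (le_max_right y 0)).2.union
        (BS_fin hf hst T ε _ y (le_max_right x 0)).2)).trans (Set.ncard_union_le _ _)
      show ((BS (Od (FT τ)) T ε (max x 0) z).ncard : ℝ) ≤ ((BS (Od (FT τ)) T ε (max y 0) z).ncard : ℝ) +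
        ((BS (Od (FT τ)) T ε (max x 0) y).ncard : ℝ)
      exact_mod_cast h1)
    (fun x y z _ _ => by norm_num) n (fun U hU1 hU2 => by
      rw [← hV] at hU1
      have hm : max U 0 = U := max_eq_left (by linarith)
      show ((BS (Od (FT τ)) T ε (max U 0) (2 * U)).ncard : ℝ) ≤ 0 + ε / 4 * Real.log T * U
      rw [hm, zero_add]
      exact hblock U hU1 hU2)
  have hmV : max V 0 = V := max_eq_left hV0.le
  rw [← hV] at e2
  have e2' : ((BS (Od (FT τ)) T ε V T).ncard : ℝ) ≤ 0 + ε / 4 * Real.log T * T * (1 - 1 / 2 ^ n) := by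
    have := e2
    simp only [hmV] at this
    exact this
  have e3 : ((BS (Od (FT τ)) T ε 0 T).ncard : ℝ) ≤ ((PR (FT τ) (fun y => 0 < y ∧ y ≤ V) 0 T).ncard : ℝ) +
      ((BS (Od (FT τ)) T ε V T).ncard : ℝ) := by
    have hsub : BS (Od (FT τ)) T ε 0 T ⊆ PR (FT τ) (fun y => 0 < y ∧ y ≤ V) 0 T ∪ BS (Od (FT τ)) T ε V T := by
      rintro p ⟨h1, h2, h3, h4, h5⟩
      rcases le_or_gt p.1 V with h6 | h6
      · left
        exact ⟨h1, ⟨h2, h6⟩, by linarith [h1.1], by linarith⟩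
      · right
        exact ⟨h1, h6, h3, h4, h5⟩
    exact_mod_cast (Set.ncard_le_ncard hsub ((PR_f hf hst 0 T 0 V).union
      (BS_fin hf hst T ε V T hV0.le).2)).trans (Set.ncard_union_le _ _)
  have e4 : ε / 4 * Real.log T * T * (1 - 1 / 2 ^ n) ≤ ε / 4 * Real.log T * T := by
    have h1 : (0 : ℝ) < 1 / 2 ^ n := by positivity
    have h2 : 0 ≤ ε / 4 * Real.log T * T := by positivity
    have h3 : ε / 4 * Real.log T * T * (1 - 1 / 2 ^ n) ≤ ε / 4 * Real.log T * T * 1 :=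
      mul_le_mul_of_nonneg_left (by linarith) h2
    linarith
  have e5 : (V + 1) * (C8 * Real.log T) ≤ ε / 2 * (T * Real.log T) := by
    have h1 : V * C8 ≤ ε / 4 * T := by
      rw [hV, div_mul_eq_mul_div, div_le_iff₀ h2n]
      have h2 := mul_le_mul_of_nonneg_left hn.le (show 0 ≤ T / 4 by positivity)
      have e6 : T / 4 * (4 * C8) = T * C8 := by ring
      have e7 : T / 4 * (2 ^ n * ε) = ε / 4 * T * 2 ^ n := by ring
      rw [e6, e7] at h2
      exact h2
    have h3 : C8 ≤ ε / 4 * T := by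
      rw [div_le_iff₀ hε] at hTb
      linarith
    have h4 : (V + 1) * C8 ≤ ε / 2 * T := by linarith
    calc (V + 1) * (C8 * Real.log T) = (V + 1) * C8 * Real.log T := by ring
      _ ≤ ε / 2 * T * Real.log T := mul_le_mul_of_nonneg_right h4 hLp.le
      _ = _ := by ring
  have e6 : 0 ≤ ε * (T * Real.log T) := by positivity
  linarith

end Pool.Agent.R838.ST
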