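import Pool.Agent.R838.ST.Blk

set_option autoImplicit false

/-!
# Comparison of the tuples of zeros at two small times, full range
-/

namespace Pool.Agent.R838.ST

open Complex Filter Topology MeasureTheory Set
open Pool.Agent.H24R2.JP (Om)
open Pool.Agent.R838.CR
open Pool.Agent.W186.SD (S_NGN S_AW S_CNT S_COV)

theorem dyad {f g : ℂ → ℂ} {B : ℝ} (hf : Differentiable ℂ f) (hsf : ∀ s, f s = 0 → |s.re| ≤ B)
    (hg : Differentiable ℂ g) (hsg : ∀ s, g s = 0 → |s.re| ≤ B)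
    {k : ℕ} {α β α' β' : Fin k → ℝ} {H : ℝ} (hH : 0 ≤ H) (hα : ∀ i, -H ≤ α i) (hβ : ∀ i, β i ≤ H)
    (hα' : ∀ i, -H ≤ α' i) (hβ' : ∀ i, β' i ≤ H) {T e : ℝ} (hT : 0 < T) (n : ℕ)
    (hb : ∀ U : ℝ, T / 2 ^ n ≤ U → 2 * U ≤ T → ((TP f (fun y => U < y ∧ y ≤ 2 * U) α β).ncard : ℝ) ≤
      ((TP g (fun y => U < y ∧ y ≤ 2 * U) α' β').ncard : ℝ) + e * U) :
    ((TP f (fun y => T / 2 ^ n < y ∧ y ≤ T) α β).ncard : ℝ) ≤
      ((TP g (fun y => T / 2 ^ n < y ∧ y ≤ T) α' β').ncard : ℝ) + e * T * (1 - 1 / 2 ^ n) := by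
  induction n with
  | zero =>
    have h1 : TP f (fun y => T / 2 ^ 0 < y ∧ y ≤ T) α β = ∅ := by
      ext x
      simp only [Set.mem_empty_iff_false, iff_false]
      rintro ⟨-, -, h3, -⟩
      rw [pow_zero, div_one] at h3
      linarith [h3.1, h3.2]
    rw [h1, Set.ncard_empty]
    have h2 : (0 : ℝ) ≤ ((TP g (fun y => T / 2 ^ 0 < y ∧ y ≤ T) α' β').ncard : ℝ) := Nat.cast_nonneg _
    have e0 : e * T * (1 - 1 / 2 ^ 0) = 0 := by norm_num
    rw [e0, add_zero, Nat.cast_zero]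
    exact h2
  | succ n ih =>
    obtain ⟨U, hU⟩ : ∃ U : ℝ, U = T / 2 ^ (n + 1) := ⟨_, rfl⟩
    have h2U : T / 2 ^ n = 2 * U := by rw [hU, pow_succ]; field_simp
    have hU0 : 0 < U := by rw [hU]; positivity
    have h1p : (1 : ℝ) ≤ 2 ^ n := one_le_pow₀ (by norm_num)
    have h2UT : 2 * U ≤ T := by
      rw [← h2U]
      exact div_le_self hT.le h1p
    have h1 := ih (fun U' h3 h4 => hb U' (by rw [← hU]; rw [h2U] at h3; linarith) h4)
    have h2 := hb U (by rw [hU]) h2UT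
    rw [h2U] at h1
    rw [← hU]
    have hsub : TP f (fun y => U < y ∧ y ≤ T) α β ⊆
        TP f (fun y => 2 * U < y ∧ y ≤ T) α β ∪ TP f (fun y => U < y ∧ y ≤ 2 * U) α β := by
      rintro x ⟨h3, h4, h5, h6⟩
      rcases le_or_gt (x 0).1.im (2 * U) with h7 | h7
      · right
        exact ⟨h3, h4, ⟨h5.1, h7⟩, h6⟩
      · left
        exact ⟨h3, h4, ⟨h7, h5.2⟩, h6⟩
    have hf1 := TP_fin hf hsf hH hα hβ (P := fun y => 2 * U < y ∧ y ≤ T) (u := 2 * U) (v := T)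
      (fun y hy => ⟨hy.1.le, hy.2⟩)
    have hf2 := TP_fin hf hsf hH hα hβ (P := fun y => U < y ∧ y ≤ 2 * U) (u := U) (v := 2 * U)
      (fun y hy => ⟨hy.1.le, hy.2⟩)
    have h3 := (Set.ncard_le_ncard hsub (hf1.union hf2)).trans (Set.ncard_union_le _ _)
    have hg1 := TP_fin hg hsg hH hα' hβ' (P := fun y => 2 * U < y ∧ y ≤ T) (u := 2 * U) (v := T)
      (fun y hy => ⟨hy.1.le, hy.2⟩)
    have hg2 := TP_fin hg hsg hH hα' hβ' (P := fun y => U < y ∧ y ≤ 2 * U) (u := U) (v := 2 * U)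
      (fun y hy => ⟨hy.1.le, hy.2⟩)
    have hg3 := TP_fin hg hsg hH hα' hβ' (P := fun y => U < y ∧ y ≤ T) (u := U) (v := T)
      (fun y hy => ⟨hy.1.le, hy.2⟩)
    have hdis : Disjoint (TP g (fun y => 2 * U < y ∧ y ≤ T) α' β') (TP g (fun y => U < y ∧ y ≤ 2 * U) α' β') := by
      rw [Set.disjoint_left]
      rintro x ⟨-, -, h5, -⟩ ⟨-, -, h6, -⟩
      exact absurd h6.2 (not_le.2 h5.1)
    have hsub2 : TP g (fun y => 2 * U < y ∧ y ≤ T) α' β' ∪ TP g (fun y => U < y ∧ y ≤ 2 * U) α' β' ⊆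
        TP g (fun y => U < y ∧ y ≤ T) α' β' := by
      rintro x (⟨h3, h4, h5, h6⟩ | ⟨h3, h4, h5, h6⟩)
      · exact ⟨h3, h4, ⟨lt_trans (by linarith) h5.1, h5.2⟩, h6⟩
      · exact ⟨h3, h4, ⟨h5.1, h5.2.trans h2UT⟩, h6⟩
    have h4 := Set.ncard_le_ncard hsub2 hg3
    rw [Set.ncard_union_eq hdis hg1 hg2] at h4
    have h3' : ((TP f (fun y => U < y ∧ y ≤ T) α β).ncard : ℝ) ≤
        ((TP f (fun y => 2 * U < y ∧ y ≤ T) α β).ncard : ℝ) +
          ((TP f (fun y => U < y ∧ y ≤ 2 * U) α β).ncard : ℝ) := by exact_mod_cast h3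
    have h4' : ((TP g (fun y => 2 * U < y ∧ y ≤ T) α' β').ncard : ℝ) +
          ((TP g (fun y => U < y ∧ y ≤ 2 * U) α' β').ncard : ℝ) ≤
        ((TP g (fun y => U < y ∧ y ≤ T) α' β').ncard : ℝ) := by exact_mod_cast h4
    have e1 : e * T * (1 - 1 / 2 ^ n) + e * U = e * T * (1 - 1 / 2 ^ (n + 1)) := by
      rw [hU, pow_succ]; field_simp; ring
    linarith

theorem remd {f : ℂ → ℂ} {B : ℝ} (hf : Differentiable ℂ f) (hs : ∀ s, f s = 0 → |s.re| ≤ B)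
    {k : ℕ} {α β : Fin k → ℝ} {H : ℝ} (hH : 0 ≤ H) (hα : ∀ i, -H ≤ α i) (hβ : ∀ i, β i ≤ H)
    (hH2 : H ≤ 1 / 2) {V M : ℝ} (hV : 0 ≤ V) (hM0 : 0 ≤ M)
    (hM : ∀ t : ℝ, 0 ≤ t → t ≤ V + 1 → (nn f t 1 : ℝ) ≤ M) :
    ((TP f (fun y => 0 < y ∧ y ≤ V) α β).ncard : ℝ) ≤ (V + 1) * M ^ (k + 1) := by
  have key : ∀ n : ℕ, (n : ℝ) ≤ V + 1 →
      ((TP f (fun y => 0 < y ∧ y ≤ (n : ℝ)) α β).ncard : ℝ) ≤ n * M ^ (k + 1) := by
    intro n
    induction n with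
    | zero =>
      intro _
      have h1 : TP f (fun y => 0 < y ∧ y ≤ ((0 : ℕ) : ℝ)) α β = ∅ := by
        ext x
        simp only [Set.mem_empty_iff_false, iff_false]
        rintro ⟨-, -, h3, -⟩
        rw [Nat.cast_zero] at h3
        linarith [h3.1, h3.2]
      rw [h1, Set.ncard_empty]
      simp
    | succ n ih =>
      intro hn
      push_cast at hn
      have h1 := ih (by linarith)
      have hsub : TP f (fun y => 0 < y ∧ y ≤ ((n + 1 : ℕ) : ℝ)) α β ⊆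
          TP f (fun y => 0 < y ∧ y ≤ (n : ℝ)) α β ∪ TP f (fun y => |y - ((n : ℝ) + 1 / 2)| ≤ 1 / 2) α β := by
        rintro x ⟨h3, h4, h5, h6⟩
        rcases le_or_gt (x 0).1.im n with h7 | h7
        · left
          exact ⟨h3, h4, ⟨h5.1, h7⟩, h6⟩
        · right
          refine ⟨h3, h4, ?_, h6⟩
          have h8 := h5.2
          push_cast at h8
          show |(x 0).1.im - ((n : ℝ) + 1 / 2)| ≤ 1 / 2
          rw [abs_le]
          constructor <;> linarith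
      have hf1 := TP_fin hf hs hH hα hβ (P := fun y => 0 < y ∧ y ≤ (n : ℝ)) (u := 0) (v := n)
        (fun y hy => ⟨hy.1.le, hy.2⟩)
      have hf2 := TP_fin hf hs hH hα hβ (P := fun y => |y - ((n : ℝ) + 1 / 2)| ≤ 1 / 2) (u := n) (v := n + 1)
        (fun y hy => by have := abs_le.1 hy; constructor <;> linarith)
      have h3 := (Set.ncard_le_ncard hsub (hf1.union hf2)).trans (Set.ncard_union_le _ _)
      have h4 := TP_le hf hs hH hα hβ (P := fun y => |y - ((n : ℝ) + 1 / 2)| ≤ 1 / 2) (t := (n : ℝ) + 1 / 2)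
        (h := 1 / 2) (fun y hy => hy)
      have hn0 : (0 : ℝ) ≤ n := Nat.cast_nonneg _
      have h5 : (nn f ((n : ℝ) + 1 / 2) (1 / 2 + H) : ℝ) ≤ M := by
        refine le_trans ?_ (hM ((n : ℝ) + 1 / 2) (by linarith) (by linarith))
        exact_mod_cast nn_mono hf hs (t := (n : ℝ) + 1 / 2) (t' := (n : ℝ) + 1 / 2) (h := 1 / 2 + H) (h' := 1)
          (by rw [sub_self, abs_zero]; linarith)
      have h6 : ((TP f (fun y => |y - ((n : ℝ) + 1 / 2)| ≤ 1 / 2) α β).ncard : ℝ) ≤ M ^ (k + 1) := by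
        have h7 : ((TP f (fun y => |y - ((n : ℝ) + 1 / 2)| ≤ 1 / 2) α β).ncard : ℝ) ≤
          (nn f ((n : ℝ) + 1 / 2) (1 / 2 + H) : ℝ) ^ (k + 1) := by exact_mod_cast h4
        exact h7.trans (pow_le_pow_left₀ (Nat.cast_nonneg _) h5 _)
      have h3' : ((TP f (fun y => 0 < y ∧ y ≤ ((n + 1 : ℕ) : ℝ)) α β).ncard : ℝ) ≤
          ((TP f (fun y => 0 < y ∧ y ≤ (n : ℝ)) α β).ncard : ℝ) +
            ((TP f (fun y => |y - ((n : ℝ) + 1 / 2)| ≤ 1 / 2) α β).ncard : ℝ) := by exact_mod_cast h3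
      push_cast
      push_cast at h3'
      linarith
  have h1 := key ⌈V⌉₊ (Nat.ceil_lt_add_one hV).le
  have hf1 := TP_fin hf hs hH hα hβ (P := fun y => 0 < y ∧ y ≤ (⌈V⌉₊ : ℝ)) (u := 0) (v := ⌈V⌉₊)
    (fun y hy => ⟨hy.1.le, hy.2⟩)
  have h2 : (TP f (fun y => 0 < y ∧ y ≤ V) α β).ncard ≤ (TP f (fun y => 0 < y ∧ y ≤ (⌈V⌉₊ : ℝ)) α β).ncard :=
    Set.ncard_le_ncard (TP_mono (fun y hy => ⟨hy.1, hy.2.trans (Nat.le_ceil V)⟩) (fun _ => le_rfl)
      (fun _ => le_rfl)) hf1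
  have h3 : ((TP f (fun y => 0 < y ∧ y ≤ V) α β).ncard : ℝ) ≤
      ((TP f (fun y => 0 < y ∧ y ≤ (⌈V⌉₊ : ℝ)) α β).ncard : ℝ) := by exact_mod_cast h2
  refine h3.trans (h1.trans ?_)
  exact mul_le_mul_of_nonneg_right (Nat.ceil_lt_add_one hV).le (by positivity)

theorem nn_all {B : ℝ} {F : ℂ → ℂ} {FT : ℝ → ℂ → ℂ} (hD : STB B F FT) (h0 : UNIT0 F) :
    ∃ C T0 : ℝ, 0 < C ∧ 2 ≤ T0 ∧ ∀ T τ t : ℝ, T0 ≤ T → 0 ≤ τ → τ ≤ 1 / Om T ^ 2 → 0 ≤ t → t ≤ T + 2 →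
    (nn (FT τ) t 1 : ℝ) ≤ C * Real.log T := by
  obtain ⟨C6, T6, hC6, hT6, hUn⟩ := unitA hD h0 1 one_pos
  obtain ⟨C7, hC7⟩ := hD.ins.lowc (T6 + 1)
  refine ⟨2 * C6 + |C7|, Real.exp 20, by positivity, ?_, ?_⟩
  · have := Real.add_one_le_exp (20 : ℝ)
    linarith
  intro T τ t hT hτ hτ' ht0 ht
  have hT20 : 21 ≤ T := by
    have := Real.add_one_le_exp (20 : ℝ)
    linarith
  have hT0 : 0 < T := by linarith
  have hL : 20 ≤ Real.log T := by rw [Real.le_log_iff_exp_le hT0]; exact hT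
  have hOm : Om T = Real.log T / 2 := rfl
  have hOm1 : 10 ≤ Om T := by rw [hOm]; linarith
  have hOm0 : 0 < Om T := by linarith
  rw [le_div_iff₀ (by positivity)] at hτ'
  rcases le_or_gt T6 t with h1 | h1
  · have hlog : Real.log t ≤ 2 * Real.log T := by
      refine le_trans ?_ (log4 (by linarith : (4 : ℝ) ≤ T))
      exact Real.log_le_log (by linarith) (by linarith)
    have h2 := hUn t τ 1 h1 hτ (by
      have h3 : Om t ≤ 2 * Om T := by rw [hOm]; unfold Om; linarith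
      have h4 : 4 * Om T ≤ Om T ^ 2 := by
        rw [pow_two]; exact mul_le_mul_of_nonneg_right (by linarith) hOm0.le
      calc 2 * τ * Om t ≤ 2 * τ * (2 * Om T) := mul_le_mul_of_nonneg_left h3 (by positivity)
        _ = τ * (4 * Om T) := by ring
        _ ≤ τ * Om T ^ 2 := mul_le_mul_of_nonneg_left h4 hτ
        _ ≤ 1 := hτ') le_rfl
    refine h2.trans ?_
    have h5 := mul_le_mul_of_nonneg_left hlog hC6.le
    have h6 : 0 ≤ |C7| * Real.log T := by positivity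
    linarith
  · obtain ⟨Z, hZ, -, hn⟩ := nn_spec (hD.heatd τ hτ) (fun s hs => hD.strip τ s hτ hs) t 1
    rw [hn]
    push_cast
    have hτ8 : τ ≤ 1 / 8 := by
      have h2 : 100 ≤ Om T ^ 2 := by nlinarith
      have h3 : τ * 100 ≤ τ * Om T ^ 2 := mul_le_mul_of_nonneg_left h2 hτ
      linarith
    have h2 := hC7 τ hτ hτ8 Z (fun s hs => by
      obtain ⟨h3, h4⟩ := (hZ s).1 hs
      refine ⟨?_, h3⟩
      rw [abs_le] at h4 ⊢
      constructor <;> linarith [h4.1, h4.2])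
    have h3 := le_abs_self C7
    have h4 : |C7| * 1 ≤ |C7| * Real.log T := mul_le_mul_of_nonneg_left (by linarith) (abs_nonneg _)
    have h5 : 0 ≤ 2 * C6 * Real.log T := by positivity
    linarith

lemma logs_small (C : ℝ) (hC : 0 ≤ C) (n : ℕ) {ε : ℝ} (hε : 0 < ε) :
    ∃ T0 : ℝ, 2 ≤ T0 ∧ ∀ T : ℝ, T0 ≤ T → (C * Real.log T) ^ n * (8 * Real.sqrt T) ≤ ε * T := by
  obtain ⟨D, hD, hD'⟩ := pow_le_exp n (c := 1 / 4) (by norm_num)
  refine ⟨max 2 (Real.exp (4 * (8 * C ^ n * D / ε))), le_max_left _ _, ?_⟩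
  intro T hT
  have hT2 : 2 ≤ T := (le_max_left _ _).trans hT
  have hT3 : Real.exp (4 * (8 * C ^ n * D / ε)) ≤ T := (le_max_right _ _).trans hT
  have hT0 : 0 < T := by linarith
  have hl : 0 ≤ Real.log T := Real.log_nonneg (by linarith)
  have h1 := hD' _ hl
  obtain ⟨s, hs⟩ : ∃ s : ℝ, s = Real.exp (1 / 4 * Real.log T) := ⟨_, rfl⟩
  have hs0 : 0 < s := by rw [hs]; exact Real.exp_pos _
  have hs4 : s ^ 4 = T := by
    rw [hs, ← Real.exp_nat_mul]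
    have : ((4 : ℕ) : ℝ) * (1 / 4 * Real.log T) = Real.log T := by push_cast; ring
    rw [this, Real.exp_log hT0]
  have hs2 : Real.sqrt T = s ^ 2 := by
    rw [← hs4, show s ^ 4 = (s ^ 2) ^ 2 by ring, Real.sqrt_sq (by positivity)]
  have h2 : 8 * C ^ n * D / ε ≤ s := by
    have h3 : 4 * (8 * C ^ n * D / ε) ≤ Real.log T := by
      rw [Real.le_log_iff_exp_le hT0]; exact hT3
    have h4 := Real.add_one_le_exp (1 / 4 * Real.log T)
    rw [← hs] at h4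
    linarith
  rw [div_le_iff₀ hε] at h2
  rw [← hs] at h1
  calc (C * Real.log T) ^ n * (8 * Real.sqrt T) = C ^ n * Real.log T ^ n * (8 * s ^ 2) := by
        rw [mul_pow, hs2]
    _ ≤ C ^ n * (D * s) * (8 * s ^ 2) := by gcongr
    _ = 8 * C ^ n * D * s ^ 3 := by ring
    _ ≤ s * ε * s ^ 3 := mul_le_mul_of_nonneg_right h2 (by positivity)
    _ = ε * s ^ 4 := by ring
    _ = ε * T := by rw [hs4]

/-- The tuples of different zeros with ordinates in `(0, T]` and normalised differences in a box. -/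
def CT (f : ℂ → ℂ) {k : ℕ} (T : ℝ) (α β : Fin k → ℝ) : Set (Fin (k + 1) → ℂ × ℕ) :=
  {x | (∀ i, x i ∈ Zi f) ∧ Function.Injective x ∧ (∀ i, 0 < (x i).1.im ∧ (x i).1.im ≤ T) ∧
    ∀ i : Fin k, α i ≤ ((x i.succ).1.im - (x 0).1.im) * (Real.log T / (2 * Real.pi)) ∧
      ((x i.succ).1.im - (x 0).1.im) * (Real.log T / (2 * Real.pi)) ≤ β i}

lemma CT_sub {f : ℂ → ℂ} {k : ℕ} {T : ℝ} (hT : 1 < T) {α β : Fin k → ℝ} :
    CT f T α β ⊆ TP f (fun y => 0 < y ∧ y ≤ T) (fun i => α i * (Real.pi / Om T)) (fun i => β i * (Real.pi / Om T)) := by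
  rintro x ⟨h1, h2, h3, h4⟩
  have hL : 0 < Real.log T := Real.log_pos hT
  have hOm : Om T = Real.log T / 2 := rfl
  have hOm0 : 0 < Om T := by rw [hOm]; positivity
  have hpi := Real.pi_pos
  have e : Real.log T / (2 * Real.pi) = (Real.pi / Om T)⁻¹ := by rw [hOm]; field_simp
  have hc : 0 < Real.pi / Om T := by positivity
  refine ⟨h1, h2, h3 0, fun i => ?_⟩
  have h5 := h4 i
  rw [e, ← div_eq_mul_inv, le_div_iff₀ hc, div_le_iff₀ hc] at h5
  exact h5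

lemma TP_sub {f : ℂ → ℂ} {k : ℕ} {T : ℝ} (hT : 1 < T) {α β : Fin k → ℝ} {H : ℝ} (hH : 0 ≤ H)
    (hα : ∀ i, -H ≤ α i * (Real.pi / Om T)) (hβ : ∀ i, β i * (Real.pi / Om T) ≤ H) (hH1 : H ≤ 1 / 2) :
    TP f (fun y => 0 < y ∧ y ≤ T) (fun i => α i * (Real.pi / Om T)) (fun i => β i * (Real.pi / Om T)) ⊆
      (CT f T α β ∪ TP f (fun y => |y - 0| ≤ 1 / 2) (fun i => α i * (Real.pi / Om T)) (fun i => β i * (Real.pi / Om T))) ∪
        TP f (fun y => |y - T| ≤ 1 / 2) (fun i => α i * (Real.pi / Om T)) (fun i => β i * (Real.pi / Om T)) := by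
  intro x hx
  have hx' := hx
  obtain ⟨h1, h2, h3, h4⟩ := hx
  have hL : 0 < Real.log T := Real.log_pos hT
  have hOm : Om T = Real.log T / 2 := rfl
  have hOm0 : 0 < Om T := by rw [hOm]; positivity
  have hpi := Real.pi_pos
  have e : Real.log T / (2 * Real.pi) = (Real.pi / Om T)⁻¹ := by rw [hOm]; field_simp
  have hc : 0 < Real.pi / Om T := by positivity
  rcases le_or_gt (x 0).1.im (1 / 2) with h5 | h5
  · left; right
    refine ⟨h1, h2, ?_, h4⟩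
    show |(x 0).1.im - 0| ≤ 1 / 2
    rw [abs_le]
    constructor <;> linarith [h3.1]
  · rcases le_or_gt (T - 1 / 2) (x 0).1.im with h6 | h6
    · right
      refine ⟨h1, h2, ?_, h4⟩
      show |(x 0).1.im - T| ≤ 1 / 2
      rw [abs_le]
      constructor <;> linarith [h3.2]
    · left; left
      refine ⟨h1, h2, fun i => ?_, fun i => ?_⟩
      · have h7 := abs_le.1 (TP_coord hH hα hβ hx' i)
        constructor <;> linarith [h7.1, h7.2]
      · have h7 := h4 i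
        rw [e, ← div_eq_mul_inv, le_div_iff₀ hc, div_le_iff₀ hc]
        exact h7

end Pool.Agent.R838.ST
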