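import Pool.Agent.R838.ST.Cry

set_option autoImplicit false

/-!
# The Alternative Hypothesis and the heat flow
-/

namespace Pool.Agent.R838.ST

open Complex Filter Topology MeasureTheory Set
open Pool.Agent.H24R2.JP (XX HH Om)
open Pool.Agent.H986R2.DBN (XT Ht)
open Pool.Agent.R838.CR

/-- the positive multiples of `1/2` -/
def Half : Set ℝ := {x | ∃ m : ℕ, 1 ≤ m ∧ x = (m : ℝ) / 2}

lemma Half_closed : IsClosed Half := by
  have h1 : IsClosed ((fun m : ℕ => (m : ℝ)) '' {m : ℕ | 1 ≤ m}) :=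
    Nat.isClosedEmbedding_coe_real.isClosedMap _ (isClosed_discrete _)
  have h2 : IsClosed ((fun x : ℝ => x * (1 / 2)) '' ((fun m : ℕ => (m : ℝ)) '' {m : ℕ | 1 ≤ m})) :=
    (Homeomorph.mulRight₀ (1 / 2 : ℝ) (by norm_num)).isClosedMap _ h1
  have e : Half = (fun x : ℝ => x * (1 / 2)) '' ((fun m : ℕ => (m : ℝ)) '' {m : ℕ | 1 ≤ m}) := by
    ext x
    constructor
    · rintro ⟨m, hm, rfl⟩
      exact ⟨(m : ℝ), ⟨m, hm, rfl⟩, by ring⟩
    · rintro ⟨_, ⟨m, hm, rfl⟩, rfl⟩
      exact ⟨m, hm, by ring⟩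
  rw [e]
  exact h2

/-- The alternative hypothesis for the consecutive elements of `A`. -/
def AHyp (A : Set ℝ) : Prop := ∀ ε : ℝ, 0 < ε → ∃ Y : ℝ, ∀ p ∈ CP A, Y ≤ p.1 →
  ∃ m : ℕ, 1 ≤ m ∧ |(p.2 * Real.log p.2 - p.1 * Real.log p.1) / (2 * Real.pi) - (m : ℝ) / 2| < ε

lemma ll {x y : ℝ} (hx : 0 < x) (hxy : x < y) :
    (y - x) * Real.log y ≤ y * Real.log y - x * Real.log x ∧
    y * Real.log y - x * Real.log x ≤ (y - x) * (Real.log y + 1) := by
  have hy : 0 < y := hx.trans hxy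
  have h1 : Real.log x ≤ Real.log y := Real.log_le_log hx hxy.le
  have h2 : x * (Real.log y - Real.log x) ≤ y - x := by
    rw [← Real.log_div hy.ne' hx.ne']
    have h3 := Real.log_le_sub_one_of_pos (show 0 < y / x by positivity)
    have h4 := mul_le_mul_of_nonneg_left h3 hx.le
    have e : x * (y / x - 1) = y - x := by field_simp
    rw [e] at h4
    exact h4
  have h3 : 0 ≤ x * (Real.log y - Real.log x) := mul_nonneg hx.le (by linarith)
  constructor <;> nlinarith

theorem ah_near (h : AHyp ZOrd) : NearE (fun T α β => ((SP ZOrd T α β).ncard : ℝ)) Half := by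
  intro α β hα hαβ hdis
  obtain ⟨C8, T8, hC8, hT8, hnn⟩ := nn_all stb_xi unit0_xi
  obtain ⟨δ, hδ, hδ'⟩ := hdis.exists_cthickenings isCompact_Icc Half_closed
  have hdis2 : Disjoint (Icc (α - δ) (β + δ)) Half := by
    refine Set.disjoint_of_subset ?_ (Metric.self_subset_cthickening Half) hδ'
    intro x hx
    rcases le_or_gt x α with h1 | h1
    · refine Metric.mem_cthickening_of_dist_le x α δ _ ⟨le_rfl, hαβ⟩ ?_
      rw [Real.dist_eq, abs_le]
      constructor <;> linarith [hx.1]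
    · rcases le_or_gt x β with h2 | h2
      · exact Metric.self_subset_cthickening _ ⟨h1.le, h2⟩
      · refine Metric.mem_cthickening_of_dist_le x β δ _ ⟨hαβ, le_rfl⟩ ?_
        rw [Real.dist_eq, abs_le]
        constructor <;> linarith [hx.2]
  obtain ⟨Y, hY⟩ := h (δ / 2) (by positivity)
  rw [Metric.tendsto_nhds]
  intro η hη
  obtain ⟨n, hn⟩ : ∃ n : ℕ, 4 * C8 / η < 2 ^ n := pow_unbounded_of_one_lt _ (by norm_num)
  have h2n : (0 : ℝ) < 2 ^ n := by positivity
  rw [div_lt_iff₀ hη] at hn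
  have hl2 : 0 < Real.log 2 := Real.log_pos (by norm_num)
  have hβ0 : 0 < β := by linarith
  filter_upwards [eventually_ge_atTop T8, eventually_ge_atTop (2 ^ n * (|Y| + 1)), eventually_gt_atTop (1 : ℝ),
    eventually_ge_atTop (4 * C8 / η + 1), eventually_ge_atTop (Real.exp (2 * β * (n * Real.log 2 + 1) / δ + 1))]
    with T hTa hTb hT1 hTc hTd
  have hT0 : 0 < T := by linarith
  have hL : 0 < Real.log T := Real.log_pos hT1
  have hD : 0 < T * Real.log T := by positivity
  have hLd : 2 * β * (n * Real.log 2 + 1) / δ ≤ Real.log T := by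
    have : 2 * β * (n * Real.log 2 + 1) / δ + 1 ≤ Real.log T := by
      rw [Real.le_log_iff_exp_le hT0]; exact hTd
    linarith
  rw [div_le_iff₀ hδ] at hLd
  obtain ⟨V, hV⟩ : ∃ V : ℝ, V = T / 2 ^ n := ⟨_, rfl⟩
  have hV1 : |Y| + 1 ≤ V := by
    rw [hV, le_div_iff₀ h2n]
    linarith
  have hV0 : 0 < V := by
    have := abs_nonneg Y
    linarith
  have hVT : V ≤ T := by
    rw [hV]; exact div_le_self hT0.le (one_le_pow₀ (by norm_num))
  have hlogV : Real.log V = Real.log T - n * Real.log 2 := by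
    rw [hV, Real.log_div hT0.ne' h2n.ne', Real.log_pow]
  have hf := stb_xi.heatd 0 le_rfl
  have hst : ∀ s, XT 0 s = 0 → |s.re| ≤ 1 / 2 := fun s hs => stb_xi.strip 0 s le_rfl hs
  have hpi := Real.pi_pos
  have hsub : SP (Od (XT 0)) T α β ⊆ PR (XT 0) (fun y => 0 < y ∧ y ≤ V) 0 T := by
    rintro p ⟨h1, h2, h3, h4, h5⟩
    refine ⟨h1, ⟨h2, ?_⟩, by linarith [h1.1], by linarith⟩
    by_contra hcon
    push Not at hcon
    have h1' : p ∈ CP ZOrd := by
      have : p ∈ SP ZOrd T α β := by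
        rw [zeta_sp, ← stb_xi.zero]; exact ⟨h1, h2, h3, h4, h5⟩
      exact this.1
    obtain ⟨m, hm, hm2⟩ := hY p h1' (by
      have := le_abs_self Y
      linarith)
    obtain ⟨g1, g2⟩ := ll h2 h1.1
    have hp2 : 0 < p.2 := h2.trans h1.1
    have hlp : Real.log V ≤ Real.log p.2 := Real.log_le_log hV0 (by linarith [h1.1])
    have hlT : Real.log p.2 ≤ Real.log T := Real.log_le_log hp2 h3
    obtain ⟨d, hd⟩ : ∃ d : ℝ, d = (p.2 - p.1) / (2 * Real.pi) := ⟨_, rfl⟩
    have hd0 : 0 < d := by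
      rw [hd]; have := h1.1; apply div_pos (by linarith) (by positivity)
    have e1 : (p.2 - p.1) * (Real.log T / (2 * Real.pi)) = d * Real.log T := by rw [hd]; ring
    rw [e1] at h4 h5
    obtain ⟨z, hz⟩ : ∃ z : ℝ, z = (p.2 * Real.log p.2 - p.1 * Real.log p.1) / (2 * Real.pi) := ⟨_, rfl⟩
    have g3 : d * Real.log p.2 ≤ z := by
      rw [hz, hd, div_mul_eq_mul_div]
      exact div_le_div_of_nonneg_right g1 (by positivity)
    have g4 : z ≤ d * (Real.log p.2 + 1) := by
      rw [hz, hd, div_mul_eq_mul_div]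
      exact div_le_div_of_nonneg_right g2 (by positivity)
    rw [← hz] at hm2
    -- `d (n log 2 + 1) ≤ δ / 2`
    have g5 : d * (n * Real.log 2 + 1) ≤ δ / 2 := by
      have h6 : 0 ≤ n * Real.log 2 + 1 := by positivity
      have h7 : d * (2 * (n * Real.log 2 + 1)) * Real.log T ≤ δ * Real.log T := by
        have h8 := mul_le_mul_of_nonneg_right h5 (show 0 ≤ 2 * (n * Real.log 2 + 1) by positivity)
        linarith
      have h9 := le_of_mul_le_mul_right h7 hL
      linarith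
    have g6 : d * Real.log T - d * (n * Real.log 2) ≤ d * Real.log p.2 := by
      rw [← mul_sub, ← hlogV]
      exact mul_le_mul_of_nonneg_left hlp hd0.le
    have g7 : d * Real.log p.2 ≤ d * Real.log T := mul_le_mul_of_nonneg_left hlT hd0.le
    have g8 : 0 ≤ d * (n * Real.log 2) := by positivity
    rw [abs_lt] at hm2
    have hmem : (m : ℝ) / 2 ∈ Icc (α - δ) (β + δ) := by
      constructor
      · linarith
      · linarith
    exact Set.disjoint_left.1 hdis2 hmem ⟨m, hm, rfl⟩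
  have e1 := PR_rem hf hst 0 T hV0.le (M := C8 * Real.log T) (by positivity)
    (fun t h1 h2 => hnn T 0 t hTa le_rfl (by positivity) h1 (by linarith))
  have e2 : ((SP ZOrd T α β).ncard : ℝ) ≤ (V + 1) * (C8 * Real.log T) := by
    rw [zeta_sp, ← stb_xi.zero]
    refine le_trans ?_ e1
    exact_mod_cast Set.ncard_le_ncard hsub (PR_f hf hst 0 T 0 V)
  rw [Real.dist_eq, sub_zero, abs_of_nonneg (by positivity), div_lt_iff₀ hD]
  have e3 : V * C8 ≤ η / 4 * T := by
    rw [hV, div_mul_eq_mul_div, div_le_iff₀ h2n]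
    have h2 := mul_le_mul_of_nonneg_left hn.le (show 0 ≤ T / 4 by positivity)
    have e6 : T / 4 * (4 * C8) = T * C8 := by ring
    have e7 : T / 4 * (2 ^ n * η) = η / 4 * T * 2 ^ n := by ring
    rw [e6, e7] at h2
    exact h2
  have e4 : C8 ≤ η / 4 * T := by
    have h3 : 4 * C8 / η ≤ T := by linarith
    rw [div_le_iff₀ hη] at h3
    linarith
  have e5 : (V + 1) * C8 ≤ η / 2 * T := by linarith
  calc ((SP ZOrd T α β).ncard : ℝ) ≤ (V + 1) * (C8 * Real.log T) := e2
    _ = (V + 1) * C8 * Real.log T := by ring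
    _ ≤ η / 2 * T * Real.log T := mul_le_mul_of_nonneg_right e5 hL.le
    _ < η * (T * Real.log T) := by
        have : 0 < η * (T * Real.log T) := by positivity
        linarith

theorem cryH (ε A : ℝ) (hε : 0 < ε) (hε1 : ε ≤ 1) (hA : 0 < A) :
    ∃ K T0 : ℝ, 0 < K ∧ 2 ≤ T0 ∧ ∀ T t : ℝ, T0 ≤ T → K ≤ t * Real.log T ^ 2 → t * Real.log T ≤ A →
    ((BS (HOrd (Ht t)) T ε 0 T).ncard : ℝ) ≤ ε * (T * Real.log T) := by
  obtain ⟨K, T0, hK, hT0, h⟩ := cryB stb_xi unit0_xi ε A hε hε1 hA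
  refine ⟨4 * K, T0, by positivity, hT0, ?_⟩
  intro T t hT h1 h2
  have hL : 0 < Real.log T := Real.log_pos (by linarith)
  have ht : 0 < t := by
    by_contra hcon
    push Not at hcon
    have : t * Real.log T ^ 2 ≤ 0 := mul_nonpos_of_nonpos_of_nonneg hcon (by positivity)
    linarith
  rw [ht_od ht.le]
  refine h T (t / 4) hT ?_ ?_
  · have e : t / 4 * Real.log T ^ 2 = t * Real.log T ^ 2 / 4 := by ring
    rw [e]; linarith
  · have : 0 ≤ t * Real.log T := by positivity
    have e : t / 4 * Real.log T = t * Real.log T / 4 := by ring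
    rw [e]; linarith

theorem cry_near {t : ℝ → ℝ} {A : ℝ} (hA : ∀ᶠ T : ℝ in atTop, t T * Real.log T ≤ A)
    (ht : Tendsto (fun T => t T * Real.log T ^ 2) atTop atTop) :
    NearE (fun T α β => ((SP (HOrd (Ht (t T))) T α β).ncard : ℝ)) {1} := by
  intro α β hα hαβ hdis
  have h1 : (1 : ℝ) ∉ Icc α β := fun h => Set.disjoint_left.1 hdis h rfl
  obtain ⟨ε0, hε0, hε0'⟩ : ∃ ε0 : ℝ, 0 < ε0 ∧ (β ≤ 1 - ε0 ∨ 1 + ε0 ≤ α) := by
    by_cases h2 : α ≤ 1
    · have h3 : β < 1 := by
        by_contra hcon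
        push Not at hcon
        exact h1 ⟨h2, hcon⟩
      exact ⟨1 - β, by linarith, Or.inl (by linarith)⟩
    · push Not at h2
      exact ⟨α - 1, by linarith, Or.inr (by linarith)⟩
  rw [Metric.tendsto_nhds]
  intro η hη
  obtain ⟨ε, hε⟩ : ∃ ε : ℝ, ε = min (min ε0 1) (η / 2) := ⟨_, rfl⟩
  have he0 : 0 < ε := by rw [hε]; exact lt_min (lt_min hε0 one_pos) (by positivity)
  have he1 : ε ≤ 1 := by rw [hε]; exact (min_le_left _ _).trans (min_le_right _ _)
  have he2 : ε ≤ ε0 := by rw [hε]; exact (min_le_left _ _).trans (min_le_left _ _)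
  have he3 : ε ≤ η / 2 := by rw [hε]; exact min_le_right _ _
  obtain ⟨K, T0, hK, hT0, h⟩ := cryH ε (|A| + 1) he0 he1 (by positivity)
  filter_upwards [hA, ht.eventually_ge_atTop K, eventually_ge_atTop T0, eventually_gt_atTop (1 : ℝ)]
    with T g1 g2 g3 g4
  have hL : 0 < Real.log T := Real.log_pos g4
  have hD : 0 < T * Real.log T := by positivity
  have htT : 0 < t T := by
    by_contra hcon
    push Not at hcon
    have : t T * Real.log T ^ 2 ≤ 0 := mul_nonpos_of_nonpos_of_nonneg hcon (by positivity)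
    linarith
  have h2 := h T (t T) g3 g2 (g1.trans (by have := le_abs_self A; linarith))
  have h3 : ((SP (HOrd (Ht (t T))) T α β).ncard : ℝ) ≤ ((BS (HOrd (Ht (t T))) T ε 0 T).ncard : ℝ) := by
    have hsub : SP (HOrd (Ht (t T))) T α β ⊆ BS (HOrd (Ht (t T))) T ε 0 T := by
      rintro p ⟨k1, k2, k3, k4, k5⟩
      refine ⟨k1, k2, k1.1.le.trans k3, k3, ?_⟩
      rcases hε0' with h5 | h5
      · rw [abs_of_nonpos (by linarith)]
        linarith
      · rw [abs_of_nonneg (by linarith)]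
        linarith
    have h5 : 0 ≤ t T / 4 := by positivity
    have hfin : (BS (HOrd (Ht (t T))) T ε 0 T).Finite := by
      rw [ht_od htT.le]
      exact (BS_fin (stb_xi.heatd _ h5) (fun s hs => stb_xi.strip _ s h5 hs) T ε 0 T le_rfl).2
    exact_mod_cast Set.ncard_le_ncard hsub hfin
  rw [Real.dist_eq, sub_zero, abs_of_nonneg (by positivity), div_lt_iff₀ hD]
  have h6 := mul_le_mul_of_nonneg_right he3 hD.le
  have h7 : η / 2 * (T * Real.log T) < η * (T * Real.log T) := by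
    have : 0 < η * (T * Real.log T) := by positivity
    linarith
  linarith

end Pool.Agent.R838.ST
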