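import Pool.Agent.R838.ST.Gdm

set_option autoImplicit false

/-!
# Comparison of the tuples of zeros at two small times, dyadic blocks
-/

namespace Pool.Agent.R838.ST

open Complex Filter Topology MeasureTheory Set
open Pool.Agent.H24R2.JP (Om)
open Pool.Agent.H24R2.DZ (ra NN)
open Pool.Agent.R838.CR
open Pool.Agent.W186.SD (S_NGN S_AW S_CNT S_COV Std)

lemma win_le {H0 a ω : ℝ} (hω : 0 < ω) (h : 400 * (1 + H0) ≤ a) : 1 / ω + H0 / ω ≤ a / ω / 400 := by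
  rw [← add_div, div_right_comm]
  exact div_le_div_of_nonneg_right (by linarith) hω.le

lemma log4 {U : ℝ} (hU : 4 ≤ U) : Real.log (4 * U) ≤ 2 * Real.log U := by
  have h4 : Real.log (4 * U) ≤ Real.log (U ^ 2) := Real.log_le_log (by linarith) (by nlinarith)
  rw [Real.log_pow] at h4
  exact_mod_cast h4

lemma crd {U ω : ℝ} (hU : 5 ≤ U) (hω : 2 ≤ ω) : (U + 2) * ω + 1 ≤ 3 * U * ω := by
  nlinarith

lemma expa {Cw c a ε : ℝ} (hc : 0 < c) (hε : 0 < ε) (ha : 4 * Cw / (c * ε) ≤ a) :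
    Cw * Real.exp (-(c * a)) ≤ ε / 4 := by
  rw [div_le_iff₀ (by positivity)] at ha
  have h1 := Real.add_one_le_exp (c * a)
  rw [Real.exp_neg, ← div_eq_mul_inv, div_le_iff₀ (Real.exp_pos _)]
  have h2 : ε / 4 * (c * a + 1) ≤ ε / 4 * Real.exp (c * a) := mul_le_mul_of_nonneg_left h1 (by positivity)
  have h3 : ε / 4 * (c * a + 1) = a * (c * ε) / 4 + ε / 4 := by ring
  linarith

lemma kap {e0 a : ℝ} (he : e0 ≤ 1 / 4) (ha : 400 ≤ a) : e0 / (2 * a) ≤ 1 / 20 := by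
  rw [div_le_div_iff₀ (by linarith) (by norm_num)]
  linarith

lemma TP_mono {f : ℂ → ℂ} {k : ℕ} {P P' : ℝ → Prop} {α β α' β' : Fin k → ℝ} (hP : ∀ y, P y → P' y)
    (hα : ∀ i, α' i ≤ α i) (hβ : ∀ i, β i ≤ β' i) : TP f P α β ⊆ TP f P' α' β' := by
  rintro x ⟨h1, h2, h3, h4⟩
  exact ⟨h1, h2, hP _ h3, fun i => ⟨(hα i).trans (h4 i).1, (h4 i).2.trans (hβ i)⟩⟩

lemma Zi_one : Zi (fun _ : ℂ => (1 : ℂ)) = ∅ := by
  ext p
  simp only [Set.mem_empty_iff_false, iff_false]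
  intro hp
  have := Zi_zero (differentiable_const (1 : ℂ)) hp
  exact one_ne_zero this

lemma TP_one {k : ℕ} (P : ℝ → Prop) (α β : Fin k → ℝ) : (TP (fun _ : ℂ => (1 : ℂ)) P α β).ncard = 0 := by
  have : TP (fun _ : ℂ => (1 : ℂ)) P α β = ∅ := by
    ext x
    simp only [Set.mem_empty_iff_false, iff_false]
    intro hx
    have := hx.1 0
    rw [Zi_one] at this
    exact this
  rw [this, Set.ncard_empty]

theorem crude {B : ℝ} {F : ℂ → ℂ} {FT : ℝ → ℂ → ℂ} (hD : STB B F FT) (h0 : UNIT0 F) (hNGN : S_NGN)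
    (hAW : S_AW) (hCNT : S_CNT) (hCOV : S_COV) (k : ℕ) (H0 : ℝ) (hH0 : 0 ≤ H0) :
    ∃ δ C U0 : ℝ, 0 < δ ∧ 0 < C ∧ 2 ≤ U0 ∧ ∀ (U τ' : ℝ) (α β : Fin k → ℝ), U0 ≤ U → 0 ≤ τ' →
    τ' ≤ δ / Om U ^ 2 → (∀ i, -(H0 / Om U) ≤ α i) → (∀ i, β i ≤ H0 / Om U) →
    ((TP (FT τ') (fun y => U < y ∧ y ≤ 2 * U) α β).ncard : ℝ) ≤ C * U * Om U := by
  classical
  obtain ⟨Rs1, ηs1, hR1, hη1, hW⟩ := midw hD h0 hNGN hAW hCNT hCOV
  obtain ⟨Rs2, ηs2, c2, a2, C2, T2, hR2, hη2, hc2, ha2, hC2, hT2, hN⟩ := goodn hD hNGN hAW hCNT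
  obtain ⟨R, hR⟩ : ∃ R : ℝ, R = max Rs1 Rs2 := ⟨_, rfl⟩
  obtain ⟨η, hη⟩ : ∃ η : ℝ, η = min ηs1 ηs2 := ⟨_, rfl⟩
  have hη0 : 0 < η := by rw [hη]; exact lt_min hη1 hη2
  obtain ⟨c, Cw, cw, aw, Tw, hc, hCw, hcw, haw, hTw, hW⟩ := hW R η (by rw [hR]; exact le_max_left _ _) hη0
    (by rw [hη]; exact min_le_left _ _) (k + 1)
  have hN := hN R η (by rw [hR]; exact le_max_right _ _) hη0 (by rw [hη]; exact min_le_right _ _)
  obtain ⟨a, ha⟩ : ∃ a : ℝ, a = max (max aw a2) (400 * (1 + H0)) := ⟨_, rfl⟩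
  have ha1 : aw ≤ a := by rw [ha]; exact (le_max_left _ _).trans (le_max_left _ _)
  have ha2' : a2 ≤ a := by rw [ha]; exact (le_max_right _ _).trans (le_max_left _ _)
  have ha3 : 400 * (1 + H0) ≤ a := by rw [ha]; exact le_max_right _ _
  have ha0 : 1 ≤ a := haw.trans ha1
  have hap : 0 < a := by linarith
  obtain ⟨T3, hT3, hstd⟩ := std_ex (c0 := min cw c2) ha0 (lt_min hcw hc2)
  refine ⟨a / 2, 3 * (C2 * a) ^ (k + 1) + Cw, max (max Tw T2) (max T3 (Real.exp 4)), by positivity, by positivity,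
    hTw.trans ((le_max_left _ _).trans (le_max_left _ _)), ?_⟩
  intro U τ' α β hU hτ0 hτ hα hβ
  simp only [max_le_iff] at hU
  obtain ⟨⟨hU1, hU2⟩, hU3, hU4⟩ := hU
  have hU5 : (5 : ℝ) ≤ U := by
    have := Real.add_one_le_exp (4 : ℝ)
    linarith
  have hU0 : 0 < U := by linarith
  have hL : 4 ≤ Real.log U := by rw [Real.le_log_iff_exp_le hU0]; exact hU4
  have hOm : Om U = Real.log U / 2 := rfl
  obtain ⟨ω, hω⟩ : ∃ ω : ℝ, ω = Om U := ⟨_, rfl⟩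
  have hω2 : 2 ≤ ω := by rw [hω, hOm]; linarith
  have hω0 : 0 < ω := by linarith
  obtain ⟨J, hJ⟩ := hstd U hU3
  rw [← hω] at hα hβ hτ hJ ⊢
  have hJw : Std cw U (a / (2 * ω ^ 2)) a J := ⟨hJ.tau, hJ.a_eq, hJ.small.trans (mul_le_mul_of_nonneg_right
    (min_le_left _ _) (by rw [← hω]; exact hω0.le)), hJ.top, hJ.top'⟩
  have hJ2 : Std c2 U (a / (2 * ω ^ 2)) a J := ⟨hJ.tau, hJ.a_eq, hJ.small.trans (mul_le_mul_of_nonneg_right
    (min_le_right _ _) (by rw [← hω]; exact hω0.le)), hJ.top, hJ.top'⟩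
  have hττ : τ' ≤ a / (2 * ω ^ 2) := by
    refine hτ.trans (le_of_eq ?_)
    field_simp
  have hra : ra U a = a / ω := by rw [hω]; rfl
  have hH : 0 ≤ H0 / ω := by positivity
  have h1ω : 0 < 1 / ω := by positivity
  have h1ω1 : 1 / ω ≤ 1 := by rw [div_le_one hω0]; linarith
  have hwin : 1 / ω + H0 / ω ≤ ra U a / 400 := by rw [hra]; exact win_le hω0 ha3
  have hρr : 1 / ω ≤ ra U a / 400 := by linarith
  have key := glue (f := FT τ') (g := fun _ => 1) (B := B) (hD.heatd τ' hτ0) (fun s hs => hD.strip τ' s hτ0 hs)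
    (differentiable_const _) (fun s hs => absurd hs one_ne_zero) hH hα hβ (h := 1 / ω) (ε := 0) (ρ := 1 / ω)
    (U := U) (V := 2 * U) h1ω.le le_rfl (grid (1 / ω) (U - 1) (2 * U + 1)) (grid_sep h1ω)
    (fun x hx1 hx2 => grid_cov h1ω (by linarith) (by linarith)) (fun _ => True)
    (fun t _ h => absurd trivial h)
  rw [TP_one] at key
  have e1 : 2 * (1 / ω) / (1 / ω) - 1 = 1 := by field_simp; norm_num
  rw [e1, one_mul, Nat.cast_zero, mul_zero, zero_add, Finset.filter_true] at key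
  refine key.trans ?_
  obtain ⟨G, hG⟩ : ∃ G : Finset ℝ, G = grid (1 / ω) (U - 1) (2 * U + 1) := ⟨_, rfl⟩
  rw [← hG]
  have hGm : ∀ t ∈ G, U / 2 + 1 ≤ t ∧ t ≤ 3 * U - 1 := by
    intro t ht
    rw [hG] at ht
    have := grid_mem h1ω ht
    constructor <;> linarith
  have hcard : (G.card : ℝ) ≤ 3 * U * ω := by
    rw [hG]
    refine (grid_card h1ω (by linarith)).trans ?_
    have : (2 * U + 1 - (U - 1)) / (1 / ω) = (U + 2) * ω := by field_simp; ring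
    rw [this]
    exact crd hU5 hω2
  rw [← Finset.sum_filter_add_sum_filter_not G (fun t => GH F R η U a J t)]
  have hgood : ∑ t ∈ G with GH F R η U a J t, (nn (FT τ') t (1 / ω + H0 / ω) : ℝ) ^ (k + 1) ≤
      3 * (C2 * a) ^ (k + 1) * U * ω := by
    calc ∑ t ∈ G with GH F R η U a J t, (nn (FT τ') t (1 / ω + H0 / ω) : ℝ) ^ (k + 1)
        ≤ ∑ t ∈ G with GH F R η U a J t, (C2 * a) ^ (k + 1) := by
          refine Finset.sum_le_sum fun t ht => ?_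
          rw [Finset.mem_filter] at ht
          obtain ⟨h1, h2⟩ := hGm t ht.1
          exact pow_le_pow_left₀ (Nat.cast_nonneg _)
            (hN U (a / (2 * ω ^ 2)) τ' a t _ J hU2 ha2' hJ2 hτ0 hττ h1 h2 ht.2 hwin) _
      _ ≤ ∑ t ∈ G, (C2 * a) ^ (k + 1) :=
          Finset.sum_le_sum_of_subset_of_nonneg (Finset.filter_subset _ _) fun _ _ _ => by positivity
      _ = G.card * (C2 * a) ^ (k + 1) := by rw [Finset.sum_const, nsmul_eq_mul]
      _ ≤ 3 * U * ω * (C2 * a) ^ (k + 1) := mul_le_mul_of_nonneg_right hcard (by positivity)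
      _ = _ := by ring
  have hbad : ∑ t ∈ G with ¬ GH F R η U a J t, (nn (FT τ') t (1 / ω + H0 / ω) : ℝ) ^ (k + 1) ≤ Cw * U * ω := by
    refine (hW U (a / (2 * ω ^ 2)) τ' a (1 / ω) (1 / ω + H0 / ω) J (G.filter fun t => ¬ GH F R η U a J t)
      hU1 ha1 hJw hτ0 hττ h1ω hρr hwin (fun t ht => ?_)
      ((by rw [hG]; exact grid_sep h1ω : Sep G (1 / ω)).subset (Finset.filter_subset _ _))).trans ?_
    · rw [Finset.mem_filter] at ht
      obtain ⟨h1, h2⟩ := hGm t ht.1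
      exact ⟨h1, h2, ht.2⟩
    · have h5 : Real.exp (-(c * a)) ≤ 1 := Real.exp_le_one_iff.2 (by
        have : 0 < c * a := by positivity
        linarith)
      calc Cw * (U / (1 / ω)) * Real.exp (-(c * a)) ≤ Cw * (U / (1 / ω)) * 1 :=
            mul_le_mul_of_nonneg_left h5 (by positivity)
        _ = Cw * U * ω := by field_simp
  calc _ ≤ 3 * (C2 * a) ^ (k + 1) * U * ω + Cw * U * ω := add_le_add hgood hbad
    _ = _ := by ring

/-- Powers of the logarithm are small. -/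
lemma log_small (C : ℝ) (hC : 0 ≤ C) (n : ℕ) {ε : ℝ} (hε : 0 < ε) :
    ∃ U0 : ℝ, 2 ≤ U0 ∧ ∀ U : ℝ, U0 ≤ U → (C * Real.log (4 * U)) ^ n ≤ ε * U := by
  obtain ⟨D, hD, hD'⟩ := pow_le_exp n (c := 1 / 2) (by norm_num)
  refine ⟨max 2 ((2 * C ^ n * D / ε) ^ 2), le_max_left _ _, ?_⟩
  intro U hU
  have hU2 : 2 ≤ U := (le_max_left _ _).trans hU
  have hU3 : (2 * C ^ n * D / ε) ^ 2 ≤ U := (le_max_right _ _).trans hU
  have hU0 : 0 < U := by linarith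
  have hl : 0 ≤ Real.log (4 * U) := Real.log_nonneg (by linarith)
  have h1 := hD' _ hl
  have h2 : Real.exp (1 / 2 * Real.log (4 * U)) = 2 * Real.sqrt U := by
    have h3 : Real.exp (1 / 2 * Real.log (4 * U)) ^ 2 = (2 * Real.sqrt U) ^ 2 := by
      rw [← Real.exp_nat_mul, mul_pow, Real.sq_sqrt hU0.le]
      have : ((2 : ℕ) : ℝ) * (1 / 2 * Real.log (4 * U)) = Real.log (4 * U) := by push_cast; ring
      rw [this, Real.exp_log (by linarith)]
      norm_num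
    exact (pow_left_inj₀ (Real.exp_pos _).le (by positivity) (by norm_num)).1 h3
  have hs : 2 * C ^ n * D / ε ≤ Real.sqrt U := Real.le_sqrt_of_sq_le hU3
  rw [div_le_iff₀ hε] at hs
  have hss : Real.sqrt U * Real.sqrt U = U := Real.mul_self_sqrt hU0.le
  calc (C * Real.log (4 * U)) ^ n = C ^ n * Real.log (4 * U) ^ n := mul_pow _ _ _
    _ ≤ C ^ n * (D * Real.exp (1 / 2 * Real.log (4 * U))) := by gcongr
    _ = 2 * C ^ n * D * Real.sqrt U := by rw [h2]; ring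
    _ ≤ (Real.sqrt U * ε) * Real.sqrt U := mul_le_mul_of_nonneg_right hs (Real.sqrt_nonneg _)
    _ = ε * (Real.sqrt U * Real.sqrt U) := by ring
    _ = ε * U := by rw [hss]

/-- The boundary terms. -/
lemma bdry {f : ℂ → ℂ} {B : ℝ} (hf : Differentiable ℂ f) (hs : ∀ s, f s = 0 → |s.re| ≤ B)
    {k : ℕ} {α β : Fin k → ℝ} {H : ℝ} (hH : 0 ≤ H) (hα : ∀ i, -H ≤ α i) (hβ : ∀ i, β i ≤ H)
    {U V ρ M : ℝ} (hU : (nn f U (ρ + H) : ℝ) ≤ M) (hV : (nn f V (ρ + H) : ℝ) ≤ M) :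
    ((TP f (fun y => U - ρ < y ∧ y ≤ V + ρ) α β).ncard : ℝ) ≤
      ((TP f (fun y => U < y ∧ y ≤ V) α β).ncard : ℝ) + 2 * M ^ (k + 1) := by
  have hbd : ∀ x : ℝ, (nn f x (ρ + H) : ℝ) ≤ M →
      ((TP f (fun y => |y - x| ≤ ρ) α β).ncard : ℝ) ≤ M ^ (k + 1) := by
    intro x hx
    have h1 := TP_le hf hs hH hα hβ (P := fun y => |y - x| ≤ ρ) (t := x) (h := ρ) (fun y hy => hy)
    have h9 : ((TP f (fun y => |y - x| ≤ ρ) α β).ncard : ℝ) ≤ (nn f x (ρ + H) : ℝ) ^ (k + 1) := by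
      exact_mod_cast h1
    exact h9.trans (pow_le_pow_left₀ (Nat.cast_nonneg _) hx _)
  have hsub : TP f (fun y => U - ρ < y ∧ y ≤ V + ρ) α β ⊆
      (TP f (fun y => U < y ∧ y ≤ V) α β ∪ TP f (fun y => |y - U| ≤ ρ) α β) ∪
        TP f (fun y => |y - V| ≤ ρ) α β := by
    rintro x ⟨h1, h2, h3, h4⟩
    rcases le_or_gt (x 0).1.im U with h5 | h5
    · left; right
      refine ⟨h1, h2, ?_, h4⟩
      show |(x 0).1.im - U| ≤ ρ
      rw [abs_le]
      constructor <;> linarith [h3.1]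
    · rcases le_or_gt (x 0).1.im V with h6 | h6
      · left; left
        exact ⟨h1, h2, ⟨h5, h6⟩, h4⟩
      · right
        refine ⟨h1, h2, ?_, h4⟩
        show |(x 0).1.im - V| ≤ ρ
        rw [abs_le]
        constructor <;> linarith [h3.2]
  have hf1 := TP_fin hf hs hH hα hβ (P := fun y => U < y ∧ y ≤ V) (u := U) (v := V)
    (fun y hy => ⟨hy.1.le, hy.2⟩)
  have hf2 := TP_fin hf hs hH hα hβ (P := fun y => |y - U| ≤ ρ) (u := U - ρ) (v := U + ρ)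
    (fun y hy => by have := abs_le.1 hy; constructor <;> linarith)
  have hf3 := TP_fin hf hs hH hα hβ (P := fun y => |y - V| ≤ ρ) (u := V - ρ) (v := V + ρ)
    (fun y hy => by have := abs_le.1 hy; constructor <;> linarith)
  have h1 := (Set.ncard_le_ncard hsub ((hf1.union hf2).union hf3)).trans
    ((Set.ncard_union_le _ _).trans (Nat.add_le_add_right (Set.ncard_union_le _ _) _))
  have h2 : ((TP f (fun y => U - ρ < y ∧ y ≤ V + ρ) α β).ncard : ℝ) ≤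
      ((TP f (fun y => U < y ∧ y ≤ V) α β).ncard : ℝ) + ((TP f (fun y => |y - U| ≤ ρ) α β).ncard : ℝ) +
      ((TP f (fun y => |y - V| ≤ ρ) α β).ncard : ℝ) := by
    exact_mod_cast h1
  have h3 := hbd U hU
  have h4 := hbd V hV
  linarith

/-- Numbers. -/
lemma numb {e0 N1 N2 N3 W ε C : ℝ} (he0 : 0 < e0) (he1 : e0 ≤ 1 / 4) (hN3 : 0 ≤ N3) (hW : 0 ≤ W) (hε : 0 < ε)
    (h1 : (2 / e0 - 1) * N1 ≤ (2 / e0 + 3) * N2 + ε / 4 * W / e0) (h2 : N2 ≤ N3 + ε / 8 * W)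
    (h3 : N3 ≤ C * W) (h4 : 4 * e0 * C ≤ ε / 4) : N1 ≤ N3 + ε * W := by
  have q4 : (2 - e0) * N1 ≤ (2 + 3 * e0) * N2 + ε / 4 * W := by
    have h5 := mul_le_mul_of_nonneg_left h1 he0.le
    have e1 : e0 * ((2 / e0 - 1) * N1) = (2 - e0) * N1 := by field_simp
    have e2 : e0 * ((2 / e0 + 3) * N2 + ε / 4 * W / e0) = (2 + 3 * e0) * N2 + ε / 4 * W := by
      field_simp
    rw [e1, e2] at h5
    exact h5
  have q6 : 4 * e0 * N3 ≤ ε / 4 * W := by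
    calc 4 * e0 * N3 ≤ 4 * e0 * (C * W) := mul_le_mul_of_nonneg_left h3 (by positivity)
      _ = 4 * e0 * C * W := by ring
      _ ≤ ε / 4 * W := mul_le_mul_of_nonneg_right h4 hW
  have q7 : (2 + 3 * e0) * N2 ≤ (2 + 3 * e0) * (N3 + ε / 8 * W) :=
    mul_le_mul_of_nonneg_left h2 (by positivity)
  have hεW : 0 ≤ ε * W := by positivity
  have q8 : (2 + 3 * e0) * (ε / 8 * W) ≤ 11 / 4 * (ε / 8 * W) :=
    mul_le_mul_of_nonneg_right (by linarith) (by positivity)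
  have q9 : (2 - e0) * N1 ≤ (2 - e0) * N3 + 27 / 32 * (ε * W) := by
    calc (2 - e0) * N1 ≤ (2 + 3 * e0) * (N3 + ε / 8 * W) + ε / 4 * W := q4.trans (add_le_add q7 le_rfl)
      _ = (2 - e0) * N3 + 4 * e0 * N3 + (2 + 3 * e0) * (ε / 8 * W) + ε / 4 * W := by ring
      _ ≤ (2 - e0) * N3 + ε / 4 * W + 11 / 4 * (ε / 8 * W) + ε / 4 * W := by linarith
      _ = _ := by ring
  have q10 : 27 / 32 * (ε * W) ≤ (2 - e0) * (ε * W) := mul_le_mul_of_nonneg_right (by linarith) hεW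
  have q11 : (2 - e0) * N1 ≤ (2 - e0) * (N3 + ε * W) := by
    rw [mul_add]; linarith
  exact le_of_mul_le_mul_left q11 (by linarith)

end Pool.Agent.R838.ST
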