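import Pool.Agent.R838.ST.Pts
import Pool.Agent.W337.SD.Cnt

set_option autoImplicit false

/-!
# Zeros near good heights, small times: location at time zero, counting

Variants of `Pool.Agent.R838.LD.PT`, `Pool.Agent.R838.LD.Cnx` (ports of starting modules).
-/

namespace Pool.Agent.R838.ST

open Complex Filter Topology MeasureTheory Set
open Pool.Agent.Y671.LD (badH FarOK LocH TopOK)
open Pool.Agent.R838.LD.Y228 (LocH_mono FarOK_mono TopOK_mono ord_tr')
open Pool.Agent.H24R2.JP (Om)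
open Pool.Agent.H24R2.DZ (ra NN)
open Pool.Agent.R838.CR
open Pool.Agent.W186.SD (UU NG Grow S_NGN S_AW S_CNT Std)
open Pool.Agent.W186.SD.PTaux (NG_mono NN_mono UU_symm F_one_pos noz)
open Pool.Agent.W337.SD (jcount big1)

/-- location of the zeros at time zero -/
def PT0 (F : ℂ → ℂ) : Prop :=
  ∃ R η : ℝ, 1 ≤ R ∧ 0 < η ∧
  ∀ (T a c0 τ : ℝ) (J j : ℕ) (s : ℂ), Real.exp 4 ≤ T → 1 ≤ a → Std c0 T τ a J → T / 2 ≤ s.im →
    s.im ≤ 3 * T → j ≤ J → LocH F η T a j J s.im → TopOK F R η s.im → F s = 0 →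
    |s.re| ≤ ra T (2 ^ j * a) / 2

theorem pt0 {B : ℝ} {F : ℂ → ℂ} {FT : ℝ → ℂ → ℂ} (hD : STB B F FT) : PT0 F := by
  refine ⟨max 1 (B + 1), 1, le_max_left _ _, one_pos, ?_⟩
  intro T a c0 τ J j s hT4 ha1 hS hs1 hs2 hjJ hLoc hTop hz
  have hTpos : 0 < T := lt_of_lt_of_le (Real.exp_pos 4) hT4
  have hlog : 4 ≤ Real.log T := by
    rw [Real.le_log_iff_exp_le hTpos]; exact hT4
  set ω : ℝ := Om T with hω
  have hωe : ω = Real.log T / 2 := rfl
  have hω2 : 2 ≤ ω := by rw [hωe]; linarith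
  have hra : ∀ i : ℕ, ra T (2 ^ i * a) = 2 ^ i * a / ω := fun i => rfl
  have hrpos : ∀ i : ℕ, 0 < ra T (2 ^ i * a) := fun i => by rw [hra]; positivity
  -- also the mirror image is a zero
  have hzm : F (-((starRingEnd ℂ) s)) = 0 := by
    rw [hD.symm, hz, map_zero]
  obtain ⟨s', hs'0, hs're, hs'im⟩ : ∃ s' : ℂ, F s' = 0 ∧ s'.re = |s.re| ∧ s'.im = s.im := by
    rcases le_total 0 s.re with h | h
    · exact ⟨s, hz, (abs_of_nonneg h).symm, rfl⟩
    · exact ⟨-((starRingEnd ℂ) s), hzm, by simp [abs_of_nonpos h], by simp⟩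
  have hno : ∀ i : ℕ, j ≤ i → i ≤ J →
      ¬ (ra T (2 ^ i * a) / 2 ≤ |s.re| ∧ |s.re| ≤ 6 * ra T (2 ^ i * a)) := by
    rintro i hi1 hi2 ⟨h1, h2⟩
    obtain ⟨t', ht', hN⟩ := hLoc i hi1 hi2
    have hr := hrpos i
    have hrc : ((ra T (2 ^ i * a) : ℝ) : ℂ) ≠ 0 := by exact_mod_cast hr.ne'
    have hre : ((s' - I * t') / (ra T (2 ^ i * a) : ℝ)).re = |s.re| / ra T (2 ^ i * a) := by
      rw [Complex.div_ofReal_re]; simp [hs're]
    have him : ((s' - I * t') / (ra T (2 ^ i * a) : ℝ)).im = (s.im - t') / ra T (2 ^ i * a) := by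
      rw [Complex.div_ofReal_im]; simp [hs'im]
    refine (hN.far ((s' - I * t') / (ra T (2 ^ i * a) : ℝ)) ?_ ?_).1 ?_
    · rw [hre, le_div_iff₀ hr]; linarith
    · refine (Complex.norm_le_abs_re_add_abs_im _).trans ?_
      rw [hre, him, abs_div, abs_div, abs_of_pos hr, abs_abs]
      have h3 : |s.re| / ra T (2 ^ i * a) ≤ 6 := by rw [div_le_iff₀ hr]; exact h2
      have h4 : |s.im - t'| / ra T (2 ^ i * a) ≤ 1 := by
        rw [div_le_iff₀ hr]; linarith
      linarith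
    · show F (I * t' + (ra T (2 ^ i * a) : ℝ) * ((s' - I * t') / (ra T (2 ^ i * a) : ℝ))) = 0
      rw [mul_div_cancel₀ _ hrc, add_sub_cancel]
      exact hs'0
  have htop : |s.re| < 1 / 40 := by
    by_contra hcon
    push Not at hcon
    obtain ⟨t2, ht2, hF⟩ := hTop
    refine (hF (s' - I * t2) ?_ ?_).1 ?_
    · simp [hs're]; linarith
    · refine (Complex.norm_le_abs_re_add_abs_im _).trans ?_
      have e1 : (s' - I * t2).re = |s.re| := by simp [hs're]
      have e2 : (s' - I * t2).im = s.im - t2 := by simp [hs'im]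
      rw [e1, e2, abs_abs]
      have h1 := hD.strip 0 s le_rfl (by rw [hD.zero]; exact hz)
      have h2 := le_max_right 1 (B + 1)
      linarith
    · rw [add_sub_cancel]; exact hs'0
  have hrJ : 1 / 200 < ra T (2 ^ J * a) := by
    have h := hS.top'
    rw [hra, lt_div_iff₀ (by linarith), hωe]
    rw [pow_succ] at h
    nlinarith
  have hdown : ∀ m : ℕ, m ≤ J - j → |s.re| < ra T (2 ^ (J - m) * a) / 2 := by
    intro m
    induction m with
    | zero =>
      intro _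
      have := hno J hjJ le_rfl
      by_contra hc
      push Not at hc
      exact this ⟨by simpa using hc, by linarith⟩
    | succ m ih =>
      intro hm
      have ih' := ih (by omega)
      have := hno (J - (m + 1)) (by omega) (by omega)
      by_contra hc
      push Not at hc
      refine this ⟨hc, ?_⟩
      have e : J - m = (J - (m + 1)) + 1 := by omega
      rw [e, hra, pow_succ] at ih'
      have hp := hrpos (J - (m + 1))
      rw [hra] at hp ⊢
      have : 2 ^ (J - (m + 1)) * 2 * a / ω / 2 = 2 ^ (J - (m + 1)) * a / ω := by ring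
      rw [this] at ih'
      linarith
  have hfin : |s.re| < ra T (2 ^ j * a) / 2 := by
    have := hdown (J - j) le_rfl
    rwa [Nat.sub_sub_self hjJ] at this
  exact hfin.le

/-- location of the zeros, times `0 ≤ τ' ≤ τ` -/
def PTA (F : ℂ → ℂ) (FT : ℝ → ℂ → ℂ) : Prop :=
  ∃ R η c0 a0 T0 : ℝ, 1 ≤ R ∧ 0 < η ∧ 0 < c0 ∧ 1 ≤ a0 ∧ 2 ≤ T0 ∧
  ∀ (T τ τ' a : ℝ) (J j : ℕ) (s : ℂ), T0 ≤ T → a0 ≤ a → Std c0 T τ a J → 0 ≤ τ' → τ' ≤ τ → T / 2 ≤ s.im →
    s.im ≤ 3 * T → j ≤ J → LocH F η T a j J s.im → TopOK F R η s.im → FT τ' s = 0 →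
    |s.re| ≤ ra T (2 ^ j * a) / 2

theorem pta {B : ℝ} {F : ℂ → ℂ} {FT : ℝ → ℂ → ℂ} (hD : STB B F FT) (h2 : S_NGN) (h3 : S_AW) : PTA F FT := by
  obtain ⟨R1, η1, c1, a1, T1, hR1, hη1, hc1, ha1, hT1, H1⟩ := pts hD h2 h3
  obtain ⟨R2, η2, hR2, hη2, H2⟩ := pt0 hD
  refine ⟨max R1 R2, min η1 η2, c1, a1, max T1 (Real.exp 4), le_max_of_le_left hR1, lt_min hη1 hη2, hc1, ha1,
    le_max_of_le_left hT1, ?_⟩
  intro T τ τ' a J j s hT ha hS hτ0 hττ hs1 hs2 hjJ hLoc hTop hz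
  have hT4 : Real.exp 4 ≤ T := (le_max_right _ _).trans hT
  have hT5 : (5 : ℝ) ≤ T := by
    have := Real.add_one_le_exp (4 : ℝ)
    linarith
  have hTop' : ∀ R η, R ≤ max R1 R2 → min η1 η2 ≤ η → TopOK F R η s.im := by
    intro R η hR hη
    obtain ⟨t2, ht2, hF⟩ := hTop
    refine ⟨t2, ht2, FarOK_mono ?_ hR hη hF⟩
    have h1' := abs_le.mp ht2
    have : (1 : ℝ) ≤ t2 := by linarith [h1'.1, h1'.2]
    show 0 ≤ Real.log t2 / 2
    have := Real.log_nonneg this
    linarith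
  have ha0 : 0 ≤ a := by linarith
  rcases hτ0.eq_or_lt with h | h
  · rw [← h, hD.zero] at hz
    exact H2 T a c1 τ J j s hT4 (ha1.trans ha) hS hs1 hs2 hjJ (LocH_mono ha0 (min_le_right _ _) le_rfl hLoc)
      (hTop' _ _ (le_max_right _ _) (min_le_right _ _)) hz
  · exact H1 T τ τ' a J j s ((le_max_left _ _).trans hT) ha hS h hττ hs1 hs2 hjJ
      (LocH_mono ha0 (min_le_left _ _) le_rfl hLoc) (hTop' _ _ (le_max_left _ _) (min_le_left _ _)) hz

/-- the number of zeros near a good point, times `0 ≤ τ' ≤ τ` -/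
def CNS (F : ℂ → ℂ) (FT : ℝ → ℂ → ℂ) : Prop :=
  ∃ R η c0 a0 C T0 : ℝ, 1 ≤ R ∧ 0 < η ∧ 0 < c0 ∧ 1 ≤ a0 ∧ 0 < C ∧ 2 ≤ T0 ∧
  ∀ (T τ τ' a t : ℝ) (J j : ℕ), T0 ≤ T → a0 ≤ a → Std c0 T τ a J → 0 ≤ τ' → τ' ≤ τ → T / 2 ≤ t → t ≤ 3 * T →
    j ≤ J → LocH F η T a j J t → TopOK F R η t → ∀ S : Finset ℂ,
    (∀ s ∈ S, |s.re| ≤ ra T (2 ^ j * a) ∧ |s.im - t| ≤ ra T (2 ^ j * a) ∧ FT τ' s = 0) →
    ∑ s ∈ S, (analyticOrderNatAt (FT τ') s : ℝ) ≤ C * (2 ^ j * a)

theorem cns {B : ℝ} {F : ℂ → ℂ} {FT : ℝ → ℂ → ℂ} (hD : STB B F FT) (h2 : S_NGN) (h3 : S_CNT) : CNS F FT := by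
  obtain ⟨R, η1, c0, T0, hR, hη1, hc0, hT0, hG⟩ := hD.ins.grow
  obtain ⟨η3, C, a3, hη3, hC, ha3, hcnt⟩ := h3
  obtain ⟨η2, hη2, hngn⟩ := h2 (min η3 1) (lt_min hη3 one_pos)
  have hl2 : 0 < Real.log (8 / 4) := Real.log_pos (by norm_num)
  refine ⟨R, min η1 η2, c0, a3, max C (42 / Real.log (8 / 4)), max T0 6, hR, lt_min hη1 hη2, hc0, ha3,
    lt_max_of_lt_left hC, hT0.trans (le_max_left _ _), ?_⟩
  intro T τ τ' a t J j hT ha hStd hτ0 hττ ht1 ht2 hj hLoc hTop S hS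
  classical
  have hTT0 : T0 ≤ T := (le_max_left _ _).trans hT
  have hT6 : 6 ≤ T := (le_max_right _ _).trans hT
  have ha1 : 1 ≤ a := ha3.trans ha
  have ha0 : 0 ≤ a := by linarith
  have hτ : 0 < τ := hStd.tau
  obtain ⟨tj, htj, hNN⟩ := hLoc j le_rfl hj
  obtain ⟨A, hA⟩ : ∃ A : ℝ, A = 2 ^ j * a := ⟨_, rfl⟩
  rw [← hA] at htj hNN hS ⊢
  have h2j : (1 : ℝ) ≤ 2 ^ j := one_le_pow₀ (by norm_num)
  have haA : a ≤ A := by rw [hA]; nlinarith
  have hA0 : 0 < A := by linarith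
  have hlogT : 0 < Real.log T := Real.log_pos (by linarith)
  obtain ⟨r, hr⟩ : ∃ r : ℝ, r = ra T A := ⟨_, rfl⟩
  rw [← hr] at htj hNN hS
  have hr_eq : r = A / (Real.log T / 2) := hr
  have hr0 : 0 < r := by rw [hr_eq]; positivity
  obtain ⟨G, hGd⟩ : ∃ G : ℂ → ℂ, G = fun z => F (I * tj + r * z) := ⟨_, rfl⟩
  rw [← hGd] at hNN
  have hgrow : Grow A (r ^ 2 / (4 * τ)) G := by
    have h5 := hG T τ a t tj J j hTT0 ha1 hStd ht1 ht2 hj (LocH_mono ha0 (min_le_left _ _) le_rfl hLoc)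
      (TopOK_mono (by linarith) (min_le_left _ _) hTop) (by rw [← hA, ← hr]; exact htj)
      (by rw [← hA, ← hr, ← hGd]; exact NN_mono hA0.le (min_le_left _ _) hNN)
    rw [← hA, ← hr, ← hGd] at h5
    exact h5
  have hrc : (r : ℂ) ≠ 0 := by exact_mod_cast hr0.ne'
  have hker := hD.heatd τ' hτ0
  have hne : ∃ u, FT τ' u ≠ 0 := by
    refine ⟨((B + 1 : ℝ) : ℂ), fun h0 => ?_⟩
    have h1 := hD.strip τ' _ hτ0 h0
    rw [Complex.ofReal_re] at h1
    have h2 := (le_abs_self _).trans h1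
    linarith
  have hinj : Set.InjOn (fun s : ℂ => (s - I * tj) / r) (S : Set ℂ) := by
    intro x _ y _ hxy
    have h5 : (x - I * tj) / r = (y - I * tj) / r := hxy
    rw [div_left_inj' hrc] at h5
    exact sub_left_injective h5
  have hnorm : ∀ s ∈ S, ‖(s - I * tj) / r‖ ≤ 3 := by
    intro s hs
    obtain ⟨s1, s2, s3⟩ := hS s hs
    rw [norm_div, Complex.norm_real, Real.norm_eq_abs, abs_of_pos hr0, div_le_iff₀ hr0]
    have e1 : ‖s - I * tj‖ ≤ |(s - I * tj).re| + |(s - I * tj).im| :=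
      Complex.norm_le_abs_re_add_abs_im _
    have e2 : (s - I * tj).re = s.re := by simp
    have e3 : (s - I * tj).im = (s.im - t) + (t - tj) := by simp
    rw [e2, e3] at e1
    have e4 : |(s.im - t) + (t - tj)| ≤ |s.im - t| + |t - tj| := abs_add_le _ _
    linarith
  rcases hτ0.eq_or_lt with h0 | h0
  · -- time zero
    have hFT : FT τ' = F := by rw [← h0, hD.zero]
    have hNG : NG (1 / 2) A (r ^ 2 / (4 * τ)) (min η3 1) G :=
      hngn A _ G (by linarith) (NN_mono hA0.le (min_le_right _ _) hNN) hgrow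
    have hG1 : G 1 ≠ 0 := (hNG.far 1 (by norm_num) (by norm_num)).1
    have hGe : G = fun z => (1 : ℂ) * FT τ' (r * z + I * tj) := by
      rw [hGd, hFT]; funext z; rw [one_mul, add_comm]
    have hord : ∀ s : ℂ, analyticOrderNatAt G ((s - I * tj) / r) = analyticOrderNatAt (FT τ') s := by
      intro s
      rw [hGe, ord_tr' hker hne hrc one_ne_zero]
      congr 1
      field_simp
      ring
    have key := jcount (f := G) (c := 1) (r := 4) (R := 8) (A := 42 * A)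
      (fun z _ => hNG.diff.analyticAt z) (by norm_num) (by norm_num) hG1 (fun z hz => by
        rw [mul_comm]
        refine big1 hA0.le (min_le_right _ _) hNG z ?_
        have : z = 1 + (z - 1) := by ring
        rw [this]
        refine (norm_add_le _ _).trans ?_
        rw [norm_one]; linarith) (S.image fun s : ℂ => (s - I * tj) / r) (by
      intro z hz
      rw [Finset.mem_image] at hz
      obtain ⟨s, hs, rfl⟩ := hz
      refine (norm_sub_le _ _).trans ?_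
      rw [norm_one]
      linarith [hnorm s hs])
    rw [Finset.sum_image hinj] at key
    simp only [hord] at key
    refine key.trans ?_
    calc 42 * A / Real.log (8 / 4) = 42 / Real.log (8 / 4) * A := by ring
      _ ≤ _ := mul_le_mul_of_nonneg_right (le_max_right _ _) hA0.le
  · -- positive times
    have hgg : r ^ 2 / (4 * τ) ≤ r ^ 2 / (4 * τ') :=
      div_le_div_of_nonneg_left (sq_nonneg _) (by positivity) (by linarith)
    have hNG : NG (1 / 2) A (r ^ 2 / (4 * τ')) η3 G :=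
      NG_mono hA0.le (min_le_left _ _)
        (hngn A _ G (by linarith) (NN_mono hA0.le (min_le_right _ _) hNN) (Grow_mono hgg hgrow))
    have hgA : A / 2 ≤ r ^ 2 / (4 * τ') := by
      refine le_trans ?_ hgg
      have e1 : a = 2 * τ * (Real.log T / 2) ^ 2 := hStd.a_eq
      have e2 : r * (Real.log T / 2) = A := by rw [hr_eq]; field_simp
      rw [le_div_iff₀ (by positivity)]
      have e3 : A * a ≤ A * A := mul_le_mul_of_nonneg_left haA hA0.le
      have hl2 : 0 < (Real.log T / 2) ^ 2 := by positivity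
      have e4 : A / 2 * (4 * τ) * (Real.log T / 2) ^ 2 = A * a := by rw [e1]; ring
      have e5 : r ^ 2 * (Real.log T / 2) ^ 2 = A * A := by rw [← e2]; ring
      by_contra hcon
      push Not at hcon
      have := mul_lt_mul_of_pos_right hcon hl2
      rw [e4, e5] at this
      linarith
    obtain ⟨k, hk⟩ : ∃ k : ℝ, k = r / (2 * Real.sqrt (Real.pi * τ')) := ⟨_, rfl⟩
    have hk0 : 0 < k := by
      have : 0 < Real.sqrt (Real.pi * τ') := Real.sqrt_pos.2 (mul_pos Real.pi_pos h0)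
      rw [hk]; positivity
    have hrel : ∀ z : ℂ, FT τ' (I * tj + r * z) = (k : ℂ) * UU (r ^ 2 / (4 * τ')) G z := fun z => by
      rw [hk, hGd]
      exact hD.ins.rel τ' r tj z h0 hr0
    have hkc : (k : ℂ) ≠ 0 := by exact_mod_cast hk0.ne'
    have hUU : UU (r ^ 2 / (4 * τ')) G = fun z => (k : ℂ)⁻¹ * FT τ' (r * z + I * tj) := by
      funext z
      rw [add_comm ((r : ℂ) * z), hrel, ← mul_assoc, inv_mul_cancel₀ hkc, one_mul]
    have hord : ∀ s : ℂ, analyticOrderNatAt (UU (r ^ 2 / (4 * τ')) G) ((s - I * tj) / r) =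
        analyticOrderNatAt (FT τ') s := by
      intro s
      rw [hUU, ord_tr' hker hne hrc (inv_ne_zero hkc)]
      congr 1
      field_simp
      ring
    have key := hcnt A (r ^ 2 / (4 * τ')) G (ha.trans haA) hgA hNG
      (S.image fun s : ℂ => (s - I * tj) / r) (by
        intro z hz
        rw [Finset.mem_image] at hz
        obtain ⟨s, hs, rfl⟩ := hz
        obtain ⟨s1, s2, s3⟩ := hS s hs
        constructor
        · linarith [hnorm s hs]
        · have e1 : UU (r ^ 2 / (4 * τ')) G ((s - I * tj) / r) = (k : ℂ)⁻¹ * FT τ' s := by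
            have e2 : (r : ℂ) * ((s - I * tj) / r) + I * tj = s := by
              rw [mul_div_cancel₀ _ hrc, sub_add_cancel]
            rw [hUU]
            show (k : ℂ)⁻¹ * FT τ' ((r : ℂ) * ((s - I * tj) / r) + I * tj) = (k : ℂ)⁻¹ * FT τ' s
            rw [e2]
          rw [e1, s3, mul_zero])
    rw [Finset.sum_image hinj] at key
    simp only [hord] at key
    exact key.trans (mul_le_mul_of_nonneg_right (le_max_left _ _) hA0.le)

end Pool.Agent.R838.ST
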