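import Pool.Agent.R838.ST.Ful

set_option autoImplicit false

/-!
# Comparison of the tuples of zeros at two small times, full range: the theorem
-/

namespace Pool.Agent.R838.ST

open Complex Filter Topology MeasureTheory Set
open Pool.Agent.H24R2.JP (Om)
open Pool.Agent.R838.CR
open Pool.Agent.W186.SD (S_NGN S_AW S_CNT S_COV)

theorem full {B : ℝ} {F : ℂ → ℂ} {FT : ℝ → ℂ → ℂ} (hD : STB B F FT) (h0 : UNIT0 F) (hNGN : S_NGN)
    (hAW : S_AW) (hCNT : S_CNT) (hCOV : S_COV) (k : ℕ) (α β : Fin k → ℝ) (ε : ℝ) (hε : 0 < ε) :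
    ∃ δ T0 : ℝ, 0 < δ ∧ 2 ≤ T0 ∧ ∀ T τ1 τ2 : ℝ, T0 ≤ T → 0 ≤ τ1 → 0 ≤ τ2 → (τ1 = 0 ∨ τ2 = 0) →
    τ1 ≤ δ / Om T ^ 2 → τ2 ≤ δ / Om T ^ 2 →
    ((CT (FT τ1) T α β).ncard : ℝ) ≤
      ((CT (FT τ2) T (fun i => α i - ε) (fun i => β i + ε)).ncard : ℝ) + ε * (T * Real.log T) := by
  obtain ⟨H, hH⟩ : ∃ H : ℝ, H = 1 + ε + ∑ i, (|α i| + |β i|) := ⟨_, rfl⟩
  have hsum : ∀ i, |α i| + |β i| ≤ ∑ i, (|α i| + |β i|) := fun i =>
    Finset.single_le_sum (f := fun i => |α i| + |β i|) (fun j _ => by positivity) (Finset.mem_univ i)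
  have hsum0 : 0 ≤ ∑ i, (|α i| + |β i|) := Finset.sum_nonneg fun i _ => by positivity
  have hH1 : 1 ≤ H := by rw [hH]; linarith
  have hH0' : 0 < H := by linarith
  have hHα : ∀ i, -H ≤ α i - ε := fun i => by
    have h1 := hsum i
    have h2 := neg_abs_le (α i)
    have h3 := abs_nonneg (β i)
    rw [hH]; linarith
  have hHβ : ∀ i, β i + ε ≤ H := fun i => by
    have h1 := hsum i
    have h2 := le_abs_self (β i)
    have h3 := abs_nonneg (α i)
    rw [hH]; linarith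
  have hpi := Real.pi_pos
  have hpi3 := Real.pi_gt_three
  obtain ⟨ε1, hε1⟩ : ∃ ε1 : ℝ, ε1 = min (ε / 2) 1 := ⟨_, rfl⟩
  have hε10 : 0 < ε1 := by rw [hε1]; exact lt_min (by positivity) one_pos
  have hε11 : ε1 ≤ 1 := by rw [hε1]; exact min_le_right _ _
  have hε12 : 2 * ε1 ≤ ε := by
    have : ε1 ≤ ε / 2 := by rw [hε1]; exact min_le_left _ _
    linarith
  obtain ⟨H0, hH0⟩ : ∃ H0 : ℝ, H0 = Real.pi * H := ⟨_, rfl⟩
  have hH00 : 0 < H0 := by rw [hH0]; positivity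
  obtain ⟨δb, Ub, hδb, hUb, hbl⟩ := block hD h0 hNGN hAW hCNT hCOV k H0 hH00.le ε1 hε10 hε11
  obtain ⟨C8, T8, hC8, hT8, hnn⟩ := nn_all hD h0
  obtain ⟨T9, hT9, hls⟩ := logs_small C8 hC8.le (k + 1) (ε := ε / 2) (by positivity)
  refine ⟨min δb 1, max (max (Ub ^ 2) T8) (max T9 (Real.exp (4 * H0 + 4))), lt_min hδb one_pos,
    hT8.trans ((le_max_right _ _).trans (le_max_left _ _)), ?_⟩
  intro T τ1 τ2 hT hτ1 hτ2 h12 hτ1' hτ2'
  simp only [max_le_iff] at hT
  obtain ⟨⟨hTa, hTb⟩, hTc, hTd⟩ := hT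
  have hT5 : 5 ≤ T := by
    have := Real.add_one_le_exp (4 * H0 + 4)
    linarith
  have hT0 : 0 < T := by linarith
  have hL : 4 * H0 + 4 ≤ Real.log T := by rw [Real.le_log_iff_exp_le hT0]; exact hTd
  have hL1 : 1 ≤ Real.log T := by linarith
  have hOm : Om T = Real.log T / 2 := rfl
  have hOm1 : 2 * H0 + 2 ≤ Om T := by rw [hOm]; linarith
  have hOm0 : 0 < Om T := by linarith
  have hOm2 : 0 < Om T ^ 2 := by positivity
  -- the square root
  have hsq : Real.sqrt T * Real.sqrt T = T := Real.mul_self_sqrt hT0.le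
  have hs2 : 2 ≤ Real.sqrt T := Real.le_sqrt_of_sq_le (by linarith)
  have hs0 : 0 < Real.sqrt T := by linarith
  have hsU : Ub ≤ Real.sqrt T := Real.le_sqrt_of_sq_le hTa
  obtain ⟨n, hn1, hn2⟩ := exists_nat_pow_near (x := Real.sqrt T) (y := (2 : ℝ)) (by linarith) (by norm_num)
  obtain ⟨V, hV⟩ : ∃ V : ℝ, V = T / 2 ^ n := ⟨_, rfl⟩
  have h2n : (0 : ℝ) < 2 ^ n := by positivity
  have hVl : Real.sqrt T ≤ V := by
    rw [hV, le_div_iff₀ h2n]
    calc Real.sqrt T * 2 ^ n ≤ Real.sqrt T * Real.sqrt T := mul_le_mul_of_nonneg_left hn1 hs0.le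
      _ = T := hsq
  have hVu : V ≤ 2 * Real.sqrt T := by
    rw [hV, div_le_iff₀ h2n]
    rw [pow_succ] at hn2
    have h1 := mul_le_mul_of_nonneg_left hn2.le hs0.le
    rw [hsq] at h1
    linarith
  have hV0 : 0 < V := by linarith
  have hVT : V ≤ T := by
    rw [hV]; exact div_le_self hT0.le (one_le_pow₀ (by norm_num))
  -- the boxes
  obtain ⟨c, hc⟩ : ∃ c : ℝ, c = Real.pi / Om T := ⟨_, rfl⟩
  have hc0 : 0 < c := by rw [hc]; positivity
  obtain ⟨H', hH'⟩ : ∃ H' : ℝ, H' = H0 / Om T := ⟨_, rfl⟩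
  have hH'c : H' = H * c := by rw [hH', hH0, hc]; ring
  have hH'0 : 0 ≤ H' := by rw [hH']; positivity
  have hH'1 : H' ≤ 1 / 2 := by
    rw [hH', div_le_iff₀ hOm0]; linarith
  have hbα2 : ∀ i, -H' ≤ (α i - ε) * c := fun i => by
    rw [hH'c, ← neg_mul]
    exact mul_le_mul_of_nonneg_right (hHα i) hc0.le
  have hbβ2 : ∀ i, (β i + ε) * c ≤ H' := fun i => by
    rw [hH'c]
    exact mul_le_mul_of_nonneg_right (hHβ i) hc0.le
  have hbα1 : ∀ i, -H' ≤ α i * c := fun i => (hbα2 i).trans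
    (mul_le_mul_of_nonneg_right (by linarith) hc0.le)
  have hbβ1 : ∀ i, β i * c ≤ H' := fun i =>
    (mul_le_mul_of_nonneg_right (by linarith) hc0.le).trans (hbβ2 i)
  -- the functions
  have hf1 := hD.heatd τ1 hτ1
  have hs1 : ∀ s, FT τ1 s = 0 → |s.re| ≤ B := fun s hs => hD.strip τ1 s hτ1 hs
  have hf2 := hD.heatd τ2 hτ2
  have hst2 : ∀ s, FT τ2 s = 0 → |s.re| ≤ B := fun s hs => hD.strip τ2 s hτ2 hs
  have hdl : ∀ τ' : ℝ, τ' ≤ min δb 1 / Om T ^ 2 → τ' ≤ 1 / Om T ^ 2 := fun τ' h =>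
    h.trans (div_le_div_of_nonneg_right (min_le_right _ _) hOm2.le)
  obtain ⟨M, hM⟩ : ∃ M : ℝ, M = C8 * Real.log T := ⟨_, rfl⟩
  have hM0 : 0 ≤ M := by rw [hM]; positivity
  have hnn1 : ∀ t : ℝ, 0 ≤ t → t ≤ T + 2 → (nn (FT τ1) t 1 : ℝ) ≤ M := fun t h1 h2 => by
    rw [hM]; exact hnn T τ1 t hTb hτ1 (hdl _ hτ1') h1 h2
  have hnn2 : ∀ t : ℝ, 0 ≤ t → t ≤ T + 2 → (nn (FT τ2) t 1 : ℝ) ≤ M := fun t h1 h2 => by
    rw [hM]; exact hnn T τ2 t hTb hτ2 (hdl _ hτ2') h1 h2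
  -- step 1
  have e1 := dyad hf1 hs1 hf2 hst2 (α := fun i => α i * c) (β := fun i => β i * c)
    (α' := fun i => (α i - ε) * c) (β' := fun i => (β i + ε) * c) hH'0 hbα1 hbβ1 hbα2 hbβ2 hT0 n
    (e := ε1 * Om T) (fun U hU1 hU2 => by
      rw [← hV] at hU1
      have hUs : Real.sqrt T ≤ U := hVl.trans hU1
      have hU0 : 0 < U := by linarith
      have hUT : U ≤ T := by linarith
      have hlu : Real.log T ≤ 2 * Real.log U := by
        have h1 : Real.log (Real.sqrt T) ≤ Real.log U := Real.log_le_log hs0 hUs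
        rw [Real.log_sqrt hT0.le] at h1
        linarith
      have hOU : Om T ≤ 2 * Om U := by rw [hOm]; unfold Om; linarith
      have hOU0 : 0 < Om U := by linarith
      have hOUT : Om U ≤ Om T := by
        unfold Om
        exact div_le_div_of_nonneg_right (Real.log_le_log hU0 hUT) (by norm_num)
      have hτU : ∀ τ' : ℝ, τ' ≤ min δb 1 / Om T ^ 2 → τ' ≤ δb / Om U ^ 2 := fun τ' h => by
        refine h.trans ?_
        apply div_le_div₀ hδb.le (min_le_left _ _) (by positivity)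
        exact pow_le_pow_left₀ hOU0.le hOUT 2
      have hHU : H' ≤ H0 / Om U := by
        rw [hH']; exact div_le_div_of_nonneg_left hH00.le hOU0 hOUT
      have h1 := hbl U τ1 τ2 (fun i => α i * c) (fun i => β i * c) (hsU.trans hUs) hτ1 hτ2 h12
        (hτU _ hτ1') (hτU _ hτ2') (fun i => (neg_le_neg hHU).trans (hbα1 i)) (fun i => (hbβ1 i).trans hHU)
      refine h1.trans ?_
      have hεc : ε1 / Om U ≤ ε * c := by
        rw [hc, ← mul_div_assoc, div_le_div_iff₀ hOU0 hOm0]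
        calc ε1 * Om T ≤ ε1 * (2 * Om U) := mul_le_mul_of_nonneg_left hOU hε10.le
          _ = 2 * ε1 * Om U := by ring
          _ ≤ ε * Real.pi * Om U := mul_le_mul_of_nonneg_right (by nlinarith) hOU0.le
      have hsub := TP_mono (f := FT τ2) (P := fun y => U < y ∧ y ≤ 2 * U) (P' := fun y => U < y ∧ y ≤ 2 * U)
        (α := fun i => α i * c - ε1 / Om U) (β := fun i => β i * c + ε1 / Om U)
        (α' := fun i => (α i - ε) * c) (β' := fun i => (β i + ε) * c) (fun y hy => hy)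
        (fun i => by show (α i - ε) * c ≤ α i * c - ε1 / Om U; linarith)
        (fun i => by show β i * c + ε1 / Om U ≤ (β i + ε) * c; linarith)
      have hfin := TP_fin hf2 hst2 hH'0 hbα2 hbβ2 (P := fun y => U < y ∧ y ≤ 2 * U) (u := U) (v := 2 * U)
        (fun y hy => ⟨hy.1.le, hy.2⟩)
      have h2 : ((TP (FT τ2) (fun y => U < y ∧ y ≤ 2 * U) (fun i => α i * c - ε1 / Om U)
          (fun i => β i * c + ε1 / Om U)).ncard : ℝ) ≤ ((TP (FT τ2) (fun y => U < y ∧ y ≤ 2 * U)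
          (fun i => (α i - ε) * c) (fun i => (β i + ε) * c)).ncard : ℝ) := by
        exact_mod_cast Set.ncard_le_ncard hsub hfin
      refine add_le_add h2 ?_
      calc ε1 * U * Om U ≤ ε1 * U * Om T := mul_le_mul_of_nonneg_left hOUT (by positivity)
        _ = ε1 * Om T * U := by ring)
  rw [← hV] at e1
  -- step 2
  have e2 := remd hf1 hs1 (α := fun i => α i * c) (β := fun i => β i * c) hH'0 hbα1 hbβ1 hH'1 hV0.le hM0
    (fun t h1 h2 => hnn1 t h1 (by linarith))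
  -- step 3
  have e3 : ((CT (FT τ1) T α β).ncard : ℝ) ≤
      ((TP (FT τ1) (fun y => 0 < y ∧ y ≤ V) (fun i => α i * c) (fun i => β i * c)).ncard : ℝ) +
      ((TP (FT τ1) (fun y => V < y ∧ y ≤ T) (fun i => α i * c) (fun i => β i * c)).ncard : ℝ) := by
    have hfa := TP_fin hf1 hs1 hH'0 hbα1 hbβ1 (P := fun y => 0 < y ∧ y ≤ V) (u := 0) (v := V)
      (fun y hy => ⟨hy.1.le, hy.2⟩)
    have hfb := TP_fin hf1 hs1 hH'0 hbα1 hbβ1 (P := fun y => V < y ∧ y ≤ T) (u := V) (v := T)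
      (fun y hy => ⟨hy.1.le, hy.2⟩)
    have hsub : CT (FT τ1) T α β ⊆ TP (FT τ1) (fun y => 0 < y ∧ y ≤ V) (fun i => α i * c) (fun i => β i * c) ∪
        TP (FT τ1) (fun y => V < y ∧ y ≤ T) (fun i => α i * c) (fun i => β i * c) := by
      intro x hx
      have h1 := CT_sub (by linarith) hx
      rw [← hc] at h1
      obtain ⟨h2, h3, h4, h5⟩ := h1
      rcases le_or_gt (x 0).1.im V with h6 | h6
      · left
        exact ⟨h2, h3, ⟨h4.1, h6⟩, h5⟩
      · right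
        exact ⟨h2, h3, ⟨h6, h4.2⟩, h5⟩
    exact_mod_cast (Set.ncard_le_ncard hsub (hfa.union hfb)).trans (Set.ncard_union_le _ _)
  -- step 4
  have e4 : ((TP (FT τ2) (fun y => V < y ∧ y ≤ T) (fun i => (α i - ε) * c) (fun i => (β i + ε) * c)).ncard : ℝ) ≤
      ((CT (FT τ2) T (fun i => α i - ε) (fun i => β i + ε)).ncard : ℝ) + 2 * M ^ (k + 1) := by
    have hfa := TP_fin hf2 hst2 hH'0 hbα2 hbβ2 (P := fun y => 0 < y ∧ y ≤ T) (u := 0) (v := T)
      (fun y hy => ⟨hy.1.le, hy.2⟩)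
    have hfc : (CT (FT τ2) T (fun i => α i - ε) (fun i => β i + ε)).Finite := by
      refine hfa.subset ?_
      have := CT_sub (f := FT τ2) (T := T) (by linarith) (α := fun i => α i - ε) (β := fun i => β i + ε)
      rw [← hc] at this
      exact this
    have hfd := TP_fin hf2 hst2 hH'0 hbα2 hbβ2 (P := fun y => |y - 0| ≤ 1 / 2) (u := -1) (v := 1)
      (fun y hy => by have := abs_le.1 hy; constructor <;> linarith)
    have hfe := TP_fin hf2 hst2 hH'0 hbα2 hbβ2 (P := fun y => |y - T| ≤ 1 / 2) (u := T - 1) (v := T + 1)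
      (fun y hy => by have := abs_le.1 hy; constructor <;> linarith)
    have hsub : TP (FT τ2) (fun y => V < y ∧ y ≤ T) (fun i => (α i - ε) * c) (fun i => (β i + ε) * c) ⊆
        (CT (FT τ2) T (fun i => α i - ε) (fun i => β i + ε) ∪
          TP (FT τ2) (fun y => |y - 0| ≤ 1 / 2) (fun i => (α i - ε) * c) (fun i => (β i + ε) * c)) ∪
          TP (FT τ2) (fun y => |y - T| ≤ 1 / 2) (fun i => (α i - ε) * c) (fun i => (β i + ε) * c) := by
      have h1 := TP_sub (f := FT τ2) (T := T) (by linarith) (α := fun i => α i - ε) (β := fun i => β i + ε)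
        (H := H') hH'0 (by rw [← hc]; exact hbα2) (by rw [← hc]; exact hbβ2) hH'1
      rw [← hc] at h1
      refine Set.Subset.trans ?_ h1
      exact TP_mono (fun y hy => ⟨hV0.trans hy.1, hy.2⟩) (fun _ => le_rfl) (fun _ => le_rfl)
    have h1 := (Set.ncard_le_ncard hsub ((hfc.union hfd).union hfe)).trans
      ((Set.ncard_union_le _ _).trans (Nat.add_le_add_right (Set.ncard_union_le _ _) _))
    have hbd : ∀ x : ℝ, 0 ≤ x → x ≤ T →
        ((TP (FT τ2) (fun y => |y - x| ≤ 1 / 2) (fun i => (α i - ε) * c) (fun i => (β i + ε) * c)).ncard : ℝ) ≤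
          M ^ (k + 1) := by
      intro x hx0 hx1
      have h2 := TP_le hf2 hst2 hH'0 hbα2 hbβ2 (P := fun y => |y - x| ≤ 1 / 2) (t := x) (h := 1 / 2)
        (fun y hy => hy)
      have h3 : (nn (FT τ2) x (1 / 2 + H') : ℝ) ≤ M := by
        refine le_trans ?_ (hnn2 x hx0 (by linarith))
        exact_mod_cast nn_mono hf2 hst2 (t := x) (t' := x) (h := 1 / 2 + H') (h' := 1)
          (by rw [sub_self, abs_zero]; linarith)
      have h4 : ((TP (FT τ2) (fun y => |y - x| ≤ 1 / 2) (fun i => (α i - ε) * c)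
          (fun i => (β i + ε) * c)).ncard : ℝ) ≤ (nn (FT τ2) x (1 / 2 + H') : ℝ) ^ (k + 1) := by
        exact_mod_cast h2
      exact h4.trans (pow_le_pow_left₀ (Nat.cast_nonneg _) h3 _)
    have h2 := hbd 0 le_rfl hT0.le
    have h3 := hbd T hT0.le le_rfl
    have h4 : ((TP (FT τ2) (fun y => V < y ∧ y ≤ T) (fun i => (α i - ε) * c) (fun i => (β i + ε) * c)).ncard : ℝ) ≤
        ((CT (FT τ2) T (fun i => α i - ε) (fun i => β i + ε)).ncard : ℝ) +
        ((TP (FT τ2) (fun y => |y - 0| ≤ 1 / 2) (fun i => (α i - ε) * c) (fun i => (β i + ε) * c)).ncard : ℝ) +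
        ((TP (FT τ2) (fun y => |y - T| ≤ 1 / 2) (fun i => (α i - ε) * c) (fun i => (β i + ε) * c)).ncard : ℝ) := by
      exact_mod_cast h1
    linarith
  -- numbers
  have e5 := hls T hTc
  rw [← hM] at e5
  have hMk : 0 ≤ M ^ (k + 1) := by positivity
  have e6 : (V + 1) * M ^ (k + 1) + 2 * M ^ (k + 1) ≤ M ^ (k + 1) * (8 * Real.sqrt T) := by
    have h1 : V + 3 ≤ 8 * Real.sqrt T := by linarith
    have h2 := mul_le_mul_of_nonneg_right h1 hMk
    linarith
  have e7 : ε1 * Om T * T * (1 - 1 / 2 ^ n) ≤ ε / 4 * (T * Real.log T) := by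
    have h1 : (0 : ℝ) < 1 / 2 ^ n := by positivity
    have h2 : 0 ≤ ε1 * Om T * T := by positivity
    have h3 : ε1 * Om T * T * (1 - 1 / 2 ^ n) ≤ ε1 * Om T * T * 1 :=
      mul_le_mul_of_nonneg_left (by linarith) h2
    have h4 : ε1 * Om T * T * 1 = 2 * ε1 / 4 * (T * Real.log T) := by rw [hOm]; ring
    have h5 : 2 * ε1 / 4 * (T * Real.log T) ≤ ε / 4 * (T * Real.log T) :=
      mul_le_mul_of_nonneg_right (by linarith) (by positivity)
    linarith
  have e8 : ε / 2 * T ≤ ε / 2 * (T * Real.log T) :=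
    mul_le_mul_of_nonneg_left (le_mul_of_one_le_right hT0.le hL1) (by positivity)
  have e9 : 0 ≤ ε * (T * Real.log T) := by positivity
  linarith

end Pool.Agent.R838.ST
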