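import Pool.Agent.R838.ST.Nn

set_option autoImplicit false

/-!
# Tuples of zeros, and a double counting argument
-/

namespace Pool.Agent.R838.ST

open Complex Filter Topology Metric Set

/-- separated set of heights -/
def Sep (G : Finset ℝ) (ρ : ℝ) : Prop :=
  ∀ x y : ℝ, 0 ≤ y → ((G.filter (fun t => |t - x| ≤ y)).card : ℝ) ≤ 2 * y / ρ + 1

/-- The tuples of different zeros, with a condition on the ordinate of the first one, and with the differences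
to the first one in a box. -/
def TP (f : ℂ → ℂ) {k : ℕ} (P : ℝ → Prop) (α β : Fin k → ℝ) : Set (Fin (k + 1) → ℂ × ℕ) :=
  {x | (∀ i, x i ∈ Zi f) ∧ Function.Injective x ∧ P (x 0).1.im ∧
    ∀ i : Fin k, α i ≤ (x i.succ).1.im - (x 0).1.im ∧ (x i.succ).1.im - (x 0).1.im ≤ β i}

lemma TP_coord {f : ℂ → ℂ} {k : ℕ} {P : ℝ → Prop} {α β : Fin k → ℝ} {H : ℝ} (hH : 0 ≤ H)
    (hα : ∀ i, -H ≤ α i) (hβ : ∀ i, β i ≤ H) {x : Fin (k + 1) → ℂ × ℕ} (hx : x ∈ TP f P α β) (i : Fin (k + 1)) :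
    |(x i).1.im - (x 0).1.im| ≤ H := by
  obtain ⟨-, -, -, h⟩ := hx
  rcases Fin.eq_zero_or_eq_succ i with h0 | ⟨j, hj⟩
  · rw [h0, sub_self, abs_zero]; exact hH
  · rw [hj, abs_le]
    have := h j
    exact ⟨(hα j).trans this.1, this.2.trans (hβ j)⟩

section

variable {f : ℂ → ℂ} {B : ℝ} (hf : Differentiable ℂ f) (hs : ∀ s, f s = 0 → |s.re| ≤ B)

include hf hs

theorem TP_fin {k : ℕ} {P : ℝ → Prop} {α β : Fin k → ℝ} {H : ℝ} (hH : 0 ≤ H)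
    (hα : ∀ i, -H ≤ α i) (hβ : ∀ i, β i ≤ H) {u v : ℝ} (hP : ∀ y, P y → u ≤ y ∧ y ≤ v) :
    (TP f P α β).Finite := by
  obtain ⟨Z, -, h1, -⟩ := zset hf hs (fun y => u - H ≤ y ∧ y ≤ v + H) (fun y hy => hy)
  have h2 : {x : Fin (k + 1) → ℂ × ℕ | ∀ i, x i ∈ {p : ℂ × ℕ | p ∈ Zi f ∧ u - H ≤ p.1.im ∧ p.1.im ≤ v + H}}.Finite :=
    Set.Finite.pi' fun _ => h1
  refine h2.subset ?_
  intro x hx i
  have h3 := abs_le.1 (TP_coord hH hα hβ hx i)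
  have h4 := hP _ hx.2.2.1
  refine ⟨hx.1 i, by linarith, by linarith⟩

theorem TP_le {k : ℕ} {P : ℝ → Prop} {α β : Fin k → ℝ} {H : ℝ} (hH : 0 ≤ H)
    (hα : ∀ i, -H ≤ α i) (hβ : ∀ i, β i ≤ H) {t h : ℝ} (hP : ∀ y, P y → |y - t| ≤ h) :
    (TP f P α β).ncard ≤ nn f t (h + H) ^ (k + 1) := by
  classical
  obtain ⟨Z, -, h1, -⟩ := nn_spec hf hs t (h + H)
  obtain ⟨A, hA⟩ : ∃ A : Finset (ℂ × ℕ), A = h1.toFinset := ⟨_, rfl⟩
  have hAc : A.card = nn f t (h + H) := by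
    rw [hA, nn, Set.ncard_eq_toFinset_card _ h1]
  have hsub : TP f P α β ⊆ ((Fintype.piFinset fun _ : Fin (k + 1) => A : Finset (Fin (k + 1) → ℂ × ℕ)) :
      Set (Fin (k + 1) → ℂ × ℕ)) := by
    intro x hx
    rw [Finset.mem_coe, Fintype.mem_piFinset]
    intro i
    rw [hA, Set.Finite.mem_toFinset]
    refine ⟨hx.1 i, ?_⟩
    have h3 := TP_coord hH hα hβ hx i
    have h4 := hP _ hx.2.2.1
    have h5 := abs_sub_le (x i).1.im (x 0).1.im t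
    linarith
  refine (Set.ncard_le_ncard hsub (Finset.finite_toSet _)).trans ?_
  rw [Set.ncard_coe_finset, Fintype.card_piFinset_const, hAc]

end

theorem TP_map {f g : ℂ → ℂ} {B : ℝ} (hg : Differentiable ℂ g) (hsg : ∀ s, g s = 0 → |s.re| ≤ B)
    {k : ℕ} {P P' : ℝ → Prop} {α β : Fin k → ℝ} {H : ℝ} (hH : 0 ≤ H)
    (hα : ∀ i, -H ≤ α i) (hβ : ∀ i, β i ≤ H) {t h ε : ℝ} (hε : 0 ≤ ε) (hP : ∀ y, P y → |y - t| ≤ h)
    (hPP : ∀ y y', P y → |y' - y| ≤ ε → P' y') (φ : ℂ × ℕ → ℂ × ℕ)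
    (hφ : ∀ p ∈ Zi f, |p.1.im - t| ≤ h + H → φ p ∈ Zi g ∧ |(φ p).1.im - p.1.im| ≤ ε)
    (hφi : Set.InjOn φ {p | p ∈ Zi f ∧ |p.1.im - t| ≤ h + H}) {u v : ℝ} (hP' : ∀ y, P' y → u ≤ y ∧ y ≤ v) :
    (TP f P α β).ncard ≤ (TP g P' (fun i => α i - 2 * ε) (fun i => β i + 2 * ε)).ncard := by
  have hwin : ∀ x ∈ TP f P α β, ∀ i, |(x i).1.im - t| ≤ h + H := by
    intro x hx i
    have h3 := TP_coord hH hα hβ hx i
    have h4 := hP _ hx.2.2.1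
    have h5 := abs_sub_le (x i).1.im (x 0).1.im t
    linarith
  refine Set.ncard_le_ncard_of_injOn (fun x i => φ (x i)) ?_ ?_
    (TP_fin hg hsg (H := H + 2 * ε) (by linarith) (fun i => by linarith [hα i]) (fun i => by linarith [hβ i]) hP')
  · intro x hx
    have hw := hwin x hx
    refine ⟨fun i => (hφ _ (hx.1 i) (hw i)).1, ?_, ?_, ?_⟩
    · intro i j hij
      exact hx.2.1 (hφi ⟨hx.1 i, hw i⟩ ⟨hx.1 j, hw j⟩ hij)
    · exact hPP _ _ hx.2.2.1 (hφ _ (hx.1 0) (hw 0)).2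
    · intro i
      have h1 := abs_le.1 (hφ _ (hx.1 i.succ) (hw i.succ)).2
      have h2 := abs_le.1 (hφ _ (hx.1 0) (hw 0)).2
      have h3 := hx.2.2.2 i
      constructor
      · show α i - 2 * ε ≤ (φ (x i.succ)).1.im - (φ (x 0)).1.im
        linarith [h1.1, h2.2, h3.1]
      · show (φ (x i.succ)).1.im - (φ (x 0)).1.im ≤ β i + 2 * ε
        linarith [h1.2, h2.1, h3.2]
  · intro x hx y hy hxy
    funext i
    have h1 : φ (x i) = φ (y i) := congrFun hxy i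
    exact hφi ⟨hx.1 i, hwin x hx i⟩ ⟨hy.1 i, hwin y hy i⟩ h1

/-- Double counting, lower bound. -/
lemma dc_low {α : Type*} (G : Finset ℝ) (X : Finset α) (b : α → ℝ) (h A : ℝ)
    (hA : ∀ x ∈ X, A ≤ ((G.filter fun t => |t - b x| ≤ h).card : ℝ)) :
    A * X.card ≤ ∑ t ∈ G, ((X.filter fun x => |b x - t| ≤ h).card : ℝ) := by
  classical
  have e : ∑ t ∈ G, ((X.filter fun x => |b x - t| ≤ h).card : ℝ) =
      ∑ x ∈ X, ((G.filter fun t => |t - b x| ≤ h).card : ℝ) := by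
    simp only [Finset.card_filter, Nat.cast_sum]
    rw [Finset.sum_comm]
    refine Finset.sum_congr rfl fun x _ => Finset.sum_congr rfl fun t _ => ?_
    rw [abs_sub_comm]
  rw [e]
  calc A * X.card = ∑ x ∈ X, A := by rw [Finset.sum_const, nsmul_eq_mul]; ring
    _ ≤ _ := Finset.sum_le_sum hA

/-- Double counting, upper bound. -/
lemma dc_up {α : Type*} (G : Finset ℝ) (X : Finset α) (b : α → ℝ) (h A : ℝ)
    (hA : ∀ x ∈ X, ((G.filter fun t => |t - b x| ≤ h).card : ℝ) ≤ A) :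
    ∑ t ∈ G, ((X.filter fun x => |b x - t| ≤ h).card : ℝ) ≤ A * X.card := by
  classical
  have e : ∑ t ∈ G, ((X.filter fun x => |b x - t| ≤ h).card : ℝ) =
      ∑ x ∈ X, ((G.filter fun t => |t - b x| ≤ h).card : ℝ) := by
    simp only [Finset.card_filter, Nat.cast_sum]
    rw [Finset.sum_comm]
    refine Finset.sum_congr rfl fun x _ => Finset.sum_congr rfl fun t _ => ?_
    rw [abs_sub_comm]
  rw [e]
  calc ∑ x ∈ X, ((G.filter fun t => |t - b x| ≤ h).card : ℝ) ≤ ∑ x ∈ X, A := Finset.sum_le_sum hA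
    _ = _ := by rw [Finset.sum_const, nsmul_eq_mul]; ring

/-- The comparison. -/
theorem glue {f g : ℂ → ℂ} {B : ℝ} (hf : Differentiable ℂ f) (hsf : ∀ s, f s = 0 → |s.re| ≤ B)
    (hg : Differentiable ℂ g) (hsg : ∀ s, g s = 0 → |s.re| ≤ B)
    {k : ℕ} {α β : Fin k → ℝ} {H : ℝ} (hH : 0 ≤ H) (hα : ∀ i, -H ≤ α i) (hβ : ∀ i, β i ≤ H)
    {h ε ρ U V : ℝ} (hh : 0 ≤ h) (hε : 0 ≤ ε) (G : Finset ℝ) (hSep : Sep G ρ)
    (hcov : ∀ x, U < x → x ≤ V → 2 * h / ρ - 1 ≤ ((G.filter fun t => |t - x| ≤ h).card : ℝ))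
    (bad : ℝ → Prop) [DecidablePred bad]
    (hgood : ∀ t ∈ G, ¬ bad t → ∃ φ : ℂ × ℕ → ℂ × ℕ,
      (∀ p ∈ Zi f, |p.1.im - t| ≤ h + H → φ p ∈ Zi g ∧ |(φ p).1.im - p.1.im| ≤ ε) ∧
      Set.InjOn φ {p | p ∈ Zi f ∧ |p.1.im - t| ≤ h + H}) :
    (2 * h / ρ - 1) * ((TP f (fun y => U < y ∧ y ≤ V) α β).ncard : ℝ) ≤
      (2 * (h + ε) / ρ + 1) * ((TP g (fun y => U - ε < y ∧ y ≤ V + ε) (fun i => α i - 2 * ε)
        (fun i => β i + 2 * ε)).ncard : ℝ) +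
      ∑ t ∈ G with bad t, (nn f t (h + H) : ℝ) ^ (k + 1) := by
  classical
  have hX := TP_fin hf hsf hH hα hβ (P := fun y => U < y ∧ y ≤ V) (u := U) (v := V) (fun y hy => ⟨hy.1.le, hy.2⟩)
  have hY := TP_fin hg hsg (P := fun y => U - ε < y ∧ y ≤ V + ε) (α := fun i => α i - 2 * ε)
    (β := fun i => β i + 2 * ε) (H := H + 2 * ε) (by linarith) (fun i => by linarith [hα i])
    (fun i => by linarith [hβ i]) (u := U - ε) (v := V + ε) (fun y hy => ⟨hy.1.le, hy.2⟩)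
  obtain ⟨X, hXd⟩ : ∃ X : Finset (Fin (k + 1) → ℂ × ℕ), X = hX.toFinset := ⟨_, rfl⟩
  obtain ⟨Y, hYd⟩ : ∃ Y : Finset (Fin (k + 1) → ℂ × ℕ), Y = hY.toFinset := ⟨_, rfl⟩
  rw [Set.ncard_eq_toFinset_card _ hX, Set.ncard_eq_toFinset_card _ hY, ← hXd, ← hYd]
  have hXm : ∀ x, x ∈ X ↔ x ∈ TP f (fun y => U < y ∧ y ≤ V) α β := fun x => by
    rw [hXd, Set.Finite.mem_toFinset]
  have hYm : ∀ x, x ∈ Y ↔ x ∈ TP g (fun y => U - ε < y ∧ y ≤ V + ε) (fun i => α i - 2 * ε)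
        (fun i => β i + 2 * ε) := fun x => by
    rw [hYd, Set.Finite.mem_toFinset]
  have h1 := dc_low G X (fun x => (x 0).1.im) h (2 * h / ρ - 1) (fun x hx => by
    have := ((hXm x).1 hx).2.2.1
    exact hcov _ this.1 this.2)
  have h2 := dc_up G Y (fun x => (x 0).1.im) (h + ε) (2 * (h + ε) / ρ + 1) (fun x _ => hSep _ _ (by linarith))
  have h3 : ∀ t ∈ G, ((X.filter fun x => |(x 0).1.im - t| ≤ h).card : ℝ) ≤
      ((Y.filter fun x => |(x 0).1.im - t| ≤ h + ε).card : ℝ) +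
        (if bad t then (nn f t (h + H) : ℝ) ^ (k + 1) else 0) := by
    intro t ht
    have e1 : (X.filter fun x => |(x 0).1.im - t| ≤ h).card =
        (TP f (fun y => (U < y ∧ y ≤ V) ∧ |y - t| ≤ h) α β).ncard := by
      rw [← Set.ncard_coe_finset]
      congr 1
      ext x
      rw [Finset.mem_coe, Finset.mem_filter, hXm]
      constructor
      · rintro ⟨⟨h4, h5, h6, h7⟩, h8⟩
        exact ⟨h4, h5, ⟨h6, h8⟩, h7⟩
      · rintro ⟨h4, h5, ⟨h6, h8⟩, h7⟩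
        exact ⟨⟨h4, h5, h6, h7⟩, h8⟩
    have e2 : (Y.filter fun x => |(x 0).1.im - t| ≤ h + ε).card =
        (TP g (fun y => (U - ε < y ∧ y ≤ V + ε) ∧ |y - t| ≤ h + ε) (fun i => α i - 2 * ε)
        (fun i => β i + 2 * ε)).ncard := by
      rw [← Set.ncard_coe_finset]
      congr 1
      ext x
      rw [Finset.mem_coe, Finset.mem_filter, hYm]
      constructor
      · rintro ⟨⟨h4, h5, h6, h7⟩, h8⟩
        exact ⟨h4, h5, ⟨h6, h8⟩, h7⟩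
      · rintro ⟨h4, h5, ⟨h6, h8⟩, h7⟩
        exact ⟨⟨h4, h5, h6, h7⟩, h8⟩
    rw [e1, e2]
    by_cases hb : bad t
    · rw [if_pos hb]
      have h4 := TP_le hf hsf hH hα hβ (P := fun y => (U < y ∧ y ≤ V) ∧ |y - t| ≤ h) (t := t) (h := h)
        (fun y hy => hy.2)
      have h5 : ((TP f (fun y => (U < y ∧ y ≤ V) ∧ |y - t| ≤ h) α β).ncard : ℝ) ≤
          (nn f t (h + H) : ℝ) ^ (k + 1) := by exact_mod_cast h4
      have h6 : (0 : ℝ) ≤ ((TP g (fun y => (U - ε < y ∧ y ≤ V + ε) ∧ |y - t| ≤ h + ε) (fun i => α i - 2 * ε)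
        (fun i => β i + 2 * ε)).ncard : ℝ) := Nat.cast_nonneg _
      linarith
    · rw [if_neg hb, add_zero]
      obtain ⟨φ, hφ, hφi⟩ := hgood t ht hb
      have h4 := TP_map hg hsg hH hα hβ hε (P := fun y => (U < y ∧ y ≤ V) ∧ |y - t| ≤ h)
        (P' := fun y => (U - ε < y ∧ y ≤ V + ε) ∧ |y - t| ≤ h + ε) (t := t) (h := h) (fun y hy => hy.2)
        (fun y y' hy hyy => by
          have h5 := abs_le.1 hyy
          refine ⟨⟨by linarith [hy.1.1], by linarith [hy.1.2]⟩, ?_⟩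
          have h6 := abs_sub_le y' y t
          linarith [hy.2]) φ hφ hφi (u := U - ε) (v := V + ε) (fun y hy => ⟨hy.1.1.le, hy.1.2⟩)
      exact_mod_cast h4
  refine h1.trans ((Finset.sum_le_sum h3).trans ?_)
  rw [Finset.sum_add_distrib, Finset.sum_filter]
  exact add_le_add h2 le_rfl

/-! ### The grid -/

/-- The multiples of `ρ` between `u` and `v`. -/
noncomputable def grid (ρ u v : ℝ) : Finset ℝ := (Finset.Icc ⌈u / ρ⌉ ⌊v / ρ⌋).image fun m : ℤ => (m : ℝ) * ρ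

lemma grid_mem {ρ u v t : ℝ} (hρ : 0 < ρ) (ht : t ∈ grid ρ u v) : u ≤ t ∧ t ≤ v := by
  unfold grid at ht
  rw [Finset.mem_image] at ht
  obtain ⟨m, hm, rfl⟩ := ht
  rw [Finset.mem_Icc, Int.ceil_le, Int.le_floor] at hm
  rw [div_le_iff₀ hρ, le_div_iff₀ hρ] at hm
  exact hm

lemma grid_filter {ρ u v x y : ℝ} (hρ : 0 < ρ) :
    ((grid ρ u v).filter fun t => |t - x| ≤ y).card =
      ((Finset.Icc ⌈u / ρ⌉ ⌊v / ρ⌋).filter fun m : ℤ => |(m : ℝ) * ρ - x| ≤ y).card := by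
  unfold grid
  rw [Finset.filter_image, Finset.card_image_of_injOn]
  intro m _ n _ hmn
  have : (m : ℝ) * ρ = (n : ℝ) * ρ := hmn
  have h2 := mul_right_cancel₀ hρ.ne' this
  exact_mod_cast h2

lemma grid_sep {ρ u v : ℝ} (hρ : 0 < ρ) : Sep (grid ρ u v) ρ := by
  intro x y hy
  rw [grid_filter hρ]
  have hsub : ((Finset.Icc ⌈u / ρ⌉ ⌊v / ρ⌋).filter fun m : ℤ => |(m : ℝ) * ρ - x| ≤ y) ⊆
      Finset.Icc ⌈(x - y) / ρ⌉ ⌊(x + y) / ρ⌋ := by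
    intro m hm
    rw [Finset.mem_filter] at hm
    have := abs_le.1 hm.2
    rw [Finset.mem_Icc, Int.ceil_le, Int.le_floor, div_le_iff₀ hρ, le_div_iff₀ hρ]
    constructor <;> linarith
  have h1 : (((Finset.Icc ⌈u / ρ⌉ ⌊v / ρ⌋).filter fun m : ℤ => |(m : ℝ) * ρ - x| ≤ y).card : ℝ) ≤
      ((Finset.Icc ⌈(x - y) / ρ⌉ ⌊(x + y) / ρ⌋).card : ℝ) := by
    exact_mod_cast Finset.card_le_card hsub
  refine h1.trans ?_
  rw [Int.card_Icc]
  have h2 : (((⌊(x + y) / ρ⌋ + 1 - ⌈(x - y) / ρ⌉).toNat : ℕ) : ℝ) =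
      ((max (⌊(x + y) / ρ⌋ + 1 - ⌈(x - y) / ρ⌉) 0 : ℤ) : ℝ) := by
    rw [← Int.toNat_eq_max]
    norm_cast
  rw [h2]
  push_cast
  apply max_le
  · have h3 := Int.floor_le ((x + y) / ρ)
    have h4 := Int.le_ceil ((x - y) / ρ)
    have e : 2 * y / ρ = (x + y) / ρ - (x - y) / ρ := by ring
    rw [e]
    linarith
  · positivity

lemma grid_cov {ρ u v x y : ℝ} (hρ : 0 < ρ) (h1 : u ≤ x - y) (h2 : x + y ≤ v) :
    2 * y / ρ - 1 ≤ (((grid ρ u v).filter fun t => |t - x| ≤ y).card : ℝ) := by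
  rw [grid_filter hρ]
  have hsub : Finset.Icc ⌈(x - y) / ρ⌉ ⌊(x + y) / ρ⌋ ⊆
      ((Finset.Icc ⌈u / ρ⌉ ⌊v / ρ⌋).filter fun m : ℤ => |(m : ℝ) * ρ - x| ≤ y) := by
    intro m hm
    rw [Finset.mem_Icc, Int.ceil_le, Int.le_floor, div_le_iff₀ hρ, le_div_iff₀ hρ] at hm
    rw [Finset.mem_filter, Finset.mem_Icc, Int.ceil_le, Int.le_floor, div_le_iff₀ hρ, le_div_iff₀ hρ, abs_le]
    refine ⟨⟨by linarith, by linarith⟩, by linarith, by linarith⟩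
  have h3 : ((Finset.Icc ⌈(x - y) / ρ⌉ ⌊(x + y) / ρ⌋).card : ℝ) ≤
      (((Finset.Icc ⌈u / ρ⌉ ⌊v / ρ⌋).filter fun m : ℤ => |(m : ℝ) * ρ - x| ≤ y).card : ℝ) := by
    exact_mod_cast Finset.card_le_card hsub
  refine le_trans ?_ h3
  rw [Int.card_Icc]
  have h4 : (((⌊(x + y) / ρ⌋ + 1 - ⌈(x - y) / ρ⌉).toNat : ℕ) : ℝ) =
      ((max (⌊(x + y) / ρ⌋ + 1 - ⌈(x - y) / ρ⌉) 0 : ℤ) : ℝ) := by
    rw [← Int.toNat_eq_max]
    norm_cast
  rw [h4]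
  push_cast
  refine le_max_of_le_left ?_
  have h5 := Int.lt_floor_add_one ((x + y) / ρ)
  have h6 := Int.ceil_lt_add_one ((x - y) / ρ)
  have e : 2 * y / ρ = (x + y) / ρ - (x - y) / ρ := by ring
  rw [e]
  linarith

lemma grid_card {ρ u v : ℝ} (hρ : 0 < ρ) (huv : u ≤ v) : ((grid ρ u v).card : ℝ) ≤ (v - u) / ρ + 1 := by
  have h1 := grid_sep (u := u) (v := v) hρ ((u + v) / 2) ((v - u) / 2) (by linarith)
  have e : (grid ρ u v).filter (fun t => |t - (u + v) / 2| ≤ (v - u) / 2) = grid ρ u v := by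
    rw [Finset.filter_eq_self]
    intro t ht
    have := grid_mem hρ ht
    rw [abs_le]
    constructor <;> linarith
  rw [e] at h1
  refine h1.trans (le_of_eq ?_)
  ring

end Pool.Agent.R838.ST
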