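import Pool.Agent.R838.ST.Cns
import Pool.Agent.R838.ST.Tup

set_option autoImplicit false

/-!
# Moments of the number of zeros over windows at bad heights
-/

namespace Pool.Agent.R838.ST

open Complex Filter Topology MeasureTheory Set
open Pool.Agent.Y671.LD (badH FarOK LocH TopOK)
open Pool.Agent.R838.LD
open Pool.Agent.H24R2.JP (Om)
open Pool.Agent.H24R2.DZ (ra NN)
open Pool.Agent.R838.CR
open Pool.Agent.W186.SD (UU NG Grow S_NGN S_AW S_CNT S_COV Std)
open Pool.Agent.R838.LD.Y287Midh (nn_mono far_mono top_mono loc_mono geo)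

/-- zeros in unit windows at time zero -/
def UNIT0 (F : ℂ → ℂ) : Prop := ∃ C T0 : ℝ, 0 < C ∧ 2 ≤ T0 ∧ ∀ t : ℝ, T0 ≤ t → ∀ S : Finset ℂ,
  (∀ s ∈ S, |s.im - t| ≤ 1 ∧ F s = 0) → ∑ s ∈ S, (analyticOrderNatAt F s : ℝ) ≤ C * Real.log t

/-- good height -/
def GH (F : ℂ → ℂ) (R η T a : ℝ) (J : ℕ) (t : ℝ) : Prop := LocH2 F η T a 0 J t ∧ TopOK2 F R η t

lemma Sep.subset {G G' : Finset ℝ} {ρ : ℝ} (h : Sep G ρ) (hs : G' ⊆ G) : Sep G' ρ := by
  intro x y hy
  refine le_trans ?_ (h x y hy)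
  exact_mod_cast Finset.card_le_card (Finset.filter_subset_filter _ hs)

/-- unit windows, all small times -/
theorem unitA {B : ℝ} {F : ℂ → ℂ} {FT : ℝ → ℂ → ℂ} (hD : STB B F FT) (h0 : UNIT0 F) (X : ℝ) (hX : 0 < X) :
    ∃ C T0 : ℝ, 0 < C ∧ 2 ≤ T0 ∧ ∀ t τ h : ℝ, T0 ≤ t → 0 ≤ τ → 2 * τ * Om t ≤ X → h ≤ 1 →
    (nn (FT τ) t h : ℝ) ≤ C * Real.log t := by
  obtain ⟨C1, T1, hC1, hT1, H1⟩ := h0
  obtain ⟨C2, T2, hC2, hT2, H2⟩ := hD.ins.unit X hX
  refine ⟨max C1 C2, max T1 T2, lt_max_of_lt_left hC1, hT1.trans (le_max_left _ _), ?_⟩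
  intro t τ h ht hτ hτX hh
  have ht1 : T1 ≤ t := (le_max_left _ _).trans ht
  have ht2 : T2 ≤ t := (le_max_right _ _).trans ht
  have hl : 0 ≤ Real.log t := Real.log_nonneg (by linarith)
  obtain ⟨Z, hZ, -, hn⟩ := nn_spec (hD.heatd τ hτ) (fun s hs => hD.strip τ s hτ hs) t h
  rw [hn]
  push_cast
  rcases hτ.eq_or_lt with h3 | h3
  · subst h3
    rw [hD.zero] at hZ ⊢
    refine (H1 t ht1 Z fun s hs => ?_).trans (mul_le_mul_of_nonneg_right (le_max_left _ _) hl)
    obtain ⟨h4, h5⟩ := (hZ s).1 hs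
    exact ⟨h5.trans hh, h4⟩
  · refine (H2 t τ ht2 h3 hτX Z fun s hs => ?_).trans (mul_le_mul_of_nonneg_right (le_max_right _ _) hl)
    obtain ⟨h4, h5⟩ := (hZ s).1 hs
    exact ⟨h5.trans hh, h4⟩

lemma pow_le_exp (k : ℕ) {c : ℝ} (hc : 0 < c) : ∃ D : ℝ, 0 < D ∧ ∀ x : ℝ, 0 ≤ x → x ^ k ≤ D * Real.exp (c * x) := by
  refine ⟨k.factorial / c ^ k, by positivity, ?_⟩
  intro x hx
  have h1 := Real.pow_div_factorial_le_exp (c * x) (by positivity) k
  have hf : (0 : ℝ) < k.factorial := by exact_mod_cast k.factorial_pos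
  have hck : 0 < c ^ k := by positivity
  rw [div_le_iff₀ hf, mul_pow] at h1
  rw [div_mul_eq_mul_div, le_div_iff₀ hck]
  linarith

theorem midw {B : ℝ} {F : ℂ → ℂ} {FT : ℝ → ℂ → ℂ} (hD : STB B F FT) (h0 : UNIT0 F) (hNGN : S_NGN)
    (hAW : S_AW) (hCNT : S_CNT) (hCOV : S_COV) :
    ∃ Rs ηs : ℝ, 1 ≤ Rs ∧ 0 < ηs ∧ ∀ R η : ℝ, Rs ≤ R → 0 < η → η ≤ ηs → ∀ k : ℕ,
    ∃ c C c0 a0 T0 : ℝ, 0 < c ∧ 0 < C ∧ 0 < c0 ∧ 1 ≤ a0 ∧ 2 ≤ T0 ∧
    ∀ (T τ τ' a ρ h : ℝ) (J : ℕ) (G : Finset ℝ), T0 ≤ T → a0 ≤ a → Std c0 T τ a J → 0 ≤ τ' → τ' ≤ τ →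
    0 < ρ → ρ ≤ ra T a / 400 → h ≤ ra T a / 400 →
    (∀ t ∈ G, T / 2 + 1 ≤ t ∧ t ≤ 3 * T - 1 ∧ ¬ GH F R η T a J t) → Sep G ρ →
    ∑ t ∈ G, (nn (FT τ') t h : ℝ) ^ k ≤ C * (T / ρ) * Real.exp (-(c * a)) := by
  classical
  obtain ⟨R1, e1, c1, a1, T1, hR1, he1, hc1, ha1, hT1, hPT⟩ := pta hD hNGN hAW
  obtain ⟨R2, e2, c2, a2, C2, T2, hR2, he2, hc2, ha2, hC2, hT2, hCN⟩ := cns hD hNGN hCNT
  refine ⟨max R1 R2, min e1 e2, le_max_of_le_left hR1, lt_min he1 he2, ?_⟩
  intro R η hR hη0 hη k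
  have hRa : R1 ≤ R := (le_max_left _ _).trans hR
  have hRb : R2 ≤ R := (le_max_right _ _).trans hR
  have hηa : η ≤ e1 := hη.trans (min_le_left _ _)
  have hηb : η ≤ e2 := hη.trans (min_le_right _ _)
  obtain ⟨cc, CC, a3, T3, hcc, hCC, ha3, hT3, hV⟩ := hD.ins.good η hη0
  obtain ⟨cT, CT, T5, hcT, hCT, hT5, hTop⟩ :=
    hD.ins.top R (1 / 400) η (hR1.trans hRa) (by norm_num) hη0
  obtain ⟨c0, hc0⟩ : ∃ c0 : ℝ, c0 = min (min c1 c2) (1 / 100) := ⟨_, rfl⟩
  have hc0p : 0 < c0 := by rw [hc0]; exact lt_min (lt_min hc1 hc2) (by norm_num)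
  have hc01 : c0 ≤ c1 := by rw [hc0]; exact (min_le_left _ _).trans (min_le_left _ _)
  have hc02 : c0 ≤ c2 := by rw [hc0]; exact (min_le_left _ _).trans (min_le_right _ _)
  have hc03 : c0 ≤ 1 / 100 := by rw [hc0]; exact min_le_right _ _
  obtain ⟨C3, T6, hC3, hT6, hUn⟩ := unitA hD h0 (2 * c0) (by positivity)
  obtain ⟨K, hK⟩ : ∃ K : ℝ, K = (1 - Real.exp (-(cc / 2)))⁻¹ := ⟨_, rfl⟩
  have hK0 : 0 < K := by
    rw [hK]
    have : Real.exp (-(cc / 2)) < 1 := Real.exp_lt_one_iff.2 (by linarith)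
    exact inv_pos.2 (by linarith)
  obtain ⟨Cw, hCw⟩ : ∃ Cw : ℝ, Cw = 2 * C2 + 800 * C3 := ⟨_, rfl⟩
  have hCw0 : 0 < Cw := by rw [hCw]; positivity
  obtain ⟨D1, hD1, hD1'⟩ := pow_le_exp k (c := cc / 2) (by positivity)
  obtain ⟨D2, hD2, hD2'⟩ := pow_le_exp k (c := cT / 2) (by positivity)
  refine ⟨min (cc / 2) (cT / 2), 3 * Cw ^ k * CC * D1 * K + 200 * (2 * C3) ^ k * CT * D2, c0,
    max (max a1 a2) a3, max (max (max T1 T2) T3) (max T5 (2 * T6)), lt_min (by positivity) (by positivity),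
    by positivity, hc0p, le_max_of_le_left (le_max_of_le_left ha1), ?_, ?_⟩
  · exact le_max_of_le_right (le_max_of_le_left hT5)
  intro T τ τ' a ρ h J G hT ha hStd hτ0 hττ hρ hρr hhr hG hSep
  simp only [max_le_iff] at hT ha
  obtain ⟨⟨⟨hTa, hTb⟩, hTc⟩, hTe, hTf⟩ := hT
  obtain ⟨⟨haa, hab⟩, hac⟩ := ha
  have hT2' : 2 ≤ T := hT5.trans hTe
  have hT0 : 0 < T := by linarith
  have hτ : 0 < τ := hStd.tau
  obtain ⟨L, hL⟩ : ∃ L : ℝ, L = Real.log T := ⟨_, rfl⟩
  have hLp : 0 < L := by rw [hL]; exact Real.log_pos (by linarith)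
  have hOm : Om T = L / 2 := by unfold Om; rw [hL]
  have hOm0 : 0 ≤ Om T := by rw [hOm]; positivity
  have haeq : a = 2 * τ * Om T ^ 2 := hStd.a_eq
  have ha1' : 1 ≤ a := ha1.trans haa
  have hap : 0 < a := by linarith
  have hsmall : a ≤ c0 * Om T := hStd.small
  have haL : a ≤ L / 200 := by
    have : c0 * Om T ≤ 1 / 100 * Om T := mul_le_mul_of_nonneg_right hc03 hOm0
    rw [hOm] at this
    rw [hOm] at hsmall
    linarith
  have hJ1 : 2 ^ J * a ≤ L / 200 := by rw [hL]; exact hStd.top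
  have hJ2 : L / 200 < 2 ^ (J + 1) * a := by rw [hL]; exact hStd.top'
  have std : ∀ c, c0 ≤ c → Std c T τ a J := fun c hc =>
    { tau := hτ
      a_eq := haeq
      small := hsmall.trans (mul_le_mul_of_nonneg_right hc hOm0)
      top := hStd.top
      top' := hStd.top' }
  have h2τ : 2 * τ * Om T ≤ c0 := by
    have hOm1 : 0 < Om T := by rw [hOm]; positivity
    have h1 : 2 * τ * Om T * Om T ≤ c0 * Om T := by
      have : 2 * τ * Om T * Om T = 2 * τ * Om T ^ 2 := by ring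
      rw [this, ← haeq]; exact hsmall
    exact le_of_mul_le_mul_right h1 hOm1
  -- scales
  have hai : ∀ i : ℕ, a ≤ 2 ^ i * a := fun i => by
    have : (1 : ℝ) ≤ 2 ^ i := one_le_pow₀ (by norm_num)
    exact le_mul_of_one_le_left hap.le this
  have hai' : ∀ i : ℕ, i ≤ J → 2 ^ i * a ≤ L / 200 := fun i hi => by
    have : (2 : ℝ) ^ i ≤ 2 ^ J := pow_le_pow_right₀ (by norm_num) hi
    exact (mul_le_mul_of_nonneg_right this hap.le).trans hJ1
  have hra : ∀ i : ℕ, ra T (2 ^ i * a) = 2 ^ i * a / (L / 2) := fun i => by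
    unfold ra; rw [hL]
  have hrp : ∀ i : ℕ, 0 < ra T (2 ^ i * a) := fun i => by rw [hra]; positivity
  have hr1 : ∀ i : ℕ, i ≤ J → ra T (2 ^ i * a) ≤ 1 / 100 := fun i hi => by
    rw [hra, div_le_iff₀ (by positivity)]
    have := hai' i hi
    linarith
  have hra00 : ra T (2 ^ 0 * a) = ra T a := by rw [pow_zero, one_mul]
  have hra0 : 0 < ra T a := by
    have := hrp 0
    rw [hra00] at this
    exact this
  have hra1 : ra T a ≤ 1 / 100 := by
    have := hr1 0 (Nat.zero_le _)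
    rw [hra00] at this
    exact this
  have hmonr : ∀ i : ℕ, ra T a ≤ ra T (2 ^ i * a) := fun i => by
    rw [hra, show ra T a = a / (L / 2) by unfold ra; rw [hL]]
    exact div_le_div_of_nonneg_right (hai i) (by positivity)
  have hh1 : h ≤ 1 := by linarith
  have hρ1 : ρ ≤ 1 := by linarith
  -- crude bound
  have hcrude : ∀ t ∈ G, (nn (FT τ') t h : ℝ) ≤ C3 * (2 * L) := by
    intro t ht
    obtain ⟨ht1, ht2, -⟩ := hG t ht
    have hlog : Real.log t ≤ 2 * L := by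
      have h8 : Real.log t ≤ Real.log (T ^ 2 * T) :=
        Real.log_le_log (by linarith) (by nlinarith)
      have h9 : Real.log t ≤ Real.log (4 * T) := Real.log_le_log (by linarith) (by linarith)
      rw [Real.log_mul (by norm_num) hT0.ne', show (4 : ℝ) = 2 ^ 2 by norm_num, Real.log_pow] at h9
      push_cast at h9
      -- log 4 ≤ log T needs T ≥ 4
      have h10 : Real.log 4 ≤ Real.log T := Real.log_le_log (by norm_num) (by linarith)
      rw [show (4 : ℝ) = 2 ^ 2 by norm_num, Real.log_pow] at h10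
      push_cast at h10
      rw [hL]; linarith
    have h9 : Om t ≤ 2 * Om T := by
      rw [hOm]; unfold Om; linarith
    have := hUn t τ' h (by linarith) hτ0 (by
      calc 2 * τ' * Om t ≤ 2 * τ' * (2 * Om T) := mul_le_mul_of_nonneg_left h9 (by positivity)
        _ ≤ 2 * τ * (2 * Om T) := mul_le_mul_of_nonneg_right (by linarith) (by positivity)
        _ = 2 * (2 * τ * Om T) := by ring
        _ ≤ 2 * c0 := by linarith) hh1
    exact this.trans (mul_le_mul_of_nonneg_left hlog hC3.le)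
  -- the points as complex numbers
  obtain ⟨S, hS⟩ : ∃ S : Finset ℂ, S = G.image (fun t : ℝ => (⟨0, t⟩ : ℂ)) := ⟨_, rfl⟩
  have hinj : Function.Injective (fun t : ℝ => (⟨0, t⟩ : ℂ)) := by
    intro x y hxy
    exact (Complex.ext_iff.1 hxy).2
  have hSG : ∀ s ∈ S, s.im ∈ G := by
    intro s hs
    rw [hS, Finset.mem_image] at hs
    obtain ⟨t, ht, rfl⟩ := hs
    exact ht
  have hScard : ∀ S' : Finset ℂ, S' ⊆ S → ∀ x y : ℝ, 0 ≤ y →
      ((S'.filter fun s' => |s'.im - x| ≤ y).card : ℝ) ≤ 2 * y / ρ + 1 := by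
    intro S' hS' x y hy
    refine le_trans ?_ (hSep x y hy)
    have : (S'.filter fun s' => |s'.im - x| ≤ y).card ≤ (G.filter fun t => |t - x| ≤ y).card := by
      refine Finset.card_le_card_of_injOn (fun s => s.im) ?_ ?_
      · intro s hs
        rw [Finset.mem_coe, Finset.mem_filter] at hs
        rw [Finset.mem_coe, Finset.mem_filter]
        exact ⟨hSG s (hS' hs.1), hs.2⟩
      · intro s hs s' hs' he
        rw [Finset.mem_coe, Finset.mem_filter] at hs hs'
        have h1 := hS' hs.1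
        have h2 := hS' hs'.1
        rw [hS, Finset.mem_image] at h1 h2
        obtain ⟨t, -, rfl⟩ := h1
        obtain ⟨t', -, rfl⟩ := h2
        have : t = t' := he
        rw [this]
    exact_mod_cast this
  obtain ⟨w, hw⟩ : ∃ w : ℂ → ℝ, w = fun s => (nn (FT τ') s.im h : ℝ) ^ k := ⟨_, rfl⟩
  have hw0 : ∀ s, 0 ≤ w s := fun s => by rw [hw]; positivity
  have hgoal : ∑ t ∈ G, (nn (FT τ') t h : ℝ) ^ k = ∑ s ∈ S, w s := by
    rw [hS, Finset.sum_image (fun x _ y _ hxy => hinj hxy), hw]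
  rw [hgoal]
  -- windows
  have hwin : ∀ S' : Finset ℂ, S' ⊆ S → ∀ M : ℝ, 0 ≤ M → (∀ s' ∈ S', (nn (FT τ') s'.im h : ℝ) ≤ M) →
      ∀ x y : ℝ, 0 ≤ y → ∑ s' ∈ S' with |s'.im - x| ≤ y, w s' ≤ (2 * y / ρ + 1) * M ^ k := by
    intro S' hS' M hM hMb x y hy
    calc ∑ s' ∈ S' with |s'.im - x| ≤ y, w s' ≤ ∑ s' ∈ S' with |s'.im - x| ≤ y, M ^ k := by
          refine Finset.sum_le_sum fun s' hs' => ?_
          rw [Finset.mem_filter] at hs'
          rw [hw]
          exact pow_le_pow_left₀ (Nat.cast_nonneg _) (hMb s' hs'.1) k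
      _ = ((S'.filter fun s' => |s'.im - x| ≤ y).card : ℝ) * M ^ k := by
          rw [Finset.sum_const, nsmul_eq_mul]
      _ ≤ _ := mul_le_mul_of_nonneg_right (hScard S' hS' x y hy) (by positivity)
  -- class A
  have hA : ∑ s ∈ S with ¬ TopOK2 F R η s.im, w s ≤
      200 * (2 * C3) ^ k * CT * D2 * (T / ρ) * Real.exp (-(cT / 2 * a)) := by
    have hcov := hCOV (S.filter fun s => ¬ TopOK2 F R η s.im) w
      {t : ℝ | T / 2 ≤ t ∧ t ≤ 3 * T ∧ ¬ FarOK F R (1 / 400) η t} (1 / 200) (CT * T ^ (1 - cT))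
      ((2 * (2 * (1 / 200)) / ρ + 1) * (C3 * (2 * L)) ^ k) (by norm_num) (by positivity) (by positivity)
      (fun s _ => hw0 s) ?_ (hTop T hTe) ?_
    · refine hcov.trans ?_
      have h8 : L ^ k * T ^ (1 - cT) ≤ D2 * (T * Real.exp (-(cT / 2 * a))) := by
        rw [Real.rpow_def_of_pos hT0, ← hL]
        have h9 : T = Real.exp L := by rw [hL, Real.exp_log hT0]
        have h11 := hD2' L hLp.le
        calc L ^ k * Real.exp (L * (1 - cT)) ≤ D2 * Real.exp (cT / 2 * L) * Real.exp (L * (1 - cT)) :=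
              mul_le_mul_of_nonneg_right h11 (Real.exp_pos _).le
          _ = D2 * Real.exp (L + -(cT / 2 * L)) := by
              rw [mul_assoc, ← Real.exp_add]; congr 2; ring
          _ ≤ D2 * Real.exp (L + -(cT / 2 * a)) := by
              apply mul_le_mul_of_nonneg_left _ hD2.le
              rw [Real.exp_le_exp]
              have : cT / 2 * a ≤ cT / 2 * L := mul_le_mul_of_nonneg_left (by linarith) (by positivity)
              linarith
          _ = D2 * (T * Real.exp (-(cT / 2 * a))) := by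
              rw [Real.exp_add, ← h9]
      have h12 : 2 * (2 * (1 / 200)) / ρ + 1 ≤ 2 / ρ := by
        rw [div_add_one hρ.ne', div_le_div_iff_of_pos_right hρ]
        linarith
      calc (2 * (2 * (1 / 200)) / ρ + 1) * (C3 * (2 * L)) ^ k * (CT * T ^ (1 - cT) / (2 * (1 / 200)))
          ≤ (2 / ρ) * (C3 * (2 * L)) ^ k * (CT * T ^ (1 - cT) / (2 * (1 / 200))) := by
            gcongr
        _ = 200 * (2 * C3) ^ k * CT / ρ * (L ^ k * T ^ (1 - cT)) := by
            rw [show C3 * (2 * L) = (2 * C3) * L by ring, mul_pow]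
            ring
        _ ≤ 200 * (2 * C3) ^ k * CT / ρ * (D2 * (T * Real.exp (-(cT / 2 * a)))) :=
            mul_le_mul_of_nonneg_left h8 (by positivity)
        _ = _ := by ring
    · intro s hs t' ht'
      rw [Finset.mem_filter] at hs
      obtain ⟨hs1, hs2, -⟩ := hG _ (hSG s hs.1)
      rw [mem_Icc] at ht'
      refine ⟨by linarith [ht'.1], by linarith [ht'.2], fun hF => hs.2 ⟨t', ?_, hF⟩⟩
      rw [abs_le]
      constructor <;> linarith [ht'.1, ht'.2]
    · intro s hs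
      exact hwin _ (Finset.filter_subset _ _) _ (by positivity)
        (fun s' hs' => hcrude _ (hSG s' (Finset.mem_of_mem_filter s' hs'))) s.im _ (by norm_num)
  -- the class function
  have hex : ∀ t : ℝ, ∃ j0 : ℕ, LocH2 F η T a j0 J t := fun t => ⟨J + 1, fun j h8 h9 => by omega⟩
  obtain ⟨cls, hcls⟩ : ∃ cls : ℝ → ℕ, cls = fun t => Nat.find (hex t) := ⟨_, rfl⟩
  have hcl1 : ∀ t, LocH2 F η T a (cls t) J t := fun t => by rw [hcls]; exact Nat.find_spec (hex t)
  have hcl2 : ∀ t m, m < cls t → ¬ LocH2 F η T a m J t := fun t m hm => by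
    rw [hcls] at hm; exact Nat.find_min (hex t) hm
  have hcl3 : ∀ t, cls t ≤ J + 1 := fun t => by
    rw [hcls]; exact Nat.find_min' (hex t) (fun j h8 h9 => by omega)
  have hcl4 : ∀ s ∈ S, TopOK2 F R η s.im → 1 ≤ cls s.im := by
    intro s hs htop
    by_contra hcon
    have h0 : cls s.im = 0 := by omega
    have h8 := hcl1 s.im
    rw [h0] at h8
    exact (hG _ (hSG s hs)).2.2 ⟨h8, htop⟩
  -- the number of zeros in a class
  have hcnt : ∀ s ∈ S, TopOK2 F R η s.im → (nn (FT τ') s.im h : ℝ) ≤ Cw / 2 * (2 ^ (cls s.im) * a) := by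
    intro s hs htop
    have hcs := hcl3 s.im
    rcases Nat.lt_or_ge (cls s.im) (J + 1) with h8 | h8
    · obtain ⟨Z, hZ, -, hn⟩ := nn_spec (hD.heatd τ' hτ0) (fun s hs => hD.strip τ' s hτ0 hs) s.im h
      rw [hn]
      push_cast
      obtain ⟨hs1, hs2, -⟩ := hG _ (hSG s hs)
      have h9 := hCN T τ τ' a s.im J (cls s.im) hTb hab (std c2 hc02) hτ0 hττ (by linarith) (by linarith)
        (by omega) (loc_mono hap.le hηb ((hcl1 s.im).to0 hra0.le hap.le (by linarith)))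
        (top_mono hRb hηb (by linarith) htop.to0) Z ?_
      · refine h9.trans ?_
        rw [hCw]
        have h13 : 0 ≤ 400 * C3 * (2 ^ (cls s.im) * a) := by positivity
        linarith
      · intro z hz
        obtain ⟨hz1, hz2⟩ := (hZ z).1 hz
        have hz3 := abs_le.1 hz2
        have h10 := hPT T τ τ' a J (cls s.im) z hTa haa (std c1 hc01) hτ0 hττ (by linarith) (by linarith)
          (by omega) (loc_mono hap.le hηa ((hcl1 s.im).toH (t1 := z.im) hap.le (by linarith) (by linarith)))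
          (top_mono hRa hηa (by linarith) (htop.toH (t1 := z.im) (by linarith))) hz1
        have h11 := hrp (cls s.im)
        have h12 := hmonr (cls s.im)
        exact ⟨by linarith, by linarith, hz1⟩
    · have h9 : cls s.im = J + 1 := by omega
      rw [h9]
      refine (hcrude _ (hSG s hs)).trans ?_
      rw [hCw]
      have h10 : L < 200 * (2 ^ (J + 1) * a) := by linarith
      have h11 := mul_le_mul_of_nonneg_left h10.le hC3.le
      have h12 : 0 < C2 * (2 ^ (J + 1) * a) := by positivity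
      linarith
  -- one class
  have hcla : ∀ i ∈ Finset.range (J + 1),
      ∑ s ∈ (S.filter fun s => TopOK2 F R η s.im) with cls s.im - 1 = i, w s ≤
        3 * Cw ^ k * CC * D1 * (T / ρ) * Real.exp (-(cc / 2 * (2 ^ i * a))) := by
    intro i hi
    have hiJ : i ≤ J := by rw [Finset.mem_range] at hi; omega
    obtain ⟨Si, hSi⟩ : ∃ Si : Finset ℂ,
      Si = (S.filter fun s => TopOK2 F R η s.im).filter fun s => cls s.im - 1 = i := ⟨_, rfl⟩
    have hmem : ∀ s ∈ Si, s ∈ S ∧ TopOK2 F R η s.im ∧ cls s.im = i + 1 := by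
      intro s hs
      rw [hSi, Finset.mem_filter, Finset.mem_filter] at hs
      have := hcl4 s hs.1.1 hs.1.2
      exact ⟨hs.1.1, hs.1.2, by omega⟩
    rw [← hSi]
    have hCi : (2 : ℝ) ^ i * a ≤ Real.log T / 200 := by rw [← hL]; exact hai' i hiJ
    have hρi : ρ ≤ ra T (2 ^ i * a) / 200 := by
      have := hmonr i
      linarith
    have hcov := hCOV Si w
      {t : ℝ | T / 2 ≤ t ∧ t ≤ 3 * T ∧
        ¬ NN (2 ^ i * a) η (fun z => F (I * t + ra T (2 ^ i * a) * z))}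
      (ra T (2 ^ i * a) / 200) (CC * T * Real.exp (-(cc * (2 ^ i * a))))
      ((2 * (2 * (ra T (2 ^ i * a) / 200)) / ρ + 1) * (Cw * (2 ^ i * a)) ^ k)
      (by have := hrp i; positivity) (by positivity) (by have := hrp i; positivity) (fun s _ => hw0 s) ?_ ?_ ?_
    · refine hcov.trans ?_
      obtain ⟨d, hd⟩ : ∃ d : ℝ, d = ra T (2 ^ i * a) / 200 := ⟨_, rfl⟩
      have hd0 : 0 < d := by rw [hd]; have := hrp i; positivity
      rw [← hd] at hρi ⊢
      have h12 : 2 * (2 * d) / ρ + 1 ≤ 5 * d / ρ := by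
        rw [div_add_one hρ.ne', div_le_div_iff_of_pos_right hρ]
        linarith
      have h13 := hD1' (2 ^ i * a) (by positivity)
      calc (2 * (2 * d) / ρ + 1) * (Cw * (2 ^ i * a)) ^ k * (CC * T * Real.exp (-(cc * (2 ^ i * a))) / (2 * d))
          ≤ (5 * d / ρ) * (Cw * (2 ^ i * a)) ^ k * (CC * T * Real.exp (-(cc * (2 ^ i * a))) / (2 * d)) := by
            gcongr
        _ = 5 / 2 * Cw ^ k * CC * (T / ρ) * ((2 ^ i * a) ^ k * Real.exp (-(cc * (2 ^ i * a)))) := by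
            rw [mul_pow]; field_simp
        _ ≤ 5 / 2 * Cw ^ k * CC * (T / ρ) * (D1 * Real.exp (cc / 2 * (2 ^ i * a)) *
              Real.exp (-(cc * (2 ^ i * a)))) := by gcongr
        _ = 5 / 2 * Cw ^ k * CC * D1 * (T / ρ) * Real.exp (-(cc / 2 * (2 ^ i * a))) := by
            rw [mul_assoc D1, ← Real.exp_add]
            have : cc / 2 * (2 ^ i * a) + -(cc * (2 ^ i * a)) = -(cc / 2 * (2 ^ i * a)) := by ring
            rw [this]; ring
        _ ≤ 3 * Cw ^ k * CC * D1 * (T / ρ) * Real.exp (-(cc / 2 * (2 ^ i * a))) := by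
            have h14 : 0 ≤ Cw ^ k * CC * D1 * (T / ρ) * Real.exp (-(cc / 2 * (2 ^ i * a))) := by positivity
            nlinarith
    · intro s hs t' ht'
      obtain ⟨hs0, htop, hci⟩ := hmem s hs
      obtain ⟨hs1, hs2, -⟩ := hG _ (hSG s hs0)
      rw [mem_Icc] at ht'
      have hr := hr1 i hiJ
      refine ⟨by linarith [ht'.1], by linarith [ht'.2], fun hN => ?_⟩
      apply hcl2 s.im i (by omega)
      intro j hj hjJ
      rcases hj.eq_or_lt with h8 | h8
      · subst h8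
        refine ⟨t', ?_, hN⟩
        rw [abs_le]
        constructor <;> linarith [ht'.1, ht'.2]
      · exact hcl1 s.im j (by omega) hjJ
    · exact hV T (2 ^ i * a) hTc (hac.trans (hai i)) hCi
    · intro s hs
      refine hwin Si (fun s hs => (hmem s hs).1) _ (by positivity) (fun s' hs' => ?_) s.im _
        (by have := hrp i; positivity)
      obtain ⟨hs0', htop', hci'⟩ := hmem s' hs'
      refine (hcnt s' hs0' htop').trans (le_of_eq ?_)
      rw [hci', pow_succ]; ring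
  -- sum
  have hB : ∑ s ∈ S with TopOK2 F R η s.im, w s ≤
      3 * Cw ^ k * CC * D1 * K * (T / ρ) * Real.exp (-(cc / 2 * a)) := by
    rw [← Finset.sum_fiberwise_of_maps_to (g := fun s : ℂ => cls s.im - 1)
      (t := Finset.range (J + 1)) (fun s _ => by
        have := hcl3 s.im
        rw [Finset.mem_range]; omega)]
    refine (Finset.sum_le_sum hcla).trans ?_
    rw [← Finset.mul_sum]
    have h8 := geo (show 0 < cc / 2 by positivity) ha1' (J + 1)
    rw [← hK] at h8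
    calc 3 * Cw ^ k * CC * D1 * (T / ρ) * ∑ i ∈ Finset.range (J + 1), Real.exp (-(cc / 2 * (2 ^ i * a)))
        ≤ 3 * Cw ^ k * CC * D1 * (T / ρ) * (K * Real.exp (-(cc / 2 * a))) :=
          mul_le_mul_of_nonneg_left h8 (by positivity)
      _ = _ := by ring
  rw [← Finset.sum_filter_add_sum_filter_not S (fun s => TopOK2 F R η s.im)]
  have hm1 : Real.exp (-(cc / 2 * a)) ≤ Real.exp (-(min (cc / 2) (cT / 2) * a)) := by
    rw [Real.exp_le_exp]
    have := mul_le_mul_of_nonneg_right (min_le_left (cc / 2) (cT / 2)) hap.le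
    linarith
  have hm2 : Real.exp (-(cT / 2 * a)) ≤ Real.exp (-(min (cc / 2) (cT / 2) * a)) := by
    rw [Real.exp_le_exp]
    have := mul_le_mul_of_nonneg_right (min_le_right (cc / 2) (cT / 2)) hap.le
    linarith
  calc _ ≤ 3 * Cw ^ k * CC * D1 * K * (T / ρ) * Real.exp (-(cc / 2 * a)) +
        200 * (2 * C3) ^ k * CT * D2 * (T / ρ) * Real.exp (-(cT / 2 * a)) := add_le_add hB hA
    _ ≤ 3 * Cw ^ k * CC * D1 * K * (T / ρ) * Real.exp (-(min (cc / 2) (cT / 2) * a)) +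
        200 * (2 * C3) ^ k * CT * D2 * (T / ρ) * Real.exp (-(min (cc / 2) (cT / 2) * a)) := by
        refine add_le_add (mul_le_mul_of_nonneg_left hm1 (by positivity)) ?_
        exact mul_le_mul_of_nonneg_left hm2 (by positivity)
    _ = _ := by ring

end Pool.Agent.R838.ST
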