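import Pool.Agent.R838.ST.Mlo
import Pool.Agent.R838.ST.Midw

set_option autoImplicit false

/-!
# Good heights: matching of the zeros, number of zeros; the crude bound
-/

namespace Pool.Agent.R838.ST

open Complex Filter Topology MeasureTheory Set
open Pool.Agent.Y671.LD (badH FarOK LocH TopOK)
open Pool.Agent.R838.LD
open Pool.Agent.H24R2.JP (Om)
open Pool.Agent.H24R2.DZ (ra NN)
open Pool.Agent.R838.CR
open Pool.Agent.W186.SD (UU NG Grow S_NGN S_AW S_CNT S_COV Std)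
open Pool.Agent.R838.LD.Y287Midh (nn_mono far_mono top_mono loc_mono geo)
open Pool.Agent.W186.SD.PTaux (NG_mono NN_mono)

/-- There is a standard situation for every scale, if the height is large. -/
lemma std_ex {a c0 : ℝ} (ha : 1 ≤ a) (hc0 : 0 < c0) : ∃ T0 : ℝ, 2 ≤ T0 ∧ ∀ T : ℝ, T0 ≤ T →
    ∃ J : ℕ, Std c0 T (a / (2 * Om T ^ 2)) a J := by
  refine ⟨max 2 (Real.exp (max (200 * a) (2 * a / c0))), le_max_left _ _, ?_⟩
  intro T hT
  have hT2 : 2 ≤ T := (le_max_left _ _).trans hT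
  have hT0 : 0 < T := by linarith
  have hL : max (200 * a) (2 * a / c0) ≤ Real.log T := by
    rw [Real.le_log_iff_exp_le hT0]
    exact (le_max_right _ _).trans hT
  have hL1 := (le_max_left _ _).trans hL
  have hL2 := (le_max_right _ _).trans hL
  have hap : 0 < a := by linarith
  have hOm : Om T = Real.log T / 2 := rfl
  have hOm0 : 0 < Om T := by rw [hOm]; linarith
  obtain ⟨J, hJ1, hJ2⟩ := exists_nat_pow_near (x := Real.log T / 200 / a) (y := (2 : ℝ))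
    ((one_le_div hap).2 (by linarith)) (by norm_num)
  rw [le_div_iff₀ hap] at hJ1
  rw [div_lt_iff₀ hap] at hJ2
  refine ⟨J, ⟨by positivity, by field_simp, ?_, hJ1, hJ2⟩⟩
  rw [hOm]
  rw [div_le_iff₀ hc0] at hL2
  linarith

/-- The zeros of `f` near `t` are mapped injectively to the zeros of `g`, and moved by at most `ε`. -/
def MT (f g : ℂ → ℂ) (t h ε : ℝ) : Prop := ∃ φ : ℂ × ℕ → ℂ × ℕ,
  (∀ p ∈ Zi f, |p.1.im - t| ≤ h → φ p ∈ Zi g ∧ |(φ p).1.im - p.1.im| ≤ ε) ∧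
  Set.InjOn φ {p | p ∈ Zi f ∧ |p.1.im - t| ≤ h}

theorem goodm {B : ℝ} {F : ℂ → ℂ} {FT : ℝ → ℂ → ℂ} (hD : STB B F FT) (hNGN : S_NGN)
    (hAW : S_AW) :
    ∃ Rs ηs c0 a0 : ℝ, 1 ≤ Rs ∧ 0 < ηs ∧ 0 < c0 ∧ 1 ≤ a0 ∧ ∀ R η : ℝ, Rs ≤ R → 0 < η → η ≤ ηs →
    ∀ a κ : ℝ, a0 ≤ a → 0 < κ → κ ≤ 1 / 20 → ∃ δ T0 : ℝ, 0 < δ ∧ 2 ≤ T0 ∧
    ∀ (T τ τ1 τ2 t : ℝ) (J : ℕ), T0 ≤ T → Std c0 T τ a J → 0 ≤ τ1 → 0 ≤ τ2 → (τ1 = 0 ∨ τ2 = 0) →
    τ1 ≤ δ / Om T ^ 2 → τ2 ≤ δ / Om T ^ 2 → T / 2 + 1 ≤ t → t ≤ 3 * T - 1 → GH F R η T a J t →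
    MT (FT τ1) (FT τ2) t (ra T a / 400) (2 * κ * ra T a) := by
  obtain ⟨R1, e1, c1, a1, T1, hR1, he1, hc1, ha1, hT1, hPT⟩ := pta hD hNGN hAW
  obtain ⟨R2, e2, c2, T2, hR2, he2, hc2, hT2, hGR⟩ := hD.ins.grow
  obtain ⟨e3, he3, hng⟩ := hNGN 1 one_pos
  refine ⟨max R1 R2, min (min e1 e2) e3, min (min c1 c2) (1 / 100), a1, le_max_of_le_left hR1,
    lt_min (lt_min he1 he2) he3, lt_min (lt_min hc1 hc2) (by norm_num), ha1, ?_⟩
  intro R η hR hη0 hη a κ ha hκ hκ1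
  have hRa : R1 ≤ R := (le_max_left _ _).trans hR
  have hRb : R2 ≤ R := (le_max_right _ _).trans hR
  have hηa : η ≤ e1 := hη.trans ((min_le_left _ _).trans (min_le_left _ _))
  have hηb : η ≤ e2 := hη.trans ((min_le_left _ _).trans (min_le_right _ _))
  have hηc : η ≤ e3 := hη.trans (min_le_right _ _)
  have ha1' : 1 ≤ a := ha1.trans ha
  have hap : 0 < a := by linarith
  obtain ⟨δ1, hδ1, hM⟩ := mlo hD ha1' hκ hκ1
  refine ⟨min (δ1 * a ^ 2) (a / 2), max (max T1 T2) 4, lt_min (by positivity) (by positivity),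
    le_max_of_le_right (by norm_num), ?_⟩
  intro T τ τ1 τ2 t J hT hStd hτ1 hτ2 h12 hτ1' hτ2' ht1 ht2 hG
  simp only [max_le_iff] at hT
  obtain ⟨⟨hTa, hTb⟩, hT2'⟩ := hT
  have hT0 : 0 < T := by linarith
  have hLp : 0 < Real.log T := Real.log_pos (by linarith)
  have hOm : Om T = Real.log T / 2 := rfl
  have hOm0 : 0 < Om T := by rw [hOm]; positivity
  have hStd1 : Std c1 T τ a J := ⟨hStd.tau, hStd.a_eq, hStd.small.trans (mul_le_mul_of_nonneg_right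
    ((min_le_left _ _).trans (min_le_left _ _)) hOm0.le), hStd.top, hStd.top'⟩
  have hStd2 : Std c2 T τ a J := ⟨hStd.tau, hStd.a_eq, hStd.small.trans (mul_le_mul_of_nonneg_right
    ((min_le_left _ _).trans (min_le_right _ _)) hOm0.le), hStd.top, hStd.top'⟩
  have hsm : a ≤ 1 / 100 * Om T := hStd.small.trans (mul_le_mul_of_nonneg_right (min_le_right _ _) hOm0.le)
  have hτa : a / 2 / Om T ^ 2 = τ := by rw [hStd.a_eq]; field_simp
  have hττ : ∀ τ' : ℝ, τ' ≤ min (δ1 * a ^ 2) (a / 2) / Om T ^ 2 → τ' ≤ τ := by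
    intro τ' h
    refine h.trans ?_
    rw [← hτa]
    exact div_le_div_of_nonneg_right (min_le_right _ _) (by positivity)
  obtain ⟨r, hr⟩ : ∃ r : ℝ, r = ra T a := ⟨_, rfl⟩
  have hre : r = a / Om T := hr
  have hr0 : 0 < r := by rw [hre]; positivity
  have hr1 : r ≤ 1 / 100 := by
    rw [hre, div_le_iff₀ hOm0]; linarith
  have hδr : ∀ τ' : ℝ, τ' ≤ min (δ1 * a ^ 2) (a / 2) / Om T ^ 2 → τ' ≤ δ1 * r ^ 2 := by
    intro τ' h
    refine h.trans ?_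
    have : δ1 * r ^ 2 = δ1 * a ^ 2 / Om T ^ 2 := by rw [hre, div_pow]; ring
    rw [this]
    exact div_le_div_of_nonneg_right (min_le_left _ _) (by positivity)
  obtain ⟨hLoc, hTop⟩ := hG
  obtain ⟨t', ht', hNN⟩ := hLoc 0 le_rfl (Nat.zero_le _)
  have e20 : (2 : ℝ) ^ 0 * a = a := by norm_num
  rw [e20, ← hr] at ht' hNN
  have hGrow := hGR T τ a t t' J 0 hTb ha1' hStd2 (by linarith) (by linarith) (Nat.zero_le _)
    (loc_mono hap.le hηb (hLoc.to0 (by rw [← hr]; exact hr0.le) hap.le (by linarith)))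
    (top_mono hRb hηb (by linarith) hTop.to0)
    (by rw [e20, ← hr]; linarith) (by rw [e20, ← hr]; exact NN_mono hap.le hηb hNN)
  rw [e20, ← hr] at hGrow
  have hg : r ^ 2 / (4 * τ) = a / 2 := by
    rw [hre, ← hτa]
    field_simp
    norm_num
  rw [hg] at hGrow
  have hNG : NG (1 / 2) a (a / 2) 1 (fun z => F (I * t' + r * z)) :=
    hng a (a / 2) _ ha1' (NN_mono hap.le hηc hNN) hGrow
  have hinj : InjG (FT τ1) (FT τ2) t' r (2 * κ * r) := by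
    rcases h12 with h | h
    · rw [h, hD.zero]
      exact (hM t' r τ2 hr0 hτ2 (hδr _ hτ2') hNG).1
    · rw [h, hD.zero]
      exact (hM t' r τ1 hr0 hτ1 (hδr _ hτ1') hNG).2
  obtain ⟨φ, h1, h2⟩ := hinj
  have hloc : ∀ p ∈ Zi (FT τ1), |p.1.im - t| ≤ ra T a / 400 → |p.1.re| ≤ r / 2 ∧ |p.1.im - t'| ≤ r / 2 := by
    intro p hp hpt
    rw [← hr] at hpt
    have h3 := abs_le.1 hpt
    have h4 := hPT T τ τ1 a J 0 p.1 hTa ha hStd1 hτ1 (hττ _ hτ1') (by linarith) (by linarith) (Nat.zero_le _)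
      (loc_mono hap.le hηa (hLoc.toH (t1 := p.1.im) hap.le (by linarith) (by rw [← hr]; linarith)))
      (top_mono hRa hηa (by linarith) (hTop.toH (t1 := p.1.im) (by linarith)))
      (Zi_zero (hD.heatd τ1 hτ1) hp)
    rw [e20, ← hr] at h4
    refine ⟨h4, ?_⟩
    have h5 := abs_sub_le p.1.im t t'
    linarith
  refine ⟨φ, ?_, ?_⟩
  · intro p hp hpt
    obtain ⟨h3, h4⟩ := hloc p hp hpt
    obtain ⟨h5, h6⟩ := h1 p hp h3 h4
    refine ⟨h5, ?_⟩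
    rw [← hr]
    have h7 := Complex.abs_im_le_norm ((φ p).1 - p.1)
    rw [Complex.sub_im] at h7
    exact h7.trans h6
  · intro p hp q hq hpq
    have h3 := hloc p hp.1 hp.2
    have h4 := hloc q hq.1 hq.2
    exact h2 ⟨hp.1, h3.1, h3.2⟩ ⟨hq.1, h4.1, h4.2⟩ hpq

theorem goodn {B : ℝ} {F : ℂ → ℂ} {FT : ℝ → ℂ → ℂ} (hD : STB B F FT) (hNGN : S_NGN)
    (hAW : S_AW) (hCNT : S_CNT) :
    ∃ Rs ηs c0 a0 C T0 : ℝ, 1 ≤ Rs ∧ 0 < ηs ∧ 0 < c0 ∧ 1 ≤ a0 ∧ 0 < C ∧ 2 ≤ T0 ∧ ∀ R η : ℝ, Rs ≤ R → 0 < η →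
    η ≤ ηs → ∀ (T τ τ' a t h : ℝ) (J : ℕ), T0 ≤ T → a0 ≤ a → Std c0 T τ a J → 0 ≤ τ' → τ' ≤ τ →
    T / 2 + 1 ≤ t → t ≤ 3 * T - 1 → GH F R η T a J t → h ≤ ra T a / 400 →
    (nn (FT τ') t h : ℝ) ≤ C * a := by
  obtain ⟨R1, e1, c1, a1, T1, hR1, he1, hc1, ha1, hT1, hPT⟩ := pta hD hNGN hAW
  obtain ⟨R2, e2, c2, a2, C2, T2, hR2, he2, hc2, ha2, hC2, hT2, hCN⟩ := cns hD hNGN hCNT
  refine ⟨max R1 R2, min e1 e2, min (min c1 c2) (1 / 100), max a1 a2, C2, max (max T1 T2) 4,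
    le_max_of_le_left hR1, lt_min he1 he2, lt_min (lt_min hc1 hc2) (by norm_num), le_max_of_le_left ha1, hC2,
    le_max_of_le_right (by norm_num), ?_⟩
  intro R η hR hη0 hη T τ τ' a t h J hT ha hStd hτ0 hττ ht1 ht2 hG hh
  have hRa : R1 ≤ R := (le_max_left _ _).trans hR
  have hRb : R2 ≤ R := (le_max_right _ _).trans hR
  have hηa : η ≤ e1 := hη.trans (min_le_left _ _)
  have hηb : η ≤ e2 := hη.trans (min_le_right _ _)
  have haa : a1 ≤ a := (le_max_left _ _).trans ha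
  have hab : a2 ≤ a := (le_max_right _ _).trans ha
  have ha1' : 1 ≤ a := ha1.trans haa
  have hap : 0 < a := by linarith
  simp only [max_le_iff] at hT
  obtain ⟨⟨hTa, hTb⟩, hT2'⟩ := hT
  have hT0 : 0 < T := by linarith
  have hLp : 0 < Real.log T := Real.log_pos (by linarith)
  have hOm : Om T = Real.log T / 2 := rfl
  have hOm0 : 0 < Om T := by rw [hOm]; positivity
  have hStd1 : Std c1 T τ a J := ⟨hStd.tau, hStd.a_eq, hStd.small.trans (mul_le_mul_of_nonneg_right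
    ((min_le_left _ _).trans (min_le_left _ _)) hOm0.le), hStd.top, hStd.top'⟩
  have hStd2 : Std c2 T τ a J := ⟨hStd.tau, hStd.a_eq, hStd.small.trans (mul_le_mul_of_nonneg_right
    ((min_le_left _ _).trans (min_le_right _ _)) hOm0.le), hStd.top, hStd.top'⟩
  have hsm : a ≤ 1 / 100 * Om T := hStd.small.trans (mul_le_mul_of_nonneg_right (min_le_right _ _) hOm0.le)
  obtain ⟨r, hr⟩ : ∃ r : ℝ, r = ra T a := ⟨_, rfl⟩
  have hre : r = a / Om T := hr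
  have hr0 : 0 < r := by rw [hre]; positivity
  have hr1 : r ≤ 1 / 100 := by
    rw [hre, div_le_iff₀ hOm0]; linarith
  have e20 : (2 : ℝ) ^ 0 * a = a := by norm_num
  obtain ⟨hLoc, hTop⟩ := hG
  rw [← hr] at hh
  obtain ⟨Z, hZ, -, hn⟩ := nn_spec (hD.heatd τ' hτ0) (fun s hs => hD.strip τ' s hτ0 hs) t h
  rw [hn]
  push_cast
  have h9 := hCN T τ τ' a t J 0 hTb hab hStd2 hτ0 hττ (by linarith) (by linarith)
    (Nat.zero_le _) (loc_mono hap.le hηb (hLoc.to0 (by rw [← hr]; exact hr0.le) hap.le (by linarith)))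
    (top_mono hRb hηb (by linarith) hTop.to0) Z ?_
  · rw [e20] at h9
    exact h9
  · intro z hz
    obtain ⟨hz1, hz2⟩ := (hZ z).1 hz
    have hz3 := abs_le.1 hz2
    have h10 := hPT T τ τ' a J 0 z hTa haa hStd1 hτ0 hττ (by linarith) (by linarith)
      (Nat.zero_le _) (loc_mono hap.le hηa (hLoc.toH (t1 := z.im) hap.le (by linarith) (by rw [← hr]; linarith)))
      (top_mono hRa hηa (by linarith) (hTop.toH (t1 := z.im) (by linarith))) hz1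
    rw [e20, ← hr] at h10 ⊢
    exact ⟨by linarith, by linarith, hz1⟩

end Pool.Agent.R838.ST
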