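import Pool.Agent.R838.ST.Gps

set_option autoImplicit false

/-!
# Consecutive ordinates, dyadic blocks
-/

namespace Pool.Agent.R838.ST

open Complex Filter Topology MeasureTheory Set
open Pool.Agent.H24R2.JP (Om)
open Pool.Agent.H24R2.DZ (ra NN)
open Pool.Agent.R838.CR
open Pool.Agent.W186.SD (S_NGN S_AW S_CNT S_COV Std)

lemma ord_pos {f : ℂ → ℂ} {B : ℝ} (hf : Differentiable ℂ f) (hs : ∀ s, f s = 0 → |s.re| ≤ B) {z : ℂ}
    (hz : f z = 0) : 0 < analyticOrderNatAt f z := by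
  have hfa : AnalyticOnNhd ℂ f univ := fun z _ => hf.analyticAt z
  have h1 : analyticOrderAt f z ≠ 0 := by
    intro h
    exact (hf.analyticAt z).analyticOrderAt_eq_zero.1 h hz
  have h2 : analyticOrderAt f z ≠ ⊤ := by
    intro h
    rw [analyticOrderAt_eq_top] at h
    have h3 : f = fun _ => 0 := hfa.eq_of_eventuallyEq (g := fun _ => 0) (fun z _ => analyticAt_const) (z₀ := z) h
    have h4 := hs (((|B| + 1 : ℝ) : ℂ)) (by rw [h3])
    rw [Complex.ofReal_re] at h4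
    have h5 := le_abs_self B
    have h6 := le_abs_self (|B| + 1)
    linarith
  unfold analyticOrderNatAt
  rw [Nat.pos_iff_ne_zero]
  intro h
  rw [ENat.toNat_eq_zero] at h
  rcases h with h | h
  · exact h1 h
  · exact h2 h

lemma PR_nn {f : ℂ → ℂ} {B : ℝ} (hf : Differentiable ℂ f) (hs : ∀ s, f s = 0 → |s.re| ≤ B) (t h α β : ℝ) :
    (PR f (fun y => |y - t| ≤ h) α β).Finite ∧ (PR f (fun y => |y - t| ≤ h) α β).ncard ≤ nn f t h := by
  have h1 := PR_le hf hs (fun z hz => ord_pos hf hs hz) (P := fun y => |y - t| ≤ h) (α := α) (β := β)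
    (u := t - h) (v := t + h) (fun y hy => by have := abs_le.1 hy; constructor <;> linarith)
  exact ⟨h1.1, h1.2.trans (Z0_le hf hs t h)⟩

lemma bdryP {f : ℂ → ℂ} {B : ℝ} (hf : Differentiable ℂ f) (hs : ∀ s, f s = 0 → |s.re| ≤ B)
    {α β U V ρ : ℝ} :
    ((PR f (fun y => U - ρ < y ∧ y ≤ V + ρ) α β).ncard : ℝ) ≤
      ((PR f (fun y => U < y ∧ y ≤ V) α β).ncard : ℝ) + (nn f U ρ : ℝ) + (nn f V ρ : ℝ) := by
  have hsub : PR f (fun y => U - ρ < y ∧ y ≤ V + ρ) α β ⊆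
      (PR f (fun y => U < y ∧ y ≤ V) α β ∪ PR f (fun y => |y - U| ≤ ρ) α β) ∪
        PR f (fun y => |y - V| ≤ ρ) α β := by
    rintro p ⟨h1, h3, h4⟩
    rcases le_or_gt p.1 U with h5 | h5
    · left; right
      refine ⟨h1, ?_, h4⟩
      show |p.1 - U| ≤ ρ
      rw [abs_le]
      constructor <;> linarith [h3.1]
    · rcases le_or_gt p.1 V with h6 | h6
      · left; left
        exact ⟨h1, ⟨h5, h6⟩, h4⟩
      · right
        refine ⟨h1, ?_, h4⟩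
        show |p.1 - V| ≤ ρ
        rw [abs_le]
        constructor <;> linarith [h3.2]
  have hf1 := (PR_le hf hs (fun z hz => ord_pos hf hs hz) (P := fun y => U < y ∧ y ≤ V) (α := α) (β := β)
    (u := U) (v := V) (fun y hy => ⟨hy.1.le, hy.2⟩)).1
  obtain ⟨hf2, g2⟩ := PR_nn hf hs U ρ α β
  obtain ⟨hf3, g3⟩ := PR_nn hf hs V ρ α β
  have h1 := (Set.ncard_le_ncard hsub ((hf1.union hf2).union hf3)).trans
    ((Set.ncard_union_le _ _).trans (Nat.add_le_add_right (Set.ncard_union_le _ _) _))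
  have h2 : (PR f (fun y => U - ρ < y ∧ y ≤ V + ρ) α β).ncard ≤
      (PR f (fun y => U < y ∧ y ≤ V) α β).ncard + nn f U ρ + nn f V ρ := by
    omega
  exact_mod_cast h2

theorem blockP {B : ℝ} {F : ℂ → ℂ} {FT : ℝ → ℂ → ℂ} (hD : STB B F FT) (h0 : UNIT0 F) (hNGN : S_NGN)
    (hAW : S_AW) (hCNT : S_CNT) (hCOV : S_COV) (H0 : ℝ) (hH0 : 0 ≤ H0) (ε : ℝ) (hε : 0 < ε)
    (hε1 : ε ≤ 1) :
    ∃ δ U0 : ℝ, 0 < δ ∧ 2 ≤ U0 ∧ ∀ U τ1 τ2 α β : ℝ, U0 ≤ U → 0 ≤ τ1 → 0 ≤ τ2 →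
    (τ1 = 0 ∨ τ2 = 0) → τ1 ≤ δ / Om U ^ 2 → τ2 ≤ δ / Om U ^ 2 → ε / Om U ≤ α → β ≤ H0 / Om U →
    ((PR (FT τ1) (fun y => U < y ∧ y ≤ 2 * U) α β).ncard : ℝ) ≤
      ((PR (FT τ2) (fun y => U < y ∧ y ≤ 2 * U) (α - ε / Om U) (β + ε / Om U)).ncard : ℝ) +
      ε * U * Om U := by
  classical
  obtain ⟨Rs1, ηs1, hR1, hη1, hW⟩ := midw hD h0 hNGN hAW hCNT hCOV
  obtain ⟨Rs3, ηs3, c3, a3, hR3, hη3, hc3, ha3, hM⟩ := goodm hD hNGN hAW
  obtain ⟨C6, T6, hC6, hT6, hUn⟩ := unitA hD h0 1 one_pos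
  obtain ⟨R, hR⟩ : ∃ R : ℝ, R = max Rs1 Rs3 := ⟨_, rfl⟩
  obtain ⟨η, hη⟩ : ∃ η : ℝ, η = min ηs1 ηs3 := ⟨_, rfl⟩
  have hη0 : 0 < η := by rw [hη]; exact lt_min hη1 hη3
  obtain ⟨c, Cw, cw, aw, Tw, hc, hCw, hcw, haw, hTw, hW⟩ := hW R η (by rw [hR]; exact le_max_left _ _) hη0
    (by rw [hη]; exact min_le_left _ _) 1
  obtain ⟨e0, he0⟩ : ∃ e0 : ℝ, e0 = ε / 4 := ⟨_, rfl⟩
  have he0p : 0 < e0 := by rw [he0]; positivity
  obtain ⟨a, ha⟩ : ∃ a : ℝ, a = max (max aw a3) (max (400 * (3 + H0)) (4 * Cw / (c * ε))) := ⟨_, rfl⟩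
  have ha1 : aw ≤ a := by rw [ha]; exact (le_max_left _ _).trans (le_max_left _ _)
  have ha3' : a3 ≤ a := by rw [ha]; exact (le_max_right _ _).trans (le_max_left _ _)
  have ha4 : 400 * (3 + H0) ≤ a := by rw [ha]; exact (le_max_left _ _).trans (le_max_right _ _)
  have ha5 : 4 * Cw / (c * ε) ≤ a := by rw [ha]; exact (le_max_right _ _).trans (le_max_right _ _)
  have ha0 : 1 ≤ a := haw.trans ha1
  have hap : 0 < a := by linarith
  have hexp : Cw * Real.exp (-(c * a)) ≤ ε / 4 := expa hc hε ha5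
  obtain ⟨κ, hκ⟩ : ∃ κ : ℝ, κ = e0 / (2 * a) := ⟨_, rfl⟩
  have hκ0 : 0 < κ := by rw [hκ]; positivity
  have hκ1 : κ ≤ 1 / 20 := by rw [hκ]; exact kap (by linarith) (by linarith)
  obtain ⟨δm, Tm, hδm, hTm, hM⟩ := hM R η (by rw [hR]; exact le_max_right _ _) hη0
    (by rw [hη]; exact min_le_right _ _) a κ ha3' hκ0 hκ1
  obtain ⟨T3, hT3, hstd⟩ := std_ex (c0 := min cw c3) ha0 (lt_min hcw hc3)
  obtain ⟨Ub, hUb, hUb'⟩ := log_small C6 hC6.le 1 (ε := ε / 16) (by positivity)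
  refine ⟨min δm (min (a / 2) (1 / 2)),
    max (max Tw Tm) (max (max T3 Ub) (max T6 (Real.exp (2 * (H0 + 4))))), ?_, ?_, ?_⟩
  · exact lt_min hδm (lt_min (by positivity) (by norm_num))
  · exact hTw.trans ((le_max_left _ _).trans (le_max_left _ _))
  intro U τ1 τ2 α β hU hτ1 hτ2 h12 hτ1' hτ2' hα hβ
  simp only [max_le_iff] at hU
  obtain ⟨⟨hU1, hU2⟩, ⟨hU3, hU5⟩, hU6, hU7⟩ := hU
  have hU9 : (9 : ℝ) ≤ U := by
    have := Real.add_one_le_exp (2 * (H0 + 4))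
    linarith
  have hU0 : 0 < U := by linarith
  have hL : 2 * (H0 + 4) ≤ Real.log U := by rw [Real.le_log_iff_exp_le hU0]; exact hU7
  have hOm : Om U = Real.log U / 2 := rfl
  obtain ⟨ω, hω⟩ : ∃ ω : ℝ, ω = Om U := ⟨_, rfl⟩
  have hω4 : H0 + 4 ≤ ω := by rw [hω, hOm]; linarith
  have hω0 : 0 < ω := by linarith
  obtain ⟨J, hJ⟩ := hstd U hU3
  rw [← hω] at hα hβ hτ1' hτ2' hJ ⊢
  have hJw : Std cw U (a / (2 * ω ^ 2)) a J := ⟨hJ.tau, hJ.a_eq, hJ.small.trans (mul_le_mul_of_nonneg_right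
    (min_le_left _ _) (by rw [← hω]; exact hω0.le)), hJ.top, hJ.top'⟩
  have hJ3 : Std c3 U (a / (2 * ω ^ 2)) a J := ⟨hJ.tau, hJ.a_eq, hJ.small.trans (mul_le_mul_of_nonneg_right
    (min_le_right _ _) (by rw [← hω]; exact hω0.le)), hJ.top, hJ.top'⟩
  have hω2p : 0 < ω ^ 2 := by positivity
  have hdl : ∀ τ' x : ℝ, τ' ≤ min δm (min (a / 2) (1 / 2)) / ω ^ 2 →
      min δm (min (a / 2) (1 / 2)) ≤ x → τ' ≤ x / ω ^ 2 := fun τ' x h1 h2 =>
    h1.trans (div_le_div_of_nonneg_right h2 hω2p.le)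
  have hx2 : min δm (min (a / 2) (1 / 2)) ≤ δm := min_le_left _ _
  have hx3 : min δm (min (a / 2) (1 / 2)) ≤ a / 2 := (min_le_right _ _).trans (min_le_left _ _)
  have hx4 : min δm (min (a / 2) (1 / 2)) ≤ 1 / 2 := (min_le_right _ _).trans (min_le_right _ _)
  have hττ1 : τ1 ≤ a / (2 * ω ^ 2) := by
    refine (hdl τ1 _ hτ1' hx3).trans (le_of_eq ?_)
    field_simp
  have hra : ra U a = a / ω := by rw [hω]; rfl
  obtain ⟨ρ, hρ⟩ : ∃ ρ : ℝ, ρ = e0 / ω := ⟨_, rfl⟩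
  have hρ0 : 0 < ρ := by rw [hρ]; positivity
  have h1ω : 0 < 1 / ω := by positivity
  have h1ω1 : 1 / ω ≤ 1 := by rw [div_le_one hω0]; linarith
  have hwin : 1 / ω + H0 / ω ≤ ra U a / 400 := by rw [hra]; exact win_le hω0 (by linarith)
  have hH0ω : 0 ≤ H0 / ω := by positivity
  have h4ρ : 4 * ρ = ε / ω := by rw [hρ, he0]; field_simp
  have hκρ : 2 * κ * ra U a = ρ := by
    rw [hκ, hra, hρ]; field_simp
  obtain ⟨G, hG⟩ : ∃ G : Finset ℝ, G = grid (1 / ω) (U - 1) (2 * U + 1) := ⟨_, rfl⟩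
  have hGm : ∀ t ∈ G, U / 2 + 1 ≤ t ∧ t ≤ 3 * U - 1 := by
    intro t ht
    rw [hG] at ht
    have := grid_mem h1ω ht
    constructor <;> linarith
  have hSep : Sep G (1 / ω) := by rw [hG]; exact grid_sep h1ω
  have hf1 := hD.heatd τ1 hτ1
  have hst1 : ∀ s, FT τ1 s = 0 → |s.re| ≤ B := fun s hs => hD.strip τ1 s hτ1 hs
  have hf2 := hD.heatd τ2 hτ2
  have hst2 : ∀ s, FT τ2 s = 0 → |s.re| ≤ B := fun s hs => hD.strip τ2 s hτ2 hs
  have hmt : ∀ σ1 σ2 : ℝ, 0 ≤ σ1 → 0 ≤ σ2 → (σ1 = 0 ∨ σ2 = 0) →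
      σ1 ≤ min δm (min (a / 2) (1 / 2)) / ω ^ 2 → σ2 ≤ min δm (min (a / 2) (1 / 2)) / ω ^ 2 →
      ∀ t ∈ G, GH F R η U a J t → ∀ z, FT σ1 z = 0 → |z.im - t| ≤ 1 / ω + β →
        ∃ z', FT σ2 z' = 0 ∧ |z'.im - z.im| ≤ ρ := by
    intro σ1 σ2 hσ1 hσ2 hσ hσ1' hσ2' t ht hb z hz hzt
    obtain ⟨h1, h2⟩ := hGm t ht
    obtain ⟨φ, h3, -⟩ := hM U (a / (2 * ω ^ 2)) σ1 σ2 t J hU2 hJ3 hσ1 hσ2 hσ
      (by rw [← hω]; exact hdl σ1 _ hσ1' hx2) (by rw [← hω]; exact hdl σ2 _ hσ2' hx2) h1 h2 hb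
    rw [hκρ] at h3
    have hσz : 0 < analyticOrderNatAt (FT σ1) z :=
      ord_pos (hD.heatd σ1 hσ1) (fun s hs => hD.strip σ1 s hσ1 hs) hz
    obtain ⟨h5, h6⟩ := h3 (z, 0) hσz (by
      show |z.im - t| ≤ ra U a / 400
      linarith)
    exact ⟨(φ (z, 0)).1, Zi_zero (hD.heatd σ2 hσ2) h5, h6⟩
  have key := glueP (f := FT τ1) (g := FT τ2) (B := B) hf1 hst1 (fun z hz => ord_pos hf1 hst1 hz) hf2 hst2
    (fun z hz => ord_pos hf2 hst2 hz) (α := α) (β := β) (h := 1 / ω) (ρ := ρ)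
    (U := U) (V := 2 * U) hρ0.le (by linarith) G
    (fun x hx1 hx2 => by
      have h1 := grid_cov (ρ := 1 / ω) (u := U - 1) (v := 2 * U + 1) (x := x) (y := 1 / ω) h1ω
        (by linarith) (by linarith)
      have e1 : 2 * (1 / ω) / (1 / ω) - 1 = 1 := by field_simp; norm_num
      rw [e1] at h1
      have h2 : 0 < ((grid (1 / ω) (U - 1) (2 * U + 1)).filter fun t => |t - x| ≤ 1 / ω).card := by
        have : (0 : ℝ) < ((grid (1 / ω) (U - 1) (2 * U + 1)).filter fun t => |t - x| ≤ 1 / ω).card := by linarith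
        exact_mod_cast this
      obtain ⟨t, ht⟩ := Finset.card_pos.1 h2
      rw [Finset.mem_filter] at ht
      exact ⟨t, by rw [hG]; exact ht.1, by rw [abs_sub_comm]; exact ht.2⟩)
    (fun t => ¬ GH F R η U a J t)
    (fun t ht hb => by
      rw [not_not] at hb
      exact hmt τ1 τ2 hτ1 hτ2 h12 hτ1' hτ2' t ht hb)
    (fun t ht hb => by
      rw [not_not] at hb
      exact hmt τ2 τ1 hτ2 hτ1 h12.symm hτ2' hτ1' t ht hb)
  -- the bad heights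
  have hbad : ∑ t ∈ G with ¬ GH F R η U a J t, (nn (FT τ1) t (1 / ω) : ℝ) ≤ ε / 4 * (U * ω) := by
    have h1 := hW U (a / (2 * ω ^ 2)) τ1 a (1 / ω) (1 / ω) J (G.filter fun t => ¬ GH F R η U a J t)
      hU1 ha1 hJw hτ1 hττ1 h1ω (by linarith) (by linarith) (fun t ht => by
        rw [Finset.mem_filter] at ht
        obtain ⟨h1, h2⟩ := hGm t ht.1
        exact ⟨h1, h2, ht.2⟩) (hSep.subset (Finset.filter_subset _ _))
    simp only [pow_one] at h1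
    refine h1.trans ?_
    have e1 : Cw * (U / (1 / ω)) * Real.exp (-(c * a)) = Cw * Real.exp (-(c * a)) * (U * ω) := by field_simp
    rw [e1]
    exact mul_le_mul_of_nonneg_right hexp (by positivity)
  -- the boundary
  have hρ1 : ρ ≤ 1 := by
    have : ρ ≤ 1 / ω := by
      rw [hρ]
      exact div_le_div_of_nonneg_right (by linarith) hω0.le
    linarith
  have hnnU : ∀ x : ℝ, U ≤ x → x ≤ 2 * U → (nn (FT τ2) x ρ : ℝ) ≤ ε / 16 * U := by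
    intro x hx1 hx2
    have h2 : Real.log x ≤ Real.log (4 * U) := Real.log_le_log (by linarith) (by linarith)
    have h3 : Real.log (4 * U) ≤ 2 * Real.log U := log4 (by linarith)
    have h5 := hUn x τ2 ρ (by linarith) hτ2 (by
      have h6 : Om x ≤ 2 * ω := by
        rw [hω]; unfold Om; linarith
      have h7 := hdl τ2 _ hτ2' hx4
      rw [le_div_iff₀ hω2p] at h7
      have h8 : 4 * ω ≤ ω ^ 2 := by
        rw [pow_two]
        exact mul_le_mul_of_nonneg_right (by linarith) hω0.le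
      calc 2 * τ2 * Om x ≤ 2 * τ2 * (2 * ω) := mul_le_mul_of_nonneg_left h6 (by positivity)
        _ = τ2 * (4 * ω) := by ring
        _ ≤ τ2 * ω ^ 2 := mul_le_mul_of_nonneg_left h8 hτ2
        _ ≤ 1 := by linarith) hρ1
    have h9 := hUb' U hU5
    rw [pow_one] at h9
    exact h5.trans ((mul_le_mul_of_nonneg_left h2 hC6.le).trans h9)
  have hbd := bdryP hf2 hst2 (α := α - 2 * ρ) (β := β + 2 * ρ) (U := U) (V := 2 * U) (ρ := ρ)
  have hb1 := hnnU U le_rfl (by linarith)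
  have hb2 := hnnU (2 * U) (by linarith) le_rfl
  have hmn : ((PR (FT τ2) (fun y => U < y ∧ y ≤ 2 * U) (α - 2 * ρ) (β + 2 * ρ)).ncard : ℝ) ≤
      ((PR (FT τ2) (fun y => U < y ∧ y ≤ 2 * U) (α - ε / ω) (β + ε / ω)).ncard : ℝ) := by
    have hfin := (PR_le hf2 hst2 (fun z hz => ord_pos hf2 hst2 hz) (P := fun y => U < y ∧ y ≤ 2 * U)
      (α := α - ε / ω) (β := β + ε / ω) (u := U) (v := 2 * U) (fun y hy => ⟨hy.1.le, hy.2⟩)).1
    exact_mod_cast Set.ncard_le_ncard (PR_mono (fun y hy => hy) (by linarith) (by linarith)) hfin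
  have hU1ω : U ≤ U * ω := le_mul_of_one_le_right hU0.le (by linarith)
  have q5 : ε / 8 * U ≤ ε / 8 * (U * ω) := mul_le_mul_of_nonneg_left hU1ω (by positivity)
  have q6 : 0 ≤ ε * (U * ω) := by positivity
  have e3 : ε * U * ω = ε * (U * ω) := by ring
  rw [e3]
  linarith

end Pool.Agent.R838.ST
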