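import Pool.Agent.R838.ST.Gp2

set_option autoImplicit false

/-!
# Consecutive ordinates, full range
-/

namespace Pool.Agent.R838.ST

open Complex Filter Topology MeasureTheory Set
open Pool.Agent.H24R2.JP (Om)
open Pool.Agent.R838.CR
open Pool.Agent.W186.SD (S_NGN S_AW S_CNT S_COV)

lemma dyadN {a b : ℝ → ℝ → ℝ} {e T : ℝ} (hT : 0 < T) (ha0 : ∀ x, a x x ≤ 0) (hb0 : ∀ x, 0 ≤ b x x)
    (ha : ∀ x y z, x ≤ y → y ≤ z → a x z ≤ a y z + a x y)
    (hb : ∀ x y z, x ≤ y → y ≤ z → b y z + b x y ≤ b x z) (n : ℕ)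
    (h : ∀ U : ℝ, T / 2 ^ n ≤ U → 2 * U ≤ T → a U (2 * U) ≤ b U (2 * U) + e * U) :
    a (T / 2 ^ n) T ≤ b (T / 2 ^ n) T + e * T * (1 - 1 / 2 ^ n) := by
  induction n with
  | zero =>
    have e0 : e * T * (1 - 1 / 2 ^ 0) = 0 := by norm_num
    have e1 : T / 2 ^ 0 = T := by norm_num
    rw [e0, add_zero, e1]
    exact (ha0 T).trans (hb0 T)
  | succ n ih =>
    obtain ⟨U, hU⟩ : ∃ U : ℝ, U = T / 2 ^ (n + 1) := ⟨_, rfl⟩
    have h2U : T / 2 ^ n = 2 * U := by rw [hU, pow_succ]; field_simp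
    have hU0 : 0 < U := by rw [hU]; positivity
    have h1p : (1 : ℝ) ≤ 2 ^ n := one_le_pow₀ (by norm_num)
    have h2UT : 2 * U ≤ T := by
      rw [← h2U]
      exact div_le_self hT.le h1p
    have h1 := ih (fun U' h3 h4 => h U' (by rw [← hU]; rw [h2U] at h3; linarith) h4)
    have h2 := h U (by rw [hU]) h2UT
    rw [h2U] at h1
    rw [← hU]
    have h3 := ha U (2 * U) T (by linarith) h2UT
    have h4 := hb U (2 * U) T (by linarith) h2UT
    have e1 : e * T * (1 - 1 / 2 ^ n) + e * U = e * T * (1 - 1 / 2 ^ (n + 1)) := by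
      rw [hU, pow_succ]; field_simp; ring
    linarith

section

variable {f : ℂ → ℂ} {B : ℝ} (hf : Differentiable ℂ f) (hs : ∀ s, f s = 0 → |s.re| ≤ B)

include hf hs

lemma PR_f (α β u v : ℝ) : (PR f (fun y => u < y ∧ y ≤ v) α β).Finite :=
  (PR_le hf hs (fun z hz => ord_pos hf hs hz) (P := fun y => u < y ∧ y ≤ v) (α := α) (β := β)
    (u := u) (v := v) (fun y hy => ⟨hy.1.le, hy.2⟩)).1

lemma PR_sl (α β x y z : ℝ) :
    ((PR f (fun u => x < u ∧ u ≤ z) α β).ncard : ℝ) ≤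
      ((PR f (fun u => y < u ∧ u ≤ z) α β).ncard : ℝ) + ((PR f (fun u => x < u ∧ u ≤ y) α β).ncard : ℝ) := by
  have hsub : PR f (fun u => x < u ∧ u ≤ z) α β ⊆
      PR f (fun u => y < u ∧ u ≤ z) α β ∪ PR f (fun u => x < u ∧ u ≤ y) α β := by
    rintro p ⟨h1, h2, h3⟩
    rcases le_or_gt p.1 y with h4 | h4
    · right; exact ⟨h1, ⟨h2.1, h4⟩, h3⟩
    · left; exact ⟨h1, ⟨h4, h2.2⟩, h3⟩
  have h1 := (Set.ncard_le_ncard hsub ((PR_f hf hs α β y z).union (PR_f hf hs α β x y))).trans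
    (Set.ncard_union_le _ _)
  exact_mod_cast h1

lemma PR_sg (α β : ℝ) {x y z : ℝ} (hxy : x ≤ y) (hyz : y ≤ z) :
    ((PR f (fun u => y < u ∧ u ≤ z) α β).ncard : ℝ) + ((PR f (fun u => x < u ∧ u ≤ y) α β).ncard : ℝ) ≤
    ((PR f (fun u => x < u ∧ u ≤ z) α β).ncard : ℝ) := by
  have hsub : PR f (fun u => y < u ∧ u ≤ z) α β ∪ PR f (fun u => x < u ∧ u ≤ y) α β ⊆
      PR f (fun u => x < u ∧ u ≤ z) α β := by
    rintro p (⟨h1, h2, h3⟩ | ⟨h1, h2, h3⟩)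
    · exact ⟨h1, ⟨lt_of_le_of_lt hxy h2.1, h2.2⟩, h3⟩
    · exact ⟨h1, ⟨h2.1, h2.2.trans hyz⟩, h3⟩
  have hdis : Disjoint (PR f (fun u => y < u ∧ u ≤ z) α β) (PR f (fun u => x < u ∧ u ≤ y) α β) := by
    rw [Set.disjoint_left]
    rintro p ⟨-, h5, -⟩ ⟨-, h6, -⟩
    exact absurd h6.2 (not_le.2 h5.1)
  have h4 := Set.ncard_le_ncard hsub (PR_f hf hs α β x z)
  rw [Set.ncard_union_eq hdis (PR_f hf hs α β y z) (PR_f hf hs α β x y)] at h4
  exact_mod_cast h4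

lemma PR_rem (α β : ℝ) {V M : ℝ} (hV : 0 ≤ V) (hM0 : 0 ≤ M)
    (hM : ∀ t : ℝ, 0 ≤ t → t ≤ V + 1 → (nn f t 1 : ℝ) ≤ M) :
    ((PR f (fun y => 0 < y ∧ y ≤ V) α β).ncard : ℝ) ≤ (V + 1) * M := by
  have h1 := (PR_le hf hs (fun z hz => ord_pos hf hs hz) (P := fun y => 0 < y ∧ y ≤ V) (α := α) (β := β)
    (u := 0) (v := V) (fun y hy => ⟨hy.1.le, hy.2⟩)).2
  have h2 := remd hf hs (k := 0) (α := fun i : Fin 0 => i.elim0) (β := fun i : Fin 0 => i.elim0) (H := 0) le_rfl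
    (fun i => i.elim0) (fun i => i.elim0) (by norm_num) hV hM0 hM
  have h3 : ((PR f (fun y => 0 < y ∧ y ≤ V) α β).ncard : ℝ) ≤ ((Z0 f (fun y => 0 < y ∧ y ≤ V)).ncard : ℝ) := by
    exact_mod_cast h1
  have e : (V + 1) * M ^ (0 + 1) = (V + 1) * M := by rw [zero_add, pow_one]
  exact h3.trans (h2.trans e.le)

end

/-- consecutive pairs up to `T`, normalised distance between `α` and `β` -/
def SP (A : Set ℝ) (T α β : ℝ) : Set (ℝ × ℝ) :=
  {p | p ∈ CP A ∧ 0 < p.1 ∧ p.2 ≤ T ∧ α ≤ (p.2 - p.1) * (Real.log T / (2 * Real.pi)) ∧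
    (p.2 - p.1) * (Real.log T / (2 * Real.pi)) ≤ β}

lemma SP_iff {x T α β : ℝ} (hT : 1 < T) : (α ≤ x * (Real.log T / (2 * Real.pi)) ∧
    x * (Real.log T / (2 * Real.pi)) ≤ β) ↔ (α * (Real.pi / Om T) ≤ x ∧ x ≤ β * (Real.pi / Om T)) := by
  have hL : 0 < Real.log T := Real.log_pos hT
  have hOm : Om T = Real.log T / 2 := rfl
  have hOm0 : 0 < Om T := by rw [hOm]; positivity
  have hpi := Real.pi_pos
  have e : Real.log T / (2 * Real.pi) = (Real.pi / Om T)⁻¹ := by rw [hOm]; field_simp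
  have hc : 0 < Real.pi / Om T := by positivity
  rw [e, ← div_eq_mul_inv, le_div_iff₀ hc, div_le_iff₀ hc]

theorem fullP {B : ℝ} {F : ℂ → ℂ} {FT : ℝ → ℂ → ℂ} (hD : STB B F FT) (h0 : UNIT0 F) (hNGN : S_NGN)
    (hAW : S_AW) (hCNT : S_CNT) (hCOV : S_COV) (α β ε : ℝ) (hε : 0 < ε) (hεα : ε ≤ α) :
    ∃ δ T0 : ℝ, 0 < δ ∧ 2 ≤ T0 ∧ ∀ T τ1 τ2 : ℝ, T0 ≤ T → 0 ≤ τ1 → 0 ≤ τ2 → (τ1 = 0 ∨ τ2 = 0) →
    τ1 ≤ δ / Om T ^ 2 → τ2 ≤ δ / Om T ^ 2 →
    ((SP (Od (FT τ1)) T α β).ncard : ℝ) ≤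
      ((SP (Od (FT τ2)) T (α - ε) (β + ε)).ncard : ℝ) + ε * (T * Real.log T) := by
  obtain ⟨H, hH⟩ : ∃ H : ℝ, H = 1 + ε + |β| := ⟨_, rfl⟩
  have hH1 : 1 ≤ H := by
    have := abs_nonneg β
    rw [hH]; linarith
  have hH0' : 0 < H := by linarith
  have hHβ : β + ε ≤ H := by
    have h2 := le_abs_self β
    rw [hH]; linarith
  have hpi := Real.pi_pos
  have hpi3 := Real.pi_gt_three
  obtain ⟨ε1, hε1⟩ : ∃ ε1 : ℝ, ε1 = min (ε / 2) 1 := ⟨_, rfl⟩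
  have hε10 : 0 < ε1 := by rw [hε1]; exact lt_min (by positivity) one_pos
  have hε11 : ε1 ≤ 1 := by rw [hε1]; exact min_le_right _ _
  have hε12 : 2 * ε1 ≤ ε := by
    have : ε1 ≤ ε / 2 := by rw [hε1]; exact min_le_left _ _
    linarith
  obtain ⟨H0, hH0⟩ : ∃ H0 : ℝ, H0 = Real.pi * H := ⟨_, rfl⟩
  have hH00 : 0 < H0 := by rw [hH0]; positivity
  obtain ⟨δb, Ub, hδb, hUb, hbl⟩ := blockP hD h0 hNGN hAW hCNT hCOV H0 hH00.le ε1 hε10 hε11
  obtain ⟨C8, T8, hC8, hT8, hnn⟩ := nn_all hD h0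
  obtain ⟨T9, hT9, hls⟩ := logs_small C8 hC8.le 1 (ε := ε / 2) (by positivity)
  refine ⟨min δb 1, max (max (Ub ^ 2) T8) (max T9 (Real.exp (4 * H0 + 4))), lt_min hδb one_pos,
    hT8.trans ((le_max_right _ _).trans (le_max_left _ _)), ?_⟩
  intro T τ1 τ2 hT hτ1 hτ2 h12 hτ1' hτ2'
  simp only [max_le_iff] at hT
  obtain ⟨⟨hTa, hTb⟩, hTc, hTd⟩ := hT
  have hT5 : 5 ≤ T := by
    have := Real.add_one_le_exp (4 * H0 + 4)
    linarith
  have hT0 : 0 < T := by linarith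
  have hL : 4 * H0 + 4 ≤ Real.log T := by rw [Real.le_log_iff_exp_le hT0]; exact hTd
  have hL1 : 1 ≤ Real.log T := by linarith
  have hOm : Om T = Real.log T / 2 := rfl
  have hOm1 : 2 * H0 + 2 ≤ Om T := by rw [hOm]; linarith
  have hOm0 : 0 < Om T := by linarith
  have hOm2 : 0 < Om T ^ 2 := by positivity
  -- the square root
  have hsq : Real.sqrt T * Real.sqrt T = T := Real.mul_self_sqrt hT0.le
  have hs2 : 2 ≤ Real.sqrt T := Real.le_sqrt_of_sq_le (by linarith)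
  have hs0 : 0 < Real.sqrt T := by linarith
  have hsU : Ub ≤ Real.sqrt T := Real.le_sqrt_of_sq_le hTa
  obtain ⟨n, hn1, hn2⟩ := exists_nat_pow_near (x := Real.sqrt T) (y := (2 : ℝ)) (by linarith) (by norm_num)
  obtain ⟨V, hV⟩ : ∃ V : ℝ, V = T / 2 ^ n := ⟨_, rfl⟩
  have h2n : (0 : ℝ) < 2 ^ n := by positivity
  have hVl : Real.sqrt T ≤ V := by
    rw [hV, le_div_iff₀ h2n]
    calc Real.sqrt T * 2 ^ n ≤ Real.sqrt T * Real.sqrt T := mul_le_mul_of_nonneg_left hn1 hs0.le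
      _ = T := hsq
  have hVu : V ≤ 2 * Real.sqrt T := by
    rw [hV, div_le_iff₀ h2n]
    rw [pow_succ] at hn2
    have h1 := mul_le_mul_of_nonneg_left hn2.le hs0.le
    rw [hsq] at h1
    linarith
  have hV0 : 0 < V := by linarith
  have hVT : V ≤ T := by
    rw [hV]; exact div_le_self hT0.le (one_le_pow₀ (by norm_num))
  -- the boxes
  obtain ⟨c, hc⟩ : ∃ c : ℝ, c = Real.pi / Om T := ⟨_, rfl⟩
  have hc0 : 0 < c := by rw [hc]; positivity
  obtain ⟨H', hH'⟩ : ∃ H' : ℝ, H' = H0 / Om T := ⟨_, rfl⟩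
  have hH'c : H' = H * c := by rw [hH', hH0, hc]; ring
  have hH'1 : H' ≤ 1 / 2 := by
    rw [hH', div_le_iff₀ hOm0]; linarith
  have hbβ2 : (β + ε) * c ≤ H' := by
    rw [hH'c]
    exact mul_le_mul_of_nonneg_right hHβ hc0.le
  have hbβ1 : β * c ≤ H' :=
    (mul_le_mul_of_nonneg_right (by linarith) hc0.le).trans hbβ2
  -- the functions
  have hf1 := hD.heatd τ1 hτ1
  have hs1 : ∀ s, FT τ1 s = 0 → |s.re| ≤ B := fun s hs => hD.strip τ1 s hτ1 hs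
  have hf2 := hD.heatd τ2 hτ2
  have hst2 : ∀ s, FT τ2 s = 0 → |s.re| ≤ B := fun s hs => hD.strip τ2 s hτ2 hs
  have hdl : ∀ τ' : ℝ, τ' ≤ min δb 1 / Om T ^ 2 → τ' ≤ 1 / Om T ^ 2 := fun τ' h =>
    h.trans (div_le_div_of_nonneg_right (min_le_right _ _) hOm2.le)
  obtain ⟨M, hM⟩ : ∃ M : ℝ, M = C8 * Real.log T := ⟨_, rfl⟩
  have hM0 : 0 ≤ M := by rw [hM]; positivity
  have hnn1 : ∀ t : ℝ, 0 ≤ t → t ≤ T + 2 → (nn (FT τ1) t 1 : ℝ) ≤ M := fun t h1 h2 => by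
    rw [hM]; exact hnn T τ1 t hTb hτ1 (hdl _ hτ1') h1 h2
  have hnn2 : ∀ t : ℝ, 0 ≤ t → t ≤ T + 2 → (nn (FT τ2) t 1 : ℝ) ≤ M := fun t h1 h2 => by
    rw [hM]; exact hnn T τ2 t hTb hτ2 (hdl _ hτ2') h1 h2
  -- step 1
  have e1 := dyadN (a := fun x y => ((PR (FT τ1) (fun u => x < u ∧ u ≤ y) (α * c) (β * c)).ncard : ℝ))
    (b := fun x y => ((PR (FT τ2) (fun u => x < u ∧ u ≤ y) ((α - ε) * c) ((β + ε) * c)).ncard : ℝ))
    (e := ε1 * Om T) hT0 (fun x => by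
      have h1 : PR (FT τ1) (fun u => x < u ∧ u ≤ x) (α * c) (β * c) = ∅ := by
        ext p
        simp only [Set.mem_empty_iff_false, iff_false]
        rintro ⟨-, h3, -⟩
        linarith [h3.1, h3.2]
      show ((PR (FT τ1) (fun u => x < u ∧ u ≤ x) (α * c) (β * c)).ncard : ℝ) ≤ 0
      rw [h1, Set.ncard_empty, Nat.cast_zero])
    (fun x => Nat.cast_nonneg _)
    (fun x y z _ _ => PR_sl hf1 hs1 _ _ x y z)
    (fun x y z hxy hyz => PR_sg hf2 hst2 _ _ hxy hyz) n (fun U hU1 hU2 => by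
      rw [← hV] at hU1
      have hUs : Real.sqrt T ≤ U := hVl.trans hU1
      have hU0 : 0 < U := by linarith
      have hUT : U ≤ T := by linarith
      have hlu : Real.log T ≤ 2 * Real.log U := by
        have h1 : Real.log (Real.sqrt T) ≤ Real.log U := Real.log_le_log hs0 hUs
        rw [Real.log_sqrt hT0.le] at h1
        linarith
      have hOU : Om T ≤ 2 * Om U := by rw [hOm]; unfold Om; linarith
      have hOU0 : 0 < Om U := by linarith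
      have hOUT : Om U ≤ Om T := by
        unfold Om
        exact div_le_div_of_nonneg_right (Real.log_le_log hU0 hUT) (by norm_num)
      have hτU : ∀ τ' : ℝ, τ' ≤ min δb 1 / Om T ^ 2 → τ' ≤ δb / Om U ^ 2 := fun τ' h => by
        refine h.trans ?_
        apply div_le_div₀ hδb.le (min_le_left _ _) (by positivity)
        exact pow_le_pow_left₀ hOU0.le hOUT 2
      have hHU : H' ≤ H0 / Om U := by
        rw [hH']; exact div_le_div_of_nonneg_left hH00.le hOU0 hOUT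
      have hεc : ε1 / Om U ≤ ε * c := by
        rw [hc, ← mul_div_assoc, div_le_div_iff₀ hOU0 hOm0]
        calc ε1 * Om T ≤ ε1 * (2 * Om U) := mul_le_mul_of_nonneg_left hOU hε10.le
          _ = 2 * ε1 * Om U := by ring
          _ ≤ ε * Real.pi * Om U := mul_le_mul_of_nonneg_right (by nlinarith) hOU0.le
      have hεα' : ε * c ≤ α * c := mul_le_mul_of_nonneg_right hεα hc0.le
      have h1 := hbl U τ1 τ2 (α * c) (β * c) (hsU.trans hUs) hτ1 hτ2 h12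
        (hτU _ hτ1') (hτU _ hτ2') (hεc.trans hεα') (hbβ1.trans hHU)
      refine h1.trans ?_
      have hsub := PR_mono (f := FT τ2) (P := fun y => U < y ∧ y ≤ 2 * U) (P' := fun y => U < y ∧ y ≤ 2 * U)
        (α := α * c - ε1 / Om U) (β := β * c + ε1 / Om U)
        (α' := (α - ε) * c) (β' := (β + ε) * c) (fun y hy => hy)
        (by linarith) (by linarith)
      have h2 : ((PR (FT τ2) (fun y => U < y ∧ y ≤ 2 * U) (α * c - ε1 / Om U)
          (β * c + ε1 / Om U)).ncard : ℝ) ≤ ((PR (FT τ2) (fun y => U < y ∧ y ≤ 2 * U)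
          ((α - ε) * c) ((β + ε) * c)).ncard : ℝ) := by
        exact_mod_cast Set.ncard_le_ncard hsub (PR_f hf2 hst2 _ _ _ _)
      refine add_le_add h2 ?_
      calc ε1 * U * Om U ≤ ε1 * U * Om T := mul_le_mul_of_nonneg_left hOUT (by positivity)
        _ = ε1 * Om T * U := by ring)
  rw [← hV] at e1
  -- step 2
  have e2 := PR_rem hf1 hs1 (α * c) (β * c) hV0.le hM0 (fun t h1 h2 => hnn1 t h1 (by linarith))
  -- step 3
  have e3 : ((SP (Od (FT τ1)) T α β).ncard : ℝ) ≤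
      ((PR (FT τ1) (fun y => V < y ∧ y ≤ T) (α * c) (β * c)).ncard : ℝ) +
      ((PR (FT τ1) (fun y => 0 < y ∧ y ≤ V) (α * c) (β * c)).ncard : ℝ) := by
    have hsub : SP (Od (FT τ1)) T α β ⊆ PR (FT τ1) (fun y => 0 < y ∧ y ≤ T) (α * c) (β * c) := by
      rintro p ⟨h1, h2, h3, h4⟩
      rw [SP_iff (by linarith), ← hc] at h4
      exact ⟨h1, ⟨h2, h1.1.le.trans h3⟩, h4⟩
    refine le_trans ?_ (PR_sl hf1 hs1 (α * c) (β * c) 0 V T)
    exact_mod_cast Set.ncard_le_ncard hsub (PR_f hf1 hs1 _ _ _ _)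
  -- step 4
  have e4 : ((PR (FT τ2) (fun y => V < y ∧ y ≤ T) ((α - ε) * c) ((β + ε) * c)).ncard : ℝ) ≤
      ((SP (Od (FT τ2)) T (α - ε) (β + ε)).ncard : ℝ) + M := by
    have hfc : (SP (Od (FT τ2)) T (α - ε) (β + ε)).Finite := by
      refine (PR_f hf2 hst2 ((α - ε) * c) ((β + ε) * c) 0 T).subset ?_
      rintro p ⟨h1, h2, h3, h4⟩
      rw [SP_iff (by linarith), ← hc] at h4
      exact ⟨h1, ⟨h2, h1.1.le.trans h3⟩, h4⟩
    obtain ⟨hfe, g2⟩ := PR_nn hf2 hst2 T (1 / 2) ((α - ε) * c) ((β + ε) * c)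
    have hsub : PR (FT τ2) (fun y => V < y ∧ y ≤ T) ((α - ε) * c) ((β + ε) * c) ⊆
        SP (Od (FT τ2)) T (α - ε) (β + ε) ∪
          PR (FT τ2) (fun y => |y - T| ≤ 1 / 2) ((α - ε) * c) ((β + ε) * c) := by
      rintro p ⟨h1, h2, h3⟩
      rcases le_or_gt p.2 T with h5 | h5
      · left
        refine ⟨h1, hV0.trans h2.1, h5, ?_⟩
        rw [SP_iff (by linarith), ← hc]
        exact h3
      · right
        refine ⟨h1, ?_, h3⟩
        show |p.1 - T| ≤ 1 / 2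
        rw [abs_le]
        constructor <;> linarith [h2.2, h3.2]
    have h1 := (Set.ncard_le_ncard hsub (hfc.union hfe)).trans (Set.ncard_union_le _ _)
    have h3 : (nn (FT τ2) T (1 / 2) : ℝ) ≤ M := by
      refine le_trans ?_ (hnn2 T hT0.le (by linarith))
      exact_mod_cast nn_mono hf2 hst2 (t := T) (t' := T) (h := 1 / 2) (h' := 1)
        (by rw [sub_self, abs_zero]; norm_num)
    have h4 : ((PR (FT τ2) (fun y => V < y ∧ y ≤ T) ((α - ε) * c) ((β + ε) * c)).ncard : ℝ) ≤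
        ((SP (Od (FT τ2)) T (α - ε) (β + ε)).ncard : ℝ) + (nn (FT τ2) T (1 / 2) : ℝ) := by
      exact_mod_cast h1.trans (Nat.add_le_add_left g2 _)
    linarith
  -- numbers
  have e5 := hls T hTc
  rw [← hM, pow_one] at e5
  have e6 : (V + 1) * M + M ≤ M * (8 * Real.sqrt T) := by
    have h1 : V + 2 ≤ 8 * Real.sqrt T := by linarith
    have h2 := mul_le_mul_of_nonneg_right h1 hM0
    linarith
  have e7 : ε1 * Om T * T * (1 - 1 / 2 ^ n) ≤ ε / 4 * (T * Real.log T) := by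
    have h1 : (0 : ℝ) < 1 / 2 ^ n := by positivity
    have h2 : 0 ≤ ε1 * Om T * T := by positivity
    have h3 : ε1 * Om T * T * (1 - 1 / 2 ^ n) ≤ ε1 * Om T * T * 1 :=
      mul_le_mul_of_nonneg_left (by linarith) h2
    have h4 : ε1 * Om T * T * 1 = 2 * ε1 / 4 * (T * Real.log T) := by rw [hOm]; ring
    have h5 : 2 * ε1 / 4 * (T * Real.log T) ≤ ε / 4 * (T * Real.log T) :=
      mul_le_mul_of_nonneg_right (by linarith) (by positivity)
    linarith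
  have e8 : ε / 2 * T ≤ ε / 2 * (T * Real.log T) :=
    mul_le_mul_of_nonneg_left (le_mul_of_one_le_right hT0.le hL1) (by positivity)
  have e9 : 0 ≤ ε * (T * Real.log T) := by positivity
  linarith

end Pool.Agent.R838.ST
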