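import Pool.Agent.R838.ST.Ful

set_option autoImplicit false

/-!
# Consecutive ordinates
-/

namespace Pool.Agent.R838.ST

open Complex Filter Topology MeasureTheory Set
open Pool.Agent.H24R2.JP (Om)
open Pool.Agent.H24R2.DZ (ra NN)
open Pool.Agent.R838.CR
open Pool.Agent.W186.SD (S_NGN S_AW S_CNT S_COV Std)

/-- the ordinates of the zeros -/
def Od (f : ℂ → ℂ) : Set ℝ := {y | ∃ z : ℂ, f z = 0 ∧ z.im = y}

/-- pairs of consecutive different elements of a set -/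
def CP (A : Set ℝ) : Set (ℝ × ℝ) := {p | p.1 < p.2 ∧ p.1 ∈ A ∧ p.2 ∈ A ∧ ∀ y ∈ A, ¬ (p.1 < y ∧ y < p.2)}

lemma CP_lt {A : Set ℝ} {p q : ℝ × ℝ} (hp : p ∈ CP A) (hq : q ∈ CP A) (h : p.1 < q.1) : p.2 ≤ q.1 := by
  by_contra hcon
  push Not at hcon
  exact hp.2.2.2 q.1 hq.2.1 ⟨h, hcon⟩

lemma CP_eq {A : Set ℝ} {p q : ℝ × ℝ} (hp : p ∈ CP A) (hq : q ∈ CP A) (h : p.1 = q.1) : p = q := by
  have h1 : p.2 = q.2 := by
    rcases lt_trichotomy p.2 q.2 with h2 | h2 | h2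
    · exact absurd ⟨by rw [← h]; exact hp.1, h2⟩ (hq.2.2.2 p.2 hp.2.2.1)
    · exact h2
    · exact absurd ⟨by rw [h]; exact hq.1, h2⟩ (hp.2.2.2 q.2 hq.2.2.1)
  exact Prod.ext h h1

/-- consecutive pairs with a condition on the first one and on the difference -/
def PR (f : ℂ → ℂ) (P : ℝ → Prop) (α β : ℝ) : Set (ℝ × ℝ) :=
  {p | p ∈ CP (Od f) ∧ P p.1 ∧ α ≤ p.2 - p.1 ∧ p.2 - p.1 ≤ β}

/-- the zeros as tuples -/
abbrev Z0 (f : ℂ → ℂ) (P : ℝ → Prop) : Set (Fin (0 + 1) → ℂ × ℕ) := TP f P (fun i : Fin 0 => i.elim0) (fun i : Fin 0 => i.elim0)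

lemma PR_le {f : ℂ → ℂ} {B : ℝ} (hf : Differentiable ℂ f) (hs : ∀ s, f s = 0 → |s.re| ≤ B)
    (hnz : ∀ z, f z = 0 → 0 < analyticOrderNatAt f z) {P : ℝ → Prop} {α β u v : ℝ}
    (hP : ∀ y, P y → u ≤ y ∧ y ≤ v) :
    (PR f P α β).Finite ∧ (PR f P α β).ncard ≤ (Z0 f P).ncard := by
  have hfin : (Z0 f P).Finite := TP_fin hf hs le_rfl (fun i => i.elim0) (fun i => i.elim0) hP
  have hz : ∀ p : ℝ × ℝ, ∃ x : Fin (0 + 1) → ℂ × ℕ, p ∈ PR f P α β → x ∈ Z0 f P ∧ (x 0).1.im = p.1 := by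
    intro p
    by_cases hp : p ∈ PR f P α β
    · obtain ⟨⟨h1, ⟨z, hz, hzy⟩, h3⟩, h4, h5⟩ := hp
      refine ⟨fun _ => (z, 0), fun _ => ⟨⟨fun _ => hnz z hz, ?_, ?_, fun i => i.elim0⟩, hzy⟩⟩
      · intro i j _
        have h6 := i.2
        have h7 := j.2
        exact Fin.ext (by omega)
      · show P z.im
        rw [hzy]; exact h4
    · exact ⟨fun _ => (0, 0), fun h => absurd h hp⟩
  choose g hg using hz
  have hinj : Set.InjOn g (PR f P α β) := by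
    intro p hp q hq hpq
    have h1 := (hg p hp).2
    have h2 := (hg q hq).2
    rw [hpq, h2] at h1
    exact CP_eq hp.1 hq.1 h1.symm
  have hmaps : ∀ p ∈ PR f P α β, g p ∈ Z0 f P := fun p hp => (hg p hp).1
  refine ⟨?_, Set.ncard_le_ncard_of_injOn g hmaps hinj hfin⟩
  exact Set.Finite.of_injOn hmaps hinj hfin

lemma Z0_le {f : ℂ → ℂ} {B : ℝ} (hf : Differentiable ℂ f) (hs : ∀ s, f s = 0 → |s.re| ≤ B) (t h : ℝ) :
    (Z0 f (fun y => |y - t| ≤ h)).ncard ≤ nn f t h := by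
  have h4 := TP_le hf hs (k := 0) (α := fun i : Fin 0 => i.elim0) (β := fun i : Fin 0 => i.elim0) le_rfl
    (fun i => i.elim0) (fun i => i.elim0) (P := fun y => |y - t| ≤ h) (t := t) (h := h) (fun y hy => hy)
  have e : nn f t (h + 0) ^ (0 + 1) = nn f t h := by rw [add_zero, zero_add, pow_one]
  exact h4.trans e.le

lemma PR_mono {f : ℂ → ℂ} {P P' : ℝ → Prop} {α β α' β' : ℝ} (hP : ∀ y, P y → P' y)
    (hα : α' ≤ α) (hβ : β ≤ β') : PR f P α β ⊆ PR f P' α' β' := by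
  rintro p ⟨h1, h2, h3, h4⟩
  exact ⟨h1, hP _ h2, hα.trans h3, h4.trans hβ⟩

/-- transfer of a consecutive pair -/
lemma PR_step {f g : ℂ → ℂ} {B : ℝ} (hg : Differentiable ℂ g) (hsg : ∀ s, g s = 0 → |s.re| ≤ B)
    {t w ρ : ℝ}
    (h1 : ∀ z, f z = 0 → |z.im - t| ≤ w → ∃ z', g z' = 0 ∧ |z'.im - z.im| ≤ ρ)
    (h2 : ∀ z, g z = 0 → |z.im - t| ≤ w → ∃ z', f z' = 0 ∧ |z'.im - z.im| ≤ ρ)
    {p : ℝ × ℝ} (hp : p ∈ CP (Od f)) (hp1 : |p.1 - t| ≤ w) (hp2 : |p.2 - t| ≤ w) (hρ : 2 * ρ < p.2 - p.1) :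
    ∃ q ∈ CP (Od g), |q.1 - p.1| ≤ ρ ∧ |q.2 - p.2| ≤ ρ := by
  obtain ⟨h3, ⟨z1, hz1, hz1y⟩, ⟨z2, hz2, hz2y⟩, h4⟩ := hp
  have hA : ∀ x, (Od g ∩ Icc (x - ρ) (x + ρ)).Finite := by
    intro x
    have h5 := zfin hg hsg (x - ρ) (x + ρ)
    refine (h5.image Complex.im).subset ?_
    rintro y ⟨⟨z, hz, hzy⟩, hy1, hy2⟩
    exact ⟨z, ⟨hz, by rw [hzy]; exact hy1, by rw [hzy]; exact hy2⟩, hzy⟩
  have hne1 : (Od g ∩ Icc (p.1 - ρ) (p.1 + ρ)).Nonempty := by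
    obtain ⟨z', hz', hz''⟩ := h1 z1 hz1 (by rw [hz1y]; exact hp1)
    rw [hz1y, abs_le] at hz''
    exact ⟨z'.im, ⟨z', hz', rfl⟩, by constructor <;> linarith⟩
  have hne2 : (Od g ∩ Icc (p.2 - ρ) (p.2 + ρ)).Nonempty := by
    obtain ⟨z', hz', hz''⟩ := h1 z2 hz2 (by rw [hz2y]; exact hp2)
    rw [hz2y, abs_le] at hz''
    exact ⟨z'.im, ⟨z', hz', rfl⟩, by constructor <;> linarith⟩
  obtain ⟨a, ⟨haA, ha1, ha2⟩, ha⟩ := Set.exists_max_image _ id (hA p.1) hne1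
  obtain ⟨b, ⟨hbA, hb1, hb2⟩, hb⟩ := Set.exists_min_image _ id (hA p.2) hne2
  simp only [id] at ha hb
  refine ⟨(a, b), ⟨?_, haA, hbA, ?_⟩, ?_, ?_⟩
  · show a < b
    linarith
  · rintro y hy ⟨hya, hyb⟩
    have hya' : a < y := hya
    have hyb' : y < b := hyb
    rcases le_or_gt y (p.1 + ρ) with h5 | h5
    · have := ha y ⟨hy, by linarith, h5⟩
      linarith
    · rcases le_or_gt (p.2 - ρ) y with h6 | h6
      · have := hb y ⟨hy, h6, by linarith⟩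
        linarith
      · obtain ⟨z, hz, hzy⟩ := hy
        have h7 : |z.im - t| ≤ w := by
          rw [abs_le] at hp1 hp2 ⊢
          rw [hzy]
          constructor <;> linarith [hp1.1, hp2.2]
        obtain ⟨z', hz', hz''⟩ := h2 z hz h7
        rw [hzy, abs_le] at hz''
        exact h4 z'.im ⟨z', hz', rfl⟩ ⟨by linarith [hz''.1], by linarith [hz''.2]⟩
  · show |a - p.1| ≤ ρ
    rw [abs_le]; constructor <;> linarith
  · show |b - p.2| ≤ ρ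
    rw [abs_le]; constructor <;> linarith

/-- The comparison. -/
theorem glueP {f g : ℂ → ℂ} {B : ℝ} (hf : Differentiable ℂ f) (hsf : ∀ s, f s = 0 → |s.re| ≤ B)
    (hnf : ∀ z, f z = 0 → 0 < analyticOrderNatAt f z)
    (hg : Differentiable ℂ g) (hsg : ∀ s, g s = 0 → |s.re| ≤ B)
    (hng : ∀ z, g z = 0 → 0 < analyticOrderNatAt g z)
    {α β h ρ U V : ℝ} (hρ : 0 ≤ ρ) (hα : 2 * ρ < α) (G : Finset ℝ)
    (hcov : ∀ x, U < x → x ≤ V → ∃ t ∈ G, |x - t| ≤ h)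
    (bad : ℝ → Prop) [DecidablePred bad]
    (h1 : ∀ t ∈ G, ¬ bad t → ∀ z, f z = 0 → |z.im - t| ≤ h + β → ∃ z', g z' = 0 ∧ |z'.im - z.im| ≤ ρ)
    (h2 : ∀ t ∈ G, ¬ bad t → ∀ z, g z = 0 → |z.im - t| ≤ h + β → ∃ z', f z' = 0 ∧ |z'.im - z.im| ≤ ρ) :
    ((PR f (fun y => U < y ∧ y ≤ V) α β).ncard : ℝ) ≤
      ((PR g (fun y => U - ρ < y ∧ y ≤ V + ρ) (α - 2 * ρ) (β + 2 * ρ)).ncard : ℝ) +
      ∑ t ∈ G with bad t, (nn f t h : ℝ) := by
  classical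
  have hX := (PR_le hf hsf hnf (P := fun y => U < y ∧ y ≤ V) (α := α) (β := β) (u := U) (v := V)
    (fun y hy => ⟨hy.1.le, hy.2⟩)).1
  have hY := (PR_le hg hsg hng (P := fun y => U - ρ < y ∧ y ≤ V + ρ) (α := α - 2 * ρ) (β := β + 2 * ρ)
    (u := U - ρ) (v := V + ρ) (fun y hy => ⟨hy.1.le, hy.2⟩)).1
  obtain ⟨X1, hX1⟩ : ∃ X1 : Set (ℝ × ℝ), X1 = {p | p ∈ PR f (fun y => U < y ∧ y ≤ V) α β ∧
    ∃ t ∈ G, ¬ bad t ∧ |p.1 - t| ≤ h} := ⟨_, rfl⟩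
  obtain ⟨X2, hX2⟩ : ∃ X2 : Set (ℝ × ℝ), X2 = ⋃ t ∈ G.filter bad, PR f (fun y => |y - t| ≤ h) α β := ⟨_, rfl⟩
  have hX2f : X2.Finite := by
    rw [hX2]
    refine Set.Finite.biUnion (Finset.finite_toSet _) fun t _ => ?_
    exact (PR_le hf hsf hnf (P := fun y => |y - t| ≤ h) (α := α) (β := β) (u := t - h) (v := t + h)
      (fun y hy => by have := abs_le.1 hy; constructor <;> linarith)).1
  have hsub : PR f (fun y => U < y ∧ y ≤ V) α β ⊆ X1 ∪ X2 := by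
    intro p hp
    obtain ⟨t, htG, ht⟩ := hcov p.1 hp.2.1.1 hp.2.1.2
    by_cases hb : bad t
    · right
      rw [hX2]
      simp only [Set.mem_iUnion]
      exact ⟨t, Finset.mem_filter.2 ⟨htG, hb⟩, hp.1, ht, hp.2.2⟩
    · left
      rw [hX1]
      exact ⟨hp, t, htG, hb, ht⟩
  have hX1f : X1.Finite := hX.subset (by rw [hX1]; exact fun p hp => hp.1)
  have e1 : (PR f (fun y => U < y ∧ y ≤ V) α β).ncard ≤ X1.ncard + X2.ncard :=
    (Set.ncard_le_ncard hsub (hX1f.union hX2f)).trans (Set.ncard_union_le _ _)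
  have e2 : X2.ncard ≤ ∑ t ∈ G with bad t, nn f t h := by
    rw [hX2]
    refine (Finset.set_ncard_biUnion_le _ _).trans (Finset.sum_le_sum fun t _ => ?_)
    have h3 := (PR_le hf hsf hnf (P := fun y => |y - t| ≤ h) (α := α) (β := β) (u := t - h) (v := t + h)
      (fun y hy => by have := abs_le.1 hy; constructor <;> linarith)).2
    exact h3.trans (Z0_le hf hsf t h)
  have hex : ∀ p : ℝ × ℝ, ∃ q : ℝ × ℝ, p ∈ X1 → q ∈ CP (Od g) ∧ |q.1 - p.1| ≤ ρ ∧ |q.2 - p.2| ≤ ρ := by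
    intro p
    by_cases hp : p ∈ X1
    · rw [hX1] at hp
      obtain ⟨⟨h3, h4, h5, h6⟩, t, htG, hb, ht⟩ := hp
      have h7 : 0 < p.2 - p.1 := by linarith [h3.1]
      have h8 : |p.1 - t| ≤ h + β := by linarith
      have h9 : |p.2 - t| ≤ h + β := by
        have h10 := abs_sub_le p.2 p.1 t
        rw [abs_of_pos h7] at h10
        linarith
      obtain ⟨q, hq1, hq2, hq3⟩ := PR_step hg hsg (h1 t htG hb) (h2 t htG hb) h3 h8 h9 (by linarith)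
      exact ⟨q, fun _ => ⟨hq1, hq2, hq3⟩⟩
    · exact ⟨p, fun h => absurd h hp⟩
  choose φ hφ using hex
  have e3 : X1.ncard ≤ (PR g (fun y => U - ρ < y ∧ y ≤ V + ρ) (α - 2 * ρ) (β + 2 * ρ)).ncard := by
    refine Set.ncard_le_ncard_of_injOn φ ?_ ?_ hY
    · intro p hp
      obtain ⟨h3, h4, h5⟩ := hφ p hp
      rw [hX1] at hp
      obtain ⟨⟨-, h7, h8, h9⟩, -⟩ := hp
      rw [abs_le] at h4 h5
      refine ⟨h3, ⟨?_, ?_⟩, ?_, ?_⟩
      · show U - ρ < (φ p).1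
        linarith [h7.1]
      · show (φ p).1 ≤ V + ρ
        linarith [h7.2]
      · linarith
      · linarith
    · intro p hp q hq hpq
      obtain ⟨-, h4, -⟩ := hφ p hp
      obtain ⟨-, h5, -⟩ := hφ q hq
      rw [hX1] at hp hq
      obtain ⟨⟨h6, -, h7, -⟩, -⟩ := hp
      obtain ⟨⟨h8, -, h9, -⟩, -⟩ := hq
      rw [hpq] at h4
      rw [abs_le] at h4 h5
      apply CP_eq h6 h8
      rcases lt_trichotomy p.1 q.1 with h10 | h10 | h10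
      · have := CP_lt h6 h8 h10
        linarith
      · exact h10
      · have := CP_lt h8 h6 h10
        linarith
  have e4 : ((PR f (fun y => U < y ∧ y ≤ V) α β).ncard : ℝ) ≤ (X1.ncard : ℝ) + (X2.ncard : ℝ) := by
    exact_mod_cast e1
  have e5 : (X2.ncard : ℝ) ≤ ∑ t ∈ G with bad t, (nn f t h : ℝ) := by exact_mod_cast e2
  have e6 : (X1.ncard : ℝ) ≤ ((PR g (fun y => U - ρ < y ∧ y ≤ V + ρ) (α - 2 * ρ) (β + 2 * ρ)).ncard : ℝ) := by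
    exact_mod_cast e3
  linarith

end Pool.Agent.R838.ST
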