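import Pool.Agent.R838.CR.Loc2
import Pool.Agent.W578.SD.UD

set_option autoImplicit false

/-!
# For small times the heat flow is close to the function
-/

namespace Pool.Agent.R838.ST

open Complex Filter Topology MeasureTheory Set
open Pool.Agent.W186.SD
open Pool.Agent.W366.SDNL (seg)

/-- A uniform bound. -/
theorem fb {a η : ℝ} {F : ℂ → ℂ} (ha : 1 ≤ a) (hη1 : η ≤ 1)
    (h : NG (1 / 2) a (a / 2) η F) (w : ℂ) (hw : |w.im| ≤ 11) :
    ‖F w‖ ≤ ‖F 1‖ * Real.exp (58 * a + 2 * a * w.re ^ 2) := by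
  have ha0 : 0 < a := by linarith
  have hright : ∀ w : ℂ, |w.im| ≤ 11 → 0 ≤ w.re → ‖F w‖ ≤ ‖F 1‖ * Real.exp (58 * a + 2 * a * w.re ^ 2) := by
    intro w hw hre
    rcases le_or_gt w.re 16 with h16 | h16
    · have hn : ‖w‖ ≤ 20 := by
        have h1 : ‖w‖ ^ 2 = w.re ^ 2 + w.im ^ 2 := by
          rw [← Complex.normSq_eq_norm_sq, Complex.normSq_apply]; ring
        have h2 : w.im ^ 2 ≤ 121 := by
          have := abs_le.1 hw
          nlinarith
        nlinarith [norm_nonneg w]
      rcases le_or_gt (1 / 20) w.re with h20 | h20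
      · have hS : Convex ℝ ({z : ℂ | 1 / 20 ≤ z.re} ∩ Metric.closedBall 0 20) :=
          (convex_halfSpace_re_ge (1 / 20)).inter (convex_closedBall 0 20)
        have h1 := seg (a := a) (η := η) h.diff hS (fun z hz => by
          have hz1 : (1 / 20 : ℝ) ≤ z.re := hz.1
          exact h.far z (by norm_num; linarith) (by simpa using hz.2))
          (z := 1) (w := w) ⟨by norm_num, by simp⟩ ⟨h20, by simpa using hn⟩
        refine h1.trans ?_
        apply mul_le_mul_of_nonneg_left _ (norm_nonneg _)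
        rw [Real.exp_le_exp]
        have h2 : ‖w - 1‖ ≤ 21 := by
          refine (norm_sub_le _ _).trans ?_
          rw [norm_one]; linarith
        have h3 : η * a * ‖w - 1‖ ≤ a * 21 := by
          have h4 : η * a ≤ 1 * a := mul_le_mul_of_nonneg_right hη1 ha0.le
          calc η * a * ‖w - 1‖ ≤ 1 * a * ‖w - 1‖ := mul_le_mul_of_nonneg_right h4 (norm_nonneg _)
            _ ≤ 1 * a * 21 := mul_le_mul_of_nonneg_left h2 (by positivity)
            _ = _ := by ring
        have h4 : (1 : ℂ).re = 1 := Complex.one_re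
        rw [h4]
        have h5 : a * (w.re - 1) ≤ a * 15 := mul_le_mul_of_nonneg_left (by linarith) ha0.le
        have h6 : 0 ≤ 2 * a * w.re ^ 2 := by positivity
        linarith
      · have h1 := h.near w (by rw [abs_of_nonneg hre]; norm_num; linarith) hn
        refine h1.trans ?_
        apply mul_le_mul_of_nonneg_left _ (norm_nonneg _)
        rw [Real.exp_le_exp]
        have h6 : 0 ≤ 2 * a * w.re ^ 2 := by positivity
        norm_num
        nlinarith
    · have h1 := h.grow w hw (by rw [abs_of_nonneg hre]; exact h16.le)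
      refine h1.trans ?_
      apply mul_le_mul_of_nonneg_left _ (norm_nonneg _)
      rw [Real.exp_le_exp, abs_of_nonneg hre]
      have h2 : (w.re - 16) ^ 2 ≤ w.re ^ 2 := by nlinarith
      have h3 : 2 * w.re ≤ 1 + w.re ^ 2 := by nlinarith [sq_nonneg (w.re - 1)]
      have h4 : a / 2 / 64 * (w.re - 16) ^ 2 ≤ a / 2 / 64 * w.re ^ 2 := mul_le_mul_of_nonneg_left h2 (by positivity)
      have h5 : a * (2 * w.re) ≤ a * (1 + w.re ^ 2) := mul_le_mul_of_nonneg_left h3 ha0.le
      have h6 : 0 ≤ a * w.re ^ 2 := by positivity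
      nlinarith
  rcases le_or_gt 0 w.re with hre | hre
  · exact hright w hw hre
  · have h1 := h.symm w
    have h2 : ‖F w‖ = ‖F (-((starRingEnd ℂ) w))‖ := by
      rw [h1, RCLike.norm_conj]
    have e1 : (-((starRingEnd ℂ) w)).im = w.im := by simp
    have e2 : (-((starRingEnd ℂ) w)).re = -w.re := by simp
    rw [h2]
    have h3 := hright (-((starRingEnd ℂ) w)) (by rw [e1]; exact hw) (by rw [e2]; linarith)
    rw [e2] at h3
    have e3 : (-w.re) ^ 2 = w.re ^ 2 := by ring
    rw [e3] at h3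
    exact h3

lemma abs_gauss {b : ℝ} (hb : 0 < b) : Integrable (fun u : ℝ => |u| * Real.exp (-b * u ^ 2)) ∧
    ∫ u : ℝ, |u| * Real.exp (-b * u ^ 2) ≤ 3 / b := by
  have hs : 0 < Real.sqrt b := Real.sqrt_pos.2 hb
  have hss : Real.sqrt b ^ 2 = b := Real.sq_sqrt hb.le
  have h1 : ∀ u : ℝ, |u| * Real.exp (-b * u ^ 2) ≤ 1 / Real.sqrt b * Real.exp (-(b / 2) * u ^ 2) := by
    intro u
    have h2 : |u| * Real.exp (-(b / 2) * u ^ 2) ≤ 1 / Real.sqrt b := by
      rw [le_div_iff₀ hs]
      have e1 : -(b / 2) * u ^ 2 = -((Real.sqrt b * |u|) ^ 2 / 2) := by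
        rw [mul_pow, hss, sq_abs]; ring
      rw [e1, Real.exp_neg]
      have h3 := Real.add_one_le_exp ((Real.sqrt b * |u|) ^ 2 / 2)
      have h4 : Real.sqrt b * |u| ≤ Real.exp ((Real.sqrt b * |u|) ^ 2 / 2) := by
        nlinarith [sq_nonneg (Real.sqrt b * |u| - 1)]
      have h5 := Real.exp_pos ((Real.sqrt b * |u|) ^ 2 / 2)
      calc |u| * (Real.exp ((Real.sqrt b * |u|) ^ 2 / 2))⁻¹ * Real.sqrt b
          = (Real.sqrt b * |u|) / Real.exp ((Real.sqrt b * |u|) ^ 2 / 2) := by rw [div_eq_mul_inv]; ring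
        _ ≤ 1 := (div_le_one h5).2 h4
    have e2 : Real.exp (-b * u ^ 2) = Real.exp (-(b / 2) * u ^ 2) * Real.exp (-(b / 2) * u ^ 2) := by
      rw [← Real.exp_add]; congr 1; ring
    rw [e2, ← mul_assoc]
    exact mul_le_mul_of_nonneg_right h2 (Real.exp_pos _).le
  have hi2 : Integrable (fun u : ℝ => 1 / Real.sqrt b * Real.exp (-(b / 2) * u ^ 2)) :=
    (integrable_exp_neg_mul_sq (by positivity)).const_mul _
  have hi1 : Integrable (fun u : ℝ => |u| * Real.exp (-b * u ^ 2)) := by
    refine hi2.mono' ?_ (Eventually.of_forall fun u => ?_)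
    · exact (continuous_abs.mul (by fun_prop)).aestronglyMeasurable
    · rw [Real.norm_eq_abs, abs_of_nonneg (by positivity)]
      exact h1 u
  refine ⟨hi1, ?_⟩
  refine (integral_mono hi1 hi2 h1).trans ?_
  rw [integral_const_mul, integral_gaussian]
  have h6 : Real.sqrt (Real.pi / (b / 2)) ≤ 3 / Real.sqrt b := by
    rw [Real.sqrt_le_left (by positivity), div_pow, hss]
    rw [div_le_div_iff₀ (by positivity) hb]
    have := Real.pi_lt_d2
    norm_num at this
    nlinarith
  calc 1 / Real.sqrt b * Real.sqrt (Real.pi / (b / 2)) ≤ 1 / Real.sqrt b * (3 / Real.sqrt b) :=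
        mul_le_mul_of_nonneg_left h6 (by positivity)
    _ = 3 / (Real.sqrt b ^ 2) := by ring
    _ = 3 / b := by rw [hss]

/-- The heat flow is close to the function. -/
theorem hap {a η : ℝ} {F : ℂ → ℂ} (ha : 1 ≤ a) (hη1 : η ≤ 1)
    (h : NG (1 / 2) a (a / 2) η F) {g : ℝ} (hg : 16 * a ≤ g) (z : ℂ) (hz : ‖z‖ ≤ 3) :
    ‖((Real.sqrt (g / Real.pi) : ℝ) : ℂ) * UU g F z - F z‖ ≤
      ‖F 1‖ * (12 * Real.exp (200 * a) / Real.sqrt g) := by
  have ha0 : 0 < a := by linarith
  have hg0 : 0 < g := by linarith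
  have hF1 : 0 ≤ ‖F 1‖ := norm_nonneg _
  have hzim : |z.im| ≤ 3 := (Complex.abs_im_le_norm z).trans hz
  have hzre : |z.re| ≤ 3 := (Complex.abs_re_le_norm z).trans hz
  -- the local Lipschitz bound
  have hder : ∀ w : ℂ, ‖w‖ ≤ 4 → ‖deriv F w‖ ≤ ‖F 1‖ * Real.exp (108 * a) := by
    intro w hw
    have h1 := Complex.norm_deriv_le_of_forall_mem_sphere_norm_le (f := F) (c := w) (R := 1)
      (C := ‖F 1‖ * Real.exp (108 * a)) one_pos h.diff.diffContOnCl (fun v hv => by
        rw [mem_sphere_iff_norm] at hv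
        have hv5 : ‖v‖ ≤ 5 := by
          have : v = w + (v - w) := by ring
          rw [this]
          exact (norm_add_le _ _).trans (by linarith)
        have hvi := (Complex.abs_im_le_norm v).trans hv5
        have hvr := (Complex.abs_re_le_norm v).trans hv5
        refine (fb ha hη1 h v (by linarith)).trans ?_
        apply mul_le_mul_of_nonneg_left _ hF1
        rw [Real.exp_le_exp]
        have h2 : v.re ^ 2 ≤ 25 := by
          rw [← sq_abs]; nlinarith [abs_nonneg v.re]
        have h3 : 2 * a * v.re ^ 2 ≤ 2 * a * 25 := mul_le_mul_of_nonneg_left h2 (by positivity)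
        linarith)
    simpa using h1
  have hlip : ∀ u : ℝ, |u| ≤ 1 → ‖F (z + u) - F z‖ ≤ ‖F 1‖ * Real.exp (108 * a) * |u| := by
    intro u hu
    have h1 := (convex_closedBall (0 : ℂ) 4).norm_image_sub_le_of_norm_deriv_le (f := F)
      (C := ‖F 1‖ * Real.exp (108 * a)) (x := z) (y := z + u) (fun w _ => h.diff w)
      (fun w hw => hder w (by simpa using hw)) (by simp; linarith) (by
        rw [mem_closedBall_zero_iff]
        refine (norm_add_le _ _).trans ?_
        rw [Complex.norm_real, Real.norm_eq_abs]; linarith)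
    rw [add_sub_cancel_left, Complex.norm_real, Real.norm_eq_abs] at h1
    exact h1
  have hall : ∀ u : ℝ, ‖F (z + u) - F z‖ ≤ ‖F 1‖ * (2 * Real.exp (108 * a)) * (|u| * Real.exp (4 * a * u ^ 2)) := by
    intro u
    have hE : 1 ≤ Real.exp (4 * a * u ^ 2) := Real.one_le_exp (by positivity)
    rcases le_or_gt |u| 1 with hu | hu
    · refine (hlip u hu).trans ?_
      have h1 : ‖F 1‖ * Real.exp (108 * a) * |u| * 1 ≤
          ‖F 1‖ * (2 * Real.exp (108 * a)) * |u| * Real.exp (4 * a * u ^ 2) := by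
        apply mul_le_mul _ hE (by norm_num) (by positivity)
        apply mul_le_mul_of_nonneg_right _ (abs_nonneg _)
        apply mul_le_mul_of_nonneg_left _ hF1
        linarith [Real.exp_pos (108 * a)]
      linarith
    · have e1 : (z + (u : ℂ)).im = z.im := by simp
      have e2 : (z + (u : ℂ)).re = z.re + u := by simp
      have h1 := fb ha hη1 h (z + u) (by rw [e1]; linarith)
      have h2 := fb ha hη1 h z (by linarith)
      rw [e2] at h1
      have h3 : (z.re + u) ^ 2 ≤ 18 + 2 * u ^ 2 := by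
        have := abs_le.1 hzre
        nlinarith [sq_nonneg (z.re - u)]
      have h4 : z.re ^ 2 ≤ 9 := by
        have := abs_le.1 hzre
        nlinarith
      have h5 : ‖F (z + u)‖ ≤ ‖F 1‖ * (Real.exp (108 * a) * Real.exp (4 * a * u ^ 2)) := by
        refine h1.trans ?_
        apply mul_le_mul_of_nonneg_left _ hF1
        rw [← Real.exp_add, Real.exp_le_exp]
        have := mul_le_mul_of_nonneg_left h3 (show 0 ≤ 2 * a by positivity)
        nlinarith
      have h6 : ‖F z‖ ≤ ‖F 1‖ * (Real.exp (108 * a) * Real.exp (4 * a * u ^ 2)) := by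
        refine h2.trans ?_
        apply mul_le_mul_of_nonneg_left _ hF1
        rw [← Real.exp_add, Real.exp_le_exp]
        have := mul_le_mul_of_nonneg_left h4 (show 0 ≤ 2 * a by positivity)
        have h7 : 0 ≤ 4 * a * u ^ 2 := by positivity
        nlinarith
      refine (norm_sub_le _ _).trans ((add_le_add h5 h6).trans ?_)
      have h7 : ‖F 1‖ * (2 * Real.exp (108 * a)) * (1 * Real.exp (4 * a * u ^ 2)) ≤
          ‖F 1‖ * (2 * Real.exp (108 * a)) * (|u| * Real.exp (4 * a * u ^ 2)) := by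
        apply mul_le_mul_of_nonneg_left _ (by positivity)
        exact mul_le_mul_of_nonneg_right hu.le (Real.exp_pos _).le
      refine le_trans (le_of_eq ?_) h7
      ring
  -- the integral
  have hUDi := (Pool.Agent.W578.SD.UD.ud (1 / 2) a g η F ha (by linarith)
    ⟨h.diff, h.symm, h.far, h.near, fun w h1 h2 => (h.grow w h1 h2).trans (by
      apply mul_le_mul_of_nonneg_left _ hF1
      rw [Real.exp_le_exp]
      have := sq_nonneg (|w.re| - 16)
      nlinarith)⟩ z (by linarith)).1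
  have hgi : Integrable (fun u : ℝ => ((Real.exp (-(g * u ^ 2)) : ℝ) : ℂ) * F z) := by
    have h1 : Integrable (fun u : ℝ => Real.exp (-g * u ^ 2)) := integrable_exp_neg_mul_sq hg0
    have h2 := h1.ofReal (𝕜 := ℂ)
    have h3 := h2.mul_const (F z)
    refine h3.congr (Eventually.of_forall fun u => ?_)
    show ((Real.exp (-g * u ^ 2) : ℝ) : ℂ) * F z = _
    rw [neg_mul]
  have hsq : Real.sqrt (g / Real.pi) * Real.sqrt (Real.pi / g) = 1 := by
    rw [← Real.sqrt_mul (by positivity)]
    have : g / Real.pi * (Real.pi / g) = 1 := by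
      field_simp
    rw [this, Real.sqrt_one]
  have hFz : F z = ((Real.sqrt (g / Real.pi) : ℝ) : ℂ) * ∫ u : ℝ, ((Real.exp (-(g * u ^ 2)) : ℝ) : ℂ) * F z := by
    rw [integral_mul_const]
    have h1 : ∫ u : ℝ, ((Real.exp (-(g * u ^ 2)) : ℝ) : ℂ) = ((Real.sqrt (Real.pi / g) : ℝ) : ℂ) := by
      rw [integral_complex_ofReal]
      congr 1
      rw [← integral_gaussian]
      congr 1
      funext u
      rw [neg_mul]
    rw [h1, ← mul_assoc, ← Complex.ofReal_mul, hsq, Complex.ofReal_one, one_mul]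
  have hdiff : ((Real.sqrt (g / Real.pi) : ℝ) : ℂ) * UU g F z - F z =
      ((Real.sqrt (g / Real.pi) : ℝ) : ℂ) * ∫ u : ℝ, ((Real.exp (-(g * u ^ 2)) : ℝ) : ℂ) * (F (z + u) - F z) := by
    conv_lhs => rw [hFz]
    unfold UU
    rw [← mul_sub, ← integral_sub hUDi hgi]
    congr 1
    congr 1
    funext u
    ring
  rw [hdiff, norm_mul, Complex.norm_real, Real.norm_eq_abs, abs_of_nonneg (Real.sqrt_nonneg _)]
  have hb : 0 < g - 4 * a := by linarith
  obtain ⟨hgi1, hgi2⟩ := abs_gauss hb
  have hbound : ‖∫ u : ℝ, ((Real.exp (-(g * u ^ 2)) : ℝ) : ℂ) * (F (z + u) - F z)‖ ≤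
      ∫ u : ℝ, ‖F 1‖ * (2 * Real.exp (108 * a)) * (|u| * Real.exp (-(g - 4 * a) * u ^ 2)) := by
    refine norm_integral_le_of_norm_le (hgi1.const_mul _) (Eventually.of_forall fun u => ?_)
    rw [norm_mul, Complex.norm_real, Real.norm_eq_abs, abs_of_pos (Real.exp_pos _)]
    have h1 := mul_le_mul_of_nonneg_left (hall u) (Real.exp_pos (-(g * u ^ 2))).le
    refine h1.trans (le_of_eq ?_)
    have e : Real.exp (-(g - 4 * a) * u ^ 2) = Real.exp (-(g * u ^ 2)) * Real.exp (4 * a * u ^ 2) := by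
      rw [← Real.exp_add]; congr 1; ring
    rw [e]; ring
  rw [integral_const_mul] at hbound
  have hg34 : 3 / (g - 4 * a) ≤ 4 / g := by
    rw [div_le_div_iff₀ hb hg0]
    nlinarith
  have h8 : ‖∫ u : ℝ, ((Real.exp (-(g * u ^ 2)) : ℝ) : ℂ) * (F (z + u) - F z)‖ ≤
      ‖F 1‖ * (2 * Real.exp (108 * a)) * (4 / g) :=
    hbound.trans (mul_le_mul_of_nonneg_left (hgi2.trans hg34) (by positivity))
  have hsg : Real.sqrt (g / Real.pi) ≤ Real.sqrt g := by
    apply Real.sqrt_le_sqrt
    apply div_le_self hg0.le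
    have := Real.pi_gt_three
    linarith
  have hsgg : Real.sqrt g * Real.sqrt g = g := Real.mul_self_sqrt hg0.le
  have hsg0 : 0 < Real.sqrt g := Real.sqrt_pos.2 hg0
  calc Real.sqrt (g / Real.pi) * ‖∫ u : ℝ, ((Real.exp (-(g * u ^ 2)) : ℝ) : ℂ) * (F (z + u) - F z)‖
      ≤ Real.sqrt g * (‖F 1‖ * (2 * Real.exp (108 * a)) * (4 / g)) :=
        mul_le_mul hsg h8 (norm_nonneg _) (Real.sqrt_nonneg _)
    _ = ‖F 1‖ * (8 * Real.exp (108 * a) / Real.sqrt g) := by
        have : (4 : ℝ) / g = 4 / (Real.sqrt g * Real.sqrt g) := by rw [hsgg]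
        rw [this]
        field_simp
        ring
    _ ≤ ‖F 1‖ * (12 * Real.exp (200 * a) / Real.sqrt g) := by
        apply mul_le_mul_of_nonneg_left _ hF1
        apply div_le_div_of_nonneg_right _ hsg0.le
        have h9 : Real.exp (108 * a) ≤ Real.exp (200 * a) := Real.exp_le_exp.2 (by linarith)
        have h10 := Real.exp_pos (108 * a)
        linarith

end Pool.Agent.R838.ST
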