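import Pool.Agent.R838.ST.Gp3

set_option autoImplicit false

/-!
# Distances of the zeros from the line
-/

namespace Pool.Agent.R838.ST

open Complex Filter Topology MeasureTheory Set
open Pool.Agent.Y671.LD (badH FarOK LocH TopOK)
open Pool.Agent.R838.LD
open Pool.Agent.H24R2.JP (Om)
open Pool.Agent.H24R2.DZ (ra NN)
open Pool.Agent.R838.CR
open Pool.Agent.W186.SD (UU NG Grow S_NGN S_AW S_CNT S_COV Std)
open Pool.Agent.R838.LD.Y287Midh (nn_mono far_mono top_mono loc_mono geo)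
open Pool.Agent.W186.SD.PTaux (NG_mono NN_mono)

/-- The zeros of `f` near `t` are mapped injectively to the zeros of `g`, and moved by at most `ε`. -/
def MT2 (f g : ℂ → ℂ) (t h ε : ℝ) : Prop := ∃ φ : ℂ × ℕ → ℂ × ℕ,
  (∀ p ∈ Zi f, |p.1.im - t| ≤ h → φ p ∈ Zi g ∧ ‖(φ p).1 - p.1‖ ≤ ε) ∧
  Set.InjOn φ {p | p ∈ Zi f ∧ |p.1.im - t| ≤ h}

theorem goodm2 {B : ℝ} {F : ℂ → ℂ} {FT : ℝ → ℂ → ℂ} (hD : STB B F FT) (hNGN : S_NGN)
    (hAW : S_AW) :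
    ∃ Rs ηs c0 a0 : ℝ, 1 ≤ Rs ∧ 0 < ηs ∧ 0 < c0 ∧ 1 ≤ a0 ∧ ∀ R η : ℝ, Rs ≤ R → 0 < η → η ≤ ηs →
    ∀ a κ : ℝ, a0 ≤ a → 0 < κ → κ ≤ 1 / 20 → ∃ δ T0 : ℝ, 0 < δ ∧ 2 ≤ T0 ∧
    ∀ (T τ τ1 τ2 t : ℝ) (J : ℕ), T0 ≤ T → Std c0 T τ a J → 0 ≤ τ1 → 0 ≤ τ2 → (τ1 = 0 ∨ τ2 = 0) →
    τ1 ≤ δ / Om T ^ 2 → τ2 ≤ δ / Om T ^ 2 → T / 2 + 1 ≤ t → t ≤ 3 * T - 1 → GH F R η T a J t →
    MT2 (FT τ1) (FT τ2) t (ra T a / 400) (2 * κ * ra T a) := by
  obtain ⟨R1, e1, c1, a1, T1, hR1, he1, hc1, ha1, hT1, hPT⟩ := pta hD hNGN hAW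
  obtain ⟨R2, e2, c2, T2, hR2, he2, hc2, hT2, hGR⟩ := hD.ins.grow
  obtain ⟨e3, he3, hng⟩ := hNGN 1 one_pos
  refine ⟨max R1 R2, min (min e1 e2) e3, min (min c1 c2) (1 / 100), a1, le_max_of_le_left hR1,
    lt_min (lt_min he1 he2) he3, lt_min (lt_min hc1 hc2) (by norm_num), ha1, ?_⟩
  intro R η hR hη0 hη a κ ha hκ hκ1
  have hRa : R1 ≤ R := (le_max_left _ _).trans hR
  have hRb : R2 ≤ R := (le_max_right _ _).trans hR
  have hηa : η ≤ e1 := hη.trans ((min_le_left _ _).trans (min_le_left _ _))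
  have hηb : η ≤ e2 := hη.trans ((min_le_left _ _).trans (min_le_right _ _))
  have hηc : η ≤ e3 := hη.trans (min_le_right _ _)
  have ha1' : 1 ≤ a := ha1.trans ha
  have hap : 0 < a := by linarith
  obtain ⟨δ1, hδ1, hM⟩ := mlo hD ha1' hκ hκ1
  refine ⟨min (δ1 * a ^ 2) (a / 2), max (max T1 T2) 4, lt_min (by positivity) (by positivity),
    le_max_of_le_right (by norm_num), ?_⟩
  intro T τ τ1 τ2 t J hT hStd hτ1 hτ2 h12 hτ1' hτ2' ht1 ht2 hG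
  simp only [max_le_iff] at hT
  obtain ⟨⟨hTa, hTb⟩, hT2'⟩ := hT
  have hT0 : 0 < T := by linarith
  have hLp : 0 < Real.log T := Real.log_pos (by linarith)
  have hOm : Om T = Real.log T / 2 := rfl
  have hOm0 : 0 < Om T := by rw [hOm]; positivity
  have hStd1 : Std c1 T τ a J := ⟨hStd.tau, hStd.a_eq, hStd.small.trans (mul_le_mul_of_nonneg_right
    ((min_le_left _ _).trans (min_le_left _ _)) hOm0.le), hStd.top, hStd.top'⟩
  have hStd2 : Std c2 T τ a J := ⟨hStd.tau, hStd.a_eq, hStd.small.trans (mul_le_mul_of_nonneg_right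
    ((min_le_left _ _).trans (min_le_right _ _)) hOm0.le), hStd.top, hStd.top'⟩
  have hsm : a ≤ 1 / 100 * Om T := hStd.small.trans (mul_le_mul_of_nonneg_right (min_le_right _ _) hOm0.le)
  have hτa : a / 2 / Om T ^ 2 = τ := by rw [hStd.a_eq]; field_simp
  have hττ : ∀ τ' : ℝ, τ' ≤ min (δ1 * a ^ 2) (a / 2) / Om T ^ 2 → τ' ≤ τ := by
    intro τ' h
    refine h.trans ?_
    rw [← hτa]
    exact div_le_div_of_nonneg_right (min_le_right _ _) (by positivity)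
  obtain ⟨r, hr⟩ : ∃ r : ℝ, r = ra T a := ⟨_, rfl⟩
  have hre : r = a / Om T := hr
  have hr0 : 0 < r := by rw [hre]; positivity
  have hr1 : r ≤ 1 / 100 := by
    rw [hre, div_le_iff₀ hOm0]; linarith
  have hδr : ∀ τ' : ℝ, τ' ≤ min (δ1 * a ^ 2) (a / 2) / Om T ^ 2 → τ' ≤ δ1 * r ^ 2 := by
    intro τ' h
    refine h.trans ?_
    have : δ1 * r ^ 2 = δ1 * a ^ 2 / Om T ^ 2 := by rw [hre, div_pow]; ring
    rw [this]
    exact div_le_div_of_nonneg_right (min_le_left _ _) (by positivity)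
  obtain ⟨hLoc, hTop⟩ := hG
  obtain ⟨t', ht', hNN⟩ := hLoc 0 le_rfl (Nat.zero_le _)
  have e20 : (2 : ℝ) ^ 0 * a = a := by norm_num
  rw [e20, ← hr] at ht' hNN
  have hGrow := hGR T τ a t t' J 0 hTb ha1' hStd2 (by linarith) (by linarith) (Nat.zero_le _)
    (loc_mono hap.le hηb (hLoc.to0 (by rw [← hr]; exact hr0.le) hap.le (by linarith)))
    (top_mono hRb hηb (by linarith) hTop.to0)
    (by rw [e20, ← hr]; linarith) (by rw [e20, ← hr]; exact NN_mono hap.le hηb hNN)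
  rw [e20, ← hr] at hGrow
  have hg : r ^ 2 / (4 * τ) = a / 2 := by
    rw [hre, ← hτa]
    field_simp
    norm_num
  rw [hg] at hGrow
  have hNG : NG (1 / 2) a (a / 2) 1 (fun z => F (I * t' + r * z)) :=
    hng a (a / 2) _ ha1' (NN_mono hap.le hηc hNN) hGrow
  have hinj : InjG (FT τ1) (FT τ2) t' r (2 * κ * r) := by
    rcases h12 with h | h
    · rw [h, hD.zero]
      exact (hM t' r τ2 hr0 hτ2 (hδr _ hτ2') hNG).1
    · rw [h, hD.zero]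
      exact (hM t' r τ1 hr0 hτ1 (hδr _ hτ1') hNG).2
  obtain ⟨φ, h1, h2⟩ := hinj
  have hloc : ∀ p ∈ Zi (FT τ1), |p.1.im - t| ≤ ra T a / 400 → |p.1.re| ≤ r / 2 ∧ |p.1.im - t'| ≤ r / 2 := by
    intro p hp hpt
    rw [← hr] at hpt
    have h3 := abs_le.1 hpt
    have h4 := hPT T τ τ1 a J 0 p.1 hTa ha hStd1 hτ1 (hττ _ hτ1') (by linarith) (by linarith) (Nat.zero_le _)
      (loc_mono hap.le hηa (hLoc.toH (t1 := p.1.im) hap.le (by linarith) (by rw [← hr]; linarith)))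
      (top_mono hRa hηa (by linarith) (hTop.toH (t1 := p.1.im) (by linarith)))
      (Zi_zero (hD.heatd τ1 hτ1) hp)
    rw [e20, ← hr] at h4
    refine ⟨h4, ?_⟩
    have h5 := abs_sub_le p.1.im t t'
    linarith
  refine ⟨φ, ?_, ?_⟩
  · intro p hp hpt
    obtain ⟨h3, h4⟩ := hloc p hp hpt
    obtain ⟨h5, h6⟩ := h1 p hp h3 h4
    refine ⟨h5, ?_⟩
    rw [← hr]
    exact h6
  · intro p hp q hq hpq
    have h3 := hloc p hp.1 hp.2
    have h4 := hloc q hq.1 hq.2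
    exact h2 ⟨hp.1, h3.1, h3.2⟩ ⟨hq.1, h4.1, h4.2⟩ hpq


/-- zeros with a condition on the position -/
def ZS (f : ℂ → ℂ) (P : ℂ → Prop) : Set (ℂ × ℕ) := {p | p ∈ Zi f ∧ P p.1}

lemma ZS_le {f : ℂ → ℂ} {B : ℝ} (hf : Differentiable ℂ f) (hs : ∀ s, f s = 0 → |s.re| ≤ B)
    {P : ℂ → Prop} {Q : ℝ → Prop} {u v : ℝ} (hP : ∀ z, P z → Q z.im) (hQ : ∀ y, Q y → u ≤ y ∧ y ≤ v) :
    (ZS f P).Finite ∧ (ZS f P).ncard ≤ (Z0 f Q).ncard := by
  have hfin : (Z0 f Q).Finite := TP_fin hf hs le_rfl (fun i => i.elim0) (fun i => i.elim0) hQ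
  have hmaps : ∀ p ∈ ZS f P, (fun (p : ℂ × ℕ) (_ : Fin (0 + 1)) => p) p ∈ Z0 f Q := by
    rintro p ⟨h1, h2⟩
    refine ⟨fun _ => h1, ?_, hP _ h2, fun i => i.elim0⟩
    intro i j _
    have h6 := i.2
    have h7 := j.2
    exact Fin.ext (by omega)
  have hinj : Set.InjOn (fun (p : ℂ × ℕ) (_ : Fin (0 + 1)) => p) (ZS f P) := by
    intro p _ q _ hpq
    exact congrFun hpq 0
  exact ⟨Set.Finite.of_injOn hmaps hinj hfin, Set.ncard_le_ncard_of_injOn _ hmaps hinj hfin⟩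

lemma ZS_nn {f : ℂ → ℂ} {B : ℝ} (hf : Differentiable ℂ f) (hs : ∀ s, f s = 0 → |s.re| ≤ B) (t h : ℝ)
    {P : ℂ → Prop} (hP : ∀ z, P z → |z.im - t| ≤ h) :
    (ZS f P).Finite ∧ (ZS f P).ncard ≤ nn f t h := by
  have h1 := ZS_le hf hs (P := P) (Q := fun y => |y - t| ≤ h) (u := t - h) (v := t + h) hP
    (fun y hy => by have := abs_le.1 hy; constructor <;> linarith)
  exact ⟨h1.1, h1.2.trans (Z0_le hf hs t h)⟩

/-- The comparison. -/
theorem glueZ {f g : ℂ → ℂ} {B : ℝ} (hf : Differentiable ℂ f) (hsf : ∀ s, f s = 0 → |s.re| ≤ B)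
    (hg : Differentiable ℂ g) (hsg : ∀ s, g s = 0 → |s.re| ≤ B)
    {h ε ρ U V σ : ℝ} (hh : 0 ≤ h) (hε : 0 ≤ ε) (G : Finset ℝ) (hSep : Sep G ρ)
    (hcov : ∀ x, U < x → x ≤ V → 2 * h / ρ - 1 ≤ ((G.filter fun t => |t - x| ≤ h).card : ℝ))
    (bad : ℝ → Prop) [DecidablePred bad]
    (hgood : ∀ t ∈ G, ¬ bad t → MT2 f g t h ε) :
    (2 * h / ρ - 1) * ((ZS f (fun z => (U < z.im ∧ z.im ≤ V) ∧ σ ≤ |z.re|)).ncard : ℝ) ≤
      (2 * (h + ε) / ρ + 1) * ((ZS g (fun z => (U - ε < z.im ∧ z.im ≤ V + ε) ∧ σ - ε ≤ |z.re|)).ncard : ℝ) +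
      ∑ t ∈ G with bad t, (nn f t h : ℝ) := by
  classical
  have hX := (ZS_le hf hsf (P := fun z => (U < z.im ∧ z.im ≤ V) ∧ σ ≤ |z.re|) (Q := fun y => U < y ∧ y ≤ V)
    (u := U) (v := V) (fun z hz => hz.1) (fun y hy => ⟨hy.1.le, hy.2⟩)).1
  have hY := (ZS_le hg hsg (P := fun z => (U - ε < z.im ∧ z.im ≤ V + ε) ∧ σ - ε ≤ |z.re|)
    (Q := fun y => U - ε < y ∧ y ≤ V + ε) (u := U - ε) (v := V + ε) (fun z hz => hz.1)
    (fun y hy => ⟨hy.1.le, hy.2⟩)).1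
  obtain ⟨X, hXd⟩ : ∃ X : Finset (ℂ × ℕ), X = hX.toFinset := ⟨_, rfl⟩
  obtain ⟨Y, hYd⟩ : ∃ Y : Finset (ℂ × ℕ), Y = hY.toFinset := ⟨_, rfl⟩
  rw [Set.ncard_eq_toFinset_card _ hX, Set.ncard_eq_toFinset_card _ hY, ← hXd, ← hYd]
  have hXm : ∀ x, x ∈ X ↔ x ∈ ZS f (fun z => (U < z.im ∧ z.im ≤ V) ∧ σ ≤ |z.re|) := fun x => by
    rw [hXd, Set.Finite.mem_toFinset]
  have hYm : ∀ x, x ∈ Y ↔ x ∈ ZS g (fun z => (U - ε < z.im ∧ z.im ≤ V + ε) ∧ σ - ε ≤ |z.re|) := fun x => by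
    rw [hYd, Set.Finite.mem_toFinset]
  have h1 := dc_low G X (fun x => x.1.im) h (2 * h / ρ - 1) (fun x hx => by
    have := ((hXm x).1 hx).2.1
    exact hcov _ this.1 this.2)
  have h2 := dc_up G Y (fun x => x.1.im) (h + ε) (2 * (h + ε) / ρ + 1) (fun x _ => hSep _ _ (by linarith))
  have h3 : ∀ t ∈ G, ((X.filter fun x => |x.1.im - t| ≤ h).card : ℝ) ≤
      ((Y.filter fun x => |x.1.im - t| ≤ h + ε).card : ℝ) +
        (if bad t then (nn f t h : ℝ) else 0) := by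
    intro t ht
    by_cases hb : bad t
    · rw [if_pos hb]
      have h4 : (X.filter fun x => |x.1.im - t| ≤ h).card ≤ nn f t h := by
        obtain ⟨h5, h6⟩ := ZS_nn hf hsf t h (P := fun z => |z.im - t| ≤ h) (fun z hz => hz)
        rw [← Set.ncard_coe_finset]
        refine (Set.ncard_le_ncard ?_ h5).trans h6
        intro x hx
        rw [Finset.mem_coe, Finset.mem_filter, hXm] at hx
        exact ⟨hx.1.1, hx.2⟩
      have h5 : ((X.filter fun x => |x.1.im - t| ≤ h).card : ℝ) ≤ (nn f t h : ℝ) := by exact_mod_cast h4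
      have h6 : (0 : ℝ) ≤ ((Y.filter fun x => |x.1.im - t| ≤ h + ε).card : ℝ) := Nat.cast_nonneg _
      linarith
    · rw [if_neg hb, add_zero]
      obtain ⟨φ, hφ, hφi⟩ := hgood t ht hb
      have h4 : (X.filter fun x => |x.1.im - t| ≤ h).card ≤ (Y.filter fun x => |x.1.im - t| ≤ h + ε).card := by
        refine Finset.card_le_card_of_injOn φ ?_ ?_
        · intro x hx
          rw [Finset.mem_coe, Finset.mem_filter, hXm] at hx
          obtain ⟨⟨hx1, ⟨hx2, hx3⟩, hx4⟩, hx5⟩ := hx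
          obtain ⟨h5, h6⟩ := hφ x hx1 hx5
          have h7 := (Complex.abs_im_le_norm ((φ x).1 - x.1)).trans h6
          have h8 := (Complex.abs_re_le_norm ((φ x).1 - x.1)).trans h6
          rw [Complex.sub_im] at h7
          rw [Complex.sub_re] at h8
          have h7' := abs_le.1 h7
          rw [Finset.mem_coe, Finset.mem_filter, hYm]
          refine ⟨⟨h5, ⟨by linarith [h7'.1], by linarith [h7'.2]⟩, ?_⟩, ?_⟩
          · have h9 := abs_sub_abs_le_abs_sub x.1.re (φ x).1.re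
            rw [abs_sub_comm] at h8
            linarith
          · have h9 := abs_sub_le (φ x).1.im x.1.im t
            linarith
        · intro x hx y hy hxy
          rw [Finset.mem_coe, Finset.mem_filter, hXm] at hx hy
          exact hφi ⟨hx.1.1, hx.2⟩ ⟨hy.1.1, hy.2⟩ hxy
      exact_mod_cast h4
  refine h1.trans ((Finset.sum_le_sum h3).trans ?_)
  rw [Finset.sum_add_distrib, Finset.sum_filter]
  exact add_le_add h2 le_rfl

lemma bdryZ {f : ℂ → ℂ} {B : ℝ} (hf : Differentiable ℂ f) (hs : ∀ s, f s = 0 → |s.re| ≤ B)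
    {U V ρ σ : ℝ} :
    ((ZS f (fun z => (U - ρ < z.im ∧ z.im ≤ V + ρ) ∧ σ ≤ |z.re|)).ncard : ℝ) ≤
      ((ZS f (fun z => (U < z.im ∧ z.im ≤ V) ∧ σ ≤ |z.re|)).ncard : ℝ) + (nn f U ρ : ℝ) + (nn f V ρ : ℝ) := by
  have hsub : ZS f (fun z => (U - ρ < z.im ∧ z.im ≤ V + ρ) ∧ σ ≤ |z.re|) ⊆
      (ZS f (fun z => (U < z.im ∧ z.im ≤ V) ∧ σ ≤ |z.re|) ∪ ZS f (fun z => |z.im - U| ≤ ρ)) ∪
        ZS f (fun z => |z.im - V| ≤ ρ) := by
    rintro p ⟨h1, h3, h4⟩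
    rcases le_or_gt p.1.im U with h5 | h5
    · left; right
      refine ⟨h1, ?_⟩
      show |p.1.im - U| ≤ ρ
      rw [abs_le]
      constructor <;> linarith [h3.1]
    · rcases le_or_gt p.1.im V with h6 | h6
      · left; left
        exact ⟨h1, ⟨h5, h6⟩, h4⟩
      · right
        refine ⟨h1, ?_⟩
        show |p.1.im - V| ≤ ρ
        rw [abs_le]
        constructor <;> linarith [h3.2]
  have hf1 := (ZS_le hf hs (P := fun z => (U < z.im ∧ z.im ≤ V) ∧ σ ≤ |z.re|) (Q := fun y => U < y ∧ y ≤ V)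
    (u := U) (v := V) (fun z hz => hz.1) (fun y hy => ⟨hy.1.le, hy.2⟩)).1
  obtain ⟨hf2, g2⟩ := ZS_nn hf hs U ρ (P := fun z => |z.im - U| ≤ ρ) (fun z hz => hz)
  obtain ⟨hf3, g3⟩ := ZS_nn hf hs V ρ (P := fun z => |z.im - V| ≤ ρ) (fun z hz => hz)
  have h1 := (Set.ncard_le_ncard hsub ((hf1.union hf2).union hf3)).trans
    ((Set.ncard_union_le _ _).trans (Nat.add_le_add_right (Set.ncard_union_le _ _) _))
  have h2 : (ZS f (fun z => (U - ρ < z.im ∧ z.im ≤ V + ρ) ∧ σ ≤ |z.re|)).ncard ≤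
      (ZS f (fun z => (U < z.im ∧ z.im ≤ V) ∧ σ ≤ |z.re|)).ncard + nn f U ρ + nn f V ρ := by
    omega
  exact_mod_cast h2

end Pool.Agent.R838.ST
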