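import Pool.Agent.R838.ST.Ln2
import Pool.Agent.R838.ST.Zgp

set_option autoImplicit false

/-!
# Distances of the zeros from the line: the theorem
-/

namespace Pool.Agent.R838.ST

open Complex Filter Topology MeasureTheory Set
open Pool.Agent.H24R2.JP (XX HH Om)
open Pool.Agent.H986R2.DBN (XT Ht)
open Pool.Agent.R838.CR
open Pool.Agent.W186.SD (S_NGN S_AW S_CNT S_COV)

section

variable {f : ℂ → ℂ} {B : ℝ} (hf : Differentiable ℂ f) (hs : ∀ s, f s = 0 → |s.re| ≤ B)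

include hf hs

lemma ZS_f (σ u v : ℝ) : (ZS f (fun z => (u < z.im ∧ z.im ≤ v) ∧ σ ≤ |z.re|)).Finite :=
  (ZS_le hf hs (P := fun z => (u < z.im ∧ z.im ≤ v) ∧ σ ≤ |z.re|) (Q := fun y => u < y ∧ y ≤ v)
    (u := u) (v := v) (fun z hz => hz.1) (fun y hy => ⟨hy.1.le, hy.2⟩)).1

lemma ZS_sl (σ x y z : ℝ) :
    ((ZS f (fun w => (x < w.im ∧ w.im ≤ z) ∧ σ ≤ |w.re|)).ncard : ℝ) ≤
      ((ZS f (fun w => (y < w.im ∧ w.im ≤ z) ∧ σ ≤ |w.re|)).ncard : ℝ) +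
      ((ZS f (fun w => (x < w.im ∧ w.im ≤ y) ∧ σ ≤ |w.re|)).ncard : ℝ) := by
  have hsub : ZS f (fun w => (x < w.im ∧ w.im ≤ z) ∧ σ ≤ |w.re|) ⊆
      ZS f (fun w => (y < w.im ∧ w.im ≤ z) ∧ σ ≤ |w.re|) ∪ ZS f (fun w => (x < w.im ∧ w.im ≤ y) ∧ σ ≤ |w.re|) := by
    rintro p ⟨h1, h2, h3⟩
    rcases le_or_gt p.1.im y with h4 | h4
    · right; exact ⟨h1, ⟨h2.1, h4⟩, h3⟩
    · left; exact ⟨h1, ⟨h4, h2.2⟩, h3⟩
  have h1 := (Set.ncard_le_ncard hsub ((ZS_f hf hs σ y z).union (ZS_f hf hs σ x y))).trans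
    (Set.ncard_union_le _ _)
  exact_mod_cast h1

lemma ZS_sg (σ : ℝ) {x y z : ℝ} (hxy : x ≤ y) (hyz : y ≤ z) :
    ((ZS f (fun w => (y < w.im ∧ w.im ≤ z) ∧ σ ≤ |w.re|)).ncard : ℝ) +
      ((ZS f (fun w => (x < w.im ∧ w.im ≤ y) ∧ σ ≤ |w.re|)).ncard : ℝ) ≤
    ((ZS f (fun w => (x < w.im ∧ w.im ≤ z) ∧ σ ≤ |w.re|)).ncard : ℝ) := by
  have hsub : ZS f (fun w => (y < w.im ∧ w.im ≤ z) ∧ σ ≤ |w.re|) ∪
      ZS f (fun w => (x < w.im ∧ w.im ≤ y) ∧ σ ≤ |w.re|) ⊆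
      ZS f (fun w => (x < w.im ∧ w.im ≤ z) ∧ σ ≤ |w.re|) := by
    rintro p (⟨h1, h2, h3⟩ | ⟨h1, h2, h3⟩)
    · exact ⟨h1, ⟨lt_of_le_of_lt hxy h2.1, h2.2⟩, h3⟩
    · exact ⟨h1, ⟨h2.1, h2.2.trans hyz⟩, h3⟩
  have hdis : Disjoint (ZS f (fun w => (y < w.im ∧ w.im ≤ z) ∧ σ ≤ |w.re|))
      (ZS f (fun w => (x < w.im ∧ w.im ≤ y) ∧ σ ≤ |w.re|)) := by
    rw [Set.disjoint_left]
    rintro p ⟨-, h5, -⟩ ⟨-, h6, -⟩
    exact absurd h6.2 (not_le.2 h5.1)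
  have h4 := Set.ncard_le_ncard hsub (ZS_f hf hs σ x z)
  rw [Set.ncard_union_eq hdis (ZS_f hf hs σ y z) (ZS_f hf hs σ x y)] at h4
  exact_mod_cast h4

lemma ZS_rem (σ : ℝ) {V M : ℝ} (hV : 0 ≤ V) (hM0 : 0 ≤ M)
    (hM : ∀ t : ℝ, 0 ≤ t → t ≤ V + 1 → (nn f t 1 : ℝ) ≤ M) :
    ((ZS f (fun w => (0 < w.im ∧ w.im ≤ V) ∧ σ ≤ |w.re|)).ncard : ℝ) ≤ (V + 1) * M := by
  have h1 := (ZS_le hf hs (P := fun z => (0 < z.im ∧ z.im ≤ V) ∧ σ ≤ |z.re|) (Q := fun y => 0 < y ∧ y ≤ V)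
    (u := 0) (v := V) (fun z hz => hz.1) (fun y hy => ⟨hy.1.le, hy.2⟩)).2
  have h2 := remd hf hs (k := 0) (α := fun i : Fin 0 => i.elim0) (β := fun i : Fin 0 => i.elim0) (H := 0) le_rfl
    (fun i => i.elim0) (fun i => i.elim0) (by norm_num) hV hM0 hM
  have h3 : ((ZS f (fun w => (0 < w.im ∧ w.im ≤ V) ∧ σ ≤ |w.re|)).ncard : ℝ) ≤
      ((Z0 f (fun y => 0 < y ∧ y ≤ V)).ncard : ℝ) := by
    exact_mod_cast h1
  have e : (V + 1) * M ^ (0 + 1) = (V + 1) * M := by rw [zero_add, pow_one]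
  exact h3.trans (h2.trans e.le)

end

/-- zeros with ordinate in `(0, T]` and distance at least `σ / log T` from the line -/
def NL (f : ℂ → ℂ) (T σ : ℝ) : Set (ℂ × ℕ) :=
  {p | p ∈ Zi f ∧ (0 < p.1.im ∧ p.1.im ≤ T) ∧ σ ≤ |p.1.re| * Real.log T}

lemma NL_eq {f : ℂ → ℂ} {T : ℝ} (hT : 1 < T) (σ : ℝ) :
    NL f T σ = ZS f (fun z => (0 < z.im ∧ z.im ≤ T) ∧ σ / Real.log T ≤ |z.re|) := by
  have hL : 0 < Real.log T := Real.log_pos hT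
  ext p
  constructor
  · rintro ⟨h1, h2, h3⟩
    exact ⟨h1, h2, by rw [div_le_iff₀ hL]; exact h3⟩
  · rintro ⟨h1, h2, h3⟩
    refine ⟨h1, h2, ?_⟩
    rw [div_le_iff₀ hL] at h3
    exact h3

theorem fullZ {B : ℝ} {F : ℂ → ℂ} {FT : ℝ → ℂ → ℂ} (hD : STB B F FT) (h0 : UNIT0 F) (hNGN : S_NGN)
    (hAW : S_AW) (hCNT : S_CNT) (hCOV : S_COV) (ε : ℝ) (hε : 0 < ε) :
    ∃ δ T0 : ℝ, 0 < δ ∧ 2 ≤ T0 ∧ ∀ T τ1 τ2 σ : ℝ, T0 ≤ T → 0 ≤ τ1 → 0 ≤ τ2 → (τ1 = 0 ∨ τ2 = 0) →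
    τ1 ≤ δ / Om T ^ 2 → τ2 ≤ δ / Om T ^ 2 →
    ((NL (FT τ1) T σ).ncard : ℝ) ≤ ((NL (FT τ2) T (σ - ε)).ncard : ℝ) + ε * (T * Real.log T) := by
  obtain ⟨ε1, hε1⟩ : ∃ ε1 : ℝ, ε1 = min (ε / 4) 1 := ⟨_, rfl⟩
  have hε10 : 0 < ε1 := by rw [hε1]; exact lt_min (by positivity) one_pos
  have hε11 : ε1 ≤ 1 := by rw [hε1]; exact min_le_right _ _
  have hε12 : 4 * ε1 ≤ ε := by
    have : ε1 ≤ ε / 4 := by rw [hε1]; exact min_le_left _ _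
    linarith
  obtain ⟨δb, Ub, hδb, hUb, hbl⟩ := blockZ hD h0 hNGN hAW hCNT hCOV ε1 hε10 hε11
  obtain ⟨C8, T8, hC8, hT8, hnn⟩ := nn_all hD h0
  obtain ⟨T9, hT9, hls⟩ := logs_small C8 hC8.le 1 (ε := ε / 2) (by positivity)
  refine ⟨min δb 1, max (max (Ub ^ 2) T8) (max T9 (Real.exp 4)), lt_min hδb one_pos,
    hT8.trans ((le_max_right _ _).trans (le_max_left _ _)), ?_⟩
  intro T τ1 τ2 σ hT hτ1 hτ2 h12 hτ1' hτ2'
  simp only [max_le_iff] at hT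
  obtain ⟨⟨hTa, hTb⟩, hTc, hTd⟩ := hT
  have hT5 : 5 ≤ T := by
    have := Real.add_one_le_exp (4 : ℝ)
    linarith
  have hT0 : 0 < T := by linarith
  have hL : 4 ≤ Real.log T := by rw [Real.le_log_iff_exp_le hT0]; exact hTd
  have hL1 : 1 ≤ Real.log T := by linarith
  have hL0 : 0 < Real.log T := by linarith
  have hOm : Om T = Real.log T / 2 := rfl
  have hOm1 : 2 ≤ Om T := by rw [hOm]; linarith
  have hOm0 : 0 < Om T := by linarith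
  have hOm2 : 0 < Om T ^ 2 := by positivity
  -- the square root
  have hsq : Real.sqrt T * Real.sqrt T = T := Real.mul_self_sqrt hT0.le
  have hs2 : 2 ≤ Real.sqrt T := Real.le_sqrt_of_sq_le (by linarith)
  have hs0 : 0 < Real.sqrt T := by linarith
  have hsU : Ub ≤ Real.sqrt T := Real.le_sqrt_of_sq_le hTa
  obtain ⟨n, hn1, hn2⟩ := exists_nat_pow_near (x := Real.sqrt T) (y := (2 : ℝ)) (by linarith) (by norm_num)
  obtain ⟨V, hV⟩ : ∃ V : ℝ, V = T / 2 ^ n := ⟨_, rfl⟩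
  have h2n : (0 : ℝ) < 2 ^ n := by positivity
  have hVl : Real.sqrt T ≤ V := by
    rw [hV, le_div_iff₀ h2n]
    calc Real.sqrt T * 2 ^ n ≤ Real.sqrt T * Real.sqrt T := mul_le_mul_of_nonneg_left hn1 hs0.le
      _ = T := hsq
  have hVu : V ≤ 2 * Real.sqrt T := by
    rw [hV, div_le_iff₀ h2n]
    rw [pow_succ] at hn2
    have h1 := mul_le_mul_of_nonneg_left hn2.le hs0.le
    rw [hsq] at h1
    linarith
  have hV0 : 0 < V := by linarith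
  have hVT : V ≤ T := by
    rw [hV]; exact div_le_self hT0.le (one_le_pow₀ (by norm_num))
  -- the functions
  have hf1 := hD.heatd τ1 hτ1
  have hs1 : ∀ s, FT τ1 s = 0 → |s.re| ≤ B := fun s hs => hD.strip τ1 s hτ1 hs
  have hf2 := hD.heatd τ2 hτ2
  have hst2 : ∀ s, FT τ2 s = 0 → |s.re| ≤ B := fun s hs => hD.strip τ2 s hτ2 hs
  have hdl : ∀ τ' : ℝ, τ' ≤ min δb 1 / Om T ^ 2 → τ' ≤ 1 / Om T ^ 2 := fun τ' h =>
    h.trans (div_le_div_of_nonneg_right (min_le_right _ _) hOm2.le)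
  obtain ⟨M, hM⟩ : ∃ M : ℝ, M = C8 * Real.log T := ⟨_, rfl⟩
  have hM0 : 0 ≤ M := by rw [hM]; positivity
  have hnn1 : ∀ t : ℝ, 0 ≤ t → t ≤ T + 2 → (nn (FT τ1) t 1 : ℝ) ≤ M := fun t h1 h2 => by
    rw [hM]; exact hnn T τ1 t hTb hτ1 (hdl _ hτ1') h1 h2
  obtain ⟨σ1, hσ1⟩ : ∃ σ1 : ℝ, σ1 = σ / Real.log T := ⟨_, rfl⟩
  have hσ2 : (σ - ε) / Real.log T = σ1 - ε / Real.log T := by rw [hσ1]; ring
  -- step 1
  have e1 := dyadN (a := fun x y => ((ZS (FT τ1) (fun w => (x < w.im ∧ w.im ≤ y) ∧ σ1 ≤ |w.re|)).ncard : ℝ))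
    (b := fun x y => ((ZS (FT τ2) (fun w => (x < w.im ∧ w.im ≤ y) ∧ σ1 - ε / Real.log T ≤ |w.re|)).ncard : ℝ))
    (e := ε1 * Om T) hT0 (fun x => by
      have h1 : ZS (FT τ1) (fun w => (x < w.im ∧ w.im ≤ x) ∧ σ1 ≤ |w.re|) = ∅ := by
        ext p
        simp only [Set.mem_empty_iff_false, iff_false]
        rintro ⟨-, h3, -⟩
        linarith [h3.1, h3.2]
      show ((ZS (FT τ1) (fun w => (x < w.im ∧ w.im ≤ x) ∧ σ1 ≤ |w.re|)).ncard : ℝ) ≤ 0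
      rw [h1, Set.ncard_empty, Nat.cast_zero])
    (fun x => Nat.cast_nonneg _)
    (fun x y z _ _ => ZS_sl hf1 hs1 _ x y z)
    (fun x y z hxy hyz => ZS_sg hf2 hst2 _ hxy hyz) n (fun U hU1 hU2 => by
      rw [← hV] at hU1
      have hUs : Real.sqrt T ≤ U := hVl.trans hU1
      have hU0 : 0 < U := by linarith
      have hUT : U ≤ T := by linarith
      have hlu : Real.log T ≤ 2 * Real.log U := by
        have h1 : Real.log (Real.sqrt T) ≤ Real.log U := Real.log_le_log hs0 hUs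
        rw [Real.log_sqrt hT0.le] at h1
        linarith
      have hOU : Om T ≤ 2 * Om U := by rw [hOm]; unfold Om; linarith
      have hOU0 : 0 < Om U := by linarith
      have hOUT : Om U ≤ Om T := by
        unfold Om
        exact div_le_div_of_nonneg_right (Real.log_le_log hU0 hUT) (by norm_num)
      have hτU : ∀ τ' : ℝ, τ' ≤ min δb 1 / Om T ^ 2 → τ' ≤ δb / Om U ^ 2 := fun τ' h => by
        refine h.trans ?_
        apply div_le_div₀ hδb.le (min_le_left _ _) (by positivity)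
        exact pow_le_pow_left₀ hOU0.le hOUT 2
      have hεc : ε1 / Om U ≤ ε / Real.log T := by
        rw [div_le_div_iff₀ hOU0 hL0]
        have h1 : Real.log T ≤ 4 * Om U := by rw [hOm] at hOU; linarith
        calc ε1 * Real.log T ≤ ε1 * (4 * Om U) := mul_le_mul_of_nonneg_left h1 hε10.le
          _ = 4 * ε1 * Om U := by ring
          _ ≤ ε * Om U := mul_le_mul_of_nonneg_right hε12 hOU0.le
      have h1 := hbl U τ1 τ2 σ1 (hsU.trans hUs) hτ1 hτ2 h12 (hτU _ hτ1') (hτU _ hτ2')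
      refine h1.trans ?_
      have hsub : ZS (FT τ2) (fun z => (U < z.im ∧ z.im ≤ 2 * U) ∧ σ1 - ε1 / Om U ≤ |z.re|) ⊆
          ZS (FT τ2) (fun z => (U < z.im ∧ z.im ≤ 2 * U) ∧ σ1 - ε / Real.log T ≤ |z.re|) := by
        rintro p ⟨h1, h2, h3⟩
        exact ⟨h1, h2, by linarith⟩
      have h2 : ((ZS (FT τ2) (fun z => (U < z.im ∧ z.im ≤ 2 * U) ∧ σ1 - ε1 / Om U ≤ |z.re|)).ncard : ℝ) ≤
          ((ZS (FT τ2) (fun z => (U < z.im ∧ z.im ≤ 2 * U) ∧ σ1 - ε / Real.log T ≤ |z.re|)).ncard : ℝ) := by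
        exact_mod_cast Set.ncard_le_ncard hsub (ZS_f hf2 hst2 _ _ _)
      refine add_le_add h2 ?_
      calc ε1 * U * Om U ≤ ε1 * U * Om T := mul_le_mul_of_nonneg_left hOUT (by positivity)
        _ = ε1 * Om T * U := by ring)
  rw [← hV] at e1
  -- step 2
  have e2 := ZS_rem hf1 hs1 σ1 hV0.le hM0 (fun t h1 h2 => hnn1 t h1 (by linarith))
  -- step 3
  have e3 : ((NL (FT τ1) T σ).ncard : ℝ) ≤
      ((ZS (FT τ1) (fun w => (V < w.im ∧ w.im ≤ T) ∧ σ1 ≤ |w.re|)).ncard : ℝ) +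
      ((ZS (FT τ1) (fun w => (0 < w.im ∧ w.im ≤ V) ∧ σ1 ≤ |w.re|)).ncard : ℝ) := by
    rw [NL_eq (by linarith), ← hσ1]
    exact ZS_sl hf1 hs1 σ1 0 V T
  -- step 4
  have e4 : ((ZS (FT τ2) (fun w => (V < w.im ∧ w.im ≤ T) ∧ σ1 - ε / Real.log T ≤ |w.re|)).ncard : ℝ) ≤
      ((NL (FT τ2) T (σ - ε)).ncard : ℝ) := by
    rw [NL_eq (by linarith), hσ2]
    have hsub : ZS (FT τ2) (fun w => (V < w.im ∧ w.im ≤ T) ∧ σ1 - ε / Real.log T ≤ |w.re|) ⊆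
        ZS (FT τ2) (fun z => (0 < z.im ∧ z.im ≤ T) ∧ σ1 - ε / Real.log T ≤ |z.re|) := by
      rintro p ⟨h1, h2, h3⟩
      exact ⟨h1, ⟨hV0.trans h2.1, h2.2⟩, h3⟩
    exact_mod_cast Set.ncard_le_ncard hsub (ZS_f hf2 hst2 _ _ _)
  -- numbers
  have e5 := hls T hTc
  rw [← hM, pow_one] at e5
  have e6 : (V + 1) * M ≤ M * (8 * Real.sqrt T) := by
    have h1 : V + 1 ≤ 8 * Real.sqrt T := by linarith
    have h2 := mul_le_mul_of_nonneg_right h1 hM0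
    linarith
  have e7 : ε1 * Om T * T * (1 - 1 / 2 ^ n) ≤ ε / 4 * (T * Real.log T) := by
    have h1 : (0 : ℝ) < 1 / 2 ^ n := by positivity
    have h2 : 0 ≤ ε1 * Om T * T := by positivity
    have h3 : ε1 * Om T * T * (1 - 1 / 2 ^ n) ≤ ε1 * Om T * T * 1 :=
      mul_le_mul_of_nonneg_left (by linarith) h2
    have h4 : ε1 * Om T * T * 1 = 4 * ε1 / 8 * (T * Real.log T) := by rw [hOm]; ring
    have h5 : 4 * ε1 / 8 * (T * Real.log T) ≤ ε / 4 * (T * Real.log T) :=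
      mul_le_mul_of_nonneg_right (by linarith) (by positivity)
    linarith
  have e8 : ε / 2 * T ≤ ε / 2 * (T * Real.log T) :=
    mul_le_mul_of_nonneg_left (le_mul_of_one_le_right hT0.le hL1) (by positivity)
  have e9 : 0 ≤ ε * (T * Real.log T) := by positivity
  linarith

end Pool.Agent.R838.ST
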