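import Pool.Agent.R838.ST.Mrg
import Pool.Agent.Helper960.Crg.Min

set_option autoImplicit false

/-!
# Matching the zeros of two close functions
-/

namespace Pool.Agent.R838.ST

open Metric Set Filter Topology

/-- An injection of the zeros of `G` in the disc of radius `ρ` to the zeros of `U`, which moves the zeros by at
most `κ`. -/
def Inj (G U : ℂ → ℂ) (ρ κ : ℝ) : Prop := ∃ φ : ℂ × ℕ → ℂ × ℕ,
  (∀ p ∈ Zi G, ‖p.1‖ ≤ ρ → φ p ∈ Zi U ∧ ‖(φ p).1 - p.1‖ ≤ κ) ∧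
  Set.InjOn φ {p | p ∈ Zi G ∧ ‖p.1‖ ≤ ρ}

lemma mk_inj {G U : ℂ → ℂ} {S : Finset (ℂ × ℝ)} {κ : ℝ} (hκ : 0 < κ) (hpos : ∀ p ∈ S, 0 < p.2)
    (hsum : ∑ p ∈ S, p.2 ≤ κ)
    (hdis : ∀ p ∈ S, ∀ q ∈ S, p ≠ q → Disjoint (closedBall p.1 p.2) (closedBall q.1 q.2))
    (hcov : ∀ p ∈ Zi G, ‖p.1‖ ≤ 2 → ∃ d ∈ S, p.1 ∈ closedBall d.1 d.2)
    (hcnt : ∀ d ∈ S, ‖d.1‖ + d.2 < 2 → {p | p ∈ Zi G ∧ p.1 ∈ closedBall d.1 d.2}.Finite ∧
      {p | p ∈ Zi U ∧ p.1 ∈ closedBall d.1 d.2}.Finite ∧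
      {p | p ∈ Zi G ∧ p.1 ∈ closedBall d.1 d.2}.ncard = {p | p ∈ Zi U ∧ p.1 ∈ closedBall d.1 d.2}.ncard) :
    Inj G U (2 - 3 * κ) (2 * κ) := by
  classical
  have hrad : ∀ d ∈ S, d.2 ≤ κ := fun d hd =>
    (Finset.single_le_sum (fun x hx => (hpos x hx).le) hd).trans hsum
  have hbij : ∀ d : ℂ × ℝ, ∃ φ : ℂ × ℕ → ℂ × ℕ, (d ∈ S → ‖d.1‖ + d.2 < 2 →
      Set.BijOn φ {p | p ∈ Zi G ∧ p.1 ∈ closedBall d.1 d.2} {p | p ∈ Zi U ∧ p.1 ∈ closedBall d.1 d.2}) := by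
    intro d
    by_cases h : d ∈ S ∧ ‖d.1‖ + d.2 < 2
    · obtain ⟨h1, h2, h3⟩ := hcnt d h.1 h.2
      obtain ⟨φ, hφ⟩ := h1.exists_bijOn_of_encard_eq
        (t := {p | p ∈ Zi U ∧ p.1 ∈ closedBall d.1 d.2}) (by
          rw [← h1.cast_ncard_eq, ← h2.cast_ncard_eq, h3])
      exact ⟨φ, fun _ _ => hφ⟩
    · exact ⟨id, fun h1 h2 => absurd ⟨h1, h2⟩ h⟩
  choose φ hφ using hbij
  have hloc : ∀ p ∈ Zi G, ‖p.1‖ ≤ 2 - 3 * κ →
      ∃ d : ℂ × ℝ, d ∈ S ∧ ‖d.1‖ + d.2 < 2 ∧ p.1 ∈ closedBall d.1 d.2 := by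
    intro p hp hp2
    obtain ⟨d, hd, hpd⟩ := hcov p hp (by linarith)
    refine ⟨d, hd, ?_, hpd⟩
    rw [mem_closedBall, dist_eq_norm] at hpd
    have h1 := hrad d hd
    have h2 : ‖d.1‖ ≤ ‖p.1‖ + ‖p.1 - d.1‖ := by
      have : d.1 = p.1 - (p.1 - d.1) := by ring
      calc ‖d.1‖ = ‖p.1 - (p.1 - d.1)‖ := by rw [← this]
        _ ≤ _ := norm_sub_le _ _
    linarith
  have hcl : ∀ p : ℂ × ℕ, ∃ d : ℂ × ℝ, (p ∈ Zi G → ‖p.1‖ ≤ 2 - 3 * κ →
      d ∈ S ∧ ‖d.1‖ + d.2 < 2 ∧ p.1 ∈ closedBall d.1 d.2) := by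
    intro p
    by_cases h : p ∈ Zi G ∧ ‖p.1‖ ≤ 2 - 3 * κ
    · obtain ⟨d, hd⟩ := hloc p h.1 h.2
      exact ⟨d, fun _ _ => hd⟩
    · exact ⟨(0, 0), fun h1 h2 => absurd ⟨h1, h2⟩ h⟩
  choose cl hcl using hcl
  refine ⟨fun p => φ (cl p) p, ?_, ?_⟩
  · intro p hp hp2
    obtain ⟨h1, h2, h3⟩ := hcl p hp hp2
    obtain ⟨h4, h5⟩ := (hφ (cl p) h1 h2).mapsTo (show p ∈ {p | p ∈ Zi G ∧ p.1 ∈ closedBall (cl p).1 (cl p).2} from ⟨hp, h3⟩)
    refine ⟨h4, ?_⟩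
    rw [mem_closedBall, dist_eq_norm] at h3 h5
    have h6 := hrad _ h1
    have h7 : (φ (cl p) p).1 - p.1 = ((φ (cl p) p).1 - (cl p).1) - (p.1 - (cl p).1) := by ring
    rw [h7]
    exact (norm_sub_le _ _).trans (by linarith)
  · rintro p ⟨hp, hp2⟩ q ⟨hq, hq2⟩ hpq
    obtain ⟨h1, h2, h3⟩ := hcl p hp hp2
    obtain ⟨k1, k2, k3⟩ := hcl q hq hq2
    have h4 := (hφ (cl p) h1 h2).mapsTo (show p ∈ {p | p ∈ Zi G ∧ p.1 ∈ closedBall (cl p).1 (cl p).2} from ⟨hp, h3⟩)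
    have k4 := (hφ (cl q) k1 k2).mapsTo (show q ∈ {p | p ∈ Zi G ∧ p.1 ∈ closedBall (cl q).1 (cl q).2} from ⟨hq, k3⟩)
    have hpq' : φ (cl p) p = φ (cl q) q := hpq
    have hd : cl p = cl q := by
      by_contra hne
      have := hdis _ h1 _ k1 hne
      rw [Set.disjoint_left] at this
      have h5 := h4.2
      rw [hpq'] at h5
      exact this h5 k4.2
    have hinj := (hφ (cl p) h1 h2).injOn
    apply hinj ⟨hp, h3⟩ ⟨hq, by rw [hd]; exact k3⟩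
    rw [hpq', hd]

/-- Functions which are close have close zeros. -/
theorem mch {m κ : ℝ} (hm : 0 < m) (hκ : 0 < κ) (hκ1 : κ ≤ 1) : ∃ δ : ℝ, 0 < δ ∧ ∀ G U : ℂ → ℂ,
    Differentiable ℂ G → Differentiable ℂ U → 1 ≤ ‖G 0‖ → (∀ z, ‖z‖ ≤ 4 → ‖G z‖ ≤ Real.exp m) →
    (∀ z, ‖z‖ ≤ 2 → ‖U z - G z‖ ≤ δ) → Inj G U (2 - 3 * κ) (2 * κ) ∧ Inj U G (2 - 3 * κ) (2 * κ) := by
  classical
  obtain ⟨M, hM⟩ : ∃ M : ℝ, M = Real.exp (-((4 + 4 * Real.log (72 / κ)) * m)) := ⟨_, rfl⟩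
  have hM0 : 0 < M := by rw [hM]; exact Real.exp_pos _
  refine ⟨M / 2, by positivity, ?_⟩
  intro G U hG hU h0 hGm hUG
  obtain ⟨S0, hS0, hS1, hS2⟩ := Pool.Agent.Helper960.Crg.min_mod hG hm h0 hGm hκ hκ1
  obtain ⟨S, hpos, hsum, hcovS, hdis⟩ := merge S0.card S0 le_rfl hS0
  have hsum' := hsum.trans hS1
  have hlow : ∀ z, ‖z‖ ≤ 2 → (∀ d ∈ S, z ∉ closedBall d.1 d.2) → M ≤ ‖G z‖ := by
    intro z hz hzS
    rw [hM]
    refine hS2 z hz fun p hp hzp => ?_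
    obtain ⟨q, hq, hpq⟩ := hcovS p hp
    exact hzS q hq (hpq hzp)
  have hcG : ∀ p ∈ Zi G, ‖p.1‖ ≤ 2 → ∃ d ∈ S, p.1 ∈ closedBall d.1 d.2 := by
    intro p hp hp2
    by_contra hcon
    push Not at hcon
    have := hlow p.1 hp2 hcon
    rw [Zi_zero hG hp, norm_zero] at this
    linarith
  have hcU : ∀ p ∈ Zi U, ‖p.1‖ ≤ 2 → ∃ d ∈ S, p.1 ∈ closedBall d.1 d.2 := by
    intro p hp hp2
    by_contra hcon
    push Not at hcon
    have h1 := hlow p.1 hp2 hcon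
    have h2 := hUG p.1 hp2
    rw [Zi_zero hU hp, zero_sub, norm_neg] at h2
    linarith
  have hcnt : ∀ d ∈ S, ‖d.1‖ + d.2 < 2 → {p | p ∈ Zi G ∧ p.1 ∈ closedBall d.1 d.2}.Finite ∧
      {p | p ∈ Zi U ∧ p.1 ∈ closedBall d.1 d.2}.Finite ∧
      {p | p ∈ Zi G ∧ p.1 ∈ closedBall d.1 d.2}.ncard = {p | p ∈ Zi U ∧ p.1 ∈ closedBall d.1 d.2}.ncard := by
    intro d hd hd2
    have hd0 := hpos d hd
    -- a slightly larger circle
    have hev : ∀ᶠ ρ : ℝ in 𝓝[>] d.2, (∀ q ∈ S, q ≠ d → ρ < dist d.1 q.1 - q.2) ∧ ρ < 2 - ‖d.1‖ := by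
      apply Filter.Eventually.and
      · rw [Filter.eventually_all_finset]
        intro q hq
        by_cases hqd : q = d
        · exact Eventually.of_forall fun ρ h => absurd hqd h
        · have h1 := hdis d hd q hq (Ne.symm hqd)
          have h2 : d.2 + q.2 < dist d.1 q.1 := by
            by_contra hcon
            push Not at hcon
            -- the closed balls meet
            have hq0 := hpos q hq
            rw [Set.disjoint_left] at h1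
            have hR : 0 < d.2 + q.2 := by linarith
            refine h1 (a := d.1 + ((d.2 / (d.2 + q.2) : ℝ) : ℂ) * (q.1 - d.1)) ?_ ?_
            · rw [mem_closedBall, dist_eq_norm, add_sub_cancel_left, norm_mul, Complex.norm_real,
                Real.norm_eq_abs, abs_of_pos (by positivity), ← dist_eq_norm, dist_comm]
              calc d.2 / (d.2 + q.2) * dist d.1 q.1 ≤ d.2 / (d.2 + q.2) * (d.2 + q.2) := by gcongr
                _ = d.2 := by field_simp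
            · rw [mem_closedBall, dist_eq_norm]
              have e1 : d.1 + ((d.2 / (d.2 + q.2) : ℝ) : ℂ) * (q.1 - d.1) - q.1 =
                  ((q.2 / (d.2 + q.2) : ℝ) : ℂ) * (d.1 - q.1) := by
                have hsum1 : d.2 / (d.2 + q.2) + q.2 / (d.2 + q.2) = 1 := by field_simp
                have hsumc : ((d.2 / (d.2 + q.2) : ℝ) : ℂ) + ((q.2 / (d.2 + q.2) : ℝ) : ℂ) = 1 := by
                  rw [← Complex.ofReal_add, hsum1, Complex.ofReal_one]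
                linear_combination (q.1 - d.1) * hsumc
              rw [e1, norm_mul, Complex.norm_real, Real.norm_eq_abs, abs_of_pos (by positivity),
                ← dist_eq_norm]
              calc q.2 / (d.2 + q.2) * dist d.1 q.1 ≤ q.2 / (d.2 + q.2) * (d.2 + q.2) := by gcongr
                _ = q.2 := by field_simp
          have h3 : ∀ᶠ ρ : ℝ in 𝓝 d.2, ρ < dist d.1 q.1 - q.2 := eventually_lt_nhds (by linarith)
          exact (h3.filter_mono nhdsWithin_le_nhds).mono fun ρ h _ => h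
      · exact (eventually_lt_nhds (by linarith)).filter_mono nhdsWithin_le_nhds
    obtain ⟨ρ, ⟨hρ1, hρ2⟩, hρ3⟩ := (hev.and self_mem_nhdsWithin).exists
    have hρ3' : d.2 < ρ := hρ3
    have hρ0 : 0 < ρ := by linarith
    have hout : ∀ z, dist z d.1 ≤ ρ → z ∉ closedBall d.1 d.2 → ∀ q ∈ S, z ∉ closedBall q.1 q.2 := by
      intro z hz hzd q hq hzq
      by_cases hqd : q = d
      · subst hqd; exact hzd hzq
      · have h1 := hρ1 q hq hqd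
        rw [mem_closedBall] at hzq
        have h2 := dist_triangle_left d.1 q.1 z
        linarith
    have hin2 : ∀ z, dist z d.1 ≤ ρ → ‖z‖ ≤ 2 := by
      intro z hz
      rw [dist_eq_norm] at hz
      have h2 : ‖z‖ ≤ ‖d.1‖ + ‖z - d.1‖ := by
        have : z = d.1 + (z - d.1) := by ring
        calc ‖z‖ = ‖d.1 + (z - d.1)‖ := by rw [← this]
          _ ≤ _ := norm_add_le _ _
      linarith
    obtain ⟨r1, r2, r3⟩ := rouche hG hU hρ0 (c := d.1) (fun z hz => by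
      rw [mem_sphere] at hz
      have h1 := hlow z (hin2 z hz.le) (hout z hz.le (by rw [mem_closedBall]; linarith))
      have h2 := hUG z (hin2 z hz.le)
      rw [norm_sub_rev]
      linarith)
    have eG : {p | p ∈ Zi G ∧ p.1 ∈ closedBall d.1 d.2} = {p | p ∈ Zi G ∧ p.1 ∈ ball d.1 ρ} := by
      ext p
      constructor
      · rintro ⟨h1, h2⟩
        rw [mem_closedBall] at h2
        exact ⟨h1, by rw [mem_ball]; linarith⟩
      · rintro ⟨h1, h2⟩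
        rw [mem_ball] at h2
        refine ⟨h1, ?_⟩
        by_contra h3
        have h4 := hlow p.1 (hin2 _ h2.le) (hout _ h2.le h3)
        rw [Zi_zero hG h1, norm_zero] at h4
        linarith
    have eU : {p | p ∈ Zi U ∧ p.1 ∈ closedBall d.1 d.2} = {p | p ∈ Zi U ∧ p.1 ∈ ball d.1 ρ} := by
      ext p
      constructor
      · rintro ⟨h1, h2⟩
        rw [mem_closedBall] at h2
        exact ⟨h1, by rw [mem_ball]; linarith⟩
      · rintro ⟨h1, h2⟩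
        rw [mem_ball] at h2
        refine ⟨h1, ?_⟩
        by_contra h3
        have h4 := hlow p.1 (hin2 _ h2.le) (hout _ h2.le h3)
        have h5 := hUG p.1 (hin2 _ h2.le)
        rw [Zi_zero hU h1, zero_sub, norm_neg] at h5
        linarith
    obtain ⟨n1, n2⟩ := nb_eq hG r2
    obtain ⟨n3, n4⟩ := nb_eq hU r3
    rw [eG, eU]
    exact ⟨n1, n3, by rw [n2, n4, r1]⟩
  refine ⟨mk_inj hκ hpos hsum' hdis hcG hcnt, mk_inj hκ hpos hsum' hdis hcU ?_⟩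
  intro d hd hd2
  obtain ⟨h1, h2, h3⟩ := hcnt d hd hd2
  exact ⟨h2, h1, h3.symm⟩

end Pool.Agent.R838.ST
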