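import Pool.Agent.R838.ST.Mch
import Pool.Agent.R838.ST.Hap
import Pool.Agent.R838.ST.Cns

set_option autoImplicit false

/-!
# Matching of zeros near a good height
-/

namespace Pool.Agent.R838.ST

open Complex Filter Topology MeasureTheory Set
open Pool.Agent.R838.LD.Y228 (ord_tr')
open Pool.Agent.W186.SD (UU NG Grow)

/-- An injection of the zeros of `X` near the height `t` to the zeros of `Y`, which moves the zeros by at most `κ`. -/
def InjG (X Y : ℂ → ℂ) (t r κ : ℝ) : Prop := ∃ φ : ℂ × ℕ → ℂ × ℕ,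
  (∀ p ∈ Zi X, |p.1.re| ≤ r / 2 → |p.1.im - t| ≤ r / 2 → φ p ∈ Zi Y ∧ ‖(φ p).1 - p.1‖ ≤ κ) ∧
  Set.InjOn φ {p | p ∈ Zi X ∧ |p.1.re| ≤ r / 2 ∧ |p.1.im - t| ≤ r / 2}

lemma injG_refl (X : ℂ → ℂ) {t r κ : ℝ} (hκ : 0 ≤ κ) : InjG X X t r κ :=
  ⟨id, fun p hp _ _ => ⟨hp, by simpa using hκ⟩, Function.injective_id.injOn⟩

lemma inj_tr {X Y : ℂ → ℂ} (hX : Differentiable ℂ X) (hY : Differentiable ℂ Y) (hXn : ∃ u, X u ≠ 0)
    (hYn : ∃ u, Y u ≠ 0) {t r κ : ℝ} (hr : 0 < r) (hκ1 : κ ≤ 1 / 20) {c : ℂ} (hc : c ≠ 0)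
    (h : Inj (fun w => c * X (r * w + (r + I * t))) (fun w => c * Y (r * w + (r + I * t))) (2 - 3 * κ) (2 * κ)) :
    InjG X Y t r (2 * κ * r) := by
  obtain ⟨φ, h1, h2⟩ := h
  have hrc : (r : ℂ) ≠ 0 := by exact_mod_cast hr.ne'
  obtain ⟨w, hw⟩ : ∃ w : ℂ → ℂ, w = fun s => (s - (r + I * t)) / r := ⟨_, rfl⟩
  obtain ⟨v, hv⟩ : ∃ v : ℂ → ℂ, v = fun z => r * z + (r + I * t) := ⟨_, rfl⟩
  have hvw : ∀ s, v (w s) = s := by
    intro s; rw [hv, hw]; field_simp; ring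
  have hwv : ∀ z, w (v z) = z := by
    intro z; rw [hv, hw]; field_simp; ring
  have hiX : ∀ p : ℂ × ℕ, p ∈ Zi X ↔ (w p.1, p.2) ∈ Zi (fun w => c * X (r * w + (r + I * t))) := by
    intro p
    show p.2 < _ ↔ p.2 < _
    rw [ord_tr' hX hXn hrc hc]
    have : (r : ℂ) * w p.1 + (r + I * t) = p.1 := by
      have := hvw p.1
      rw [hv] at this
      exact this
    rw [this]
  have hiY : ∀ p : ℂ × ℕ, (v p.1, p.2) ∈ Zi Y ↔ p ∈ Zi (fun w => c * Y (r * w + (r + I * t))) := by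
    intro p
    show p.2 < _ ↔ p.2 < _
    rw [ord_tr' hY hYn hrc hc, hv]
  have hnorm : ∀ p : ℂ × ℕ, |p.1.re| ≤ r / 2 → |p.1.im - t| ≤ r / 2 → ‖w p.1‖ ≤ 2 - 3 * κ := by
    intro p hp1 hp2
    have e0 : w p.1 = (p.1 - I * t) / r - 1 := by
      rw [hw]; field_simp; ring
    have e1 : (w p.1).re = p.1.re / r - 1 := by
      rw [e0]
      simp [Complex.div_ofReal_re]
    have e2 : (w p.1).im = (p.1.im - t) / r := by
      rw [e0]
      simp [Complex.div_ofReal_im]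
    have h3 : |p.1.re / r| ≤ 1 / 2 := by
      rw [abs_div, abs_of_pos hr, div_le_iff₀ hr]; linarith
    have h4 : |(p.1.im - t) / r| ≤ 1 / 2 := by
      rw [abs_div, abs_of_pos hr, div_le_iff₀ hr]; linarith
    have h5 : ‖w p.1‖ ^ 2 ≤ (17 / 10) ^ 2 := by
      rw [← Complex.normSq_eq_norm_sq, Complex.normSq_apply, e1, e2]
      have h6 := abs_le.1 h3
      have h7 := abs_le.1 h4
      nlinarith
    have h6 : ‖w p.1‖ ≤ 17 / 10 := by
      nlinarith [norm_nonneg (w p.1)]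
    linarith
  refine ⟨fun p => (v (φ (w p.1, p.2)).1, (φ (w p.1, p.2)).2), ?_, ?_⟩
  · intro p hp hp1 hp2
    obtain ⟨h3, h4⟩ := h1 (w p.1, p.2) ((hiX p).1 hp) (hnorm p hp1 hp2)
    refine ⟨(hiY _).2 h3, ?_⟩
    show ‖v (φ (w p.1, p.2)).1 - p.1‖ ≤ _
    have e3 : v (φ (w p.1, p.2)).1 - p.1 = r * ((φ (w p.1, p.2)).1 - w p.1) := by
      have e4 : v (φ (w p.1, p.2)).1 - p.1 = v (φ (w p.1, p.2)).1 - v (w p.1) := by rw [hvw]
      rw [e4, hv]
      ring
    rw [e3, norm_mul, Complex.norm_real, Real.norm_eq_abs, abs_of_pos hr]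
    have := mul_le_mul_of_nonneg_left h4 hr.le
    linarith
  · rintro p ⟨hp, hp1, hp2⟩ q ⟨hq, hq1, hq2⟩ hpq
    have e1 : v (φ (w p.1, p.2)).1 = v (φ (w q.1, q.2)).1 := congrArg Prod.fst hpq
    have e20 := congrArg Prod.snd hpq
    have e2 : (φ (w p.1, p.2)).2 = (φ (w q.1, q.2)).2 := e20
    have e3 : (φ (w p.1, p.2)).1 = (φ (w q.1, q.2)).1 := by
      rw [← hwv (φ (w p.1, p.2)).1, e1, hwv]
    have e4 : φ (w p.1, p.2) = φ (w q.1, q.2) := Prod.ext e3 e2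
    have e5 := h2 (show (w p.1, p.2) ∈ {p | p ∈ Zi (fun w => c * X (r * w + (r + I * t))) ∧ ‖p.1‖ ≤ 2 - 3 * κ}
        from ⟨(hiX p).1 hp, hnorm p hp1 hp2⟩)
      (show (w q.1, q.2) ∈ {p | p ∈ Zi (fun w => c * X (r * w + (r + I * t))) ∧ ‖p.1‖ ≤ 2 - 3 * κ}
        from ⟨(hiX q).1 hq, hnorm q hq1 hq2⟩) e4
    have e60 := congrArg Prod.fst e5
    have e6 : w p.1 = w q.1 := e60
    have e70 := congrArg Prod.snd e5
    have e7 : p.2 = q.2 := e70
    exact Prod.ext (by rw [← hvw p.1, e6, hvw]) e7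

/-- Matching near a good height. -/
theorem mlo {B : ℝ} {F : ℂ → ℂ} {FT : ℝ → ℂ → ℂ} (hD : STB B F FT) {a κ : ℝ} (ha : 1 ≤ a) (hκ : 0 < κ)
    (hκ1 : κ ≤ 1 / 20) : ∃ δ : ℝ, 0 < δ ∧ ∀ t r τ' : ℝ, 0 < r → 0 ≤ τ' → τ' ≤ δ * r ^ 2 →
    NG (1 / 2) a (a / 2) 1 (fun z => F (I * t + r * z)) →
    InjG F (FT τ') t r (2 * κ * r) ∧ InjG (FT τ') F t r (2 * κ * r) := by
  obtain ⟨δ1, hδ1, H⟩ := mch (m := 108 * a) (κ := κ) (by positivity) hκ (by linarith)
  obtain ⟨g0, hg0⟩ : ∃ g0 : ℝ, g0 = max (16 * a) ((12 * Real.exp (200 * a) / δ1) ^ 2) := ⟨_, rfl⟩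
  have hg0p : 0 < g0 := by rw [hg0]; exact lt_max_of_lt_left (by positivity)
  refine ⟨1 / (4 * g0), by positivity, ?_⟩
  intro t r τ' hr hτ0 hτ hN
  have hrc : (r : ℂ) ≠ 0 := by exact_mod_cast hr.ne'
  rcases hτ0.eq_or_lt with h0 | h0
  · rw [← h0, hD.zero]
    exact ⟨injG_refl F (by positivity), injG_refl F (by positivity)⟩
  have hFn : ∃ u, F u ≠ 0 := by
    refine ⟨((B + 1 : ℝ) : ℂ), fun h0 => ?_⟩
    have h1 := hD.strip 0 _ le_rfl (by rw [hD.zero]; exact h0)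
    rw [Complex.ofReal_re] at h1
    have h2 := (le_abs_self _).trans h1
    linarith
  have hne : ∃ u, FT τ' u ≠ 0 := by
    refine ⟨((B + 1 : ℝ) : ℂ), fun h0 => ?_⟩
    have h1 := hD.strip τ' _ hτ0 h0
    rw [Complex.ofReal_re] at h1
    have h2 := (le_abs_self _).trans h1
    linarith
  obtain ⟨G, hG⟩ : ∃ G : ℂ → ℂ, G = fun z => F (I * t + r * z) := ⟨_, rfl⟩
  rw [← hG] at hN
  have hG1 : G 1 ≠ 0 := (hN.far 1 (by norm_num) (by norm_num)).1
  have hG1n : 0 < ‖G 1‖ := norm_pos_iff.2 hG1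
  obtain ⟨g, hg⟩ : ∃ g : ℝ, g = r ^ 2 / (4 * τ') := ⟨_, rfl⟩
  have hgg0 : g0 ≤ g := by
    rw [hg, le_div_iff₀ (by positivity)]
    have h1 : τ' * (4 * g0) ≤ r ^ 2 := by
      have := mul_le_mul_of_nonneg_right hτ (show 0 ≤ 4 * g0 by positivity)
      have e : 1 / (4 * g0) * r ^ 2 * (4 * g0) = r ^ 2 := by field_simp
      rw [e] at this
      exact this
    linarith
  have hgp : 0 < g := by linarith
  have hg16 : 16 * a ≤ g := by
    refine le_trans ?_ hgg0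
    rw [hg0]; exact le_max_left _ _
  have hgδ : 12 * Real.exp (200 * a) / Real.sqrt g ≤ δ1 := by
    have h1 : (12 * Real.exp (200 * a) / δ1) ^ 2 ≤ g := by
      refine le_trans ?_ hgg0
      rw [hg0]; exact le_max_right _ _
    have h2 : 12 * Real.exp (200 * a) / δ1 ≤ Real.sqrt g := Real.le_sqrt_of_sq_le h1
    have hsg : 0 < Real.sqrt g := Real.sqrt_pos.2 hgp
    rw [div_le_iff₀ hδ1] at h2
    rw [div_le_iff₀ hsg]
    linarith
  have hk : r / (2 * Real.sqrt (Real.pi * τ')) = Real.sqrt (g / Real.pi) := by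
    have h1 : 0 < Real.sqrt (Real.pi * τ') := Real.sqrt_pos.2 (mul_pos Real.pi_pos h0)
    have h2 : Real.sqrt (Real.pi * τ') ^ 2 = Real.pi * τ' := Real.sq_sqrt (by positivity)
    symm
    rw [Real.sqrt_eq_iff_mul_self_eq (by positivity) (by positivity)]
    have hpi := Real.pi_pos
    have e : r / (2 * Real.sqrt (Real.pi * τ')) * (r / (2 * Real.sqrt (Real.pi * τ'))) =
        r ^ 2 / (4 * Real.sqrt (Real.pi * τ') ^ 2) := by
      field_simp
      norm_num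
    rw [e, h2, hg]
    field_simp
  have hrel : ∀ z : ℂ, FT τ' (I * t + r * z) = ((Real.sqrt (g / Real.pi) : ℝ) : ℂ) * UU g G z := by
    intro z
    rw [← hk, hg, hG]
    exact hD.ins.rel τ' r t z h0 hr
  have hc : (G 1)⁻¹ ≠ 0 := inv_ne_zero hG1
  have key := H (fun w => (G 1)⁻¹ * F (r * w + (r + I * t))) (fun w => (G 1)⁻¹ * FT τ' (r * w + (r + I * t)))
    (by
      have h1 := hD.diff.comp (show Differentiable ℂ fun w : ℂ => r * w + (r + I * t) by fun_prop)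
      exact h1.const_mul _)
    (by
      have h1 := (hD.heatd τ' hτ0).comp (show Differentiable ℂ fun w : ℂ => r * w + (r + I * t) by fun_prop)
      exact h1.const_mul _)
    (by
      have e : F (r * 0 + (r + I * t)) = G 1 := by
        rw [hG]; show _ = F (I * t + r * 1); congr 1; ring
      show 1 ≤ ‖(G 1)⁻¹ * F (r * 0 + (r + I * t))‖
      rw [e, inv_mul_cancel₀ hG1, norm_one])
    (by
      intro w hw
      have e : F (r * w + (r + I * t)) = G (1 + w) := by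
        rw [hG]; show _ = F (I * t + r * (1 + w)); congr 1; ring
      have him : |(1 + w).im| ≤ 4 := by
        have e2 : (1 + w).im = w.im := by simp
        rw [e2]; exact (Complex.abs_im_le_norm w).trans hw
      have hre : |(1 + w).re| ≤ 5 := by
        refine (Complex.abs_re_le_norm _).trans ((norm_add_le _ _).trans ?_)
        rw [norm_one]; linarith
      have h1 := fb ha le_rfl hN (1 + w) (by linarith)
      rw [e, norm_mul, norm_inv]
      rw [inv_mul_le_iff₀ hG1n]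
      refine h1.trans ?_
      apply mul_le_mul_of_nonneg_left _ hG1n.le
      rw [Real.exp_le_exp]
      have h2 : (1 + w).re ^ 2 ≤ 25 := by
        rw [← sq_abs]; nlinarith [abs_nonneg (1 + w).re]
      have h3 := mul_le_mul_of_nonneg_left h2 (show 0 ≤ 2 * a by positivity)
      linarith)
    (by
      intro w hw
      have e : F (r * w + (r + I * t)) = G (1 + w) := by
        rw [hG]; show _ = F (I * t + r * (1 + w)); congr 1; ring
      have e2 : FT τ' (r * w + (r + I * t)) = ((Real.sqrt (g / Real.pi) : ℝ) : ℂ) * UU g G (1 + w) := by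
        rw [← hrel]; congr 1; ring
      rw [e, e2, ← mul_sub, norm_mul, norm_inv, inv_mul_le_iff₀ hG1n]
      refine (hap ha le_rfl hN hg16 (1 + w) ?_).trans (mul_le_mul_of_nonneg_left hgδ hG1n.le)
      refine (norm_add_le _ _).trans ?_
      rw [norm_one]; linarith)
  exact ⟨inj_tr hD.diff (hD.heatd τ' hτ0) hFn hne hr hκ1 hc key.1,
    inj_tr (hD.heatd τ' hτ0) hD.diff hne hFn hr hκ1 hc key.2⟩

end Pool.Agent.R838.ST
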