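import Pool.Agent.R838.ST.Rou

set_option autoImplicit false

/-!
# Merging discs
-/

namespace Pool.Agent.R838.ST

open Metric Set

theorem merge : ∀ (n : ℕ) (S : Finset (ℂ × ℝ)), S.card ≤ n → (∀ p ∈ S, 0 < p.2) →
    ∃ S' : Finset (ℂ × ℝ), (∀ p ∈ S', 0 < p.2) ∧ ∑ p ∈ S', p.2 ≤ ∑ p ∈ S, p.2 ∧
      (∀ p ∈ S, ∃ q ∈ S', closedBall p.1 p.2 ⊆ closedBall q.1 q.2) ∧
      (∀ p ∈ S', ∀ q ∈ S', p ≠ q → Disjoint (closedBall p.1 p.2) (closedBall q.1 q.2)) := by
  classical
  intro n
  induction n with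
  | zero =>
    intro S hS _
    have : S = ∅ := Finset.card_eq_zero.1 (Nat.le_zero.1 hS)
    subst this
    exact ⟨∅, by simp, by simp, by simp, by simp⟩
  | succ n ih =>
    intro S hS hpos
    by_cases hd : ∀ p ∈ S, ∀ q ∈ S, p ≠ q → Disjoint (closedBall p.1 p.2) (closedBall q.1 q.2)
    · exact ⟨S, hpos, le_rfl, fun p hp => ⟨p, hp, subset_rfl⟩, hd⟩
    · push Not at hd
      obtain ⟨p, hp, q, hq, hpq, hnd⟩ := hd
      have hp0 := hpos p hp
      have hq0 := hpos q hq
      have hR : 0 < p.2 + q.2 := by linarith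
      rw [Set.not_disjoint_iff] at hnd
      obtain ⟨w, hw1, hw2⟩ := hnd
      rw [mem_closedBall, dist_eq_norm] at hw1 hw2
      have hdist : ‖p.1 - q.1‖ ≤ p.2 + q.2 := by
        have h1 : p.1 - q.1 = (w - q.1) - (w - p.1) := by ring
        rw [h1]
        exact (norm_sub_le _ _).trans (by linarith)
      obtain ⟨c, hc⟩ : ∃ c : ℂ, c = (((p.2 / (p.2 + q.2) : ℝ) : ℂ) * p.1 + ((q.2 / (p.2 + q.2) : ℝ) : ℂ) * q.1) :=
        ⟨_, rfl⟩
      have hsum : p.2 / (p.2 + q.2) + q.2 / (p.2 + q.2) = 1 := by field_simp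
      have hsumc : ((p.2 / (p.2 + q.2) : ℝ) : ℂ) + ((q.2 / (p.2 + q.2) : ℝ) : ℂ) = 1 := by
        rw [← Complex.ofReal_add, hsum, Complex.ofReal_one]
      have hcp : ‖p.1 - c‖ ≤ q.2 := by
        have h1 : p.1 - c = ((q.2 / (p.2 + q.2) : ℝ) : ℂ) * (p.1 - q.1) := by
          rw [hc]
          linear_combination (-p.1) * hsumc
        rw [h1, norm_mul, Complex.norm_real, Real.norm_eq_abs, abs_of_pos (by positivity)]
        calc q.2 / (p.2 + q.2) * ‖p.1 - q.1‖ ≤ q.2 / (p.2 + q.2) * (p.2 + q.2) := by gcongr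
          _ = q.2 := by field_simp
      have hcq : ‖q.1 - c‖ ≤ p.2 := by
        have h1 : q.1 - c = ((p.2 / (p.2 + q.2) : ℝ) : ℂ) * (q.1 - p.1) := by
          rw [hc]
          linear_combination (-q.1) * hsumc
        rw [h1, norm_mul, Complex.norm_real, Real.norm_eq_abs, abs_of_pos (by positivity), norm_sub_rev]
        calc p.2 / (p.2 + q.2) * ‖p.1 - q.1‖ ≤ p.2 / (p.2 + q.2) * (p.2 + q.2) := by gcongr
          _ = p.2 := by field_simp
      obtain ⟨S1, hS1⟩ : ∃ S1 : Finset (ℂ × ℝ), S1 = insert (c, p.2 + q.2) ((S.erase p).erase q) := ⟨_, rfl⟩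
      have hqe : q ∈ S.erase p := Finset.mem_erase.2 ⟨hpq.symm, hq⟩
      have hcard : S1.card ≤ n := by
        rw [hS1]
        refine (Finset.card_insert_le _ _).trans ?_
        rw [Finset.card_erase_of_mem hqe, Finset.card_erase_of_mem hp]
        have : 2 ≤ S.card := by
          have := Finset.card_pos.2 ⟨q, hqe⟩
          rw [Finset.card_erase_of_mem hp] at this
          omega
        omega
      have hpos1 : ∀ x ∈ S1, 0 < x.2 := by
        intro x hx
        rw [hS1, Finset.mem_insert] at hx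
        rcases hx with rfl | hx
        · exact hR
        · exact hpos x (Finset.mem_of_mem_erase (Finset.mem_of_mem_erase hx))
      obtain ⟨S', h1, h2, h3, h4⟩ := ih S1 hcard hpos1
      refine ⟨S', h1, h2.trans ?_, ?_, h4⟩
      · have e1 : ∑ x ∈ S, x.2 = p.2 + (q.2 + ∑ x ∈ (S.erase p).erase q, x.2) := by
          rw [Finset.add_sum_erase (S.erase p) (fun x : ℂ × ℝ => x.2) hqe,
            Finset.add_sum_erase S (fun x : ℂ × ℝ => x.2) hp]
        rw [e1, hS1]
        by_cases hin : (c, p.2 + q.2) ∈ (S.erase p).erase q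
        · rw [Finset.insert_eq_of_mem hin]
          linarith
        · rw [Finset.sum_insert hin]
          show p.2 + q.2 + _ ≤ _
          linarith
      · intro x hx
        have key : ∀ y ∈ S1, closedBall x.1 x.2 ⊆ closedBall y.1 y.2 →
            ∃ z ∈ S', closedBall x.1 x.2 ⊆ closedBall z.1 z.2 := by
          intro y hy hxy
          obtain ⟨z, hz, hyz⟩ := h3 y hy
          exact ⟨z, hz, hxy.trans hyz⟩
        by_cases hxp : x = p
        · subst hxp
          refine key (c, x.2 + q.2) (by rw [hS1]; exact Finset.mem_insert_self _ _) ?_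
          apply closedBall_subset_closedBall'
          rw [dist_eq_norm]
          show x.2 + ‖x.1 - c‖ ≤ x.2 + q.2
          linarith
        · by_cases hxq : x = q
          · subst hxq
            refine key (c, p.2 + x.2) (by rw [hS1]; exact Finset.mem_insert_self _ _) ?_
            apply closedBall_subset_closedBall'
            rw [dist_eq_norm]
            show x.2 + ‖x.1 - c‖ ≤ p.2 + x.2
            linarith
          · refine key x ?_ subset_rfl
            rw [hS1]
            exact Finset.mem_insert_of_mem (Finset.mem_erase.2 ⟨hxq, Finset.mem_erase.2 ⟨hxp, hx⟩⟩)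

end Pool.Agent.R838.ST
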