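import Pool.Agent.R838.ST.Rou

set_option autoImplicit false

/-!
# Counting zeros in windows
-/

namespace Pool.Agent.R838.ST

open Complex Filter Topology Metric Set

theorem zi_card (f : ℂ → ℂ) (Z : Finset ℂ) :
    {p : ℂ × ℕ | p ∈ Zi f ∧ p.1 ∈ Z}.Finite ∧
    {p : ℂ × ℕ | p ∈ Zi f ∧ p.1 ∈ Z}.ncard = ∑ z ∈ Z, analyticOrderNatAt f z := by
  classical
  have e1 : {p | p ∈ Zi f ∧ p.1 ∈ Z} =
      ((Z.biUnion fun z => (Finset.range (analyticOrderNatAt f z)).image fun n => (z, n) : Finset (ℂ × ℕ)) :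
        Set (ℂ × ℕ)) := by
    ext p
    rw [Finset.mem_coe, Finset.mem_biUnion]
    constructor
    · rintro ⟨h1, h2⟩
      refine ⟨p.1, h2, ?_⟩
      rw [Finset.mem_image]
      exact ⟨p.2, Finset.mem_range.2 h1, rfl⟩
    · rintro ⟨z, h1, h2⟩
      rw [Finset.mem_image] at h2
      obtain ⟨n, h3, rfl⟩ := h2
      exact ⟨Finset.mem_range.1 h3, h1⟩
  rw [e1]
  refine ⟨Finset.finite_toSet _, ?_⟩
  rw [Set.ncard_coe_finset, Finset.card_biUnion]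
  · apply Finset.sum_congr rfl
    intro z _
    rw [Finset.card_image_of_injective _ (fun a b h => by simpa using h), Finset.card_range]
  · intro x _ y _ hxy
    rw [Function.onFun, Finset.disjoint_left]
    intro p hp hq
    rw [Finset.mem_image] at hp hq
    obtain ⟨n, -, rfl⟩ := hp
    obtain ⟨m, -, h⟩ := hq
    apply hxy
    have := congrArg Prod.fst h
    exact this.symm

/-- The zeros in a bounded part of a strip are finite in number. -/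
theorem zfin {f : ℂ → ℂ} {B : ℝ} (hf : Differentiable ℂ f) (hs : ∀ s, f s = 0 → |s.re| ≤ B) (u v : ℝ) :
    {s | f s = 0 ∧ u ≤ s.im ∧ s.im ≤ v}.Finite := by
  by_contra hinf
  have hK : IsCompact (Icc (-B) B ×ℂ Icc u v) := isCompact_Icc.reProdIm isCompact_Icc
  have hsub : {s | f s = 0 ∧ u ≤ s.im ∧ s.im ≤ v} ⊆ Icc (-B) B ×ℂ Icc u v := by
    rintro s ⟨h1, h2, h3⟩
    exact ⟨abs_le.1 (hs s h1), h2, h3⟩
  obtain ⟨x, -, hx⟩ := Set.Infinite.exists_accPt_of_subset_isCompact hinf hK hsub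
  have h1 : ∃ᶠ z in 𝓝[≠] x, f z = 0 := by
    rw [accPt_iff_frequently_nhdsNE] at hx
    exact hx.mono fun z hz => hz.1
  have hfa : AnalyticOnNhd ℂ f univ := fun z _ => hf.analyticAt z
  have h2 := hfa.eq_of_frequently_eq (g := fun _ => 0) (fun z _ => analyticAt_const) (z₀ := x) h1
  have h3 := hs (((|B| + 1 : ℝ) : ℂ)) (by rw [h2])
  rw [Complex.ofReal_re] at h3
  have h4 := le_abs_self B
  have h5 := le_abs_self (|B| + 1)
  linarith

/-- number of zeros with ordinate in a window -/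
noncomputable def nn (f : ℂ → ℂ) (t h : ℝ) : ℕ := {p : ℂ × ℕ | p ∈ Zi f ∧ |p.1.im - t| ≤ h}.ncard

theorem zset {f : ℂ → ℂ} {B : ℝ} (hf : Differentiable ℂ f) (hs : ∀ s, f s = 0 → |s.re| ≤ B) (P : ℝ → Prop)
    {u v : ℝ} (hP : ∀ y, P y → u ≤ y ∧ y ≤ v) :
    ∃ Z : Finset ℂ, (∀ s, s ∈ Z ↔ f s = 0 ∧ P s.im) ∧
      {p : ℂ × ℕ | p ∈ Zi f ∧ P p.1.im}.Finite ∧
      {p : ℂ × ℕ | p ∈ Zi f ∧ P p.1.im}.ncard = ∑ s ∈ Z, analyticOrderNatAt f s := by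
  classical
  have hfin : {s | f s = 0 ∧ P s.im}.Finite :=
    (zfin hf hs u v).subset (fun s h => ⟨h.1, hP _ h.2⟩)
  refine ⟨hfin.toFinset, fun s => by rw [Set.Finite.mem_toFinset]; rfl, ?_⟩
  have e : {p : ℂ × ℕ | p ∈ Zi f ∧ P p.1.im} = {p : ℂ × ℕ | p ∈ Zi f ∧ p.1 ∈ hfin.toFinset} := by
    ext p
    constructor
    · rintro ⟨h1, h2⟩
      exact ⟨h1, by rw [Set.Finite.mem_toFinset]; exact ⟨Zi_zero hf h1, h2⟩⟩
    · rintro ⟨h1, h2⟩
      rw [Set.Finite.mem_toFinset] at h2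
      exact ⟨h1, h2.2⟩
  rw [e]
  exact zi_card f _

theorem nn_spec {f : ℂ → ℂ} {B : ℝ} (hf : Differentiable ℂ f) (hs : ∀ s, f s = 0 → |s.re| ≤ B) (t h : ℝ) :
    ∃ Z : Finset ℂ, (∀ s, s ∈ Z ↔ f s = 0 ∧ |s.im - t| ≤ h) ∧
      {p : ℂ × ℕ | p ∈ Zi f ∧ |p.1.im - t| ≤ h}.Finite ∧
      nn f t h = ∑ s ∈ Z, analyticOrderNatAt f s :=
  zset hf hs (fun y => |y - t| ≤ h) (u := t - h) (v := t + h) (fun y hy => by
    have := abs_le.1 hy
    constructor <;> linarith)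

theorem nn_mono {f : ℂ → ℂ} {B : ℝ} (hf : Differentiable ℂ f) (hs : ∀ s, f s = 0 → |s.re| ≤ B) {t t' h h' : ℝ}
    (hh : |t - t'| + h ≤ h') : nn f t h ≤ nn f t' h' := by
  obtain ⟨Z, -, h1, -⟩ := nn_spec hf hs t' h'
  refine Set.ncard_le_ncard ?_ h1
  rintro p ⟨h2, h3⟩
  refine ⟨h2, ?_⟩
  have := abs_sub_le p.1.im t t'
  linarith

end Pool.Agent.R838.ST
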