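import Pool.Agent.Y758.MM.DISC
import Pool.Agent.Y758.MM.RESL

set_option autoImplicit false

/-!
# Rouché's theorem for entire functions on a circle, and the zeros as an index set
-/

namespace Pool.Agent.R838.ST

open Complex Filter Topology Metric Set
open Pool.Agent.Y758.MM (Hol MM_DISC MM_RESL)

/-- The zeros with multiplicity: a zero of order `n` gives `n` indices. -/
def Zi (f : ℂ → ℂ) : Set (ℂ × ℕ) := {p | p.2 < analyticOrderNatAt f p.1}

theorem Zi_zero {f : ℂ → ℂ} (hf : Differentiable ℂ f) {p : ℂ × ℕ} (hp : p ∈ Zi f) : f p.1 = 0 := by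
  by_contra h
  have h1 := (hf.analyticAt p.1).analyticOrderAt_eq_zero.2 h
  have h2 : p.2 < analyticOrderNatAt f p.1 := hp
  simp [analyticOrderNatAt, h1] at h2

/-- number of zeros in an open disc, with multiplicity -/
noncomputable def nb (f : ℂ → ℂ) (c : ℂ) (r : ℝ) : ℕ := ∑ᶠ z ∈ ball c r, analyticOrderNatAt f z

theorem rouche {f g : ℂ → ℂ} (hf : Differentiable ℂ f) (hg : Differentiable ℂ g) {c : ℂ} {r : ℝ}
    (hr : 0 < r) (h : ∀ z ∈ sphere c r, ‖f z - g z‖ < ‖f z‖) :
    nb f c r = nb g c r ∧ {z | z ∈ ball c r ∧ f z = 0}.Finite ∧ {z | z ∈ ball c r ∧ g z = 0}.Finite := by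
  have hf0 : ∀ z ∈ sphere c r, f z ≠ 0 := by
    intro z hz h0
    have := h z hz
    rw [h0, norm_zero] at this
    exact absurd this (not_lt.mpr (norm_nonneg _))
  have hg0 : ∀ z ∈ sphere c r, g z ≠ 0 := by
    intro z hz h0
    have := h z hz
    rw [h0, sub_zero] at this
    exact lt_irrefl _ this
  have hHf : ∀ z : ℂ, Hol f z := fun z => Eventually.of_forall fun w => hf w
  have hHg : ∀ z : ℂ, Hol g z := fun z => Eventually.of_forall fun w => hg w
  obtain ⟨-, f1, f2, -⟩ := MM_DISC MM_RESL f f c r hr (fun z _ => ⟨hHf z, hHf z⟩) hf0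
  obtain ⟨-, g1, g2, -⟩ := MM_DISC MM_RESL g g c r hr (fun z _ => ⟨hHg z, hHg z⟩) hg0
  refine ⟨?_, f1, g1⟩
  have hf' : Differentiable ℂ (deriv f) := by
    intro z
    exact ((hf.analyticAt z).deriv).differentiableAt
  have hg' : Differentiable ℂ (deriv g) := by
    intro z
    exact ((hg.analyticAt z).deriv).differentiableAt
  have hif : CircleIntegrable (fun w => deriv f w / f w) c r := by
    apply ContinuousOn.circleIntegrable hr.le
    exact hf'.continuous.continuousOn.div hf.continuous.continuousOn hf0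
  have hig : CircleIntegrable (fun w => deriv g w / g w) c r := by
    apply ContinuousOn.circleIntegrable hr.le
    exact hg'.continuous.continuousOn.div hg.continuous.continuousOn hg0
  have h0 : (∮ z in C(c, r), (deriv g z / g z - deriv f z / f z)) = 0 := by
    apply circleIntegral.integral_eq_zero_of_hasDerivWithinAt (f := fun z => Complex.log (g z / f z)) hr.le
    intro z hz
    have hfz := hf0 z hz
    have hgz := hg0 z hz
    have hslit : g z / f z ∈ Complex.slitPlane := by
      have h1 : ‖g z / f z - 1‖ < 1 := by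
        have h2 : g z / f z - 1 = (g z - f z) / f z := by
          field_simp
        rw [h2, norm_div, div_lt_one (norm_pos_iff.mpr hfz), norm_sub_rev]
        exact h z hz
      have h3 : 0 < (g z / f z).re := by
        have h5 : |(g z / f z - 1).re| < 1 := (Complex.abs_re_le_norm _).trans_lt h1
        rw [Complex.sub_re, Complex.one_re] at h5
        have h6 := (abs_lt.mp h5).1
        linarith
      exact Or.inl h3
    have hd1 : HasDerivAt (fun w => g w / f w)
        ((deriv g z * f z - g z * deriv f z) / (f z) ^ 2) z :=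
      (hg z).hasDerivAt.div (hf z).hasDerivAt hfz
    have hd2 := hd1.clog hslit
    have h7 : deriv g z / g z - deriv f z / f z =
        (deriv g z * f z - g z * deriv f z) / (f z) ^ 2 / (g z / f z) := by
      field_simp
    rw [h7]
    exact hd2.hasDerivWithinAt
  rw [circleIntegral.integral_sub hig hif, sub_eq_zero] at h0
  rw [← h0, ← g2] at f2
  unfold nb
  exact_mod_cast f2

/-- The number of zeros in a disc is the number of indices. -/
theorem nb_eq {f : ℂ → ℂ} (hf : Differentiable ℂ f) {c : ℂ} {r : ℝ}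
    (hfin : {z | z ∈ ball c r ∧ f z = 0}.Finite) :
    {p | p ∈ Zi f ∧ p.1 ∈ ball c r}.Finite ∧ {p | p ∈ Zi f ∧ p.1 ∈ ball c r}.ncard = nb f c r := by
  classical
  obtain ⟨Z, hZ⟩ : ∃ Z : Finset ℂ, Z = hfin.toFinset := ⟨_, rfl⟩
  have hmem : ∀ z, z ∈ Z ↔ z ∈ ball c r ∧ f z = 0 := by
    intro z; rw [hZ, Set.Finite.mem_toFinset]; rfl
  have e1 : {p | p ∈ Zi f ∧ p.1 ∈ ball c r} =
      ((Z.biUnion fun z => (Finset.range (analyticOrderNatAt f z)).image fun n => (z, n) : Finset (ℂ × ℕ)) :
        Set (ℂ × ℕ)) := by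
    ext p
    rw [Finset.mem_coe, Finset.mem_biUnion]
    constructor
    · rintro ⟨h1, h2⟩
      refine ⟨p.1, (hmem _).2 ⟨h2, Zi_zero hf h1⟩, ?_⟩
      rw [Finset.mem_image]
      exact ⟨p.2, Finset.mem_range.2 h1, rfl⟩
    · rintro ⟨z, h1, h2⟩
      rw [Finset.mem_image] at h2
      obtain ⟨n, h3, rfl⟩ := h2
      exact ⟨Finset.mem_range.1 h3, ((hmem z).1 h1).1⟩
  rw [e1]
  refine ⟨Finset.finite_toSet _, ?_⟩
  rw [Set.ncard_coe_finset, Finset.card_biUnion]
  · have e2 : ∀ z ∈ Z, ((Finset.range (analyticOrderNatAt f z)).image fun n => (z, n)).card =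
        analyticOrderNatAt f z := by
      intro z _
      rw [Finset.card_image_of_injective _ (fun a b h => by simpa using h), Finset.card_range]
    rw [Finset.sum_congr rfl e2]
    unfold nb
    rw [finsum_mem_eq_sum_of_inter_support_eq]
    ext z
    constructor
    · rintro ⟨h1, h2⟩
      refine ⟨(hmem z).2 ⟨h1, ?_⟩, h2⟩
      by_contra h3
      apply h2
      have h4 := (hf.analyticAt z).analyticOrderAt_eq_zero.2 h3
      simp [analyticOrderNatAt, h4]
    · rintro ⟨h1, h2⟩
      exact ⟨((hmem z).1 h1).1, h2⟩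
  · intro x _ y _ hxy
    rw [Function.onFun, Finset.disjoint_left]
    intro p hp hq
    rw [Finset.mem_image] at hp hq
    obtain ⟨n, -, rfl⟩ := hp
    obtain ⟨m, -, h⟩ := hq
    apply hxy
    have := congrArg Prod.fst h
    exact this.symm

end Pool.Agent.R838.ST
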